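import Pool.Agent.Lib.MP_71763b_co.Feas
import Pool.Agent.Lib.MP_71763b_co.TabA
import Pool.Agent.Lib.MP_71763b_co.TabB
import Pool.Agent.Lib.MP_71763b_co.TabC
import Pool.Agent.Lib.MP_71763b_co.TabD

namespace Pool.Agent.Lib.MP_71763b_co

theorem fe1 {r n : ℕ} (hr : 1 ≤ r) (hn : n ≤ r) : Fe (rho 1 r 0) n :=
  fe_one hr (by simpa [rho] using hn)

theorem rho_mono (k r j : ℕ) : rho k r 0 j ≤ rho k (r + 1) 0 j := by
  unfold rho; split_ifs <;> omega

theorem fe2_3 : ∀ n ≤ 6, Fe (rho 2 3 0) n := fun n hn =>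
  three_part (M := 3) (by omega) (fun _ hw => fe1 (by omega) hw) n (by omega)

theorem fe2_4 : ∀ n ≤ 14, Fe (rho 2 4 0) n := by
  intro n hn
  rcases le_or_gt n 6 with h | h
  · exact (fe2_3 n h).mono (rho_mono 2 3)
  · interval_cases n
    exacts [⟨_, t2_7⟩, ⟨_, t2_8⟩, ⟨_, t2_9⟩, ⟨_, t2_10⟩, ⟨_, t2_11⟩, ⟨_, t2_12⟩, ⟨_, t2_13⟩,
      ⟨_, t2_14⟩]

theorem fe2_5 : ∀ n ≤ 24, Fe (rho 2 5 0) n := by
  intro n hn
  rcases le_or_gt n 14 with h | h
  · exact (fe2_4 n h).mono (rho_mono 2 4)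
  rcases le_or_gt n 23 with h' | h'
  · exact two_step (by omega) t2_14 (by decide) (by decide) n (by omega) (by omega)
  · obtain rfl : n = 24 := by omega
    exact ⟨_, t2_24⟩

theorem fe2_6 : ∀ n ≤ 36, Fe (rho 2 6 0) n := by
  intro n hn
  rcases le_or_gt n 24 with h | h
  · exact (fe2_5 n h).mono (rho_mono 2 5)
  rcases le_or_gt n 35 with h' | h'
  · exact two_step (by omega) t2_24 (by decide) (by decide) n (by omega) (by omega)
  · obtain rfl : n = 36 := by omega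
    exact ⟨_, t2_36⟩

theorem S2 : ∀ r, 6 ≤ r → ∀ a ≤ 1, S 2 r a := by
  refine chainS (k := 1) (by omega) le_rfl ⟨_, t2_36, by decide, by decide⟩ ?_
  intro r hr a ha
  refine fe_one (by omega) ?_
  interval_cases a <;> simp [nn, rho]

theorem fe2 : ∀ r, 6 ≤ r → ∀ n ≤ r ^ 2, Fe (rho 2 r 0) n :=
  chainF (k := 1) (by omega) S2 (fun r _ w hw => fe1 (by omega) (by simpa using hw)) fe2_6

theorem S3_3 : ∀ a ≤ 2, S 3 3 a := by
  intro a ha
  interval_cases a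
  · exact ⟨_, s3_27.tab, by decide, by decide⟩
  · exact ⟨_, t3_36, by decide, by decide⟩
  · exact ⟨_, t3_48, by decide, by decide⟩

theorem S3_4 : ∀ a ≤ 2, S 3 4 a := by
  intro a ha
  interval_cases a
  · exact ⟨_, t3_64, by decide, by decide⟩
  · exact ⟨_, t3_80, by decide, by decide⟩
  · exact ⟨_, t3_100, by decide, by decide⟩

theorem S3_5 : ∀ a ≤ 2, S 3 5 a := by
  intro a ha
  interval_cases a
  · exact ⟨_, t3_125, by decide, by decide⟩
  · exact ⟨_, t3_150, by decide, by decide⟩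
  · exact ⟨_, t3_180, by decide, by decide⟩

theorem S3 : ∀ r, 3 ≤ r → ∀ a ≤ 2, S 3 r a := by
  have h6 : S 3 6 0 := step_r (k := 2) (by omega) (by omega) (S3_5 2 le_rfl)
    (by rw [rho_self]; exact ⟨_, t2_36⟩)
  have := chainS (k := 2) (by omega) (by omega) h6 (full_of_S (k := 1) S2)
  intro r hr
  rcases le_or_gt 6 r with h | h
  · exact this r h
  · interval_cases r
    exacts [S3_3, S3_4, S3_5]

theorem fe3_3 : ∀ n ≤ 27, Fe (rho 3 3 0) n := by
  intro n hn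
  rcases le_or_gt n 15 with h | h
  · exact three_part (M := 6) (by omega) fe2_3 n (by omega)
  · interval_cases n
    exacts [⟨_, t3_16⟩, ⟨_, t3_17⟩, ⟨_, t3_18⟩, ⟨_, t3_19⟩, ⟨_, t3_20⟩, ⟨_, t3_21⟩, ⟨_, t3_22⟩,
      ⟨_, t3_23⟩, ⟨_, t3_24⟩, ⟨_, t3_25⟩, ⟨_, t3_26⟩, ⟨_, s3_27.tab⟩]

theorem fe3_4 : ∀ n ≤ 64, Fe (rho 3 4 0) n := by
  intro n hn
  rcases le_or_gt n 62 with h | h
  · exact range_step (k := 2) (B := 14) (by omega) S3_3 fe2_4 (by decide) fe3_3 n h (by omega)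
  · interval_cases n
    exacts [⟨_, t3_63⟩, ⟨_, t3_64⟩]

theorem fe3_5 : ∀ n ≤ 125, Fe (rho 3 5 0) n := by
  intro n hn
  rcases le_or_gt n 124 with h | h
  · exact range_step (k := 2) (B := 24) (by omega) S3_4 fe2_5 (by decide) fe3_4 n h (by omega)
  · interval_cases n
    exact ⟨_, t3_125⟩

theorem fe3 : ∀ r, 3 ≤ r → ∀ n ≤ r ^ 3, Fe (rho 3 r 0) n := by
  have := chainF (k := 2) (r0 := 5) (by omega) (fun r hr => S3 r (by omega))
    (fun r hr w hw => fe2 (r + 1) (by omega) w hw) fe3_5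
  intro r hr
  rcases le_or_gt 5 r with h | h
  · exact this r h
  · interval_cases r
    exacts [fe3_3, fe3_4]

theorem base3 : ∀ k, 3 ≤ k → S k 3 0 ∧ ∀ n ≤ 3 ^ k, Fe (rho k 3 0) n := by
  intro k
  induction k using Nat.strong_induction_on with
  | _ k ih =>
    intro hk
    rcases Nat.eq_or_lt_of_le hk with rfl | hk4
    · exact ⟨S3_3 0 (by omega), fe3_3⟩
    have key : S k 3 0 ∧ ∀ t < 3, Fe (rho k 3 0) (3 ^ k - t) := by
      rcases Nat.lt_or_ge k 6 with h | h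
      · interval_cases k
        · exact blow3 (k0 := 3) (k := 1) (by omega) le_rfl s3_27 (by decide)
            fun n hn => fe1 (by omega) hn
        · exact blow3 (k0 := 4) (k := 1) (by omega) le_rfl s4_81 (by decide)
            fun n hn => fe1 (by omega) hn
      · obtain ⟨j, rfl⟩ : ∃ j, k = 3 + j := ⟨k - 3, by omega⟩
        exact blow3 (k0 := 3) (by omega) (by omega) s3_27 (by decide)
          (ih j (by omega) (by omega)).2
    refine ⟨key.1, fun n hn => ?_⟩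
    obtain ⟨j, rfl⟩ : ∃ j, k = j + 1 := ⟨k - 1, by omega⟩
    rcases le_or_gt (n + 3) (3 * 3 ^ j) with h | h
    · exact three_part ((show 2 ≤ 3 by omega).trans (Nat.le_self_pow (by omega) 3))
        (ih j (by omega) (by omega)).2 n h
    · have := key.2 (3 ^ (j + 1) - n) (by rw [pow_succ]; omega)
      rwa [show 3 ^ (j + 1) - (3 ^ (j + 1) - n) = n by omega] at this

theorem fe_all : ∀ k, 2 ≤ k → (∀ r, 3 ≤ r → ∀ a ≤ k, S (k + 1) r a) ∧
    ∀ r, 3 ≤ r → ∀ n ≤ r ^ (k + 1), Fe (rho (k + 1) r 0) n := by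
  intro k hk
  induction k, hk using Nat.le_induction with
  | base => exact ⟨S3, fe3⟩
  | succ k hk ih =>
    have hS := chainS (k := k + 1) (r0 := 3) (by omega) (by omega) (base3 (k + 2) (by omega)).1
      (full_of_S ih.1)
    exact ⟨hS, chainF (by omega) hS (fun r hr w hw => ih.2 (r + 1) (by omega) w hw)
      (base3 (k + 2) (by omega)).2⟩

theorem fe_main {k r n : ℕ} (h : (3 ≤ k ∧ 3 ≤ r) ∨ (k = 2 ∧ 6 ≤ r)) (hn : n ≤ r ^ k) :
    Fe (rho k r 0) n := by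
  rcases h with ⟨hk, hr⟩ | ⟨rfl, hr⟩
  · obtain ⟨j, rfl⟩ : ∃ j, k = j + 1 := ⟨k - 1, by omega⟩
    exact (fe_all j (by omega)).2 r hr n hn
  · exact fe2 r hr n hn

end Pool.Agent.Lib.MP_71763b_co
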