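import Mathlib

namespace Pool.Agent.Lib.MP_71763b_co

open Finset

abbrev F2 := ZMod 2
abbrev Cu (g : ℕ) := Fin (g + 3) → F2

theorem f2_cases (a : F2) : a = 0 ∨ a = 1 := by revert a; decide
theorem f2_self (a : F2) : a + a = 0 := by revert a; decide
theorem f2_ne {a b : F2} : a ≠ b ↔ a + b = 1 := by revert a b; decide
theorem f2_ne0 {a : F2} : a ≠ 0 ↔ a = 1 := by revert a; decide
theorem f2_ne1 {a : F2} : a ≠ 1 ↔ a = 0 := by revert a; decide

/-- the finite set of points with a property -/
noncomputable def fs {V : Type} [Fintype V] (P : V → Prop) : Finset V :=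
  @filter _ P (Classical.decPred P) univ

section
variable {V : Type} [Fintype V]

@[simp] theorem mem_fs {P : V → Prop} {x : V} : x ∈ fs P ↔ P x := by simp [fs]
theorem filter_fs (P Q : V → Prop) {_ : DecidablePred Q} :
    (fs P).filter Q = fs fun x => P x ∧ Q x := by ext; simp
theorem filter_univ_fs (Q : V → Prop) {_ : DecidablePred Q} : univ.filter Q = fs Q := by ext; simp
theorem fs_congr {P Q : V → Prop} (h : ∀ x, P x ↔ Q x) : fs P = fs Q := by ext; simp [h]
theorem fs_true : fs (fun _ : V => True) = univ := by ext; simp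
theorem fs_le {P Q : V → Prop} (h : ∀ x, P x → Q x) : (fs P).card ≤ (fs Q).card :=
  card_le_card fun x hx => mem_fs.2 (h x (mem_fs.1 hx))
theorem fs_split (P Q : V → Prop) :
    (fs P).card = (fs fun x => P x ∧ Q x).card + (fs fun x => P x ∧ ¬ Q x).card := by
  classical
  rw [← card_filter_add_card_filter_not (s := fs P) Q, filter_fs, filter_fs]
end

section
variable {g : ℕ}

def co (n : ℕ) (x : Cu g) : F2 := if h : n < g + 3 then x ⟨n, h⟩ else 0
def mk (g : ℕ) (f : ℕ → F2) : Cu g := fun i => f i
def ee (g n : ℕ) : Cu g := mk g fun m => if m = n then 1 else 0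
def yy (l : ℕ) (x : Cu g) : F2 := co l x + co (l + 2) x

theorem co_add (n : ℕ) (x y : Cu g) : co n (x + y) = co n x + co n y := by
  unfold co; split_ifs <;> simp
theorem co_zero (n : ℕ) : co n (0 : Cu g) = 0 := by unfold co; split_ifs <;> simp
theorem co_mk {n : ℕ} (h : n < g + 3) (f : ℕ → F2) : co n (mk g f) = f n := by simp [co, mk, h]
theorem co_ee_ne {n m : ℕ} (h : n ≠ m) : co n (ee g m) = 0 := by
  unfold co; split_ifs <;> simp [ee, mk, h]
theorem co_ee_self {n : ℕ} (h : n < g + 3) : co n (ee g n) = 1 := by simp [ee, co_mk h]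
theorem yy_add (n : ℕ) (x y : Cu g) : yy n (x + y) = yy n x + yy n y := by
  simp only [yy, co_add]; ring
theorem cu_ext {x y : Cu g} (h : ∀ n < g + 3, co n x = co n y) : x = y := by
  funext i
  simpa [co] using h i i.2
theorem cu_self (x : Cu g) : x + x = 0 := by funext i; exact f2_self _
theorem cu_cancel (x y : Cu g) : x + (x + y) = y := by rw [← add_assoc, cu_self, zero_add]
theorem cu_cancel' (x y : Cu g) : x + y + y = x := by rw [add_assoc, cu_self, add_zero]
theorem cu_eq_iff {x y z : Cu g} : x + y = z ↔ y = x + z :=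
  ⟨fun h => by rw [← h, cu_cancel], fun h => by rw [h, cu_cancel]⟩
theorem card_cu : Fintype.card (Cu g) = 2 ^ (g + 3) := by simp

attribute [irreducible] co

theorem card_shift (x : Cu g) (P : Cu g → Prop) :
    (fs fun u => P (x + u)).card = (fs P).card :=
  card_bijective (fun u => x + u) (Equiv.addLeft x).bijective (by simp)

theorem fib {W : Type} [AddCommGroup W] [Fintype W] (P : Cu g → Prop) (ψ : Cu g → W)
    (hψ : ∀ x y, ψ (x + y) = ψ x + ψ y) (h : ∀ w, ∃ u, ψ u = w ∧ ∀ x, P x → P (x + u)) (v : W) :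
    (fs fun x => P x ∧ ψ x = v).card * Fintype.card W = (fs P).card := by
  have le : ∀ v v', (fs fun x => P x ∧ ψ x = v).card ≤
      (fs fun x => P x ∧ ψ x = v').card := by
    intro v v'
    obtain ⟨u, h1, h2⟩ := h (v' - v)
    refine card_le_card_of_injOn (· + u) (fun x hx => ?_) (add_left_injective u).injOn
    simp only [mem_coe, mem_fs] at hx ⊢
    exact ⟨h2 x hx.1, by rw [hψ, hx.2, h1]; abel⟩
  classical
  rw [card_eq_sum_card_fiberwise (f := ψ) (s := fs P) (t := univ) (by simp)]
  simp only [filter_fs]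
  rw [sum_congr rfl fun w _ => (le w v).antisymm (le v w)]
  simp [mul_comm]

theorem half (P : Cu g → Prop) {n : ℕ} (hn : n < g + 3) (h : ∀ x, P x → P (x + ee g n)) (v : F2) :
    (fs fun x => P x ∧ co n x = v).card * 2 = (fs P).card := by
  have := fib P (co n) (co_add n) (fun w => by
    rcases f2_cases w with rfl | rfl
    · exact ⟨0, co_zero n, by simp⟩
    · exact ⟨_, co_ee_self hn, h⟩) v
  simpa using this

def psum (π : ℕ → F2) : ℕ → F2
  | 0 => 0
  | 1 => 0
  | m + 2 => psum π m + π m

theorem surj {i : ℕ} (hi : i < g) (α β γ σ : F2) (π : ℕ → F2) : ∃ u : Cu g, co i u = α ∧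
    co (i + 1) u = β ∧ co (g + 1) u = γ ∧ co (g + 2) u = σ ∧ ∀ l, l + 2 ≤ g → yy l u = π l := by
  refine ⟨mk g fun m => if m = g + 1 then γ else if m = g + 2 then σ else
    psum π m + if m % 2 = i % 2 then α + psum π i else β + psum π (i + 1), ?_, ?_, ?_, ?_, ?_⟩
  · rw [co_mk (by omega), if_neg (by omega), if_neg (by omega), if_pos rfl]
    linear_combination f2_self (psum π i)
  · rw [co_mk (by omega), if_neg (by omega), if_neg (by omega), if_neg (by omega)]
    linear_combination f2_self (psum π (i + 1))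
  · rw [co_mk (by omega), if_pos rfl]
  · rw [co_mk (by omega), if_neg (by omega), if_pos rfl]
  · intro l hl
    unfold yy
    rw [co_mk (by omega), co_mk (by omega), if_neg (by omega), if_neg (by omega),
      if_neg (show l + 2 ≠ g + 1 by omega), if_neg (show l + 2 ≠ g + 2 by omega), psum,
      Nat.add_mod_right]
    generalize (if l % 2 = i % 2 then α + psum π i else β + psum π (i + 1)) = c
    linear_combination f2_self (psum π l) + f2_self c

/-- affine box in the coordinates adapted to colour `i` -/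
def Bx (i : ℕ) (α β γ σ : F2) (S : Finset ℕ) (π : ℕ → F2) (x : Cu g) : Prop :=
  co i x = α ∧ co (i + 1) x = β ∧ co (g + 1) x = γ ∧ co (g + 2) x = σ ∧ ∀ l ∈ S, yy l x = π l

theorem card_bx {i : ℕ} (hi : i < g) (α β γ σ : F2) (S : Finset ℕ) (hS : ∀ l ∈ S, l + 2 ≤ g)
    (π : ℕ → F2) (m : ℕ) (hm : m + S.card + 1 = g) :
    (fs (Bx (g := g) i α β γ σ S π)).card = 2 ^ m := by
  have := fib (g := g) (fun _ => True)
    (fun x => (co i x, co (i + 1) x, co (g + 1) x, co (g + 2) x, fun l : S => yy l x))
    (fun x y => by simp only [co_add, yy_add]; rfl) (fun w => by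
      obtain ⟨u, h1, h2, h3, h4, h5⟩ := surj hi w.1 w.2.1 w.2.2.1 w.2.2.2.1
        fun l => if h : l ∈ S then w.2.2.2.2 ⟨l, h⟩ else 0
      refine ⟨u, ?_, fun _ _ => trivial⟩
      simp only [h1, h2, h3, h4]
      congr 4
      funext l
      rw [h5 l (hS l l.2), dif_pos l.2]) (α, β, γ, σ, fun l : S => π l)
  simp only [true_and, Prod.mk.injEq, funext_iff, Subtype.forall, Fintype.card_prod, ZMod.card,
    Fintype.card_pi, prod_const, card_univ, Fintype.card_coe, fs_true, Fintype.card_fin] at this
  have e : 2 ^ (g + 3) = 2 ^ m * (2 * (2 * (2 * (2 * 2 ^ S.card)))) := by rw [← hm]; ring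
  rw [e] at this
  exact Nat.eq_of_mul_eq_mul_right (by simp) this

/-- the eight classes of colour `i` -/
def Cl (i : ℕ) (α β γ : F2) (x : Cu g) : Prop :=
  co i x = α ∧ co (i + 1) x = β ∧ co (g + 1) x = γ

theorem card_cl {i : ℕ} (hi : i < g) (α β γ : F2) :
    (fs (Cl (g := g) i α β γ)).card = 2 ^ g := by
  have h1 := half (Cl (g := g) i α β γ) (n := g + 2) (by omega) (fun x hx => by
    simp only [Cl, co_add] at hx ⊢
    rwa [co_ee_ne (by omega), co_ee_ne (by omega), co_ee_ne (by omega), add_zero, add_zero,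
      add_zero]) 0
  have h2 := card_bx hi α β γ 0 ∅ (by simp) (fun _ => 0) (g - 1) (by simp; omega)
  have : (fs fun x => Cl (g := g) i α β γ x ∧ co (g + 2) x = 0) =
      fs (Bx i α β γ 0 ∅ fun _ => 0) := by
    ext x; simp [Cl, Bx, and_assoc]
  rw [← h1, this, h2, ← pow_succ]
  congr 1; omega

theorem card_slice (γ : F2) : (fs fun x : Cu g => co (g + 1) x = γ).card = 4 * 2 ^ g := by
  have := half (g := g) (fun _ => True) (n := g + 1) (by omega) (fun _ _ => trivial) γ
  simp only [true_and, fs_true, card_univ, card_cu] at this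
  have e : 2 ^ (g + 3) = 4 * 2 ^ g * 2 := by ring
  omega

def Des (i : ℕ) (z : Cu g) : Prop := co i z = 1 ∧ co (i + 1) z = 0

theorem descent (γ : F2) (I : Finset ℕ) (hI : I ⊆ range g) :
    (fs fun z : Cu g => co (g + 1) z = γ ∧ ∀ i ∈ I, ¬ Des i z).card * 4 ^ I.card ≤
      3 ^ I.card * (4 * 2 ^ g) := by
  let P : ℕ → Cu g → Prop := fun m z => co (g + 1) z = γ ∧ ∀ i ∈ I, i < m → ¬ Des i z
  let c : ℕ → F2 → ℕ := fun m v => (fs fun z => P m z ∧ co m z = v).card
  have tot : ∀ (Q : Cu g → Prop) m, (fs Q).card =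
      (fs fun z => Q z ∧ co m z = 0).card +
        (fs fun z => Q z ∧ co m z = 1).card := by
    intro Q m
    rw [fs_split Q fun z => co m z = 0]
    simp only [← ne_eq, f2_ne0]
  have key : ∀ m ≤ g, c m 0 ≤ c m 1 ∧ (c m 0 + c m 1) * 4 ^ (I.filter (· < m)).card ≤
      3 ^ (I.filter (· < m)).card * (4 * 2 ^ g) := by
    intro m
    induction m with
    | zero =>
      intro _
      have inv : ∀ x, P 0 x → P 0 (x + ee g 0) := fun x hx =>
        ⟨by rw [co_add, co_ee_ne (by omega), add_zero, hx.1], by simp⟩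
      have h0 := half (P 0) (by omega) inv 0
      have h1 := half (P 0) (by omega) inv 1
      have h2 : (fs (P 0)).card = 4 * 2 ^ g := by
        rw [← card_slice (g := g) γ]; simp [P]
      simp only [c, Nat.not_lt_zero, filter_false, card_empty]
      omega
    | succ m ih =>
      intro hm
      obtain ⟨i1, i2⟩ := ih (by omega)
      have inv : ∀ v x, (P m x ∧ co m x = v) → P m (x + ee g (m + 1)) ∧
          co m (x + ee g (m + 1)) = v := fun v x hx => by
        refine ⟨⟨by rw [co_add, co_ee_ne (by omega), add_zero, hx.1.1], fun i hi him => ?_⟩,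
          by rw [co_add, co_ee_ne (by omega), add_zero, hx.2]⟩
        have := hx.1.2 i hi him
        simp only [Des, co_add] at this ⊢
        rwa [co_ee_ne (by omega), co_ee_ne (by omega), add_zero, add_zero]
      have h := fun v w => half (fun x => P m x ∧ co m x = v) (n := m + 1) (by omega) (inv v) w
      have h00 := h 0 0
      have h01 := h 0 1
      have h10 := h 1 0
      have h11 := h 1 1
      change _ = c m 0 at h00 h01
      change _ = c m 1 at h10 h11
      have t0 := tot (fun z => P (m + 1) z ∧ co (m + 1) z = 0) m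
      have t1 := tot (fun z => P (m + 1) z ∧ co (m + 1) z = 1) m
      change c (m + 1) 0 = _ at t0
      change c (m + 1) 1 = _ at t1
      have st : ∀ z, P (m + 1) z ↔ P m z ∧ (m ∈ I → ¬ Des m z) := by
        intro z
        simp only [P, Nat.lt_succ_iff_lt_or_eq]
        refine ⟨fun q => ⟨⟨q.1, fun i a b => q.2 i a (Or.inl b)⟩, fun a => q.2 m a (Or.inr rfl)⟩,
          fun q => ⟨q.1.1, fun i a b => ?_⟩⟩
        rcases b with b | rfl
        exacts [q.1.2 i a b, q.2 a]
      have eq : ∀ v w : F2, (m ∉ I ∨ v = 0 ∨ w = 1) →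
          (fs fun z => (P (m + 1) z ∧ co (m + 1) z = w) ∧ co m z = v) =
          fs fun z => (P m z ∧ co m z = v) ∧ co (m + 1) z = w := by
        intro v w q
        ext z
        simp only [mem_fs, st, Des]
        refine ⟨fun r => ⟨⟨r.1.1.1, r.2⟩, r.1.2⟩, fun r => ⟨⟨⟨r.1.1, fun a b => ?_⟩, r.2⟩, r.1.2⟩⟩
        rcases q with q | rfl | rfl
        · exact q a
        · exact absurd (r.1.2.symm.trans b.1) (by decide)
        · exact absurd (r.2.symm.trans b.2) (by decide)
      rw [eq 0 0 (by simp)] at t0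
      rw [eq 0 1 (by simp), eq 1 1 (by simp)] at t1
      by_cases hmI : m ∈ I
      · have e0 : (fs fun z => (P (m + 1) z ∧ co (m + 1) z = 0) ∧ co m z = 1) = ∅ :=
          eq_empty_of_forall_notMem fun z q => by
            rw [mem_fs] at q
            exact ((st z).1 q.1.1).2 hmI ⟨q.2, q.1.2⟩
        have e1 : I.filter (· < m + 1) = insert m (I.filter (· < m)) := by
          ext i
          simp only [mem_filter, mem_insert]
          exact ⟨fun q => by rcases Nat.lt_succ_iff_lt_or_eq.1 q.2 with r | r <;> tauto,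
            fun q => by rcases q with rfl | q; exacts [⟨hmI, by omega⟩, ⟨q.1, by omega⟩]⟩
        rw [e0, card_empty] at t0
        rw [e1, card_insert_of_notMem (by simp), pow_succ, pow_succ]
        refine ⟨by omega, ?_⟩
        have : (c (m + 1) 0 + c (m + 1) 1) * 4 ≤ 3 * (c m 0 + c m 1) := by omega
        nlinarith [Nat.mul_le_mul_right (4 ^ (I.filter (· < m)).card) this]
      · have e1 : I.filter (· < m + 1) = I.filter (· < m) := by
          ext i
          simp only [mem_filter]
          exact ⟨fun q => ⟨q.1, lt_of_le_of_ne (by omega) fun r => hmI (r ▸ q.1)⟩,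
            fun q => ⟨q.1, by omega⟩⟩
        rw [eq 1 0 (Or.inl hmI)] at t0
        rw [e1, show c (m + 1) 0 + c (m + 1) 1 = c m 0 + c m 1 by omega]
        exact ⟨by omega, i2⟩
  have := (key g le_rfl).2
  rw [filter_true_of_mem fun i hi => mem_range.1 (hI hi), ← tot] at this
  rwa [fs_congr (Q := P g) fun z => and_congr_right fun _ => ⟨fun q i a _ => q i a, fun q i a => q i a (mem_range.1 (hI a))⟩]

end

end Pool.Agent.Lib.MP_71763b_co
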