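import Mathlib

namespace Pool.Agent.Lib.MP_71763b_co

open Finset

section
variable {α β : Type} [Fintype α] [Fintype β]

theorem frac_two {ι : Type} [Fintype ι] (x : ι → ℝ) (h : ∀ i, 0 ≤ x i ∧ x i ≤ 1) (n : ℤ)
    (hn : ∑ i, x i = n) (a : ι) (h0 : x a ≠ 0) (h1 : x a ≠ 1) :
    ∃ b, b ≠ a ∧ x b ≠ 0 ∧ x b ≠ 1 := by
  classical
  by_contra g
  push Not at g
  have : ∀ b ∈ univ.erase a, x b = ((if x b = 1 then 1 else 0 : ℤ) : ℝ) := by
    intro b hb
    split_ifs with e
    · simp [e]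
    · by_contra e2
      exact e (g b (mem_erase.1 hb).1 (by simpa using e2))
  rw [← add_sum_erase _ _ (mem_univ a), sum_congr rfl this, ← Int.cast_sum] at hn
  generalize (∑ b ∈ univ.erase a, (if x b = 1 then 1 else 0 : ℤ)) = m at hn
  have e : x a = ((n - m : ℤ) : ℝ) := by push_cast; linarith
  have a1 := (h a).1
  have a2 := (h a).2
  rw [e] at a1 a2 h0 h1
  have b1 : 0 ≤ n - m := by exact_mod_cast a1
  have b2 : n - m ≤ 1 := by exact_mod_cast a2
  have b3 : n - m ≠ 0 := by exact_mod_cast h0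
  have b4 : n - m ≠ 1 := by exact_mod_cast h1
  omega

theorem exists_dir (F : Finset (α × β)) (hne : F.Nonempty)
    (hr : ∀ e ∈ F, ∃ e' ∈ F, e' ≠ e ∧ e'.1 = e.1) (hc : ∀ e ∈ F, ∃ e' ∈ F, e' ≠ e ∧ e'.2 = e.2) :
    ∃ d : α → β → ℝ, (∃ a b, d a b ≠ 0) ∧ (∀ a b, d a b ≠ 0 → (a, b) ∈ F) ∧
      (∀ a, ∑ b, d a b = 0) ∧ ∀ b, ∑ a, d a b = 0 := by
  classical
  have two : ∀ {γ : Type} [DecidableEq γ] (f : α × β → γ),
      (∀ e ∈ F, ∃ e' ∈ F, e' ≠ e ∧ f e' = f e) → 2 * (F.image f).card ≤ F.card := by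
    intro γ _ f h
    rw [card_eq_sum_card_image f F, mul_comm, card_eq_sum_ones, sum_mul]
    refine sum_le_sum fun c hc => ?_
    obtain ⟨e, he, rfl⟩ := mem_image.1 hc
    obtain ⟨e', he', h1, h2⟩ := h e he
    exact one_lt_card.2 ⟨e', mem_filter.2 ⟨he', h2⟩, e, mem_filter.2 ⟨he, rfl⟩, h1⟩
  obtain ⟨e0, he0⟩ := hne
  have h1 := two Prod.fst hr
  have h2 := two Prod.snd hc
  have h3 : ((F.image Prod.fst).erase e0.1).card + 1 = (F.image Prod.fst).card :=
    card_erase_add_one (mem_image_of_mem _ he0)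
  let ext : (F → ℝ) →ₗ[ℝ] (α × β → ℝ) :=
    { toFun := fun x e => if h : e ∈ F then x ⟨e, h⟩ else 0
      map_add' := fun x y => by funext e; by_cases h : e ∈ F <;> simp [h]
      map_smul' := fun c x => by funext e; by_cases h : e ∈ F <;> simp [h] }
  let L : (α × β → ℝ) →ₗ[ℝ]
      (((F.image Prod.fst).erase e0.1 → ℝ) × ((F.image Prod.snd) → ℝ)) :=
    { toFun := fun x => (fun a => ∑ b, x (a.1, b), fun b => ∑ a, x (a, b.1))
      map_add' := fun x y => by ext <;> simp [sum_add_distrib]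
      map_smul' := fun c x => by ext <;> simp [mul_sum] }
  obtain ⟨x, hx, hx0⟩ : ∃ x, x ≠ 0 ∧ (L ∘ₗ ext) x = 0 := by
    have : LinearMap.ker (L ∘ₗ ext) ≠ ⊥ := LinearMap.ker_ne_bot_of_finrank_lt (by
      simp only [Module.finrank_prod, Module.finrank_fintype_fun_eq_card, Fintype.card_coe]
      omega)
    obtain ⟨x, h1, h2⟩ := Submodule.exists_mem_ne_zero_of_ne_bot this
    exact ⟨x, h2, h1⟩
  have supp : ∀ a b, ext x (a, b) ≠ 0 → (a, b) ∈ F := by
    intro a b h
    by_contra g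
    exact h (dif_neg g)
  have col : ∀ b, ∑ a, ext x (a, b) = 0 := by
    intro b
    by_cases g : b ∈ F.image Prod.snd
    · exact congrFun (congrArg Prod.snd hx0) ⟨b, g⟩
    · refine sum_eq_zero fun a _ => ?_
      by_contra e
      exact g (mem_image_of_mem _ (supp a b e))
  have row : ∀ a, a ≠ e0.1 → ∑ b, ext x (a, b) = 0 := by
    intro a ha
    by_cases g : a ∈ F.image Prod.fst
    · exact congrFun (congrArg Prod.fst hx0) ⟨a, mem_erase.2 ⟨ha, g⟩⟩
    · refine sum_eq_zero fun b _ => ?_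
      by_contra e
      exact g (mem_image_of_mem _ (supp a b e))
  refine ⟨fun a b => ext x (a, b), ?_, supp, fun a => ?_, col⟩
  · by_contra g
    push Not at g
    refine hx (funext fun e => ?_)
    have := g e.1.1 e.1.2
    simpa [ext] using this
  · by_cases ha : a = e0.1
    · have e : ∑ a, ∑ b, ext x (a, b) = 0 := by
        rw [sum_comm]; exact sum_eq_zero fun b _ => col b
      rw [← add_sum_erase _ _ (mem_univ a), sum_eq_zero fun a' ha' =>
        row a' (ha ▸ (mem_erase.1 ha').1)] at e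
      simpa using e
    · exact row a ha

theorem round_int (n : ℕ) : ∀ (x : α → β → ℝ), (∀ a b, 0 ≤ x a b ∧ x a b ≤ 1) →
    (∀ a, ∃ m : ℤ, ∑ b, x a b = m) → (∀ b, ∃ m : ℤ, ∑ a, x a b = m) →
    (univ.filter fun e : α × β => x e.1 e.2 ≠ 0 ∧ x e.1 e.2 ≠ 1).card ≤ n →
    ∃ y : α → β → ℝ, (∀ a b, y a b = 0 ∨ y a b = 1) ∧ (∀ a b, x a b = 0 → y a b = 0) ∧
      (∀ a b, x a b = 1 → y a b = 1) ∧ (∀ a, ∑ b, y a b = ∑ b, x a b) ∧
      ∀ b, ∑ a, y a b = ∑ a, x a b := by
  classical
  induction n with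
  | zero =>
    intro x _ _ _ h
    refine ⟨x, fun a b => ?_, fun _ _ e => e, fun _ _ e => e, fun _ => rfl, fun _ => rfl⟩
    have := filter_eq_empty_iff.1 (card_eq_zero.1 (Nat.le_zero.1 h)) (mem_univ (a, b))
    tauto
  | succ n ih =>
    intro x h01 hr hc h
    set F := univ.filter fun e : α × β => x e.1 e.2 ≠ 0 ∧ x e.1 e.2 ≠ 1 with hF
    have mF : ∀ e, e ∈ F ↔ x e.1 e.2 ≠ 0 ∧ x e.1 e.2 ≠ 1 := by simp [hF]
    rcases F.eq_empty_or_nonempty with g | g
    · exact ih x h01 hr hc (by rw [← hF, g]; simp)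
    obtain ⟨d, ⟨a0, b0, d0⟩, d1, d2, d3⟩ := exists_dir F g (fun e he => by
      obtain ⟨m, hm⟩ := hr e.1
      obtain ⟨b, h1, h2⟩ := frac_two _ (h01 e.1) m hm e.2 ((mF e).1 he).1 ((mF e).1 he).2
      exact ⟨(e.1, b), (mF _).2 h2, fun q => h1 (congrArg Prod.snd q), rfl⟩) (fun e he => by
      obtain ⟨m, hm⟩ := hc e.2
      obtain ⟨a, h1, h2⟩ := frac_two (fun a => x a e.2) (fun a => h01 a e.2) m hm e.1
        ((mF e).1 he).1 ((mF e).1 he).2
      exact ⟨(a, e.2), (mF _).2 h2, fun q => h1 (congrArg Prod.fst q), rfl⟩)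
    let st : α × β → ℝ := fun e =>
      if 0 < d e.1 e.2 then (1 - x e.1 e.2) / d e.1 e.2 else x e.1 e.2 / (-d e.1 e.2)
    obtain ⟨e1, he1, hmin⟩ := exists_min_image (univ.filter fun e : α × β => d e.1 e.2 ≠ 0) st
      ⟨(a0, b0), by simpa using d0⟩
    simp only [mem_filter, mem_univ, true_and] at he1 hmin
    have st0 : 0 ≤ st e1 := by
      have := h01 e1.1 e1.2
      simp only [st]
      split_ifs with q
      · exact div_nonneg (by linarith) q.le
      · exact div_nonneg this.1 (by linarith)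
    obtain ⟨y, y1, y2, y3, y4, y5⟩ := ih (fun a b => x a b + st e1 * d a b) (fun a b => by
      have := h01 a b
      rcases lt_trichotomy (d a b) 0 with q | q | q
      · have := hmin (a, b) q.ne
        rw [show st (a, b) = x a b / (-d a b) from if_neg (not_lt.2 q.le),
          le_div_iff₀ (by linarith)] at this
        constructor <;> nlinarith
      · simpa [q] using this
      · have := hmin (a, b) q.ne'
        rw [show st (a, b) = (1 - x a b) / d a b from if_pos q, le_div_iff₀ q] at this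
        constructor <;> nlinarith)
      (fun a => by simpa [sum_add_distrib, ← mul_sum, d2] using hr a)
      (fun b => by simpa [sum_add_distrib, ← mul_sum, d3] using hc b) (by
      have : (univ.filter fun e : α × β => x e.1 e.2 + st e1 * d e.1 e.2 ≠ 0 ∧
          x e.1 e.2 + st e1 * d e.1 e.2 ≠ 1) ⊆ F.erase e1 := by
        intro e he
        simp only [mem_filter, mem_univ, true_and] at he
        refine mem_erase.2 ⟨?_, ?_⟩
        · rintro rfl
          simp only [st] at he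
          split_ifs at he with q
          · exact he.2 (by field_simp; ring)
          · exact he.1 (by field_simp; ring)
        · by_cases q : d e.1 e.2 = 0
          · rw [mF]; simpa [q] using he
          · exact d1 _ _ q
      have := card_le_card this
      rw [card_erase_of_mem (d1 _ _ he1)] at this
      omega)
    have dz : ∀ a b, x a b = 0 ∨ x a b = 1 → d a b = 0 := by
      intro a b q
      by_contra e
      have := (mF _).1 (d1 a b e)
      tauto
    refine ⟨y, y1, fun a b e => y2 a b (by simp [e, dz a b (Or.inl e)]),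
      fun a b e => y3 a b (by simp [e, dz a b (Or.inr e)]), fun a => ?_, fun b => ?_⟩
    · rw [y4]; simp [sum_add_distrib, ← mul_sum, d2]
    · rw [y5]; simp [sum_add_distrib, ← mul_sum, d3]

theorem round_aux {r s u : ℝ} (hu : u = 0 ∨ u = 1) (h0 : ⌈r⌉ - r = 0 → u = 0)
    (e : u + s = ⌈r⌉) (n : ℤ) : ((n : ℝ) ≤ r → n ≤ s) ∧ (r ≤ n → s ≤ n) := by
  constructor
  · intro h
    rcases h.eq_or_lt with g | g
    · have : u = 0 := h0 (by rw [← g]; simp)
      have := Int.le_ceil r
      linarith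
    · have : n + 1 ≤ ⌈r⌉ := Int.lt_ceil.2 g
      have : (n : ℝ) + 1 ≤ ⌈r⌉ := by exact_mod_cast this
      rcases hu with q | q <;> linarith
  · intro h
    have : ⌈r⌉ ≤ n := Int.ceil_le.2 h
    have : (⌈r⌉ : ℝ) ≤ n := by exact_mod_cast this
    rcases hu with q | q <;> linarith

/-- rounding of a fractional bipartite graph -/
theorem rounding (x : α → β → ℝ) (h01 : ∀ a b, 0 ≤ x a b ∧ x a b ≤ 1) :
    ∃ y : α → β → ℝ, (∀ a b, y a b = 0 ∨ y a b = 1) ∧ (∀ a b, x a b = 0 → y a b = 0) ∧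
      (∀ a b, x a b = 1 → y a b = 1) ∧
      (∀ a (n : ℤ), ((n : ℝ) ≤ ∑ b, x a b → (n : ℝ) ≤ ∑ b, y a b) ∧
        (∑ b, x a b ≤ n → ∑ b, y a b ≤ n)) ∧
      ∀ b (n : ℤ), ((n : ℝ) ≤ ∑ a, x a b → (n : ℝ) ≤ ∑ a, y a b) ∧
        (∑ a, x a b ≤ n → ∑ a, y a b ≤ n) := by
  let X : Option α → Option β → ℝ := fun a b => match a, b with
    | some a, some b => x a b
    | some a, none => ⌈∑ b, x a b⌉ - ∑ b, x a b
    | none, some b => ⌈∑ a, x a b⌉ - ∑ a, x a b
    | none, none => Int.fract (∑ a, ∑ b, x a b)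
  have ce : ∀ r : ℝ, 0 ≤ ⌈r⌉ - r ∧ ⌈r⌉ - r ≤ 1 := fun r =>
    ⟨by linarith [Int.le_ceil r], by linarith [Int.ceil_lt_add_one r]⟩
  obtain ⟨y, y1, y2, y3, y4, y5⟩ := round_int _ X (fun a b => match a, b with
      | some a, some b => h01 a b
      | some a, none => ce _
      | none, some b => ce _
      | none, none => ⟨Int.fract_nonneg _, (Int.fract_lt_one _).le⟩)
    (fun a => match a with
      | some a => ⟨⌈∑ b, x a b⌉, by simp [X, Fintype.sum_option]⟩
      | none => ⟨∑ b, ⌈∑ a, x a b⌉ - ⌊∑ a, ∑ b, x a b⌋, by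
          simp only [X, Fintype.sum_option, sum_sub_distrib, Int.fract]
          rw [sum_comm (f := fun b a => x a b)]
          push_cast; ring⟩)
    (fun b => match b with
      | some b => ⟨⌈∑ a, x a b⌉, by simp [X, Fintype.sum_option]⟩
      | none => ⟨∑ a, ⌈∑ b, x a b⌉ - ⌊∑ a, ∑ b, x a b⌋, by
          simp only [X, Fintype.sum_option, sum_sub_distrib, Int.fract]
          push_cast; ring⟩) le_rfl
  refine ⟨fun a b => y (some a) (some b), fun _ _ => y1 _ _, fun a b => y2 (some a) (some b),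
    fun a b => y3 (some a) (some b), fun a n => ?_, fun b n => ?_⟩
  · refine round_aux (y1 (some a) none) (y2 (some a) none) ?_ n
    have := y4 (some a)
    simpa [X, Fintype.sum_option] using this
  · refine round_aux (y1 none (some b)) (y2 none (some b)) ?_ n
    have := y5 (some b)
    simpa [X, Fintype.sum_option] using this

end

end Pool.Agent.Lib.MP_71763b_co
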