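import Pool.Agent.Lib.MP_71763b_co.Cube
import Pool.Agent.Lib.MP_71763b_co.Rnd
import Pool.Agent.Lib.MP_71763b_co.Cb

namespace Pool.Agent.Lib.MP_71763b_co

open Finset

theorem deg_total {V : Type} [Fintype V] (c : V → V → ℕ) (k : ℕ) (hk : ∀ u v, u ≠ v → c u v < k)
    (v : V) : ∑ j ∈ range k, deg c j v + 1 = Fintype.card V := by
  classical
  unfold deg
  rw [sum_comm]
  have : ∀ u, (∑ j ∈ range k, ind (u ≠ v ∧ c v u = j)) = if u ≠ v then 1 else 0 := by
    intro u
    split_ifs with g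
    · rw [sum_eq_single (c v u)]
      · exact ind_pos ⟨g, rfl⟩
      · exact fun b _ hb => ind_neg fun e => hb e.2.symm
      · exact fun h => absurd (mem_range.2 (hk _ _ g.symm)) h
    · exact sum_eq_zero fun j _ => ind_neg fun e => g e.1
  simp only [this]
  rw [← card_filter, filter_ne', card_erase_add_one (mem_univ v), card_univ]

variable {g : ℕ}

/-- fractional graph of one ordinary colour -/
structure Fine (Om : Finset (Cu g)) (own : Cu g → Cu g → ℕ) (i : ℕ) (lb ub : Cu g → ℤ)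
    (w : Cu g → Cu g → ℝ) : Prop where
  bd : ∀ h l, 0 ≤ w h l ∧ w h l ≤ 1
  sp : ∀ h l, w h l ≠ 0 → h ∉ Om ∧ l ∉ Om ∧ co i h = 1 ∧ co i l = 0 ∧ own h l = i ∧ ub l < lb h
  fx : ∀ h ∉ Om, ∀ l ∉ Om, co i h = 1 → co i l = 0 → own h l = i →
    co (g + 1) h = co (g + 1) l → w h l = 1
  hH : ∀ x ∉ Om, co i x = 1 → (lb x : ℝ) ≤ ∑ l, w x l ∧ (co (g + 1) x = 1 → ∑ l, w x l ≤ ub x)
  hL : ∀ x ∉ Om, co i x = 0 → ∑ h, w h x ≤ ub x ∧ (co (g + 1) x = 0 → (lb x : ℝ) ≤ ∑ h, w h x)

theorem Fine.round {Om : Finset (Cu g)} {own : Cu g → Cu g → ℕ} {i : ℕ} {lb ub : Cu g → ℤ}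
    {w : Cu g → Cu g → ℝ} (h : Fine Om own i lb ub w) :
    ∃ y, Fine Om own i lb ub y ∧ ∀ a b, y a b = 0 ∨ y a b = 1 := by
  obtain ⟨y, y1, y2, y3, y4, y5⟩ := rounding w h.bd
  refine ⟨y, ⟨fun a b => ?_, fun a b e => h.sp a b fun q => e (y2 a b q),
    fun a ha b hb q1 q2 q3 q4 => y3 a b (h.fx a ha b hb q1 q2 q3 q4),
    fun x hx q => ⟨(y4 x _).1 (h.hH x hx q).1, fun r => (y4 x _).2 ((h.hH x hx q).2 r)⟩,
    fun x hx q => ⟨(y5 x _).2 (h.hL x hx q).1, fun r => (y5 x _).1 ((h.hL x hx q).2 r)⟩⟩, y1⟩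
  rcases y1 a b with e | e <;> simp [e]

theorem assemble (Om : Finset (Cu g)) (hO : ∀ ω ∈ Om, co (g + 1) ω = 1) (own : Cu g → Cu g → ℕ)
    (hs : ∀ x u, own x u = own u x) (lb ub : ℕ → Cu g → ℤ)
    (hw : ∀ i ≤ g, ∃ w, Fine Om own i (lb i) (ub i) w)
    (hcov : ∀ x u, x ≠ u → co (g + 1) x = co (g + 1) u → x + u ≠ ee g (g + 2) →
      own x u ≤ g ∧ co (own x u) (x + u) = 1)
    (hsink : ∀ x ∉ Om, ∀ u, co (g + 1) x = 1 → co (g + 1) u = 0 →
      ∑ i ∈ range (g + 1), ub i x < ∑ i ∈ range (g + 1), lb i u) :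
    F3 (g + 3) (2 ^ (g + 3) - Om.card) := by
  classical
  have := fun i hi => (hw i hi).elim fun w h => h.round
  choose! y hy y01 using this
  let E : ℕ → Cu g → Cu g → Prop := fun i x u => y i x u = 1 ∨ y i u x = 1
  have E1 : ∀ i ≤ g, ∀ x u, E i x u → own x u = i ∧ co i (x + u) = 1 := by
    intro i hi x u e
    rcases e with e | e
    · obtain ⟨_, _, a, b, c, _⟩ := (hy i hi).sp x u (by simp [e])
      exact ⟨c, by rw [co_add, a, b]; rfl⟩
    · obtain ⟨_, _, a, b, c, _⟩ := (hy i hi).sp u x (by simp [e])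
      exact ⟨(hs _ _).trans c, by rw [co_add, a, b]; rfl⟩
  let c : {x // x ∉ Om} → {x // x ∉ Om} → ℕ := fun x u =>
    if ∃ i ≤ g, E i x u then own x u else if x.1 + u.1 = ee g (g + 2) then g + 2 else g + 1
  have c1 : ∀ i ≤ g, ∀ x u, c x u = i ↔ E i x u := by
    intro i hi x u
    simp only [c]
    split_ifs with a
    · obtain ⟨j, hj, e⟩ := a
      rw [(E1 j hj _ _ e).1]
      exact ⟨fun q => q ▸ e, fun q => (E1 j hj _ _ e).1.symm.trans (E1 i hi _ _ q).1⟩
    all_goals exact ⟨fun q => by omega, fun q => absurd ⟨i, hi, q⟩ a⟩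
  have c2 : ∀ x u, c x u = g + 2 ↔ x.1 + u.1 = ee g (g + 2) := by
    intro x u
    simp only [c]
    split_ifs with a b
    · obtain ⟨j, hj, e⟩ := a
      obtain ⟨e1, e2⟩ := E1 j hj _ _ e
      refine ⟨fun q => by omega, fun q => ?_⟩
      rw [q, co_ee_ne (by omega)] at e2
      exact absurd e2 (by decide)
    · simp [b]
    · simp [b]
  have c3 : ∀ x u, c x u < g + 3 := by
    intro x u
    simp only [c]
    split_ifs with a
    · obtain ⟨j, hj, e⟩ := a
      rw [(E1 j hj _ _ e).1]; omega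
    all_goals omega
  have cs : ∀ x u, c x u = c u x := by
    intro x u
    simp only [c, E, or_comm (a := y _ x u = 1), add_comm x.1, hs x]
  have sub : ∀ f : Cu g → ℝ, (∀ u ∈ Om, f u = 0) → ∑ u : {x // x ∉ Om}, f u = ∑ u, f u := by
    intro f hf
    rw [← sum_subtype (univ.filter (· ∉ Om)) (by simp) f]
    exact sum_subset (subset_univ _) fun u _ hu => hf u (by simpa using hu)
  have z1 : ∀ i ≤ g, ∀ a b, (a ∈ Om ∨ b ∈ Om ∨ co i a = 0 ∨ co i b = 1) → y i a b = 0 := by
    intro i hi a b q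
    by_contra e
    obtain ⟨q1, q2, q3, q4, _⟩ := (hy i hi).sp a b e
    rw [q3, q4] at q
    simp [q1, q2] at q
  have dH : ∀ i ≤ g, ∀ x : {x // x ∉ Om}, co i x.1 = 1 → (deg c i x : ℝ) = ∑ l, y i x l := by
    intro i hi x hx
    rw [← sub _ fun u hu => z1 i hi _ _ (by simp [hu]), deg, Nat.cast_sum]
    refine sum_congr rfl fun u _ => ?_
    rw [c1 i hi]
    rcases y01 i hi x u with e | e
    · rw [e, ind_neg, Nat.cast_zero]
      simp [E, e, z1 i hi u x (by simp [hx])]
    · have : u ≠ x := by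
        rintro rfl
        simp [z1 i hi u u (by simp [hx])] at e
      rw [e, ind_pos ⟨this, Or.inl e⟩, Nat.cast_one]
  have dL : ∀ i ≤ g, ∀ x : {x // x ∉ Om}, co i x.1 = 0 → (deg c i x : ℝ) = ∑ l, y i l x := by
    intro i hi x hx
    rw [← sub _ fun u hu => z1 i hi _ _ (by simp [hu]), deg, Nat.cast_sum]
    refine sum_congr rfl fun u _ => ?_
    rw [c1 i hi]
    rcases y01 i hi u x with e | e
    · rw [e, ind_neg, Nat.cast_zero]
      simp [E, e, z1 i hi x u (by simp [hx])]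
    · have : u ≠ x := by
        rintro rfl
        simp [z1 i hi u u (by simp [hx])] at e
      rw [e, ind_pos ⟨this, Or.inr e⟩, Nat.cast_one]
  have up : ∀ i ≤ g, ∀ x : {x // x ∉ Om}, (co i x.1 = 0 ∨ co (g + 1) x.1 = 1) →
      (deg c i x : ℤ) ≤ ub i x := by
    intro i hi x q
    have : (deg c i x : ℝ) ≤ ub i x := by
      rcases f2_cases (co i x.1) with e | e
      · rw [dL i hi x e]; exact ((hy i hi).hL x x.2 e).1
      · rw [dH i hi x e]; exact ((hy i hi).hH x x.2 e).2 (by simpa [e] using q)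
    exact_mod_cast this
  have lo : ∀ i ≤ g, ∀ x : {x // x ∉ Om}, (co i x.1 = 1 ∨ co (g + 1) x.1 = 0) →
      lb i x ≤ (deg c i x : ℤ) := by
    intro i hi x q
    have : (lb i x : ℝ) ≤ deg c i x := by
      rcases f2_cases (co i x.1) with e | e
      · rw [dL i hi x e]; exact ((hy i hi).hL x x.2 e).2 (by simpa [e] using q)
      · rw [dH i hi x e]; exact ((hy i hi).hH x x.2 e).1
    exact_mod_cast this
  have s1 : ∀ x, deg c (g + 2) x ≤ 1 := by
    intro x
    unfold deg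
    simp only [ind_eq]
    rw [← card_filter, card_le_one]
    intro a ha b hb
    simp only [mem_filter, c2, cu_eq_iff] at ha hb
    exact Subtype.ext (ha.2.2.trans hb.2.2.symm)
  have s2 : ∀ x : {x // x ∉ Om}, co (g + 1) x.1 = 0 → 1 ≤ deg c (g + 2) x := by
    intro x hx
    have hu : x.1 + ee g (g + 2) ∉ Om := fun q => by
      have := hO _ q
      rw [co_add, hx, co_ee_ne (by omega)] at this
      exact absurd this (by decide)
    refine le_trans ?_ (single_le_sum (f := fun u => ind (u ≠ x ∧ c x u = g + 2))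
      (fun _ _ => Nat.zero_le _) (mem_univ ⟨_, hu⟩))
    refine (ind_pos ⟨fun e => ?_, (c2 _ _).2 (cu_cancel _ _)⟩).ge
    have := congrArg (fun z : {x // x ∉ Om} => co (g + 2) z.1) e
    simp only [co_add, co_ee_self (show g + 2 < g + 3 by omega)] at this
    simp at this
  have sk : ∀ x u : {x // x ∉ Om}, co (g + 1) x.1 = 1 → co (g + 1) u.1 = 0 →
      deg c (g + 1) u < deg c (g + 1) x := by
    intro x u hx hu
    have a1 := deg_total c (g + 3) (fun a b _ => c3 a b) x
    have a2 := deg_total c (g + 3) (fun a b _ => c3 a b) u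
    rw [sum_range_succ, sum_range_succ] at a1 a2
    have a3 := hsink x x.2 u hx hu
    have a4 : ∑ i ∈ range (g + 1), (deg c i x : ℤ) ≤ _ :=
      sum_le_sum fun i hi => up i (by simpa [Nat.lt_succ_iff] using hi) x (Or.inr hx)
    have a5 : _ ≤ ∑ i ∈ range (g + 1), (deg c i u : ℤ) :=
      sum_le_sum fun i hi => lo i (by simpa [Nat.lt_succ_iff] using hi) u (Or.inr hu)
    have a6 : ∑ i ∈ range (g + 1), deg c i x < ∑ i ∈ range (g + 1), deg c i u := by
      exact_mod_cast a4.trans_lt (a3.trans_le a5)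
    have := s1 x
    have := s2 u hu
    omega
  refine f3_of c (by rw [Fintype.card_subtype_compl, card_cu]; simp) cs (fun a b _ => c3 a b)
    (fun j x => co j x.1 = 1) fun u v j huv e => ?_
  have hj := c3 u v
  by_cases q : j ≤ g
  · have key : ∀ u v : {x // x ∉ Om}, y j u v = 1 →
        co j u.1 = 1 ∧ ¬ co j v.1 = 1 ∧ deg c j v < deg c j u := by
      intro u v e
      obtain ⟨_, _, q3, q4, _, q6⟩ := (hy j q).sp u v (by simp [e])
      refine ⟨q3, by simp [q4], ?_⟩
      exact_mod_cast (up j q v (Or.inl q4)).trans_lt (q6.trans_le (lo j q u (Or.inl q3)))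
    rcases (c1 j q u v).1 e with r | r
    · exact Or.inr (Or.inl (key _ _ r))
    · exact Or.inr (Or.inr (key _ _ r))
  · by_cases q2 : j = g + 2
    · subst q2
      exact Or.inl ⟨s1 u, s1 v⟩
    obtain rfl : j = g + 1 := by omega
    have : co (g + 1) u.1 ≠ co (g + 1) v.1 := by
      intro r
      obtain ⟨b1, b2⟩ := hcov u v (fun q => huv (Subtype.ext q)) r
        fun q => q2 (e.symm.trans ((c2 u v).2 q))
      have : E (own u v) u v := by
        rw [co_add] at b2
        rcases f2_cases (co (own u v) u.1) with b | b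
        · exact Or.inr ((hy _ b1).fx v v.2 u u.2 (by simpa [b] using b2) b (hs _ _) r.symm)
        · exact Or.inl ((hy _ b1).fx u u.2 v v.2 b (by simpa [b] using b2) rfl r)
      have := (c1 _ b1 u v).2 this
      omega
    rcases f2_cases (co (g + 1) u.1) with b | b
    · have b' : co (g + 1) v.1 = 1 := f2_ne0.1 (b ▸ this.symm)
      exact Or.inr (Or.inr ⟨b', by simp [b], sk v u b' b⟩)
    · have b' : co (g + 1) v.1 = 0 := f2_ne1.1 (b ▸ this.symm)
      exact Or.inr (Or.inl ⟨b, by simp [b'], sk u v b b'⟩)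

end Pool.Agent.Lib.MP_71763b_co
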