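import Pool.Agent.Lib.MP_71763b_co.Core

namespace Pool.Agent.Lib.MP_71763b_co

def STab (k : ℕ) (ρ : ℕ → ℕ) (n : ℕ) (d : ℕ → ℕ) : Prop :=
  ∃ (c : Fin n → Fin n → ℕ) (x : ℕ → Fin n → ℕ), (∀ u v, c u v = c v u) ∧
    (∀ u v, u ≠ v → c u v < k) ∧ (∀ j v, x j v < ρ j) ∧
    (∀ j u v, R c j u v → x j u < x j v) ∧ ∀ j v, deg c j v ≤ d j

theorem STab.tab {k n : ℕ} {ρ d : ℕ → ℕ} (h : STab k ρ n d) : Tab ρ n d := by
  obtain ⟨c, x, h1, _, h3, h4, h5⟩ := h
  exact ⟨c, ⟨h1, fun j l _ hC => lab_bound (x j) _ (h3 j) (h4 j) l hC⟩, h5⟩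

theorem STab.blow {k n N t : ℕ} {ρ d ρ' d' : ℕ → ℕ} (h : STab k ρ n d) (hn : 0 < n) (ht : t < N)
    (hb1 : Tab ρ' N d') (hb2 : Tab ρ' (N - t) d') (h0 : ∀ j < k, ρ' j ≤ 1) :
    Tab (fun j => if j < k then ρ j else ρ' j) (n * N - t)
      (fun j => if j < k then N * d j else d' j) := by
  classical
  obtain ⟨c, x, h1, h2, h3, h4, h5⟩ := h
  let u0 : Fin n := ⟨0, hn⟩
  let s : Fin n → ℕ := fun u => if u = u0 then N - t else N
  have hb : ∀ u, Tab ρ' (s u) d' := by
    intro u
    simp only [s]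
    split_ifs
    exacts [hb2, hb1]
  choose b hbG hbd using hb
  have hst : ∀ u, s u + (if u = u0 then t else 0) = N := by
    intro u
    simp only [s]
    split_ifs <;> omega
  let C : (Σ u, Fin (s u)) → (Σ u, Fin (s u)) → ℕ := fun p q =>
    if h : q.1 = p.1 then b p.1 p.2 (h ▸ q.2) else c p.1 q.1
  have Cs : ∀ u (i i' : Fin (s u)), C ⟨u, i⟩ ⟨u, i'⟩ = b u i i' := by
    intro u i i'; simp [C]
  have Cd : ∀ u v (i : Fin (s u)) (i' : Fin (s v)), v ≠ u → C ⟨u, i⟩ ⟨v, i'⟩ = c u v := by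
    intro u v i i' h; simp [C, h]
  have hne : ∀ j < k, ∀ u (i i' : Fin (s u)), i ≠ i' → b u i i' ≠ j := fun j hj u =>
    no_edge (hbG u).1 ((hbG u).2 j) (h0 j hj)
  have dO : ∀ j < k, ∀ u (i : Fin (s u)),
      deg C j ⟨u, i⟩ = ∑ v, ind (v ≠ u ∧ c u v = j) * s v := by
    intro j hj u i
    unfold deg
    rw [Fintype.sum_sigma]
    refine Finset.sum_congr rfl fun v _ => ?_
    by_cases hv : v = u
    · subst hv
      rw [ind_neg (by simp), zero_mul]
      refine Finset.sum_eq_zero fun i' _ => ind_neg ?_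
      rintro ⟨g1, g2⟩
      rw [Cs] at g2
      exact hne j hj v i i' (fun h => g1 (by rw [h])) g2
    · have : ∀ i' : Fin (s v), ind ((⟨v, i'⟩ : Σ u, Fin (s u)) ≠ ⟨u, i⟩ ∧ C ⟨u, i⟩ ⟨v, i'⟩ = j) =
          ind (v ≠ u ∧ c u v = j) := by
        intro i'
        rw [Cd u v i i' hv]
        congr 1
        simp [hv]
      simp only [this]
      simp [mul_comm]
  have dI : ∀ j, ¬ j < k → ∀ u (i : Fin (s u)), deg C j ⟨u, i⟩ = deg (b u) j i := by
    intro j hj u i
    unfold deg
    rw [Fintype.sum_sigma, Finset.sum_eq_single u]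
    · refine Finset.sum_congr rfl fun i' _ => ?_
      rw [Cs]
      congr 1
      simp
    · intro v _ hv
      refine Finset.sum_eq_zero fun i' _ => ind_neg ?_
      rintro ⟨_, g2⟩
      rw [Cd u v i i' hv] at g2
      have := h2 u v (Ne.symm hv)
      omega
    · simp
  have dU : ∀ j < k, ∀ u (i : Fin (s u)),
      deg C j ⟨u, i⟩ ≤ N * deg c j u ∧ N * deg c j u ≤ deg C j ⟨u, i⟩ + t := by
    intro j hj u i
    rw [dO j hj]
    unfold deg
    rw [Finset.mul_sum]
    constructor
    · refine Finset.sum_le_sum fun v _ => ?_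
      have := hst v
      rw [mul_comm N]
      exact Nat.mul_le_mul_left _ (by omega)
    · have e : t = ∑ v : Fin n, if v = u0 then t else 0 := by simp
      conv_rhs => rw [e, ← Finset.sum_add_distrib]
      refine Finset.sum_le_sum fun v _ => ?_
      have := hst v
      by_cases hp : v ≠ u ∧ c u v = j
      · rw [ind_pos hp]; omega
      · rw [ind_neg hp]; omega
  refine Tab.of C ?_ ⟨?_, ?_⟩ ?_
  · rw [Fintype.card_sigma]
    simp only [Fintype.card_fin]
    have e : ∑ v : Fin n, (s v + if v = u0 then t else 0) = n * N := by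
      simp only [hst]; simp
    rw [Finset.sum_add_distrib] at e
    simp at e
    omega
  · rintro ⟨u, i⟩ ⟨v, i'⟩
    by_cases hv : v = u
    · subst hv; rw [Cs, Cs, (hbG v).1]
    · rw [Cd u v i i' hv, Cd v u i' i (Ne.symm hv), h1]
  · intro j l hN hC
    dsimp only
    split_ifs with hj
    · refine lab_bound (fun p => x j p.1) _ (fun p => h3 j p.1) ?_ l hC
      rintro ⟨u, i⟩ ⟨v, i'⟩ ⟨g1, g2, g3⟩
      have hv : v ≠ u := by
        rintro rfl
        rw [Cs] at g2
        exact hne j hj v i i' (fun h => g1 (by rw [h])) g2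
      rw [Cd u v i i' hv] at g2
      refine h4 j u v ⟨hv.symm, g2, ?_⟩
      by_contra hlt
      have a1 := (dU j hj u i).2
      have a2 := (dU j hj v i').1
      have a3 : N * (deg c j v + 1) ≤ N * deg c j u := Nat.mul_le_mul_left _ (by omega)
      rw [mul_add] at a3
      omega
    · cases l with
      | nil => simp
      | cons p tl =>
        obtain ⟨u, i⟩ := p
        refine bound_of_range (Q' := R (b u) j) (fun i' : Fin (s u) => (⟨u, i'⟩ : Σ u, Fin (s u)))
          ?_ ((hbG u).2 j) _ ?_ hN hC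
        · rintro a a' ⟨g1, g2, g3⟩
          rw [dI j hj, dI j hj] at g3
          rw [Cs] at g2
          exact ⟨fun h => g1 (by rw [h]), g2, g3⟩
        · refine chain_inv (P := fun y => ∃ i' : Fin (s u), (⟨u, i'⟩ : Σ u, Fin (s u)) = y) ?_ tl _ hC
            ⟨i, rfl⟩
          rintro _ ⟨v, i''⟩ ⟨g1, g2, g3⟩ ⟨i', rfl⟩
          by_cases hv : v = u
          · subst hv; exact ⟨i'', rfl⟩
          · rw [Cd u v i' i'' hv] at g2
            have := h2 u v (Ne.symm hv)
            omega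
  · rintro j ⟨u, i⟩
    split_ifs with hj
    · exact (dU j hj u i).1.trans (Nat.mul_le_mul_left _ (h5 j u))
    · rw [dI j hj]; exact hbd u j i

/-- labels from longest increasing chains -/
theorem exists_lab {n : ℕ} {c : Fin n → Fin n → ℕ} {j r : ℕ} (hs : ∀ u v, c u v = c v u)
    (h : NoPath c j r) :
    ∃ x : Fin n → ℕ, (∀ v, x v < r) ∧ ∀ u v, u ≠ v → c u v = j →
      (x u < x v ∧ deg c j u ≤ deg c j v) ∨ (x v < x u ∧ deg c j v ≤ deg c j u) := by
  classical
  let key : Fin n → ℕ := fun v => deg c j v * n + v.val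
  have hkey : ∀ u v, key u < key v → deg c j u ≤ deg c j v := by
    intro u v huv
    by_contra hlt
    have : (deg c j v + 1) * n ≤ deg c j u * n := Nat.mul_le_mul_right _ (by omega)
    have := v.2
    simp only [key] at huv
    rw [add_mul] at *
    omega
  have hinj : ∀ u v, key u = key v → u = v := by
    intro u v huv
    have h1 : key u % n = u.val := by
      simp only [key]; rw [Nat.mul_add_mod_of_lt u.2]
    have h2 : key v % n = v.val := by
      simp only [key]; rw [Nat.mul_add_mod_of_lt v.2]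
    exact Fin.ext (by rw [← h1, ← h2, huv])
  let Q : Fin n → Fin n → Prop := fun u v => c u v = j ∧ key u < key v
  have hb : ∀ l : List (Fin n), l.IsChain Q → l.length ≤ r := by
    intro l hl
    refine h l ?_ (hl.imp ?_)
    · have : (l.map key).Pairwise (· < ·) := by
        rw [← List.isChain_iff_pairwise, List.isChain_map]
        exact hl.imp fun a b h => h.2
      exact List.Nodup.of_map key (this.imp fun h => ne_of_lt h)
    · rintro a b ⟨g1, g2⟩
      exact ⟨fun e => by rw [e] at g2; omega, g1, hkey _ _ g2⟩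
  let P : Fin n → ℕ → Prop := fun v m => ∃ l : List (Fin n), l.length = m ∧ (v :: l).IsChain Q
  have hP : ∀ v m, P v m → m < r := by
    rintro v m ⟨l, rfl, hl⟩
    have := hb _ hl
    simp at this; omega
  have hP0 : ∀ v, P v 0 := fun v => ⟨[], rfl, by simp⟩
  let y : Fin n → ℕ := fun v => Nat.findGreatest (P v) r
  have hy : ∀ v, P v (y v) := fun v => Nat.findGreatest_spec (Nat.zero_le r) (hP0 v)
  have hQ : ∀ u v, Q u v → y v < y u := by
    intro u v huv
    obtain ⟨l, h1, h2⟩ := hy v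
    have : P u (y v + 1) := ⟨v :: l, by simp [h1], by rw [List.isChain_cons_cons]; exact ⟨huv, h2⟩⟩
    exact Nat.le_findGreatest (hP _ _ this).le this
  refine ⟨fun v => r - 1 - y v, fun v => by have := hP _ _ (hy v); dsimp only; omega, ?_⟩
  intro u v huv hc
  have a1 := hP _ _ (hy u)
  have a2 := hP _ _ (hy v)
  dsimp only
  rcases lt_trichotomy (key u) (key v) with hk | hk | hk
  · left
    have := hQ u v ⟨hc, hk⟩
    exact ⟨by omega, hkey _ _ hk⟩
  · exact absurd (hinj _ _ hk) huv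
  · right
    have := hQ v u ⟨by rw [hs, hc], hk⟩
    exact ⟨by omega, hkey _ _ hk⟩

theorem upper {n k r : ℕ} {c : Fin n → Fin n → ℕ} (hs : ∀ u v, c u v = c v u)
    (hk : ∀ u v, c u v < k) (h : ∀ j < k, NoPath c j r) : n ≤ r ^ k := by
  choose x hx1 hx2 using fun j : Fin k => exists_lab hs (h j.1 j.2)
  let φ : Fin n → (Fin k → Fin r) := fun v j => ⟨x j v, hx1 j v⟩
  have : Function.Injective φ := by
    intro u v huv
    by_contra hne
    have := hx2 ⟨c u v, hk u v⟩ u v hne rfl
    have e : x ⟨c u v, hk u v⟩ u = x ⟨c u v, hk u v⟩ v :=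
      congrArg Fin.val (congrFun huv ⟨c u v, hk u v⟩)
    omega
  simpa using Fintype.card_le_of_injective φ this

end Pool.Agent.Lib.MP_71763b_co
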