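import Pool.Agent.Lib.MP_71763b_co.Tree

namespace Pool.Agent.Lib.MP_71763b_co

theorem chain_and_ne {V : Type} {Q : V → V → Prop} : ∀ l : List V, l.Nodup → l.IsChain Q →
    l.IsChain (fun a b => a ≠ b ∧ Q a b)
  | [], _, _ => by simp
  | [_], _, _ => by simp
  | a :: b :: t, hN, hC => by
    rw [List.isChain_cons_cons] at hC ⊢
    rw [List.nodup_cons] at hN
    exact ⟨⟨fun h => hN.1 (by simp [h]), hC.1⟩, chain_and_ne _ hN.2 hC.2⟩

theorem deg_two {n : ℕ} {c : Fin n → Fin n → ℕ} (h2 : ∀ u v, c u v < 2) (v : Fin n) :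
    deg c 0 v + deg c 1 v + 1 = n := by
  have h := deg_lt (fun _ _ : Fin n => 0) 0 v
  have e : deg c 0 v + deg c 1 v = ∑ u : Fin n, if u ≠ v then 1 else 0 := by
    unfold deg
    rw [← Finset.sum_add_distrib]
    refine Finset.sum_congr rfl fun u _ => ?_
    have := h2 v u
    by_cases g1 : u = v
    · simp [g1]
    · by_cases g2 : c v u = 0
      · simp [g1, g2]
      · have g3 : c v u = 1 := by omega
        simp [g1, g3]
  rw [e, ← Finset.card_filter]
  have : (Finset.univ.filter fun u : Fin n => u ≠ v) = Finset.univ.erase v := by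
    ext u; simp
  rw [this, Finset.card_erase_of_mem (by simp), Finset.card_univ, Fintype.card_fin]
  have := v.2
  omega

def Lab {n : ℕ} (c : Fin n → Fin n → ℕ) (j : ℕ) (x : Fin n → ℕ) : Prop :=
  ∀ u v, u ≠ v → c u v = j →
    (x u < x v ∧ deg c j u ≤ deg c j v) ∨ (x v < x u ∧ deg c j v ≤ deg c j u)

theorem model_of {n r : ℕ} (hn : n ≤ 32) {c : Fin n → Fin n → ℕ} (hs : ∀ u v, c u v = c v u)
    (h2 : ∀ u v, c u v < 2) (h0 : NoPath c 0 r) (h1 : NoPath c 1 r) (A Y : ℕ → ℕ)
    (hA : Lab c 0 fun v => A v) (hY : Lab c 1 fun v => Y v) :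
    ∃ e f, Model n r A Y e f := by
  let e : ℕ → ℕ → Bool := fun i j =>
    if h : i < n ∧ j < n then decide (c ⟨i, h.1⟩ ⟨j, h.2⟩ = 0) else false
  let f : ℕ → ℕ := fun i => if h : i < n then deg c 0 ⟨i, h⟩ else 0
  have he : ∀ u v : Fin n, e u v = decide (c u v = 0) := by
    intro u v; simp [e]
  have hf : ∀ u : Fin n, f u = deg c 0 u := by
    intro u; simp [f]
  refine ⟨e, f, hn, ?_, ?_, ?_, ?_, ?_, ?_⟩
  · intro i j
    by_cases hi : i < n <;> by_cases hj : j < n <;> simp [e, hi, hj]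
    rw [hs]
  · intro i hi
    obtain ⟨u, rfl⟩ : ∃ u : Fin n, u.val = i := ⟨⟨i, hi⟩, rfl⟩
    rw [hf, ← Fin.sum_univ_eq_sum_range (fun j => if j ≠ u.val ∧ e u j = true then 1 else 0)]
    unfold deg
    refine Finset.sum_congr rfl fun v _ => ?_
    rw [ind_eq, he]
    simp [Fin.ext_iff]
  · intro i hi j hj hij h
    obtain ⟨u, rfl⟩ : ∃ u : Fin n, u.val = i := ⟨⟨i, hi⟩, rfl⟩
    obtain ⟨v, rfl⟩ : ∃ u : Fin n, u.val = j := ⟨⟨j, hj⟩, rfl⟩
    rw [he] at h
    rw [hf, hf]
    exact hA u v (fun g => hij (by rw [g])) (by simpa using h)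
  · intro i hi j hj hij h
    obtain ⟨u, rfl⟩ : ∃ u : Fin n, u.val = i := ⟨⟨i, hi⟩, rfl⟩
    obtain ⟨v, rfl⟩ : ∃ u : Fin n, u.val = j := ⟨⟨j, hj⟩, rfl⟩
    rw [he] at h
    rw [hf, hf]
    have a := h2 u v
    have a0 : c u v ≠ 0 := by simpa using h
    have := hY u v (fun g => hij (by rw [g])) (by omega)
    have b1 := deg_two h2 u
    have b2 := deg_two h2 v
    dsimp only at this
    omega
  · intro l hl hN hC
    refine bound_of_range (Q' := R c 0) Fin.val ?_ h0 l (fun x hx => ⟨⟨x, hl x hx⟩, rfl⟩) hN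
      (chain_and_ne l hN hC)
    rintro u v ⟨g1, g2, g3⟩
    rw [he] at g2
    rw [hf, hf] at g3
    exact ⟨fun g => g1 (by rw [g]), by simpa using g2, g3⟩
  · intro l hl hN hC
    refine bound_of_range (Q' := R c 1) Fin.val ?_ h1 l (fun x hx => ⟨⟨x, hl x hx⟩, rfl⟩) hN
      (chain_and_ne l hN hC)
    rintro u v ⟨g1, g2, g3⟩
    rw [he] at g2
    rw [hf, hf] at g3
    have a := h2 u v
    have a0 : c u v ≠ 0 := by simpa using g2
    have b1 := deg_two h2 u
    have b2 := deg_two h2 v
    exact ⟨fun g => g1 (by rw [g]), by omega, by omega⟩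

theorem infeas {n r : ℕ} (hn : n ≤ 32) (cells : List ℕ) (hlen : cells.length = n) (t : Tr)
    (ht : chk n r (fun i => cells.getD i 0 / r) (fun i => cells.getD i 0 % r) t 0 0 0 0 = true)
    {c : Fin n → Fin n → ℕ} (hs : ∀ u v, c u v = c v u)
    (h2 : ∀ u v, c u v < 2) (h0 : NoPath c 0 r) (h1 : NoPath c 1 r) (x y : Fin n → ℕ)
    (hy : ∀ v, y v < r) (hA : Lab c 0 x) (hY : Lab c 1 y) (hin : ∀ v, x v * r + y v ∈ cells) :
    False := by
  have hdiv : ∀ v, (x v * r + y v) / r = x v := by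
    intro v
    have := hy v
    rw [add_comm, Nat.add_mul_div_right _ _ (by omega), Nat.div_eq_of_lt this, zero_add]
  have hmod : ∀ v, (x v * r + y v) % r = y v := fun v => Nat.mul_add_mod_of_lt (hy v)
  let ψ : Fin n → Fin n := fun v => ⟨cells.idxOf (x v * r + y v), by
    rw [← hlen]; exact List.idxOf_lt_length_of_mem (hin v)⟩
  have hψ : ∀ v, cells.getD (ψ v) 0 = x v * r + y v := by
    intro v
    rw [List.getD_eq_getElem _ _ (List.idxOf_lt_length_of_mem (hin v))]
    exact List.getElem_idxOf _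
  have hinj : Function.Injective ψ := by
    intro u v huv
    by_contra hne
    have e : x u * r + y u = x v * r + y v := by rw [← hψ, ← hψ, huv]
    have e1 : x u = x v := by rw [← hdiv u, e, hdiv]
    have e2 : y u = y v := by rw [← hmod u, e, hmod]
    have := h2 u v
    rcases Nat.eq_zero_or_pos (c u v) with g | g
    · have := hA u v hne g; omega
    · have := hY u v hne (by omega); omega
  let w : Fin n ≃ Fin n := (Equiv.ofBijective ψ (Finite.injective_iff_bijective.1 hinj)).symm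
  have hw : ∀ i, ψ (w i) = i := fun i => (Equiv.ofBijective ψ _).apply_symm_apply i
  have hG : Good c (fun j => if j < 2 then r else 1) := by
    refine ⟨hs, fun j => ?_⟩
    by_cases g0 : j = 0
    · subst g0; exact h0
    by_cases g1 : j = 1
    · subst g1; exact h1
    · refine noPath_of_no_edge (by dsimp only; rw [if_neg (by omega)]) fun u v _ e => ?_
      have := h2 u v
      omega
  have hG' := hG.equiv w
  obtain ⟨e, f, M⟩ := model_of hn hG'.1 (fun u v => h2 _ _) (hG'.2 0) (hG'.2 1)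
    (fun i => cells.getD i 0 / r) (fun i => cells.getD i 0 % r) (by
      intro u v huv hc
      have a1 := hψ (w u)
      have a2 := hψ (w v)
      rw [hw] at a1 a2
      simp only [a1, a2, hdiv, deg_equiv]
      exact hA _ _ (fun g => huv (w.injective g)) hc) (by
      intro u v huv hc
      have a1 := hψ (w u)
      have a2 := hψ (w v)
      rw [hw] at a1 a2
      simp only [a1, a2, hmod, deg_equiv]
      exact hY _ _ (fun g => huv (w.injective g)) hc)
  exact chk_sound M t 0 0 0 0 (val_zero _ _) (val_zero _ _) (val_zero _ _) (val_zero _ _) ht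

theorem infeas_full {r : ℕ} (hn : r * r ≤ 32) (t : Tr)
    (ht : chk (r * r) r (fun i => (List.range (r * r)).getD i 0 / r)
      (fun i => (List.range (r * r)).getD i 0 % r) t 0 0 0 0 = true)
    {c : Fin (r * r) → Fin (r * r) → ℕ} (hs : ∀ u v, c u v = c v u)
    (h2 : ∀ u v, c u v < 2) (h0 : NoPath c 0 r) (h1 : NoPath c 1 r) : False := by
  obtain ⟨x, hx, hA⟩ := exists_lab hs h0
  obtain ⟨y, hy, hY⟩ := exists_lab hs h1
  refine infeas hn _ (by simp) t ht hs h2 h0 h1 x y hy hA hY fun v => ?_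
  have a1 := hx v
  have a2 := hy v
  rw [List.mem_range]
  nlinarith

theorem infeas_one {n r : ℕ} (hn : n ≤ 32) (hr : n + 1 = r * r) (t : ℕ → Tr)
    (ht : ∀ o < r * r, chk n r (fun i => ((List.range (r * r)).erase o).getD i 0 / r)
      (fun i => ((List.range (r * r)).erase o).getD i 0 % r) (t o) 0 0 0 0 = true)
    {c : Fin n → Fin n → ℕ} (hs : ∀ u v, c u v = c v u)
    (h2 : ∀ u v, c u v < 2) (h0 : NoPath c 0 r) (h1 : NoPath c 1 r) : False := by
  obtain ⟨x, hx, hA⟩ := exists_lab hs h0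
  obtain ⟨y, hy, hY⟩ := exists_lab hs h1
  have : ∃ o < r * r, ∀ v, x v * r + y v ≠ o := by
    by_contra hcon
    push Not at hcon
    have : Finset.range (r * r) ⊆ Finset.univ.image fun v => x v * r + y v := by
      intro o ho
      obtain ⟨v, hv⟩ := hcon o (by simpa using ho)
      exact Finset.mem_image.2 ⟨v, by simp, hv⟩
    have := (Finset.card_le_card this).trans Finset.card_image_le
    simp at this
    omega
  obtain ⟨o, ho, hv⟩ := this
  refine infeas hn _ ?_ (t o) (ht o ho) hs h2 h0 h1 x y hy hA hY fun v => ?_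
  · rw [List.length_erase_of_mem (by simpa using ho), List.length_range]; omega
  · have a1 := hx v
    have a2 := hy v
    rw [List.mem_erase_of_ne (hv v), List.mem_range]
    nlinarith

end Pool.Agent.Lib.MP_71763b_co
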