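import Pool.Agent.Lib.MP_71763b_co.Slices

namespace Pool.Agent.Lib.MP_71763b_co

open Finset

/-- numerical conditions of the construction -/
structure Num (g b t r mm lam κ a L X : ℕ) (q M N nj lo hi mx L1 X1 Ip Im : ℝ) : Prop where
  g14 : 14 ≤ g
  hb : b + 4 ≤ g
  hr : 2 ≤ r
  mm2 : mm ≤ 2
  t5 : 5 ≤ t
  tag1 : g ≤ 2 ^ b
  tag2 : g < 2 ^ (g - 1 - (b + 3))
  hκ : 2 ^ g ≤ 14 * κ
  l1 : 8 * 2 ^ b ≤ lam * 2 ^ r
  l2 : lam + 1 ≤ 4 * 2 ^ b
  l3 : 16 * 2 ^ b ≤ t * lam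
  hq : q = 2 ^ g
  hM : M = 2 ^ (g - 1 - b)
  hN : N = 2 ^ b
  hnj : lam * 2 ^ (g - b - 2) + (3 / 4) ^ g * (4 * q) ≤ nj
  s0 : g * L + (t - 2) * X ≤ 4 * q - 6 - nj
  hlo : g * lo ≤ 4 * q - 6 - nj - (t - 2) * X - g
  hhi : 4 * q + g + g * mm * X ≤ g * hi
  h0 : ∀ m : ℕ, 1 ≤ m → m < g → (3 / 4) ^ m * (4 * q) ≤ (g - m) * lo ∨
    (3 / 4) ^ m * (4 * q) + m * hi ≤ 4 * q - 6 - nj
  k1 : ∀ μ : ℕ, μ ≤ mm → 2 * q + 19 * t + 2 ≤ (L + μ * X) * (t - 2 * μ)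
  k2 : hi * t + 16 * t + 10 ≤ 6 * q
  k3 : mm * hi + 4 * κ + 8 * t ≤ q
  k4 : 2 * q + mm * hi + 17 * t ≤ mx * (t - mm)
  k5 : mm * (mx + 1) + 4 * κ + 8 * t ≤ q
  k6 : 13 * t + 4 ≤ q
  k7 : a * t + 18 * t + 2 ≤ 2 * q
  k8 : 2 * q + 17 * t ≤ L1 * t
  k9 : L1 + hi ≤ X1 * (t - mm)
  h1 : ∀ m : ℕ, 1 ≤ m → m ≤ g →
    (3 / 4) ^ m * (4 * q) + m * (mx - a) ≤ 4 * q - (g * (M + 8 * N + 2) + 8 * N) ∨
    (3 / 4) ^ m * (4 * q) + (g * L1 + (t - 2) * X1 - g * a) ≤ 4 * q - (g * (M + 8 * N + 2) + 8 * N)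
  n0 : 2 * t < M
  n1 : 12 ≤ a
  n5 : Ip = 16 * M + 2 * t * a
  n6 : Im = M * (t + 6) + 2 * t * a
  n7 : 2 * Ip + Im ≤ N * 8 * (M - 2 * t)
  n9 : 2 * Ip + Im ≤ (a - 12) * (M - 2 * t)
  n10 : (a + 4) * (a + t) ≤ (M - 2 * t) * (a - 6) - 2 * Ip

variable {g : ℕ}

theorem mono_des {z : Cu g} (h : ∀ i < g, ¬ Des i z) (n : ℕ) (hn : co n z = 1) :
    ∀ m, n + m ≤ g → co (n + m) z = 1 := by
  intro m
  induction m with
  | zero => exact fun _ => hn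
  | succ m ih => exact fun q => f2_ne0.1 fun e => h (n + m) (by omega) ⟨ih (by omega), e⟩

def Y0 (Dj : Finset (Cu g)) (z : Cu g) : Prop := co (g + 1) z = 0 ∧ ¬ (z = 0 ∨ z = ee g (g + 2)) ∧
  ¬ (z = W1 g ∨ z = W2 g) ∧ ¬ (z = G1 g ∨ z = G2 g) ∧ z ∉ Dj

def Y1 (b : ℕ) (z : Cu g) : Prop := co (g + 1) z = 1 ∧ ¬ ∃ i, Reg b i z

theorem Y0_card (Dj : Finset (Cu g)) : 4 * 2 ^ g ≤ (fs (Y0 Dj)).card + (6 + Dj.card) ∧
    (fs (Y0 Dj)).card ≤ 4 * 2 ^ g := by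
  classical
  have a1 : fs (fun z : Cu g => co (g + 1) z = 0) ⊆ fs (Y0 Dj) ∪
      ({0, ee g (g + 2), W1 g, W2 g, G1 g, G2 g} ∪ Dj) := fun z hz => by
    simp only [mem_fs, mem_union, mem_insert, mem_singleton, Y0] at hz ⊢
    tauto
  exact ⟨(card_slice 0).ge.trans ((card_le_card a1).trans ((card_union_le _ _).trans
    (add_le_add le_rfl ((card_union_le _ _).trans (add_le_add card_le_six le_rfl))))),
    (fs_le fun _ h => h.1).trans (card_slice 0).le⟩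

theorem Y0_des {Dj : Finset (Cu g)} (j3 : ∀ z, Bs z → (∀ i < g, ¬ Des i z) → z ∈ Dj) (z : Cu g)
    (hz : Y0 Dj z) : ∃ i < g, Des i z := by
  by_contra e
  push Not at e
  rcases f2_cases (co g z) with c | c
  · rcases eq_W 0 (fun n hn => f2_ne1.1 fun d => by
      have := mono_des e n d (g - n) (by omega)
      rw [show n + (g - n) = g by omega, c] at this
      exact absurd this (by decide)) hz.1 with d | d
    exacts [hz.2.1 d.2, absurd d.1 (by decide)]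
  · rcases f2_cases (co 0 z) with c' | c'
    · exact hz.2.2.2.2 (j3 z ⟨c, c', hz.1⟩ e)
    · rcases eq_W 1 (fun n hn => by simpa using mono_des e 0 c' n (by omega)) hz.1 with d | d
      exacts [absurd d.1 (by decide), hz.2.2.1 d.2]

theorem exists_n0 {t mm L X y : ℕ} {q nj lo hi : ℝ} (μ : ℕ → ℕ) (g0 : 0 < g)
    (μ1 : ∑ i ∈ range g, (μ i : ℝ) ≤ t - 2) (μ2 : ∀ i < g, (μ i : ℝ) ≤ mm)
    (y1 : 4 * q - 6 - nj ≤ y) (y2 : y ≤ 4 * q) (s0 : g * L + (t - 2) * X ≤ 4 * q - 6 - nj)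
    (hlo : g * lo ≤ 4 * q - 6 - nj - (t - 2) * X - g) (hhi : 4 * q + g + g * mm * X ≤ g * hi) :
    ∃ n0 : ℕ → ℕ, ∑ i ∈ range g, n0 i = y ∧
      ∀ i < g, (lo ≤ n0 i ∧ n0 i ≤ hi) ∧ (L + μ i * X : ℝ) ≤ n0 i := by
  have X0 : (0 : ℝ) ≤ X := Nat.cast_nonneg _
  have g0' : (0 : ℝ) < g := by exact_mod_cast g0
  have c1 : ((∑ i ∈ range g, (L + μ i * X) : ℕ) : ℝ) = g * L + (∑ i ∈ range g, (μ i : ℝ)) * X := by
    simp [sum_add_distrib, sum_mul]
  have c2 := mul_le_mul_of_nonneg_right μ1 X0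
  have c3 : ∑ i ∈ range g, (L + μ i * X) ≤ y := (Nat.cast_le (α := ℝ)).1 (by linarith)
  obtain ⟨E, hE⟩ := Nat.exists_eq_add_of_le c3
  obtain ⟨ex, ex1, ex2⟩ := exists_split g E g0
  have c4 : (g : ℝ) * (E / g : ℕ) ≤ E ∧ (E : ℝ) ≤ g * (E / g : ℕ) + g := by
    have := Nat.div_add_mod E g
    have := Nat.mod_lt E g0
    exact ⟨by exact_mod_cast (by omega : g * (E / g) ≤ E),
      by exact_mod_cast (by omega : E ≤ g * (E / g) + g)⟩
  have c5 := congrArg (Nat.cast : ℕ → ℝ) hE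
  rw [Nat.cast_add, c1] at c5
  have c6 : 0 ≤ (∑ i ∈ range g, (μ i : ℝ)) * X :=
    mul_nonneg (sum_nonneg fun _ _ => Nat.cast_nonneg _) X0
  refine ⟨fun i => L + μ i * X + ex i, by rw [sum_add_distrib, ex1, hE], fun i hi' => ?_⟩
  have a1 : ((E / g : ℕ) : ℝ) ≤ ex i := Nat.cast_le.2 (ex2 i).1
  have a2 : (ex i : ℝ) ≤ (E / g : ℕ) + 1 := by exact_mod_cast (ex2 i).2
  have a3 := mul_le_mul_of_nonneg_left a1 g0'.le
  have a4 := mul_le_mul_of_nonneg_left a2 g0'.le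
  have a5 := mul_le_mul_of_nonneg_left (mul_le_mul_of_nonneg_right (μ2 i hi') X0) g0'.le
  have a6 : 0 ≤ (g : ℝ) * (μ i * X) := by positivity
  push_cast
  exact ⟨⟨le_of_mul_le_mul_left (by linarith) g0', le_of_mul_le_mul_left (by linarith) g0'⟩,
    le_add_of_nonneg_right (Nat.cast_nonneg _)⟩

theorem m_bd {q t mm μ n m hi mx L1 X1 : ℝ} (t5 : 5 ≤ t) (mm2 : mm ≤ 2) (μ0 : 0 ≤ μ) (μ1 : μ ≤ mm)
    (n0 : 0 ≤ n) (n1 : n ≤ hi) (mx0 : 0 ≤ mx) (X10 : 0 ≤ X1)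
    (k4 : 2 * q + mm * hi + 17 * t ≤ mx * (t - mm)) (k8 : 2 * q + 17 * t ≤ L1 * t)
    (k9 : L1 + hi ≤ X1 * (t - mm)) (h : m * (t - μ) ≤ 2 * q + μ * n + 17 * t) :
    m ≤ mx ∧ m ≤ L1 + μ * X1 := by
  have a7 := mul_le_mul μ1 n1 n0 (μ0.trans μ1)
  have a9 : (0 : ℝ) < t - μ := by linarith
  constructor <;> refine le_of_mul_le_mul_right ?_ a9
  · linarith [mul_le_mul_of_nonneg_left μ1 mx0]
  · have b1 := mul_le_mul_of_nonneg_left k9 μ0
    have b2 := mul_le_mul_of_nonneg_left μ1 (mul_nonneg μ0 X10)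
    have b3 := mul_le_mul_of_nonneg_left n1 μ0
    linarith

open Classical in
noncomputable def own (b : ℕ) (fW f0 f1 : Cu g → ℕ) (Dj : Finset (Cu g)) (x u : Cu g) : ℕ :=
  if co (g + 1) (x + u) = 1 then
    if h : ∃ i, Reg b i (x + u) then h.choose else if f1 (x + u) < g then f1 (x + u) else g + 1
  else if x + u = W1 g ∨ x + u = W2 g then fW x
  else if x + u = G1 g ∨ x + u = G2 g then if PJ (G1 g) (G2 g) x u then g else 1
  else if x + u ∈ Dj then g else if x + u = 0 ∨ x + u = ee g (g + 2) then g + 1 else f0 (x + u)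

section
variable {b : ℕ} {fW f0 f1 : Cu g → ℕ} {Dj : Finset (Cu g)}

theorem own_reg (h1 : g ≤ 2 ^ b) (h2 : g < 2 ^ (g - 1 - (b + 3))) {x u : Cu g} {i : ℕ}
    (h : Reg b i (x + u)) : own b fW f0 f1 Dj x u = i := by
  rw [own, if_pos h.key.2.1, dif_pos ⟨i, h⟩]
  exact Reg.uniq h1 h2 (Exists.choose_spec (⟨i, h⟩ : ∃ i, Reg b i (x + u))) h

theorem own_cases {x u : Cu g} (h : co (g + 1) x = co (g + 1) u) :
    ((x + u = W1 g ∨ x + u = W2 g) ∧ own b fW f0 f1 Dj x u = fW x) ∨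
    ((x + u ∈ Dj ∨ PJ (G1 g) (G2 g) x u) ∧ own b fW f0 f1 Dj x u = g) ∨
    (PR x u ∧ own b fW f0 f1 Dj x u = 1) ∨
    ((x + u = 0 ∨ x + u = ee g (g + 2)) ∧ own b fW f0 f1 Dj x u = g + 1) ∨
    (Y0 Dj (x + u) ∧ own b fW f0 f1 Dj x u = f0 (x + u)) := by
  have h' : co (g + 1) (x + u) = 0 := by rw [co_add, h, f2_self]
  rw [own, if_neg (f2_ne1.2 h')]
  split_ifs with a b c d e
  · exact Or.inl ⟨a, rfl⟩
  · exact Or.inr (Or.inl ⟨Or.inr c, rfl⟩)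
  · exact Or.inr (Or.inr (Or.inl ⟨⟨b, c⟩, rfl⟩))
  · exact Or.inr (Or.inl ⟨Or.inl d, rfl⟩)
  · exact Or.inr (Or.inr (Or.inr (Or.inl ⟨e, rfl⟩)))
  · exact Or.inr (Or.inr (Or.inr (Or.inr ⟨⟨h', e, a, b, d⟩, rfl⟩)))

theorem own_symm (g3 : 3 ≤ g) (w2 : ∀ x u, (∀ i < g, co i u = co (i + 1) u) → fW (x + u) = fW x)
    (x u : Cu g) : own b fW f0 f1 Dj x u = own b fW f0 f1 Dj u x := by
  unfold own
  rw [add_comm u, show PJ (G1 g) (G2 g) u x = PJ (G1 g) (G2 g) x u from propext ⟨PJ_symm g3, PJ_symm g3⟩]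
  refine if_congr Iff.rfl rfl (ite_congr rfl (fun h => ?_) fun _ => rfl)
  rw [← cu_cancel x u, w2 _ _ fun j hj => by rw [(W_const h).1 j hj.le, (W_const h).1 _ hj]]

theorem WG (g3 : 3 ≤ g) {z : Cu g} (h : z = G1 g ∨ z = G2 g) : ¬ (z = W1 g ∨ z = W2 g) :=
  fun h' => by simpa [(G_co g3 h).2.2.1] using (W_const h').1 2 (by omega)

theorem PG {x u : Cu g} (h : PJ (G1 g) (G2 g) x u) : x + u = G1 g ∨ x + u = G2 g :=
  h.imp And.left And.left

theorem own_gen (g3 : 3 ≤ g) {i : ℕ} (hi : i < g) {x u : Cu g}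
    (h : x + u ∈ (fs fun z => Y0 Dj z ∧ f0 z = i) ∨ PP fW i x u ∨
      x + u ∈ fs fun z => Y1 b z ∧ f1 z = i) : own b fW f0 f1 Dj x u = i := by
  rcases h with h | (h | h) | h
  · obtain ⟨c, d⟩ := mem_fs.1 h
    rw [own, if_neg (f2_ne1.2 c.1), if_neg c.2.2.1, if_neg c.2.2.2.1, if_neg c.2.2.2.2, if_neg c.2.1, d]
  · rw [own, if_neg (f2_ne1.2 (W_const h.1).2), if_pos h.1, h.2]
  · rw [own, if_neg (f2_ne1.2 (G_co g3 h.2.1).2.2.2), if_neg (WG g3 h.2.1), if_pos h.2.1,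
      if_neg h.2.2, h.1]
  · obtain ⟨c, d⟩ := mem_fs.1 h
    rw [own, if_pos c.1, dif_neg c.2, d, if_pos hi]

theorem own_j (g3 : 3 ≤ g) (j1 : ∀ z ∈ Dj, Bs z) (j2 : G1 g ∉ Dj) {x u : Cu g}
    (h : x + u ∈ Dj ∨ PJ (G1 g) (G2 g) x u) : own b fW f0 f1 Dj x u = g := by
  rcases h with h | h
  · rw [own, if_neg (f2_ne1.2 (j1 _ h).2.2),
      if_neg fun e => by simpa [(j1 _ h).2.1] using (W_const e).1 0 (by omega),
      if_neg fun e => e.elim (fun e => j2 (e ▸ h))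
        fun e => by simpa [e, (co_G g3).2.1] using (j1 _ h).2.1, if_pos h]
  · rw [own, if_neg (f2_ne1.2 (G_co g3 (PG h)).2.2.2), if_neg (WG g3 (PG h)), if_pos (PG h),
      if_pos h]

end

theorem sink_sum (g0 : 0 < g) (δ : ℕ → ℕ) (d : ℕ) (S : ℕ → Finset (Cu g)) (Sp : Finset (Cu g))
    (x u : Cu g) (h1 : co (g + 1) x = 1) (h2 : co (g + 1) u = 0) :
    ∑ i ∈ range (g + 1), (if i < g then base i (δ i) x + ind (x ∈ S i) -
      ind (x ∈ S (if i = 0 then g - 1 else i - 1)) else baseJ d x) <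
    ∑ i ∈ range (g + 1), (if i < g then base i (δ i) u + ind (u ∈ Sp) else baseJ d u) := by
  rw [sum_range_succ, sum_range_succ, sum_congr rfl fun i h => if_pos (mem_range.1 h),
    sum_congr rfl fun i h => if_pos (mem_range.1 h), if_neg (lt_irrefl _), if_neg (lt_irrefl _)]
  have tel : ∀ x : Cu g, ∑ i ∈ range g, base i (δ i) x =
      ∑ i ∈ range g, (δ i : ℤ) + ind (co 0 x = 1) - ind (co g x = 1) := fun x => by
    simp only [base, add_sub_assoc, sum_add_distrib]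
    rw [sum_range_sub' fun i => (ind (co i x = 1) : ℤ)]
  have rot : ∑ i ∈ range g, (ind (x ∈ S (if i = 0 then g - 1 else i - 1)) : ℤ) =
      ∑ i ∈ range g, (ind (x ∈ S i) : ℤ) := by
    obtain ⟨k, hk⟩ : ∃ k, g = k + 1 := ⟨g - 1, by omega⟩
    rw [show range g = range (k + 1) by rw [hk], sum_range_succ', sum_range_succ]
    simp [show g - 1 = k by omega]
  have nn : (0 : ℤ) ≤ ∑ i ∈ range g, (ind (u ∈ Sp) : ℤ) := sum_nonneg fun _ _ => Nat.cast_nonneg _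
  simp only [sum_add_distrib, sum_sub_distrib, tel, rot, baseJ, h1, h2, ind_true,
    ind_neg (show ¬ (0 : F2) = 1 by decide)]
  omega

theorem build {b t r mm lam κ a L X : ℕ} {q M N nj lo hi mx L1 X1 Ip Im : ℝ}
    (H : Num g b t r mm lam κ a L X q M N nj lo hi mx L1 X1 Ip Im) {Om : Finset (Cu g)}
    {σ : Cu g → Fin r → F2} (O : OmOK b t r mm Om σ) : F3 (g + 3) (2 ^ (g + 3) - t) := by
  have g14 := H.g14
  have g3 : 3 ≤ g := by omega
  have hb := H.hb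
  obtain ⟨γa, γb, γc, -⟩ := co_G g3
  obtain ⟨fW, w1, w2, w3, w4⟩ := exists_fw g14 H.hκ
  obtain ⟨Dj, j1, j2, j3, j4, j5, j6⟩ := exists_dj O hb H.hr (G1 g) (tl b g) H.l1 H.l2 H.l3
  have t5 : (5 : ℝ) ≤ t := by exact_mod_cast H.t5
  have tO : (Om.card : ℝ) = t := by rw [O.card]
  obtain ⟨S, hS⟩ := exists_S (by omega) Om (by
    have := H.k6
    rw [H.hq] at this
    refine (Nat.cast_le (α := ℝ)).1 ?_
    push_cast
    linarith)
  have y1 : 4 * q - 6 - nj ≤ (fs (Y0 Dj)).card := by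
    have a3 : (_ : ℝ) ≤ _ := Nat.cast_le.2 ((Y0_card Dj).1.trans (add_le_add le_rfl
      (add_le_add le_rfl j6)))
    have a4 := descent' 0 (range g) subset_rfl (fun z : Cu g => co (g + 1) z = 0) fun _ h => h
    have := H.hnj
    rw [H.hq] at this ⊢
    rw [card_range] at a4
    push_cast at a3
    linarith
  have y2 : ((fs (Y0 Dj)).card : ℝ) ≤ 4 * q := by
    rw [H.hq]
    exact_mod_cast (Y0_card Dj).2
  obtain ⟨μ, hμ⟩ : ∃ μ : ℕ → ℕ, ∀ i, (fs fun x => x ∈ Om ∧ co i x = 0).card = μ i := ⟨_, fun _ => rfl⟩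
  have μ1 : ∑ i ∈ range g, (μ i : ℝ) ≤ t - 2 := by
    have : (_ : ℝ) ≤ _ := Nat.cast_le.2 O.sum
    push_cast [hμ] at this
    linarith
  have μ2 : ∀ i ≤ g, (μ i : ℝ) ≤ mm := fun i hi => Nat.cast_le.2 (hμ i ▸ O.mu i hi)
  have mm2 : (mm : ℝ) ≤ 2 := by exact_mod_cast H.mm2
  obtain ⟨n0, n00, n01⟩ := exists_n0 μ (by omega) μ1 (fun i h => μ2 i h.le) y1 y2 H.s0 H.hlo H.hhi
  obtain ⟨f0, f01, f02⟩ := slice0 (Y0 Dj) n0 (fun _ h => h.1) (Y0_des j3) y1 n00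
    (fun i h => (n01 i h).1) (by simpa only [H.hq] using H.h0)
  have hi0 : 0 ≤ hi := (Nat.cast_nonneg _).trans (n01 0 (by omega)).1.2
  have mx0 : 0 ≤ mx := nonneg_of_mul_nonneg_left (b := t - mm)
    (by linarith [H.k4, H.k6, mul_nonneg (Nat.cast_nonneg (α := ℝ) mm) hi0]) (by linarith)
  have L0 : 0 ≤ L1 := nonneg_of_mul_nonneg_left (b := t) (by linarith [H.k8, H.k6]) (by linarith)
  have X10 : 0 ≤ X1 := nonneg_of_mul_nonneg_left (b := t - mm) (by linarith [H.k9]) (by linarith)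
  have := fun i (hi' : i < g) => by
    obtain ⟨p1, p2, p3, p4, p5, p6⟩ := pp_facts g3 w2 w3 w4 hi' Om O.top
    have a1 := (n01 i hi').1.2
    have a2 := μ2 i hi'.le
    have a3 := μ2 (i + 1) hi'
    have a4 : (0 : ℝ) ≤ n0 i := Nat.cast_nonneg _
    have a5 : (0 : ℝ) ≤ μ i := Nat.cast_nonneg _
    have a6 : (0 : ℝ) ≤ μ (i + 1) := Nat.cast_nonneg _
    exact gen hi' hb Om (fs fun z => Y0 Dj z ∧ f0 z = i) (S i)
      (S (if i = 0 then g - 1 else i - 1)) (fs fun z => z = W1 g ∨ z = W2 g) (btag i) (tl b i)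
      (PP fW i) a (μ := μ i) (ν := μ (i + 1)) (n0 := n0 i) (mx := mx) tO H.hq H.hM H.hN
      (fun ω h => (O.one ω h).2.2) (fun ω h => O.adj ω h i hi') (congrArg _ (hμ _))
      (congrArg _ (hμ _)) (a2.trans mm2)
      (a3.trans mm2) (fun z hz => by
        obtain ⟨c, d⟩ := mem_fs.1 hz
        exact ⟨d ▸ (f01 z c).2.1, d ▸ (f01 z c).2.2, c.1⟩) (congrArg _ (f02 i hi'))
      (fun x hx => ((hS i hi').2 x hx).1) (by rw [(hS i hi').1, tO]) (fun x hx => by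
        obtain ⟨c, d⟩ := (hS _ (by split_ifs <;> omega)).2 x hx
        refine ⟨?_, (mem_PC.1 c).2.2.2⟩
        by_cases e : i = 0
        · rw [e]; exact d (if_pos e)
        · have := (mem_PC.1 c).2.2.1
          rwa [if_neg e, show i - 1 + 1 = i by omega] at this)
      (by rw [(hS _ (by split_ifs <;> omega)).1, tO])
      (fun x hx => by
        rw [mem_fs] at hx
        exact ⟨(W_const hx).1 i hi'.le, (W_const hx).1 _ hi', (W_const hx).2⟩)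
      (le_trans (card_le_card (t := {W1 g, W2 g}) fun x => by simp) card_le_two)
      p1 (fun x u h => ⟨(p2 x u h).1, (p2 x u h).2, fun e => by
        obtain ⟨c, -⟩ := mem_fs.1 e
        exact h.elim (fun h => c.2.2.1 h.1) fun h => c.2.2.2.1 h.2.1⟩) p3 p4 p5 p6 t5
      ((H.k1 (μ i) (hμ i ▸ O.mu i hi'.le)).trans (mul_le_mul_of_nonneg_right (n01 i hi').2
        (by linarith only [t5, a2, mm2])))
      (by linarith only [H.k2, mul_le_mul_of_nonneg_right a1 (Nat.cast_nonneg (α := ℝ) t)])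
      (by linarith only [H.k3, mul_le_mul a3 a1 a4 (a6.trans a3)])
      (by linarith only [H.k4, mul_le_mul_of_nonneg_left a2 mx0, mul_le_mul a2 a1 a4 (a5.trans a2)])
      (by linarith only [H.k5, mul_le_mul_of_nonneg_right a3 (add_nonneg mx0 zero_le_one)])
      H.k6 H.k7 H.n0 (by exact_mod_cast H.n1) H.n5 H.n6 H.n7 H.n9 H.n10
  choose! m m1 m2 m3 using this
  have m4 := fun i (h : i < g) => m_bd t5 mm2 (Nat.cast_nonneg _) (μ2 i h.le) (Nat.cast_nonneg _)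
    (n01 i h).1.2 mx0 X10 H.k4 H.k8 H.k9 (m2 i h)
  have e1 : ∀ i < g, ((m i - a : ℕ) : ℝ) = m i - a := fun i hi' => Nat.cast_sub (m1 i hi')
  obtain ⟨f1, f11, f12⟩ := slice1 (by omega) (Y1 (g := g) b) (fun i => m i - a) (hi := mx - a)
    (S := g * L1 + (t - 2) * X1 - g * a) (y := 4 * q - (g * (M + 8 * N + 2) + 8 * N))
    (fun _ h => h.1) (by
      have a1 := fs_split (fun z : Cu g => co (g + 1) z = 1) fun z => ∃ i, Reg b i z
      have a2 := (fs_le (P := fun z : Cu g => co (g + 1) z = 1 ∧ ∃ i, Reg b i z)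
        fun _ h => h.2).trans (card_Reg hb)
      rw [card_slice] at a1
      have a3 : (_ : ℝ) ≤ _ := Nat.cast_le.2 a2
      have a4 := congrArg (Nat.cast : ℕ → ℝ) a1
      rw [H.hq, H.hM, H.hN]
      push_cast at a3 a4
      unfold Y1
      linarith only [a3, a4])
    (by
      have := sum_le_sum fun i (h : i ∈ range g) =>
        (e1 i (mem_range.1 h)).trans_le (sub_le_sub_right (m4 i (mem_range.1 h)).2 a)
      simp only [sum_sub_distrib, sum_add_distrib, sum_const, card_range, nsmul_eq_mul,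
        ← sum_mul] at this
      linarith only [this, mul_le_mul_of_nonneg_right μ1 X10])
    (fun i h => (e1 i h).trans_le (sub_le_sub_right (m4 i h).1 a)) (by simpa only [H.hq] using H.h1)
  rw [← O.card]
  refine assemble Om (fun ω h => (O.one ω h).2.2) (own b fW f0 f1 Dj) (own_symm g3 w2) _ _
    (fun i hi' => ?_) (fun x u h1 h2 h3 => ?_) fun x _ u => sink_sum (by omega)
      (fun i => (fs fun z => Y0 Dj z ∧ f0 z = i).card + m i) (Dj.card + 1) S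
      (fs fun z => z = W1 g ∨ z = W2 g) x u
  · rcases hi'.lt_or_eq with hi' | rfl
    · simp only [hi', if_true]
      refine m3 i hi' (fs fun z => Y1 b z ∧ f1 z = i) _ (by rw [f12 i hi', Nat.sub_add_cancel
        (m1 i hi')]) (fun z hz => ?_) (fun x u h => h.elim (own_gen g3 hi')
        fun h => own_reg H.tag1 H.tag2 (Or.inl ⟨hi', h⟩)) fun x u h e => ?_
      · obtain ⟨c, d⟩ := mem_fs.1 hz
        have := f11 z c (d ▸ hi')
        rw [d] at this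
        exact ⟨⟨this.1, this.2, c.1⟩, fun e => c.2 ⟨i, Or.inl ⟨hi', Or.inr (Or.inl e)⟩⟩,
          fun e => c.2 ⟨i, Or.inl ⟨hi', Or.inr (Or.inr e)⟩⟩⟩
      · rcases own_cases h with c | c | c | c | c <;> rw [c.2] at e
        · exact Or.inr (Or.inl ⟨c.1, e⟩)
        · omega
        · exact Or.inr (Or.inr ⟨e.symm, c.1⟩)
        · omega
        · exact Or.inl (mem_fs.2 ⟨c.1, e⟩)
    · simp only [lt_irrefl, if_false]
      refine jcol Om Dj _ _ (Bx (i - 1) 0 1 1 1 (Ico (b + 3) (i - 1)) (tl b i)) (8 * 2 ^ b)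
        (by positivity) _ O.one j1 γa (j2 γc) γb (fun z h => ⟨?_, h.2.2.1⟩)
        (card_B hb (by omega) _ _ _ _ _).le j4 j5 (fun x u h => h.elim (own_j g3 j1 (j2 γc))
        fun h => own_reg H.tag1 H.tag2 (Or.inr ⟨rfl, h⟩)) fun x u h e => ?_
      · simpa only [show i - 1 + 1 = i by omega] using h.2.1
      · rcases own_cases h with c | c | c | c | c <;> rw [c.2] at e
        · have := w1 x; omega
        · exact c.1
        · omega
        · omega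
        · have := (f01 _ c.1).1; omega
  · rcases own_cases h2 with c | c | c | c | c <;> rw [c.2]
    · exact ⟨(w1 x).le, (W_const c.1).1 _ (w1 x).le⟩
    · exact ⟨le_rfl, c.1.elim (fun h => (j1 _ h).1) fun h => (G_co g3 (PG h)).1⟩
    · exact ⟨by omega, (G_co g3 c.1.1).2.1⟩
    · exact (c.1.elim (fun e => h1 (by simpa [cu_eq_iff, eq_comm] using e)) h3).elim
    · exact ⟨(f01 _ c.1).1.le, (f01 _ c.1).2.1⟩

end Pool.Agent.Lib.MP_71763b_co
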