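import Pool.Agent.Lib.MP_71763b_co.Blow

namespace Pool.Agent.Lib.MP_71763b_co

def allLt (n : ℕ) (f : ℕ → Bool) : Bool := Nat.rec true (fun i acc => f i && acc) n

theorem allLt_spec {n : ℕ} {f : ℕ → Bool} (h : allLt n f = true) : ∀ i < n, f i = true := by
  induction n with
  | zero => intro i hi; omega
  | succ m ih =>
    have h' : (f m && allLt m f) = true := h
    rw [Bool.and_eq_true] at h'
    intro i hi
    rcases Nat.lt_succ_iff_lt_or_eq.1 hi with hi | rfl
    · exact ih h'.2 i hi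
    · exact h'.1

def cnt (n : ℕ) (f : ℕ → Bool) : ℕ := Nat.rec 0 (fun i acc => bif f i then acc + 1 else acc) n

theorem cnt_eq (n : ℕ) (f : ℕ → Bool) : cnt n f = ∑ i ∈ Finset.range n, ind (f i = true) := by
  induction n with
  | zero => rfl
  | succ m ih =>
    rw [Finset.sum_range_succ, ← ih]
    show (bif f m then cnt m f + 1 else cnt m f) = _
    cases f m <;> simp

def tb (T n u v : ℕ) : ℕ := (T >>> (2 * (bif u.ble v then v * n + u else u * n + v))) % 4

theorem tb_symm (T n u v : ℕ) : tb T n u v = tb T n v u := by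
  unfold tb
  rcases lt_trichotomy u v with h | rfl | h
  · rw [Nat.ble_eq_true_of_le h.le, show v.ble u = false by simp [← Bool.not_eq_true]; omega]; rfl
  · rfl
  · rw [Nat.ble_eq_true_of_le h.le, show u.ble v = false by simp [← Bool.not_eq_true]; omega]; rfl

def g8 (T j v : ℕ) : ℕ := (T >>> (8 * (j * 256 + v))) % 256

def rowOK (k n T D G LO HI X : ℕ) (ρ d : ℕ → ℕ) (u : ℕ) : Bool :=
  (allLt n fun v => u.beq v || ((tb T n u v).blt k &&
      ((g8 D (tb T n u v) v).blt (g8 D (tb T n u v) u) ||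
        (g8 HI (tb T n u v) u).blt (g8 LO (tb T n u v) v) ||
        (g8 G (tb T n u v) u).beq (g8 G (tb T n u v) v)))) &&
  (allLt k fun j =>
    (cnt n fun v => !(u.beq v) && (tb T n u v).beq j).beq (g8 D j u) && (g8 D j u).ble (d j) &&
    (g8 LO j u).ble (g8 X j u) && (g8 X j u).ble (g8 HI j u) && (g8 HI j u).blt (ρ j) &&
    allLt n fun v => !((g8 G j u).beq (g8 G j v)) || u.beq v ||
      ((g8 LO j u).beq (g8 LO j v) && (g8 HI j u).beq (g8 HI j v) && !((g8 X j u).beq (g8 X j v))))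

theorem rowOK_spec {k n T D G LO HI X : ℕ} {ρ d : ℕ → ℕ}
    (h : ∀ u < n, rowOK k n T D G LO HI X ρ d u = true) :
    (∀ u v : Fin n, u ≠ v → tb T n u v < k) ∧
    (∀ j, ∀ v : Fin n, deg (fun a b : Fin n => tb T n a b) j v ≤ d j) ∧
    (∀ j < k, ∀ v : Fin n, g8 LO j v ≤ g8 X j v ∧ g8 X j v ≤ g8 HI j v ∧ g8 HI j v < ρ j) ∧
    (∀ j < k, ∀ u v : Fin n, R (fun a b : Fin n => tb T n a b) j u v →
      g8 HI j u < g8 LO j v ∨ g8 G j u = g8 G j v) ∧
    (∀ j < k, ∀ u v : Fin n, u ≠ v → g8 G j u = g8 G j v →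
      g8 LO j u = g8 LO j v ∧ g8 HI j u = g8 HI j v ∧ g8 X j u ≠ g8 X j v) := by
  have hA : ∀ u v : Fin n, u ≠ v → tb T n u v < k ∧
      (g8 D (tb T n u v) v < g8 D (tb T n u v) u ∨ g8 HI (tb T n u v) u < g8 LO (tb T n u v) v ∨
        g8 G (tb T n u v) u = g8 G (tb T n u v) v) := by
    intro u v huv
    have := h u u.2
    unfold rowOK at this
    rw [Bool.and_eq_true] at this
    have := allLt_spec this.1 v v.2
    simp only [Bool.or_eq_true, Bool.and_eq_true, Nat.beq_eq, Nat.blt_eq] at this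
    rcases this with e | e
    · exact absurd (Fin.ext e) huv
    · tauto
  have hB : ∀ j < k, ∀ u : Fin n, deg (fun a b : Fin n => tb T n a b) j u = g8 D j u ∧
      g8 D j u ≤ d j ∧ (g8 LO j u ≤ g8 X j u ∧ g8 X j u ≤ g8 HI j u ∧ g8 HI j u < ρ j) ∧
      ∀ v : Fin n, u ≠ v → g8 G j u = g8 G j v →
        g8 LO j u = g8 LO j v ∧ g8 HI j u = g8 HI j v ∧ g8 X j u ≠ g8 X j v := by
    intro j hj u
    have := h u u.2
    unfold rowOK at this
    rw [Bool.and_eq_true] at this
    have := allLt_spec this.2 j hj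
    simp only [Bool.and_eq_true, Nat.beq_eq, Nat.blt_eq, Nat.ble_eq] at this
    obtain ⟨⟨⟨⟨⟨a1, a2⟩, a3⟩, a4⟩, a5⟩, a6⟩ := this
    refine ⟨?_, a2, ⟨a3, a4, a5⟩, fun v huv hg => ?_⟩
    · rw [← a1, cnt_eq, ← Fin.sum_univ_eq_sum_range (fun i => ind ((!(u.val.beq i) && (tb T n u i).beq j) = true))]
      unfold deg
      refine Finset.sum_congr rfl fun v _ => ?_
      congr 1
      simp only [Bool.and_eq_true, Bool.not_eq_true', ← Bool.not_eq_true, Nat.beq_eq, ne_eq,
        Fin.ext_iff, eq_iff_iff]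
      constructor <;> rintro ⟨e1, e2⟩ <;> exact ⟨fun e => e1 e.symm, e2⟩
    · have := allLt_spec a6 v v.2
      simp only [Bool.or_eq_true, Bool.and_eq_true, Bool.not_eq_true', ← Bool.not_eq_true,
        Nat.beq_eq] at this
      rcases this with (e | e) | e
      · exact absurd hg e
      · exact absurd (Fin.ext e) huv
      · tauto
  refine ⟨fun u v huv => (hA u v huv).1, fun j v => ?_, fun j hj v => (hB j hj v).2.2.1, ?_,
    fun j hj u v => (hB j hj u).2.2.2 v⟩
  · by_cases hj : j < k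
    · rw [(hB j hj v).1]; exact (hB j hj v).2.1
    · rw [deg_zero v]
      · exact Nat.zero_le _
      · intro u hu e
        have := (hA v u hu.symm).1
        omega
  · rintro j hj u v ⟨g1, g2, g3⟩
    rw [(hB j hj u).1, (hB j hj v).1] at g3
    have := (hA u v g1).2
    dsimp only at g2
    rw [g2] at this
    omega

theorem tab_of_rows {k n T D G LO HI X : ℕ} {ρ d : ℕ → ℕ}
    (h : ∀ u < n, rowOK k n T D G LO HI X ρ d u = true) (h1 : ∀ j, k ≤ j → 1 ≤ ρ j) :
    Tab ρ n d := by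
  obtain ⟨a1, a2, a3, a4, a5⟩ := rowOK_spec h
  refine ⟨fun a b : Fin n => tb T n a b, ⟨fun u v => tb_symm _ _ _ _, fun j => ?_⟩, a2⟩
  by_cases hj : j < k
  · intro l hN hC
    exact cert_bound (fun v : Fin n => g8 G j v) (fun v => g8 LO j v) (fun v => g8 HI j v)
      (fun v => g8 X j v) _ (a3 j hj) (a4 j hj) (a5 j hj) l hN hC
  · refine noPath_of_no_edge (h1 j (by omega)) fun u v huv e => ?_
    have := a1 u v huv
    omega

theorem stab_of_rows {k n T D G X : ℕ} {ρ d : ℕ → ℕ}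
    (h : ∀ u < n, rowOK k n T D G X X X ρ d u = true) (h1 : ∀ j, k ≤ j → 1 ≤ ρ j) :
    STab k ρ n d := by
  obtain ⟨a1, a2, a3, a4, a5⟩ := rowOK_spec h
  refine ⟨fun a b : Fin n => tb T n a b, fun j v => if j < k then g8 X j v else 0,
    fun u v => tb_symm _ _ _ _, a1, fun j v => ?_, fun j u v huv => ?_, a2⟩
  · dsimp only
    split_ifs with hj
    · exact (a3 j hj v).2.2
    · exact h1 j (by omega)
  · have hj : j < k := huv.2.1 ▸ a1 u v huv.1
    simp only [hj, if_true]
    rcases a4 j hj u v huv with e | e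
    · exact e
    · have := a5 j hj u v huv.1 e
      omega

theorem rows_of_chunks {n s m : ℕ} {f : ℕ → Bool}
    (h : ∀ q < m, allLt s (fun i => n.ble (q * s + i) || f (q * s + i)) = true) (hs : 0 < s)
    (hn : n ≤ m * s) : ∀ u < n, f u = true := by
  intro u hu
  have h1 : u / s < m := by
    rw [Nat.div_lt_iff_lt_mul hs]; omega
  have := allLt_spec (h _ h1) (u % s) (Nat.mod_lt _ hs)
  rw [Nat.div_add_mod' u s] at this
  simp only [Bool.or_eq_true, Nat.ble_eq] at this
  rcases this with e | e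
  · omega
  · exact e

end Pool.Agent.Lib.MP_71763b_co
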