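import Mathlib

namespace Pool.Agent.Lib.MP_71763b_co

open Classical in
noncomputable def ind (p : Prop) : ℕ := if p then 1 else 0

@[simp] theorem ind_true : ind True = 1 := by simp [ind]
@[simp] theorem ind_false : ind False = 0 := by simp [ind]
theorem ind_pos {p : Prop} (h : p) : ind p = 1 := by simp [ind, h]
theorem ind_neg {p : Prop} (h : ¬ p) : ind p = 0 := by simp [ind, h]
theorem ind_eq (p : Prop) [Decidable p] : ind p = if p then 1 else 0 := by
  by_cases h : p <;> simp [ind, h]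
theorem ind_mono {p q : Prop} (h : p → q) : ind p ≤ ind q := by
  by_cases hp : p
  · rw [ind_pos hp, ind_pos (h hp)]
  · rw [ind_neg hp]; exact Nat.zero_le _

section basic
variable {V W : Type} [Fintype V] [Fintype W]

noncomputable def deg (c : V → V → ℕ) (j : ℕ) (v : V) : ℕ :=
  ∑ u, ind (u ≠ v ∧ c v u = j)

def R (c : V → V → ℕ) (j : ℕ) (u v : V) : Prop := u ≠ v ∧ c u v = j ∧ deg c j u ≤ deg c j v

def NoPath (c : V → V → ℕ) (j p : ℕ) : Prop :=
  ∀ l : List V, l.Nodup → l.IsChain (R c j) → l.length ≤ p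

def Good (c : V → V → ℕ) (ρ : ℕ → ℕ) : Prop :=
  (∀ u v, c u v = c v u) ∧ ∀ j, NoPath c j (ρ j)

omit [Fintype V] in
theorem chain_inv {Q : V → V → Prop} {P : V → Prop} (h : ∀ u v, Q u v → P u → P v) :
    ∀ (l : List V) (x : V), (x :: l).IsChain Q → P x → ∀ y ∈ x :: l, P y := by
  intro l
  induction l with
  | nil => intro x _ hx y hy; simp at hy; exact hy ▸ hx
  | cons z t ih =>
    intro x hc hx y hy
    rw [List.isChain_cons_cons] at hc
    rcases List.mem_cons.1 hy with rfl | hy
    · exact hx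
    · exact ih z hc.2 (h _ _ hc.1 hx) y hy

omit [Fintype V] [Fintype W] in
theorem bound_of_range {Q : V → V → Prop} {Q' : W → W → Prop} (f : W → V) {p : ℕ}
    (hQ : ∀ a b, Q (f a) (f b) → Q' a b)
    (hb : ∀ l : List W, l.Nodup → l.IsChain Q' → l.length ≤ p)
    (l : List V) (hl : ∀ x ∈ l, ∃ a, f a = x) (hN : l.Nodup) (hC : l.IsChain Q) :
    l.length ≤ p := by
  obtain ⟨l', rfl⟩ : ∃ l' : List W, l'.map f = l := by
    clear hN hC
    induction l with
    | nil => exact ⟨[], rfl⟩
    | cons x t ih =>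
      obtain ⟨a, rfl⟩ := hl x (by simp)
      obtain ⟨l', rfl⟩ := ih (fun y hy => hl y (by simp [hy]))
      exact ⟨a :: l', rfl⟩
  rw [List.length_map]
  refine hb l' (List.Nodup.of_map f hN) ?_
  rw [List.isChain_map] at hC
  exact hC.imp fun a b h => hQ a b h

omit [Fintype V] in
theorem succ_of_chain {Q : V → V → Prop} (x : V) :
    ∀ l : List V, (l ++ [x]).IsChain Q → ∀ y ∈ l, ∃ z, Q y z := by
  intro l
  induction l with
  | nil => intro _ y hy; simp at hy
  | cons a t ih =>
    intro hc y hy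
    cases t with
    | nil =>
      simp at hy hc
      exact ⟨x, hy ▸ hc⟩
    | cons b t =>
      simp only [List.cons_append, List.isChain_cons_cons] at hc
      rcases List.mem_cons.1 hy with rfl | hy
      · exact ⟨b, hc.1⟩
      · exact ih hc.2 y hy

omit [Fintype V] in
/-- certificate bound -/
theorem cert_bound {Q : V → V → Prop} (g lo hi x : V → ℕ) (p : ℕ)
    (h1 : ∀ v, lo v ≤ x v ∧ x v ≤ hi v ∧ hi v < p)
    (h2 : ∀ u v, Q u v → hi u < lo v ∨ g u = g v)
    (h3 : ∀ u v, u ≠ v → g u = g v → lo u = lo v ∧ hi u = hi v ∧ x u ≠ x v)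
    (l : List V) (hN : l.Nodup) (hC : l.IsChain Q) : l.length ≤ p := by
  let S : V → V → Prop := fun u v => hi u < lo v ∨ g u = g v
  have heq : ∀ u v, g u = g v → lo u = lo v ∧ hi u = hi v := by
    intro u v h
    by_cases huv : u = v
    · subst huv; exact ⟨rfl, rfl⟩
    · exact ⟨(h3 u v huv h).1, (h3 u v huv h).2.1⟩
  have : IsTrans V S := ⟨by
    intro a b c hab hbc
    have := h1 a; have := h1 b; have := h1 c
    rcases hab with hab | hab <;> rcases hbc with hbc | hbc
    · left; omega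
    · left; have := heq _ _ hbc; omega
    · left; have := heq _ _ hab; omega
    · right; exact hab.trans hbc⟩
  have hP : l.Pairwise S := (List.isChain_iff_pairwise).1 (hC.imp fun a b h => h2 a b h)
  have hx : (l.map x).Nodup := by
    rw [List.Nodup, List.pairwise_map]
    refine (hP.and hN).imp ?_
    rintro a b ⟨hab, hne⟩
    rcases hab with hab | hab
    · have := h1 a; have := h1 b; omega
    · exact (h3 a b hne hab).2.2
  have hsub : (l.map x).toFinset ⊆ Finset.range p := by
    intro y hy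
    simp only [List.mem_toFinset, List.mem_map] at hy
    obtain ⟨v, _, rfl⟩ := hy
    have := h1 v
    simp; omega
  have := Finset.card_le_card hsub
  rw [List.toFinset_card_of_nodup hx] at this
  simpa using this

omit [Fintype V] in
theorem lab_bound {Q : V → V → Prop} (x : V → ℕ) (p : ℕ) (h1 : ∀ v, x v < p)
    (h2 : ∀ u v, Q u v → x u < x v) (l : List V) (hC : l.IsChain Q) : l.length ≤ p := by
  have hP : (l.map x).Pairwise (· < ·) := by
    rw [← List.isChain_iff_pairwise, List.isChain_map]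
    exact hC.imp fun a b h => h2 a b h
  have hx : (l.map x).Nodup := hP.imp fun h => ne_of_lt h
  have hsub : (l.map x).toFinset ⊆ Finset.range p := by
    intro y hy
    simp only [List.mem_toFinset, List.mem_map] at hy
    obtain ⟨v, _, rfl⟩ := hy
    simpa using h1 v
  have := Finset.card_le_card hsub
  rw [List.toFinset_card_of_nodup hx] at this
  simpa using this

theorem no_edge {c : V → V → ℕ} {j p : ℕ} (hs : ∀ u v, c u v = c v u) (h : NoPath c j p)
    (hp : p ≤ 1) (u v : V) (huv : u ≠ v) : c u v ≠ j := by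
  intro hc
  rcases le_total (deg c j u) (deg c j v) with hd | hd
  · have := h [u, v] (by simp [huv]) (by simp [R, huv, hc, hd])
    simp at this; omega
  · have := h [v, u] (by simp [huv.symm]) (by simp [R, huv.symm, hs v u, hc, hd])
    simp at this; omega

theorem deg_zero {c : V → V → ℕ} {j : ℕ} (v : V) (h : ∀ u, u ≠ v → c v u ≠ j) :
    deg c j v = 0 := by
  unfold deg
  refine Finset.sum_eq_zero fun u _ => ?_
  apply ind_neg
  rintro ⟨h1, h2⟩
  exact h u h1 h2

theorem noPath_of_no_edge {c : V → V → ℕ} {j p : ℕ} (hp : 1 ≤ p)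
    (h : ∀ u v, u ≠ v → c u v ≠ j) : NoPath c j p := by
  intro l _ hC
  match l, hC with
  | [], _ => simp
  | [_], _ => simpa using hp
  | a :: b :: t, hC =>
    rw [List.isChain_cons_cons] at hC
    exact absurd hC.1.2.1 (h a b hC.1.1)

theorem deg_lt (c : V → V → ℕ) (j : ℕ) (v : V) : deg c j v + 1 ≤ Fintype.card V := by
  classical
  unfold deg
  have : (∑ u, ind (u ≠ v ∧ c v u = j)) ≤ ∑ u : V, if u ≠ v then 1 else 0 := by
    refine Finset.sum_le_sum fun u _ => ?_
    rw [← ind_eq]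
    exact ind_mono fun h => h.1
  have h2 : (∑ u : V, if u ≠ v then 1 else 0) + 1 = Fintype.card V := by
    rw [← Finset.card_filter]
    have : (Finset.univ.filter fun u : V => u ≠ v) = Finset.univ.erase v := by
      ext u; simp
    rw [this, Finset.card_erase_of_mem (by simp), Finset.card_univ]
    have : 0 < Fintype.card V := Fintype.card_pos_iff.2 ⟨v⟩
    omega
  omega

theorem deg_equiv (e : W ≃ V) (c : V → V → ℕ) (j : ℕ) (w : W) :
    deg (fun a b => c (e a) (e b)) j w = deg c j (e w) := by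
  unfold deg
  refine Fintype.sum_equiv e _ _ fun a => ?_
  simp

theorem Good.equiv (e : W ≃ V) {c : V → V → ℕ} {ρ : ℕ → ℕ} (h : Good c ρ) :
    Good (fun a b => c (e a) (e b)) ρ := by
  refine ⟨fun u v => h.1 _ _, fun j l hN hC => ?_⟩
  refine bound_of_range (Q' := R c j) e.symm ?_ (h.2 j) l (fun x _ => ⟨e x, by simp⟩) hN hC
  intro a b hab
  obtain ⟨h1, h2, h3⟩ := hab
  rw [deg_equiv, deg_equiv] at h3
  refine ⟨fun h => h1 (by rw [h]), by simpa using h2, by simpa using h3⟩

end basic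

def Tab (ρ : ℕ → ℕ) (n : ℕ) (d : ℕ → ℕ) : Prop :=
  ∃ c : Fin n → Fin n → ℕ, Good c ρ ∧ ∀ j v, deg c j v ≤ d j

theorem Tab.of {V : Type} [Fintype V] {ρ d : ℕ → ℕ} {n : ℕ} (c : V → V → ℕ)
    (hn : Fintype.card V = n) (h : Good c ρ) (hd : ∀ j v, deg c j v ≤ d j) : Tab ρ n d := by
  subst hn
  let e := (Fintype.equivFin V).symm
  exact ⟨fun a b => c (e a) (e b), h.equiv e, fun j v => by rw [deg_equiv]; exact hd _ _⟩

theorem Tab.mono {ρ ρ' d d' : ℕ → ℕ} {n : ℕ} (h : Tab ρ n d) (h1 : ∀ j, ρ j ≤ ρ' j)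
    (h2 : ∀ j, d j ≤ d' j) : Tab ρ' n d' := by
  obtain ⟨c, hc, hd⟩ := h
  exact ⟨c, ⟨hc.1, fun j l hN hC => (hc.2 j l hN hC).trans (h1 j)⟩,
    fun j v => (hd j v).trans (h2 j)⟩

theorem Tab.triv {ρ d : ℕ → ℕ} {n : ℕ} (h : Tab ρ n d) :
    Tab ρ n (fun j => if ρ j ≤ 1 then 0 else n - 1) := by
  obtain ⟨c, hc, hd⟩ := h
  refine ⟨c, hc, fun j v => ?_⟩
  dsimp only
  split_ifs with hj
  · exact (deg_zero v fun u hu => no_edge hc.1 (hc.2 j) hj v u hu.symm).le
  · have := deg_lt c j v
    simp at this; omega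

theorem Tab.relabel {ρ ρ' d d' : ℕ → ℕ} {n : ℕ} (h : Tab ρ n d) (f : ℕ → ℕ)
    (hf : Function.Injective f) (h1 : ∀ i, ρ i ≤ ρ' (f i)) (h2 : ∀ j, 1 ≤ ρ' j)
    (h3 : ∀ i, d i ≤ d' (f i)) : Tab ρ' n d' := by
  obtain ⟨c, hc, hd⟩ := h
  have hdeg : ∀ i v, deg (fun a b => f (c a b)) (f i) v = deg c i v := by
    intro i v
    unfold deg
    simp [hf.eq_iff]
  refine ⟨fun a b => f (c a b), ⟨fun u v => by simp [hc.1 u v], fun j => ?_⟩, fun j v => ?_⟩
  · by_cases hj : ∃ i, f i = j
    · obtain ⟨i, rfl⟩ := hj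
      intro l hN hC
      refine (hc.2 i l hN (hC.imp ?_)).trans (h1 i)
      rintro a b ⟨h1, h2, h3⟩
      rw [hdeg, hdeg] at h3
      exact ⟨h1, hf h2, h3⟩
    · exact noPath_of_no_edge (h2 j) fun u v _ h => hj ⟨_, h⟩
  · by_cases hj : ∃ i, f i = j
    · obtain ⟨i, rfl⟩ := hj
      rw [hdeg]; exact (hd i v).trans (h3 i)
    · rw [deg_zero v fun u _ h => hj ⟨_, h⟩]; exact Nat.zero_le _

theorem Tab.clique {ρ : ℕ → ℕ} {n : ℕ} (h0 : n ≤ ρ 0) (h1 : ∀ j, 1 ≤ ρ j) :
    Tab ρ n (fun _ => n - 1) := by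
  refine ⟨fun _ _ => 0, ⟨fun _ _ => rfl, fun j => ?_⟩, fun j v => ?_⟩
  · by_cases hj : j = 0
    · subst hj
      intro l hN _
      have := hN.length_le_card
      simp at this; omega
    · exact noPath_of_no_edge (h1 j) fun u v _ h => hj h.symm
  · have := deg_lt (fun _ _ : Fin n => 0) j v
    simp at this; dsimp only; omega

/-- adding a layer joined to everything in colour a -/
theorem Tab.onion {ρ ρ' ρ'' d d' d'' : ℕ → ℕ} {n w : ℕ} (a : ℕ) (h : Tab ρ n d) (h' : Tab ρ' w d')
    (ha : ρ' a ≤ 1) (hs : d a + w < n) (h1 : ρ a + 1 ≤ ρ'' a)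
    (h2 : ∀ i, ρ i ≤ ρ'' i ∧ ρ' i ≤ ρ'' i) (h3 : n ≤ d'' a)
    (h4 : ∀ i, i ≠ a → d i ≤ d'' i ∧ d' i ≤ d'' i) : Tab ρ'' (n + w) d'' := by
  obtain ⟨c, hc, hd⟩ := h
  obtain ⟨c', hc', hd'⟩ := h'
  let C : Fin n ⊕ Fin w → Fin n ⊕ Fin w → ℕ := fun x y =>
    match x, y with
    | Sum.inl u, Sum.inl v => c u v
    | Sum.inr u, Sum.inr v => c' u v
    | _, _ => a
  have hne : ∀ u v, u ≠ v → c' u v ≠ a := no_edge hc'.1 (hc'.2 a) ha
  have dl : ∀ i u, deg C i (Sum.inl u) = deg c i u + if a = i then w else 0 := by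
    intro i u
    unfold deg
    rw [Fintype.sum_sum_type]
    congr 1
    · simp [C]
    · split_ifs with hi <;> simp [C, hi]
  have dr : ∀ i u, deg C i (Sum.inr u) = (if a = i then n else 0) + deg c' i u := by
    intro i u
    unfold deg
    rw [Fintype.sum_sum_type]
    congr 1
    · split_ifs with hi <;> simp [C, hi]
    · simp [C]
  have dz : ∀ u, deg c' a u = 0 := fun u => deg_zero u fun v hv => hne u v hv.symm
  refine Tab.of C (by simp) ⟨?_, ?_⟩ ?_
  · rintro (u | u) (v | v)
    · exact hc.1 u v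
    · rfl
    · rfl
    · exact hc'.1 u v
  · intro i l hN hC
    have hll : ∀ u v, R C i (Sum.inl u) (Sum.inl v) → R c i u v := by
      rintro u v ⟨h1, h2, h3⟩
      rw [dl, dl] at h3
      exact ⟨fun h => h1 (by rw [h]), h2, by omega⟩
    have hrr : ∀ u v, R C i (Sum.inr u) (Sum.inr v) → R c' i u v := by
      rintro u v ⟨h1, h2, h3⟩
      rw [dr, dr] at h3
      exact ⟨fun h => h1 (by rw [h]), h2, by omega⟩
    by_cases hi : i = a
    · subst hi
      rcases List.eq_nil_or_concat l with rfl | ⟨l', x, rfl⟩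
      · simp
      · rw [List.concat_eq_append] at hN hC ⊢
        have hl' : ∀ y ∈ l', ∃ u, Sum.inl u = y := by
          intro y hy
          obtain ⟨z, hz⟩ := succ_of_chain x l' hC y hy
          rcases y with u | u
          · exact ⟨u, rfl⟩
          · exfalso
            rcases z with v | v
            · have := hz.2.2
              rw [dl, dr] at this
              have := hd i v
              simp at *; omega
            · exact hne u v (hrr u v hz).1 (hrr u v hz).2.1
        have := bound_of_range Sum.inl hll (hc.2 i) l' hl' (List.Nodup.of_append_left hN)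
          hC.left_of_append
        simp; omega
    · cases l with
      | nil => simp
      | cons x t =>
        rcases x with u | u
        · refine (bound_of_range Sum.inl hll (hc.2 i) _ ?_ hN hC).trans (h2 i).1
          refine chain_inv (P := fun y => ∃ u, Sum.inl u = y) ?_ t _ hC ⟨u, rfl⟩
          rintro _ (v | v) hv ⟨u, rfl⟩
          · exact ⟨v, rfl⟩
          · exact absurd hv.2.1.symm hi
        · refine (bound_of_range Sum.inr hrr (hc'.2 i) _ ?_ hN hC).trans (h2 i).2
          refine chain_inv (P := fun y => ∃ u, Sum.inr u = y) ?_ t _ hC ⟨u, rfl⟩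
          rintro _ (v | v) hv ⟨u, rfl⟩
          · exact absurd hv.2.1.symm hi
          · exact ⟨v, rfl⟩
  · rintro i (u | u)
    · rw [dl]
      have := hd i u
      split_ifs with hi
      · subst hi; omega
      · have := (h4 i (Ne.symm hi)).1; omega
    · rw [dr]
      have := hd' i u
      split_ifs with hi
      · subst hi; rw [dz]; omega
      · have := (h4 i (Ne.symm hi)).2; omega

end Pool.Agent.Lib.MP_71763b_co
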