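import Pool.Agent.Lib.MP_71763b_co.Feas

namespace Pool.Agent.Lib.MP_71763b_co

open Finset

/-- feasibility for paths on three vertices -/
def F3 (k n : ℕ) : Prop := Fe (rho k 2 0) n

theorem two_le_deg {V : Type} [Fintype V] {c : V → V → ℕ} {j : ℕ} {a b d : V} (h1 : a ≠ b)
    (h2 : d ≠ b) (h3 : a ≠ d) (h4 : c b a = j) (h5 : c b d = j) : 2 ≤ deg c j b := by
  classical
  have : ∑ u ∈ ({a, d} : Finset V), ind (u ≠ b ∧ c b u = j) ≤ deg c j b :=
    sum_le_sum_of_subset (subset_univ _)
  rwa [sum_pair h3, ind_pos ⟨h1, h4⟩, ind_pos ⟨h2, h5⟩] at this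

theorem f3_of {V : Type} [Fintype V] {k n : ℕ} (c : V → V → ℕ) (hn : Fintype.card V = n)
    (hs : ∀ u v, c u v = c v u) (hk : ∀ u v, u ≠ v → c u v < k) (hi : ℕ → V → Prop)
    (h : ∀ u v j, u ≠ v → c u v = j → (deg c j u ≤ 1 ∧ deg c j v ≤ 1) ∨
      (hi j u ∧ ¬ hi j v ∧ deg c j v < deg c j u) ∨
      (hi j v ∧ ¬ hi j u ∧ deg c j u < deg c j v)) : F3 k n := by
  refine ⟨fun _ => n, Tab.of c hn ⟨hs, fun j => ?_⟩ fun j v => ?_⟩
  · by_cases hj : j < k
    · intro l hN hC
      have : rho k 2 0 j = 2 := by simp [rho, hj]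
      rw [this]
      match l, hN, hC with
      | [], _, _ => simp
      | [_], _, _ => simp
      | [_, _], _, _ => simp
      | a :: b :: d :: t, hN, hC =>
        exfalso
        simp only [List.isChain_cons_cons] at hC
        obtain ⟨⟨a1, a2, a3⟩, ⟨b1, b2, b3⟩, _⟩ := hC
        have had : a ≠ d := by
          rintro rfl
          simp at hN
        have := two_le_deg a1 b1.symm had (by rw [hs, a2]) b2
        rcases h a b j a1 a2 with g | g | g <;> rcases h b d j b1 b2 with g' | g' | g' <;>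
          first | omega | exact g'.2.1 g.1
    · exact noPath_of_no_edge (rho_pos _ _ _ _ (by omega)) fun u v huv e => hj (e ▸ hk u v huv)
  · have := deg_lt c j v
    omega

theorem F3.succ {k n : ℕ} (h : F3 k n) : F3 (k + 1) n :=
  Fe.mono h fun j => by unfold rho; split_ifs <;> omega

theorem F3.double {k a b : ℕ} (ha : F3 k a) (hb : F3 k b) (hab : b < a) : F3 (k + 1) (a + b) := by
  obtain ⟨d, hd⟩ := ha
  obtain ⟨d', hd'⟩ := hb
  refine ⟨fun _ => a + b, Tab.onion k hd.triv hd'.triv (by simp [rho]) (by simpa [rho] using hab)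
    (by simp [rho]) (fun i => ?_) (by omega) fun i _ => ?_⟩
  · unfold rho; split_ifs <;> omega
  · split_ifs <;> omega

theorem F3.range {k N : ℕ} (h : ∀ n ≤ N, F3 k n) : ∀ n, n + 1 ≤ 2 * N → F3 (k + 1) n := by
  intro n hn
  rcases Nat.lt_or_ge N n with g | g
  · have := F3.double (h N le_rfl) (h (n - N) (by omega)) (by omega)
    rwa [show N + (n - N) = n by omega] at this
  · exact (h n g).succ

theorem f3_zero (k : ℕ) : F3 k 0 :=
  f3_of (V := Fin 0) (fun _ _ => 0) (by simp) (fun _ _ => rfl) (fun u => u.elim0) (fun _ _ => True)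
    fun u => u.elim0

/-! brute force checker for small cases -/

def c3 (T u v : ℕ) : ℕ := (T >>> (3 * (bif u.ble v then v * 64 + u else u * 64 + v))) % 8

theorem c3_symm (T u v : ℕ) : c3 T u v = c3 T v u := by
  unfold c3
  rcases lt_trichotomy u v with h | rfl | h
  · rw [Nat.ble_eq_true_of_le h.le, show v.ble u = false by simp [← Bool.not_eq_true]; omega]; rfl
  · rfl
  · rw [Nat.ble_eq_true_of_le h.le, show u.ble v = false by simp [← Bool.not_eq_true]; omega]; rfl

def d8 (D j v : ℕ) : ℕ := (D >>> (8 * (j * 64 + v))) % 256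

def hb (B j v : ℕ) : Bool := B.testBit (j * 64 + v)

def bf (k n T D B : ℕ) : Bool :=
  allLt n fun u =>
    (allLt n fun v => u.beq v || ((c3 T u v).blt k &&
      (((d8 D (c3 T u v) u).ble 1 && (d8 D (c3 T u v) v).ble 1) ||
        (hb B (c3 T u v) u && !hb B (c3 T u v) v && (d8 D (c3 T u v) v).blt (d8 D (c3 T u v) u)) ||
        (hb B (c3 T u v) v && !hb B (c3 T u v) u &&
          (d8 D (c3 T u v) u).blt (d8 D (c3 T u v) v))))) &&
    allLt k fun j => (cnt n fun v => !(u.beq v) && (c3 T u v).beq j).beq (d8 D j u)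

theorem bf_sound {k n T D B : ℕ} (h : bf k n T D B = true) : F3 k n := by
  have hA : ∀ u v : Fin n, u ≠ v → c3 T u v < k ∧
      ((d8 D (c3 T u v) u ≤ 1 ∧ d8 D (c3 T u v) v ≤ 1) ∨
        (hb B (c3 T u v) u = true ∧ ¬ hb B (c3 T u v) v = true ∧
          d8 D (c3 T u v) v < d8 D (c3 T u v) u) ∨
        (hb B (c3 T u v) v = true ∧ ¬ hb B (c3 T u v) u = true ∧
          d8 D (c3 T u v) u < d8 D (c3 T u v) v)) := by
    intro u v huv
    have := allLt_spec h u u.2
    rw [Bool.and_eq_true] at this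
    have := allLt_spec this.1 v v.2
    simp only [Bool.or_eq_true, Bool.and_eq_true, Nat.beq_eq, Nat.blt_eq, Nat.ble_eq,
      Bool.not_eq_true'] at this
    rcases this with e | e
    · exact absurd (Fin.ext e) huv
    · simp only [Bool.not_eq_true]
      tauto
  have hB : ∀ j < k, ∀ u : Fin n, deg (fun a b : Fin n => c3 T a b) j u = d8 D j u := by
    intro j hj u
    have := allLt_spec h u u.2
    rw [Bool.and_eq_true] at this
    have := allLt_spec this.2 j hj
    simp only [Nat.beq_eq] at this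
    rw [← this, cnt_eq,
      ← Fin.sum_univ_eq_sum_range (fun i => ind ((!(u.val.beq i) && (c3 T u i).beq j) = true))]
    unfold deg
    refine Finset.sum_congr rfl fun v _ => ?_
    congr 1
    simp only [Bool.and_eq_true, Bool.not_eq_true', ← Bool.not_eq_true, Nat.beq_eq, ne_eq,
      Fin.ext_iff, eq_iff_iff]
    constructor <;> rintro ⟨e1, e2⟩ <;> exact ⟨fun e => e1 e.symm, e2⟩
  refine f3_of (fun a b : Fin n => c3 T a b) (by simp) (fun u v => c3_symm _ _ _)
    (fun u v huv => (hA u v huv).1) (fun j v => hb B j v = true) fun u v j huv e => ?_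
  obtain ⟨h1, h2⟩ := hA u v huv
  rw [e] at h1 h2
  rw [hB j h1, hB j h1]
  exact h2

end Pool.Agent.Lib.MP_71763b_co
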