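import Mathlib

namespace Pool.Agent.Lib.MP_71763b_co

/-- The spanning subgraph of the complete graph on `Fin n` formed by the edges of colour `j`. -/
def colourGraph {n k : ℕ} (c : Sym2 (Fin n) → Fin k) (j : Fin k) : SimpleGraph (Fin n) :=
  SimpleGraph.fromEdgeSet {e | c e = j}

/-- The set of positive `n` such that every `k`-colouring of the edges of the complete graph on `n`
vertices has a monochromatic degree-monotone path on `m` vertices. -/
def ramseySet (k m : ℕ) : Set ℕ :=
  {n | 0 < n ∧ ∀ c : Sym2 (Fin n) → Fin k, ∃ (j : Fin k) (l : List (Fin n)),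
    l.length = m ∧ l.Nodup ∧ l.IsChain fun u v => (colourGraph c j).Adj u v ∧
      ((colourGraph c j).neighborSet u).ncard ≤ ((colourGraph c j).neighborSet v).ncard}

end Pool.Agent.Lib.MP_71763b_co
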