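import Pool.Agent.Lib.MP_71763b_co.Omega

namespace Pool.Agent.Lib.MP_71763b_co

open Finset

variable {g : ℕ}

def Bs (z : Cu g) : Prop := co g z = 1 ∧ co 0 z = 0 ∧ co (g + 1) z = 0

theorem bx_half {b : ℕ} (hb : b + 4 ≤ g) (α β γ s c : F2) (π : ℕ → F2) :
    (fs fun z : Cu g => Bx (g - 1) α β γ s (Ico (b + 3) (g - 1)) π z ∧ co 0 z = c).card =
      4 * 2 ^ b := by
  have h1 := half (Bx (g := g) (g - 1) α β γ s (Ico (b + 3) (g - 1)) π) (n := 0) (by omega)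
    (fun x hx => by
      simp only [Bx, yy, co_add] at hx ⊢
      rw [co_ee_ne (by omega), co_ee_ne (by omega), co_ee_ne (by omega), co_ee_ne (by omega)]
      simp only [add_zero]
      refine ⟨hx.1, hx.2.1, hx.2.2.1, hx.2.2.2.1, fun l hl => ?_⟩
      have := (mem_Ico.1 hl).1
      rw [co_ee_ne (by omega), co_ee_ne (by omega), add_zero, add_zero, hx.2.2.2.2 l hl]) c
  rw [card_bx (by omega) _ _ _ _ _ (fun l hl => by have := mem_Ico.1 hl; omega) _ (b + 3)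
    (by simp; omega), pow_add] at h1
  omega

theorem exists_dj {b t r mm lam : ℕ} {Om : Finset (Cu g)} {σ : Cu g → Fin r → F2}
    (h : OmOK b t r mm Om σ) (hb : b + 4 ≤ g) (hr : 2 ≤ r) (γ1 : Cu g) (τ : ℕ → F2)
    (l1 : 8 * 2 ^ b ≤ lam * 2 ^ r) (l2 : lam + 1 ≤ 4 * 2 ^ b) (l3 : 16 * 2 ^ b ≤ t * lam) :
    ∃ D : Finset (Cu g), (∀ z ∈ D, Bs z) ∧ (Des 1 γ1 → γ1 ∉ D) ∧
      (∀ z, Bs z → (∀ i < g, ¬ Des i z) → z ∈ D) ∧
      (∀ l, co g l = 0 → co 0 l = 1 → co (g + 1) l = 1 →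
        2 ≤ (fs fun u => u ∈ Om ∧ l + u ∈ D).card) ∧
      (∀ x, co g x = 1 → co (g + 1) x = 0 → 8 * 2 ^ b + 2 * (fs fun l => co 0 l = 1 ∧
        Bx (g - 1) 0 1 1 1 (Ico (b + 3) (g - 1)) τ (x + l)).card ≤
        ∑ l ∈ fs fun l => co 0 l = 1 ∧ Bx (g - 1) 0 1 1 1 (Ico (b + 3) (g - 1)) τ (x + l),
          (fs fun u => u ∈ Om ∧ l + u ∈ D).card) ∧
      D.card ≤ lam * 2 ^ (g - b - 2) +
        (fs fun z : Cu g => co (g + 1) z = 0 ∧ ∀ i ∈ range g, ¬ Des i z).card := by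
  classical
  have g1 : g - 1 + 1 = g := by omega
  let κ : Cu g → F2 × F2 × (Ico (b + 3) (g - 1) → F2) := fun z =>
    (co (g - 1) z, co (g + 2) z, fun l => yy l z)
  let ext : (Ico (b + 3) (g - 1) → F2) → ℕ → F2 := fun v l =>
    if h : l ∈ Ico (b + 3) (g - 1) then v ⟨l, h⟩ else 0
  have rw1 : ∀ z k, (Bs z ∧ κ z = k) ↔
      Bx (g - 1) k.1 1 0 k.2.1 (Ico (b + 3) (g - 1)) (ext k.2.2) z ∧ co 0 z = 0 := by
    intro z k
    have : (fun l : Ico (b + 3) (g - 1) => yy l z) = k.2.2 ↔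
        ∀ l ∈ Ico (b + 3) (g - 1), yy l z = ext k.2.2 l :=
      ⟨fun q l hl => by simp only [ext, dif_pos hl, ← q], fun q => funext fun l => by
        rw [q l l.2]; exact dif_pos l.2⟩
    simp only [Bs, κ, Prod.ext_iff, Bx, g1, this]
    tauto
  have row : ∀ k, (fs fun z => Bs z ∧ κ z = k).card = 4 * 2 ^ b := fun k => by
    rw [fs_congr (rw1 · k), bx_half hb]
  have fb : ∀ k v, (fs fun z => (Bs z ∧ κ z = k) ∧ σ z = v).card * 2 ^ r = 4 * 2 ^ b := fun k v => by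
    have := fib (fun z => Bs z ∧ κ z = k) σ h.add (fun w => by
      obtain ⟨u, a, c⟩ := h.loc w
      refine ⟨u, a, fun x hx => ⟨?_, hx.2 ▸ ?_⟩⟩
      · simpa only [Bs, co_add, c g (by omega), c 0 (by omega), c (g + 1) (by omega), add_zero]
          using hx.1
      · simp only [κ, co_add, yy, c (g - 1) (by omega), c (g + 2) (by omega), add_zero]
        congr 2
        funext l
        have := (mem_Ico.1 l.2).1
        rw [c l (by omega), c (l + 2) (by omega), add_zero, add_zero]) v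
    simpa [row] using this
  let w1 : Fin r → F2 := Pi.single ⟨0, by omega⟩ 1
  let w2 : Fin r → F2 := Pi.single ⟨1, by omega⟩ 1
  have w12 : w1 ≠ w2 := fun e => by simpa [w1, w2, Pi.single_apply, Fin.ext_iff] using congrFun e ⟨0, by omega⟩
  have w10 : w1 ≠ 0 := fun e => by simpa [w1] using congrFun e ⟨0, by omega⟩
  have w20 : w2 ≠ 0 := fun e => by simpa [w2] using congrFun e ⟨1, by omega⟩
  have := fun k => exists_subsuperset_card_eq
    (s := fs fun z => ((Bs z ∧ κ z = k) ∧ σ z = σ γ1 + w1) ∨ ((Bs z ∧ κ z = k) ∧ σ z = σ γ1 + w2))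
    (t := (fs fun z => Bs z ∧ κ z = k).erase γ1) (n := lam) (fun z hz => by
      rw [mem_fs] at hz
      refine mem_erase.2 ⟨?_, mem_fs.2 (by tauto)⟩
      rintro rfl
      simp [w10, w20] at hz) (by
      rw [fs_or fun z a c => w12 (add_left_cancel (a.2.symm.trans c.2))]
      refine Nat.le_of_mul_le_mul_right ?_ (Nat.two_pow_pos r)
      rw [add_mul, fb, fb]; omega) (by
      have := pred_card_le_card_erase (s := fs fun z => Bs z ∧ κ z = k) (a := γ1)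
      rw [row] at this
      omega)
  choose E E1 E2 E3 using this
  have E4 : ∀ k, ∀ z ∈ E k, Bs z ∧ κ z = k := fun k z hz => by
    simpa only [mem_fs] using (mem_erase.1 (E2 k hz)).2
  refine ⟨fs fun z => z ∈ E (κ z) ∨ (Bs z ∧ ∀ i < g, ¬ Des i z), fun z hz => ?_, fun a e => ?_,
    fun z a c => mem_fs.2 (Or.inr ⟨a, c⟩), fun l a1 a2 a3 => ?_, fun x a1 a2 => ?_, ?_⟩
  · exact (mem_fs.1 hz).elim (fun q => (E4 _ _ q).1) And.left
  · exact (mem_fs.1 e).elim (fun q => (mem_erase.1 (E2 _ q)).1 rfl) fun q => q.2 1 (by omega) a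
  · have key : ∀ w, w = w1 ∨ w = w2 → ∃ u, σ (l + u) = σ γ1 + w ∧ u ∈ fs fun u => u ∈ Om ∧ l + u ∈
        fs fun z => z ∈ E (κ z) ∨ (Bs z ∧ ∀ i < g, ¬ Des i z) := fun w hw => by
      obtain ⟨u, c1, c2⟩ := h.sur (σ γ1 + w - σ l)
      have c3 : σ (l + u) = σ γ1 + w := by rw [h.add, c2]; abel
      have c4 : Bs (l + u) := by
        simp only [Bs, co_add, a1, a2, a3, h.one u c1]; decide
      refine ⟨u, c3, mem_fs.2 ⟨c1, mem_fs.2 (Or.inl (E1 _ (mem_fs.2 ?_)))⟩⟩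
      rcases hw with rfl | rfl
      exacts [Or.inl ⟨⟨c4, rfl⟩, c3⟩, Or.inr ⟨⟨c4, rfl⟩, c3⟩]
    obtain ⟨u, c1, c2⟩ := key w1 (Or.inl rfl)
    obtain ⟨u', c1', c2'⟩ := key w2 (Or.inr rfl)
    exact one_lt_card.2 ⟨u, c2, u', c2', fun e => w12 (add_left_cancel (c1.symm.trans (e ▸ c1')))⟩
  · rw [fs_dc _ (· ∈ Om), fs_mem, shift_fs x _ (fun z => Bx (g - 1) 0 1 1 1 (Ico (b + 3) (g - 1)) τ z ∧
      co 0 z = co 0 x + 1) fun u => by rw [co_add, add_right_inj, and_comm], bx_half hb]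
    refine le_trans (by rw [smul_eq_mul, h.card]; omega) (card_nsmul_le_sum Om _ lam fun u hu => ?_)
    rw [← E3 (co (g - 1) (x + u), co (g + 2) (x + u) + 1, fun l => yy l (x + u) + τ l)]
    refine card_le_card_of_injOn (· + u) (fun z hz => ?_) (add_left_injective u).injOn
    obtain ⟨⟨c1, c2, c3⟩, c4⟩ := E4 _ z hz
    obtain ⟨d1, d2, d3⟩ := h.one u hu
    simp only [mem_coe, mem_fs, cu_cancel']
    refine ⟨⟨by rw [co_add, c2, d2, zero_add], ?_⟩, Or.inl (c4 ▸ hz)⟩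
    simp only [κ, Prod.ext_iff, funext_iff] at c4
    rw [add_comm z, ← add_assoc]
    refine ⟨by rw [co_add, c4.1, f2_self], by rw [g1, co_add, co_add, a1, c1, d1]; rfl,
      by rw [co_add, co_add, a2, c3, d3]; rfl, by rw [co_add, c4.2.1, ← add_assoc, f2_self, zero_add],
      fun l hl => by rw [yy_add, c4.2.2 ⟨l, hl⟩, ← add_assoc, f2_self, zero_add]⟩
  · refine le_trans (card_le_card (t := univ.biUnion E ∪ fs fun z : Cu g =>
      co (g + 1) z = 0 ∧ ∀ i ∈ range g, ¬ Des i z) fun z hz => ?_) ((card_union_le _ _).trans ?_)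
    · rw [mem_union, mem_fs]
      exact (mem_fs.1 hz).imp (fun q => mem_biUnion.2 ⟨_, mem_univ _, q⟩)
        fun q => ⟨q.1.2.2, fun i hi => q.2 i (mem_range.1 hi)⟩
    · refine add_le_add_left (card_biUnion_le.trans ?_) _
      simp only [E3, sum_const, card_univ, Fintype.card_prod, ZMod.card, Fintype.card_pi, prod_const,
        Fintype.card_coe, Nat.card_Ico, smul_eq_mul]
      rw [show g - b - 2 = g - 1 - (b + 3) + 2 by omega]
      exact le_of_eq (by ring)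

end Pool.Agent.Lib.MP_71763b_co
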