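import Pool.Agent.Lib.MP_71763b_co.Rho

namespace Pool.Agent.Lib.MP_71763b_co

def Fe (ρ : ℕ → ℕ) (n : ℕ) : Prop := ∃ d, Tab ρ n d

def nn (k r a : ℕ) : ℕ := (r + 1) ^ a * r ^ (k - a)

def S (k r a : ℕ) : Prop := ∃ d, Tab (rho k r a) (nn k r a) d ∧
  (∀ i < k, rho k r a i * d i + nn k r a ≤ rho k r a i * nn k r a) ∧
  r * (d a + 1) + nn k r a ≤ r * nn k r a

theorem Fe.mono {ρ ρ' : ℕ → ℕ} {n : ℕ} (h : Fe ρ n) (h1 : ∀ j, ρ j ≤ ρ' j) : Fe ρ' n := by
  obtain ⟨d, hd⟩ := h
  exact ⟨d, hd.mono h1 fun _ => le_rfl⟩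

theorem Fe.triv {ρ : ℕ → ℕ} {n : ℕ} (h : Fe ρ n) : Tab ρ n (fun _ => n - 1) := by
  obtain ⟨d, hd⟩ := h
  refine hd.triv.mono (fun _ => le_rfl) fun j => ?_
  split_ifs <;> omega

theorem S.fe {k r a : ℕ} (h : S k r a) : Fe (rho k r a) (nn k r a) := by
  obtain ⟨d, hd, _⟩ := h
  exact ⟨d, hd⟩

theorem nn_succ {k r a : ℕ} (ha : a ≤ k) : nn (k + 1) r a = r * nn k r a := by
  unfold nn
  rw [show k + 1 - a = k - a + 1 by omega, pow_succ]; ring

theorem nn_succ' {k r a : ℕ} : nn (k + 1) r (a + 1) = (r + 1) * nn k r a := by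
  unfold nn
  rw [show k + 1 - (a + 1) = k - a by omega, pow_succ]; ring

theorem nn_zero (k r : ℕ) : nn k r 0 = r ^ k := by simp [nn]

theorem nn_self (k r : ℕ) : nn k r k = (r + 1) ^ k := by simp [nn]

theorem rho_self (k r : ℕ) : rho k r k = rho k (r + 1) 0 := by
  funext i; unfold rho; split_ifs <;> omega

theorem layer {k r a b w : ℕ} (hr : 1 ≤ r) (hab : b ≤ a) (h : Fe (rho k r b) w) :
    Tab (fun i => if i = a then 1 else rho (k + 1) r b i) w (fun _ => w - 1) := by
  refine h.triv.relabel (fun i => if i < a then i else i + 1) ?_ ?_ ?_ (fun _ => le_rfl)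
  · intro i j hij
    dsimp only at hij
    split_ifs at hij <;> omega
  · intro i
    unfold rho
    split_ifs <;> omega
  · intro j
    split_ifs
    · exact le_rfl
    · exact rho_pos _ _ _ _ hr

theorem step_part {k r a w : ℕ} (hr : 1 ≤ r) (ha : a ≤ k) (h : S (k + 1) r a)
    (hw : Fe (rho k (r + 1) 0) w) (hle : w ≤ nn k r a) :
    Fe (rho (k + 1) (r + 1) 0) (nn (k + 1) r a + w) := by
  obtain ⟨d, h1, _, h3⟩ := h
  refine ⟨fun i => if i = a then nn (k + 1) r a else max (d i) (w - 1),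
    h1.onion a (layer (a := a) (by omega) (Nat.zero_le _) hw) (by simp) ?_ ?_ ?_ (by simp) ?_⟩
  · rw [nn_succ ha] at h3 ⊢
    have : r * (d a + 1 + nn k r a) ≤ r * (r * nn k r a) := by rw [mul_add]; exact h3
    have := Nat.le_of_mul_le_mul_left this hr
    omega
  · unfold rho; split_ifs <;> omega
  · intro i
    unfold rho; split_ifs <;> omega
  · intro i hi
    simp [hi]

theorem step_full {k r a : ℕ} (hr : 2 ≤ r) (hk : 1 ≤ k) (ha : a ≤ k) (h : S (k + 1) r a)
    (hw : Fe (rho k r a) (nn k r a)) :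
    ∃ d, Tab (rho (k + 1) r (a + 1)) (nn (k + 1) r (a + 1)) d ∧
      (∀ i < k + 1, rho (k + 1) r (a + 1) i * d i + nn (k + 1) r (a + 1) ≤
        rho (k + 1) r (a + 1) i * nn (k + 1) r (a + 1)) ∧
      ∀ i < k + 1, i ≠ a → rho (k + 1) r (a + 1) i * (d i + 1) + nn (k + 1) r (a + 1) ≤
        rho (k + 1) r (a + 1) i * nn (k + 1) r (a + 1) := by
  obtain ⟨d, h1, h2, h3⟩ := h
  have hL : 2 ≤ nn k r a := by
    unfold nn
    rcases Nat.eq_zero_or_pos a with rfl | hpos
    · simp only [pow_zero, one_mul, Nat.sub_zero]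
      exact hr.trans (Nat.le_self_pow (by omega) r)
    · have a1 : r + 1 ≤ (r + 1) ^ a := Nat.le_self_pow (by omega) _
      have a2 : 1 ≤ r ^ (k - a) := Nat.one_le_pow _ _ (by omega)
      nlinarith
  have e : nn (k + 1) r (a + 1) = nn (k + 1) r a + nn k r a := by
    rw [nn_succ', nn_succ ha]; ring
  have strong : ∀ i < k + 1, i ≠ a →
      rho (k + 1) r (a + 1) i * (max (d i) (nn k r a - 1) + 1) + nn (k + 1) r (a + 1) ≤
        rho (k + 1) r (a + 1) i * nn (k + 1) r (a + 1) := by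
    intro i hi hia
    have e2 : rho (k + 1) r (a + 1) i = rho (k + 1) r a i := by
      unfold rho; split_ifs <;> omega
    have e3 : 2 ≤ rho (k + 1) r a i := by unfold rho; split_ifs <;> omega
    have := h2 i hi
    rw [e2, e]
    have e4 : nn k r a ≤ nn (k + 1) r a := by rw [nn_succ ha]; nlinarith
    generalize rho (k + 1) r a i = p at *
    generalize nn (k + 1) r a = n at *
    generalize nn k r a = L at *
    rcases le_total (d i) (L - 1) with hm | hm
    · rw [max_eq_right hm, show L - 1 + 1 = L by omega]; nlinarith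
    · rw [max_eq_left hm]; nlinarith
  refine ⟨fun i => if i = a then nn (k + 1) r a else max (d i) (nn k r a - 1), ?_, ?_, ?_⟩
  · rw [e]
    refine h1.onion a (layer (a := a) (by omega) le_rfl hw) (by simp) ?_ ?_ ?_ (by simp) ?_
    · rw [nn_succ ha] at h3 ⊢
      have : r * (d a + 1 + nn k r a) ≤ r * (r * nn k r a) := by rw [mul_add]; exact h3
      have := Nat.le_of_mul_le_mul_left this (by omega)
      omega
    · unfold rho; split_ifs <;> omega
    · intro i
      unfold rho; split_ifs <;> omega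
    · intro i hi
      simp [hi]
  · intro i hi
    by_cases hia : i = a
    · subst hia
      have e2 : rho (k + 1) r (i + 1) i = r + 1 := by simp [rho]
      simp only [if_true]
      rw [e2, nn_succ', nn_succ ha]
      nlinarith
    · simp only [hia, if_false]
      have := strong i hi hia
      nlinarith
  · intro i hi hia
    simp only [hia, if_false]
    exact strong i hi hia

theorem step_a {k r a : ℕ} (hr : 2 ≤ r) (ha : a + 1 ≤ k) (h : S (k + 1) r a)
    (hw : Fe (rho k r a) (nn k r a)) : S (k + 1) r (a + 1) := by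
  obtain ⟨d, h1, h2, h3⟩ := step_full hr (by omega) (by omega) h hw
  refine ⟨d, h1, h2, ?_⟩
  have := h3 (a + 1) (by omega) (by omega)
  rwa [show rho (k + 1) r (a + 1) (a + 1) = r by simp [rho]; omega] at this

theorem step_r {k r : ℕ} (hr : 2 ≤ r) (hk : 1 ≤ k) (h : S (k + 1) r k)
    (hw : Fe (rho k r k) (nn k r k)) : S (k + 1) (r + 1) 0 := by
  obtain ⟨d, h1, h2, h3⟩ := step_full hr hk le_rfl h hw
  rw [rho_self, nn_self, ← nn_zero] at h1 h2 h3
  refine ⟨d, h1, h2, ?_⟩
  have := h3 0 (by omega) (by omega)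
  rwa [show rho (k + 1) (r + 1) 0 0 = r + 1 by simp [rho]] at this

theorem chainS {k r0 : ℕ} (hr : 2 ≤ r0) (hk : 1 ≤ k) (h : S (k + 1) r0 0)
    (hw : ∀ r, r0 ≤ r → ∀ a ≤ k, Fe (rho k r a) (nn k r a)) :
    ∀ r, r0 ≤ r → ∀ a ≤ k, S (k + 1) r a := by
  have inner : ∀ r, r0 ≤ r → S (k + 1) r 0 → ∀ a ≤ k, S (k + 1) r a := by
    intro r hr0 h0 a
    induction a with
    | zero => intro _; exact h0
    | succ a ih =>
      intro ha
      exact step_a (by omega) ha (ih (by omega)) (hw r hr0 a (by omega))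
  intro r hr0
  induction r, hr0 using Nat.le_induction with
  | base => exact inner _ le_rfl h
  | succ r hr0 ih =>
    exact inner _ (by omega) (step_r (by omega) hk (ih k le_rfl) (hw r hr0 k le_rfl))

theorem full_of_S {k r0 : ℕ} (h : ∀ r, r0 ≤ r → ∀ a ≤ k, S (k + 1) r a) :
    ∀ r, r0 ≤ r → ∀ a ≤ k + 1, Fe (rho (k + 1) r a) (nn (k + 1) r a) := by
  intro r hr a ha
  rcases Nat.lt_or_ge a (k + 1) with h1 | h1
  · exact (h r hr a (by omega)).fe
  · obtain rfl : a = k + 1 := by omega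
    rw [rho_self, nn_self, ← nn_zero]
    exact (h (r + 1) (by omega) 0 (by omega)).fe

theorem range_step {k r B : ℕ} (hr : 1 ≤ r) (hS : ∀ a ≤ k, S (k + 1) r a)
    (hw : ∀ w ≤ B, Fe (rho k (r + 1) 0) w) (hB : ∀ a < k, nn k r a ≤ B)
    (h0 : ∀ n ≤ r ^ (k + 1), Fe (rho (k + 1) r 0) n) :
    ∀ n ≤ nn (k + 1) r k + B, n ≤ (r + 1) ^ (k + 1) → Fe (rho (k + 1) (r + 1) 0) n := by
  have e : ∀ a ≤ k, nn (k + 1) r (a + 1) = nn (k + 1) r a + nn k r a := by
    intro a ha
    rw [nn_succ', nn_succ ha]; ring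
  have key : ∀ a ≤ k, ∀ n ≤ nn (k + 1) r a, Fe (rho (k + 1) (r + 1) 0) n := by
    intro a
    induction a with
    | zero =>
      intro _ n hn
      rw [nn_zero] at hn
      refine (h0 n hn).mono fun j => ?_
      unfold rho; split_ifs <;> omega
    | succ a ih =>
      intro ha n hn
      rcases le_or_gt n (nn (k + 1) r a) with h1 | h1
      · exact ih (by omega) n h1
      · rw [e a (by omega)] at hn
        have := hB a (by omega)
        have := step_part (w := n - nn (k + 1) r a) hr (by omega) (hS a (by omega))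
          (hw _ (by omega)) (by omega)
        rwa [show nn (k + 1) r a + (n - nn (k + 1) r a) = n by omega] at this
  intro n h1 h2
  rcases le_or_gt n (nn (k + 1) r k) with h3 | h3
  · exact key k le_rfl n h3
  · rw [← nn_self, e k le_rfl] at h2
    have := step_part (w := n - nn (k + 1) r k) hr le_rfl (hS k le_rfl) (hw _ (by omega)) (by omega)
    rwa [show nn (k + 1) r k + (n - nn (k + 1) r k) = n by omega] at this

theorem chainF {k r0 : ℕ} (hr : 1 ≤ r0) (hS : ∀ r, r0 ≤ r → ∀ a ≤ k, S (k + 1) r a)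
    (hw : ∀ r, r0 ≤ r → ∀ w ≤ (r + 1) ^ k, Fe (rho k (r + 1) 0) w)
    (h0 : ∀ n ≤ r0 ^ (k + 1), Fe (rho (k + 1) r0 0) n) :
    ∀ r, r0 ≤ r → ∀ n ≤ r ^ (k + 1), Fe (rho (k + 1) r 0) n := by
  intro r hr0
  induction r, hr0 using Nat.le_induction with
  | base => exact h0
  | succ r hr0 ih =>
    intro n hn
    refine range_step (B := (r + 1) ^ k) (by omega) (hS r hr0) (hw r hr0) ?_ ih n ?_ hn
    · intro a ha
      unfold nn
      calc (r + 1) ^ a * r ^ (k - a) ≤ (r + 1) ^ a * (r + 1) ^ (k - a) := by gcongr; omega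
        _ = (r + 1) ^ k := by rw [← pow_add]; congr 1; omega
    · rw [nn_succ le_rfl, nn_self]
      calc n ≤ (r + 1) ^ (k + 1) := hn
        _ = _ := by ring

theorem Tab.onion' {ρ ρ' ρ'' d d' : ℕ → ℕ} {n w : ℕ} (a : ℕ) (h : Tab ρ n d) (h' : Tab ρ' w d')
    (ha : ρ' a ≤ 1) (hs : d a + w < n) (h1 : ρ a + 1 ≤ ρ'' a)
    (h2 : ∀ i, ρ i ≤ ρ'' i ∧ ρ' i ≤ ρ'' i) :
    Tab ρ'' (n + w) (fun i => if i = a then n else max (d i) (d' i)) := by
  refine h.onion a h' ha hs h1 h2 (by simp) fun i hi => ?_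
  simp [hi]

theorem fe_one {r a n : ℕ} (hr : 1 ≤ r) (hn : n ≤ rho 1 r a 0) : Fe (rho 1 r a) n :=
  ⟨_, Tab.clique hn fun _ => rho_pos _ _ _ _ hr⟩

theorem two_step {r n0 : ℕ} {d : ℕ → ℕ} (hr : 1 ≤ r) (h : Tab (rho 2 r 0) n0 d)
    (h0 : d 0 + r < n0) (h1 : d 1 + r + 1 < n0 + r) (n : ℕ) (h2 : n0 ≤ n)
    (h3 : n ≤ n0 + 2 * r + 1) : Fe (rho 2 (r + 1) 0) n := by
  have a1 : ∀ w ≤ r, Tab (rho 2 r 1) (n0 + w)
      (fun i => if i = 0 then n0 else max (d i) (w - 1)) := by
    intro w hw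
    refine h.onion 0 (layer (k := 1) (r := r) (a := 0) (b := 0) hr le_rfl
      (fe_one hr (by simpa [rho] using hw))) (by simp) (by omega) (by simp [rho]) ?_ (by simp) ?_
    · intro i
      unfold rho; split_ifs <;> omega
    · intro i hi
      simp [hi]
  rcases le_or_gt n (n0 + r) with h4 | h4
  · have := a1 (n - n0) (by omega)
    rw [show n0 + (n - n0) = n by omega] at this
    refine Fe.mono ⟨_, this⟩ fun j => ?_
    unfold rho; split_ifs <;> omega
  · have := (a1 r le_rfl).onion' (ρ'' := rho 2 (r + 1) 0) 1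
      (layer (k := 1) (r := r + 1) (a := 1) (b := 0) (w := n - (n0 + r)) (by omega) (by omega)
      (fe_one (by omega) (by simp [rho]; omega))) (by simp) (by simp; omega) (by simp [rho]) ?_
    · rw [show n0 + r + (n - (n0 + r)) = n by omega] at this
      exact ⟨_, this⟩
    · intro i
      unfold rho; split_ifs <;> omega

theorem three_part {k M : ℕ} (hM : 2 ≤ M) (h : ∀ w ≤ M, Fe (rho k 3 0) w) :
    ∀ n, n + 3 ≤ 3 * M → Fe (rho (k + 1) 3 0) n := by
  have a1 : ∀ w < M, Tab (fun i => if i = k then 2 else rho (k + 1) 3 0 i) (M + w)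
      (fun i => if i = k then M else max (if rho k 3 0 i ≤ 1 then 0 else M - 1) (w - 1)) := by
    intro w hw
    obtain ⟨d, hd⟩ := h M le_rfl
    refine hd.triv.onion' k (h w hw.le).triv (by simp [rho]) (by simp [rho]; omega)
      (by simp [rho]) ?_
    intro i
    unfold rho; split_ifs <;> omega
  intro n hn
  rcases le_or_gt n M with h1 | h1
  · refine (h n h1).mono fun j => ?_
    unfold rho; split_ifs <;> omega
  rcases le_or_gt n (M + (M - 1)) with h2 | h2
  · have := a1 (n - M) (by omega)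
    rw [show M + (n - M) = n by omega] at this
    refine Fe.mono ⟨_, this⟩ fun j => ?_
    unfold rho; split_ifs <;> omega
  · have := (a1 (M - 1) (by omega)).onion' (ρ'' := rho (k + 1) 3 0) k
      (h (n - (M + (M - 1))) (by omega)).triv (by simp [rho]) (by simp; omega) (by simp [rho]) ?_
    · rw [show M + (M - 1) + (n - (M + (M - 1))) = n by omega] at this
      exact ⟨_, this⟩
    · intro i
      unfold rho; split_ifs <;> omega

theorem blow3 {k0 k : ℕ} {d : ℕ → ℕ} (hk0 : 1 ≤ k0) (hk : 1 ≤ k)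
    (h : STab k0 (rho k0 3 0) (3 ^ k0) d)
    (hd : ∀ i < k0, 3 * (d i + 1) + 3 ^ k0 ≤ 3 * 3 ^ k0)
    (hA : ∀ n ≤ 3 ^ k, Fe (rho k 3 0) n) :
    S (k0 + k) 3 0 ∧ ∀ t < 3, Fe (rho (k0 + k) 3 0) (3 ^ (k0 + k) - t) := by
  have hN : 3 ≤ 3 ^ k := Nat.le_self_pow (by omega) 3
  have hN0 : 3 ≤ 3 ^ k0 := Nat.le_self_pow (by omega) 3
  have inner : ∀ n ≤ 3 ^ k, Tab (fun j => if j < k0 then 1 else rho (k0 + k) 3 0 j) n
      (fun _ => 3 ^ k - 1) := by
    intro n hn
    refine (hA n hn).triv.relabel (fun i => i + k0) (fun i j hij => by simpa using hij) ?_ ?_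
      (fun _ => by omega)
    · intro i
      unfold rho; split_ifs <;> omega
    · intro i
      unfold rho; split_ifs <;> omega
  have key : ∀ t < 3, Tab (rho (k0 + k) 3 0) (3 ^ (k0 + k) - t)
      (fun j => if j < k0 then 3 ^ k * d j else 3 ^ k - 1) := by
    intro t ht
    have := h.blow (t := t) (by omega) (by omega) (inner _ le_rfl) (inner _ (Nat.sub_le _ _))
      (fun j hj => by simp [hj])
    rw [← pow_add] at this
    refine this.mono (fun j => ?_) fun _ => le_rfl
    unfold rho; split_ifs <;> omega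
  refine ⟨⟨_, by rw [nn_zero]; exact key 0 (by omega), ?_, ?_⟩, fun t ht => ⟨_, key t ht⟩⟩
  · intro i hi
    rw [nn_zero, show rho (k0 + k) 3 0 i = 3 by simp [rho, hi], pow_add]
    split_ifs with h1
    · have := hd i h1
      nlinarith
    · generalize 3 ^ k = N at *
      obtain ⟨N, rfl⟩ : ∃ M, N = M + 1 := ⟨N - 1, by omega⟩
      simp only [Nat.add_sub_cancel]
      nlinarith
  · rw [nn_zero, pow_add, if_pos (by omega)]
    have := hd 0 (by omega)
    nlinarith

end Pool.Agent.Lib.MP_71763b_co
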