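import Pool.Agent.Lib.MP_71763b_co.Bridge

namespace Pool.Agent.Lib.MP_71763b_co

def tr9_0 : Tr := (.E 0 4 (.E 0 7 (.S 0 3 (.S 0 4 (.E 0 8 (.F [(0,4,1,4),(2,5,0,1),(3,6,0,1),(4,3,0,2),(4,7,0,1)]) (.E 3 8 (.T 3 8 0 (.F [(0,3,1,1),(3,0,0,1)])) (.E 4 8 (.T 4 8 0 (.F [(0,4,1,1),(4,0,0,1)])) (.F [(0,4,1,4),(1,0,0,1),(2,5,0,1),(3,6,0,1),(4,3,0,2),(4,7,0,1),(5,8,0,2)])))) (.P true [1,4,0,3])) (.T 4 3 0 (.P true [1,4,0,3]))) (.T 4 7 0 (.P true [1,4,0,3]))) (.T 5 4 0 (.E 0 5 (.P true [2,5,0,3]) (.S 1 0 (.S 4 0 (.E 0 8 (.T 1 0 8 (.T 4 0 8 (.E 1 8 (.E 4 8 (.F [(0,3,0,1),(1,4,0,2),(2,1,0,1),(4,0,1,4),(5,4,0,1),(7,6,0,1),(8,7,0,2)]) (.T 0 8 4 (.T 0 4 8 (.T 0 8 4 (.F [(0,4,1,1),(4,0,0,1)]))))) (.T 8 1 4 (.T 0 8 1 (.T 0 8 4 (.T 1 8 4 (.T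 4 8 1 (.T 0 1 4 (.T 0 4 1 (.F [(0,1,1,1),(1,0,0,1)]))))))))))) (.F [(1,4,0,2),(2,1,0,1),(4,0,1,4),(5,4,0,1),(7,6,0,1)])) (.P false [3,4,0,1])) (.P false [1,0,4,5])))))
def tr9 : Tr := (.E 0 1 .X (.E 0 2 .X (.E 0 3 (.E 0 6 (.E 1 2 .X (.E 1 4 (.E 1 7 (.E 2 5 (.E 2 8 (.E 3 4 .X (.E 3 5 .X (.E 3 6 (.E 4 5 .X (.E 4 7 (.E 5 8 (.E 6 7 .X (.E 6 8 .X (.E 7 8 .X tr9_0))) .X) .X)) .X))) .X) .X) .X) .X)) .X) .X)))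
def tr8o0 : Tr := (.E 0 1 .X (.E 0 3 (.E 0 6 (.E 1 4 (.E 1 7 (.E 2 3 .X (.T 0 3 2 (.E 3 4 .X (.E 3 6 (.E 4 7 (.E 5 6 .X (.E 5 7 .X (.E 6 7 .X (.E 0 7 (.S 0 5 (.F [(0,3,0,1),(0,5,1,1),(1,0,0,1),(3,2,0,1),(4,3,0,1),(7,6,0,1)]) (.T 7 5 0 (.P true [1,4,7,0]))) (.T 7 0 2 (.T 7 0 3 (.E 2 7 (.P true [1,4,7,2]) (.E 3 7 (.P true [1,4,7,3]) (.F [(0,3,0,1),(1,4,0,1),(3,2,0,1),(4,7,0,2),(6,5,0,1)]))))))))) .X) .X)))) .X) .X) .X) .X))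
def tr8o1_0 : Tr := (.E 0 1 .X (.E 0 2 (.E 0 5 (.E 1 4 (.E 1 7 (.E 2 3 .X (.E 2 4 .X (.E 2 5 (.E 3 4 .X (.E 3 6 (.E 4 7 (.E 5 6 .X (.E 5 7 .X (.E 6 7 .X (.E 0 6 (.S 0 6 (.E 0 3 (.S 0 2 (.F [(0,2,1,2),(0,6,1,1),(1,4,0,1),(2,5,0,1)]) (.P true [2,0,3,6])) (.S 1 0 (.F [(0,6,1,2),(1,0,1,1),(4,3,0,1),(6,5,0,1)]) (.P false [1,0,3,4]))) (.P true [3,6,0,2])) (.T 6 0 2 (.T 3 6 0 (.T 7 6 0 (.E 0 3 (.P true [3,0,2,5]) (.E 0 7 (.P true [1,4,7,0]) (.E 2 6 (.T 2 6 0 (.P true [3,6,2,0])) (.F [(1,4,0,1),(3,6,0,2),(4,3,0,2),(6,0,0,1)]))))))))))) .X) .X)) .X))) .X) .X) .X) .X))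
def tr8o1 : Tr := tr8o1_0
def tr8o2_0 : Tr := (.E 1 6 (.E 2 3 .X (.E 2 4 .X (.E 2 5 (.E 3 4 .X (.E 3 6 (.E 4 7 (.E 5 6 .X (.E 5 7 .X (.E 6 7 .X (.E 2 6 (.T 0 2 6 (.E 0 6 (.S 2 6 (.E 0 3 (.S 0 2 (.F [(0,2,1,1),(2,6,1,1)]) (.T 3 2 0 (.P true [1,3,0,2]))) (.T 4 3 0 (.E 0 4 (.P true [4,0,2,5]) (.S 3 0 (.E 0 7 (.F [(0,7,0,1),(1,3,0,1),(2,6,1,1),(3,0,1,2),(6,5,0,1)]) (.F [(1,3,0,1),(2,6,1,1),(3,0,1,2),(4,7,0,1),(6,5,0,1)])) (.P false [2,3,0,1]))))) (.P true [0,6,2,5])) (.T 6 0 2 (.P true [1,3,6,2])))) (.T 7 6 2 (.E 2 7 (.P true [4,7,2,5]) (.S 1 2 (.F [(1,2,1,1)]) (.T 2 1 3 (.P false [3,2,6,7]))))))))) .X) .X)) .X))) .X)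
def tr8o2 : Tr := (.E 0 1 .X (.E 0 2 (.E 0 5 (.E 1 3 tr8o2_0 .X) .X) .X))
def tr8o3 : Tr := (.E 0 1 .X (.E 0 2 .X (.E 0 5 (.E 1 2 .X (.E 1 3 (.E 1 6 (.E 2 4 (.E 2 7 (.E 3 4 .X (.E 3 6 (.E 4 7 (.E 5 6 .X (.E 5 7 .X (.E 6 7 .X (.E 1 4 (.E 1 7 (.S 1 3 (.F [(1,3,1,1),(3,6,0,1),(6,5,0,1)]) (.T 4 3 1 (.P true [2,4,1,3]))) (.T 4 7 1 (.P true [2,4,1,3]))) (.T 4 1 0 (.E 0 4 (.P true [2,4,0,5]) (.S 4 1 (.E 0 3 (.S 0 3 (.F [(0,3,1,2),(1,0,0,2),(2,4,0,1),(3,6,0,2),(4,1,1,2),(6,5,0,1)]) (.P true [1,3,0,5])) (.S 1 0 (.F [(1,0,1,1),(4,1,1,1)]) (.P false [1,0,3,4]))) (.P false [0,4,1,2])))))))) .X) .X)) .X) .X) .X) .X)) .X)))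
def tr8o4_0 : Tr := (.E 1 6 (.T 2 1 6 (.E 2 4 (.E 2 7 (.E 3 4 .X (.E 3 5 (.E 4 7 (.E 5 6 .X (.E 5 7 .X (.E 6 7 .X (.E 2 6 (.S 2 7 (.E 3 6 (.T 0 3 6 (.E 0 6 (.S 0 6 (.S 3 5 (.F [(0,6,1,1),(2,1,0,1),(2,7,1,1),(3,5,1,2),(4,3,0,1)]) (.P true [0,5,3,6])) (.T 6 0 3 (.P true [0,6,3,5]))) (.T 6 0 3 (.T 3 6 0 (.P true [1,6,3,0]))))) (.T 7 6 3 (.E 3 7 (.P true [2,4,7,3]) (.F [(2,7,1,1),(6,3,0,1),(7,6,0,1)])))) (.P true [4,7,2,6])) (.S 2 1 (.S 4 6 (.S 7 5 (.F [(1,0,0,1),(2,1,1,2),(3,5,0,1),(4,6,1,2),(7,5,1,1)]) (.T 6 5 7 (.P false [5,7,6,2]))) (.T 6 4 7 (.P false [5,7,6,2]))) (.P false [5,6,2,1])))))) .X) .X)) .X) .X)) .X)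
def tr8o4 : Tr := (.E 0 1 .X (.E 0 3 (.E 0 5 (.E 1 2 .X tr8o4_0) .X) .X))
def tr8o5_0 : Tr := (.E 0 2 .X (.E 0 3 (.E 0 5 (.E 1 4 (.E 1 6 (.E 2 7 (.E 3 4 .X (.E 3 5 (.E 4 6 (.E 5 6 .X (.E 5 7 .X (.E 6 7 .X (.E 3 6 (.T 0 3 6 (.E 0 6 (.S 3 6 (.E 0 4 (.S 0 3 (.F [(0,3,1,1),(3,6,1,1)]) (.T 4 3 0 (.P true [1,4,0,3]))) (.S 4 0 (.E 0 7 (.F [(0,7,0,1),(1,4,0,1),(3,6,1,1),(4,0,1,2),(6,5,0,1)]) (.F [(1,4,0,1),(2,7,0,1),(3,6,1,1),(4,0,1,2),(6,5,0,1)])) (.P false [3,4,0,1]))) (.P true [0,6,3,5])) (.T 6 0 3 (.P true [1,4,6,3])))) (.T 7 6 3 (.E 3 7 (.P true [2,7,3,5]) (.S 1 3 (.F [(0,3,0,1),(1,3,1,1),(2,7,0,1),(3,5,0,1),(4,6,0,1)]) (.T 3 1 4 (.P false [4,3,6,7]))))))))) .X) .X)) .X) .X) .X) .X) .X))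
def tr8o5 : Tr := (.E 0 1 .X tr8o5_0)
def tr8o6_0 : Tr := (.E 1 2 .X (.E 1 4 (.E 1 6 (.E 2 5 (.E 2 7 (.E 3 4 .X (.E 3 5 .X (.E 4 5 .X (.E 4 6 (.E 5 7 (.E 6 7 .X (.E 1 5 (.E 1 7 (.S 1 3 (.F [(1,3,1,1)]) (.T 5 3 1 (.P true [2,5,1,4]))) (.T 5 7 1 (.P true [2,5,1,4]))) (.T 5 1 0 (.E 0 5 (.P true [2,5,0,3]) (.S 5 1 (.E 0 4 (.E 0 6 (.S 0 4 (.E 0 7 (.F [(0,4,1,2),(2,5,0,1),(4,3,0,1),(5,1,1,1),(7,6,0,1)]) (.F [(0,4,1,2),(2,5,0,1),(4,3,0,1),(5,1,1,1),(7,0,0,1)])) (.P true [1,4,0,3])) (.T 4 6 0 (.P true [1,4,0,3]))) (.S 1 0 (.F [(1,0,1,1),(5,1,1,1)]) (.P false [1,0,4,5]))) (.P false [0,5,1,2])))))) .X) .X)))) .X) .X) .X) .X))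
def tr8o6 : Tr := (.E 0 1 .X (.E 0 2 .X (.E 0 3 tr8o6_0 .X)))
def tr8o7_0 : Tr := (.E 0 1 .X (.E 0 2 .X (.E 0 3 (.E 0 6 (.E 1 2 .X (.E 1 4 (.E 2 5 (.E 2 7 (.E 3 4 .X (.E 3 5 .X (.E 4 5 .X (.E 5 7 (.E 6 7 .X (.E 1 5 (.E 1 7 (.S 1 3 (.F [(1,0,0,1),(1,3,1,1),(2,1,0,1),(5,4,0,1),(7,6,0,1)]) (.T 5 3 1 (.P true [2,5,1,4]))) (.T 5 7 1 (.P true [2,5,1,4]))) (.T 5 1 0 (.E 0 5 (.P true [2,5,0,3]) (.S 5 1 (.E 0 4 (.S 0 4 (.E 0 7 (.F [(0,4,1,2),(2,5,0,1),(4,3,0,1),(5,1,1,1),(7,6,0,1)]) (.F [(0,4,1,2),(2,5,0,1),(4,3,0,1),(5,1,1,1),(7,0,0,1)])) (.P true [1,4,0,3])) (.S 1 0 (.F [(1,0,1,1),(5,1,1,1)]) (.P false [1,0,4,5]))) (.P false [0,5,1,2])))))) .X)))) .X) .X) .X)) .X) .X)))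
def tr8o7 : Tr := tr8o7_0
def tr8o8_0 : Tr := (.E 0 2 .X (.E 0 3 (.T 2 0 3 (.E 0 6 (.E 1 2 .X (.E 1 4 (.E 1 7 (.E 2 5 (.E 3 4 .X (.E 3 5 .X (.E 3 6 (.E 4 5 .X (.E 4 7 (.E 6 7 .X (.E 0 4 (.E 0 7 (.S 0 4 (.E 2 3 (.S 2 5 (.F [(0,4,1,2),(1,0,0,1),(2,5,1,1),(4,3,0,1),(7,6,0,1)]) (.P true [5,2,3,6])) (.F [(0,4,1,1),(4,3,0,1)])) (.P true [1,4,0,3])) (.T 4 7 0 (.P true [1,4,0,3]))) (.T 5 4 0 (.E 0 5 (.P true [2,5,0,3]) (.S 4 0 (.E 1 5 (.F [(1,5,0,1),(4,0,1,1),(5,4,0,1)]) (.S 2 1 (.F [(0,3,0,1),(1,4,0,2),(2,1,1,1),(4,0,1,3),(7,6,0,1)]) (.P false [0,2,1,5]))) (.P false [3,4,0,1])))))) .X)) .X))) .X) .X) .X)) .X)) .X))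
def tr8o8 : Tr := (.E 0 1 .X tr8o8_0)
def tr16_0 : Tr := (.E 4 9 (.T 0 4 9 (.E 0 9 (.S 4 9 (.S 5 4 (.F [(2,6,1,3),(3,7,1,1),(4,9,1,4),(5,4,1,4),(6,5,1,4),(7,2,1,2),(8,13,1,2),(9,8,0,3),(13,12,1,1)]) (.T 0 4 5 (.E 0 5 (.E 1 4 (.E 5 8 (.S 0 4 (.E 1 6 (.E 1 10 (.E 1 14 (.S 1 6 (.F [(1,6,1,1),(4,9,1,1),(6,4,1,1),(8,13,1,1),(9,8,0,1),(13,12,1,1)]) (.P true [2,6,1,4,8])) (.T 6 14 1 (.P true [2,6,1,4,8]))) (.T 6 10 1 (.P true [2,6,1,4,8]))) (.T 6 1 0 (.E 0 6 (.P true [2,6,0,4,8]) (.S 6 0 (.F [(0,4,1,4),(2,6,1,3),(3,7,1,1),(4,9,1,4),(6,0,1,4),(7,2,1,2),(8,13,1,2),(9,8,0,3),(13,12,1,1)]) (.T 1 0 6 (.P false [0,6,1,2,3])))))) (.P true [1,4,0,5,8])) (.P false [8,5,4,6,7])) (.P false [5,4,1,2,3])) (.P false [0,5,4,6,7])))) (.P true [0,9,4,8,12]))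 (.T 9 0 4 (.T 4 9 0 (.P true [1,5,9,4,0]))))) (.T 10 9 4 (.T 11 9 4 (.E 4 10 (.P true [2,6,10,4,8]) (.E 4 11 (.P true [3,7,11,4,8]) (.S 9 4 (.F [(2,6,1,1),(3,7,1,1),(5,9,1,1),(6,5,1,1),(7,2,1,1),(9,4,1,1)]) (.P false [8,9,4,5,6])))))))
def tr16_1 : Tr := (.E 1 14 (.S 1 14 (.E 0 5 (.S 0 5 (.E 0 14 (.E 0 6 (.E 0 10 (.F [(0,6,0,1),(4,9,1,1),(5,4,0,1),(6,5,1,1),(9,13,1,1),(13,12,1,1)]) (.T 6 10 0 (.P true [2,6,0,4,8]))) (.S 6 0 (.E 2 15 (.F [(0,5,1,4),(2,6,1,3),(3,2,1,1),(4,9,1,4),(5,4,0,4),(6,0,1,4),(7,2,1,1),(9,8,0,1),(9,13,1,2),(13,12,1,1)]) (.T 15 2 1 (.E 8 15 (.T 0 8 15 (.T 0 15 1 (.F [(0,1,1,1),(1,0,0,1)]))) (.F [(0,5,1,4),(2,6,1,3),(3,2,1,1),(4,9,1,4),(5,4,0,4),(6,0,1,4),(7,2,1,1),(9,8,0,1),(9,13,1,2),(13,12,1,1)])))) (.P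 false [4,5,6,0,1]))) (.T 10 14 0 (.E 0 10 (.T 14 0 10 (.P true [1,14,10,0,4])) (.E 4 10 (.T 4 10 0 (.F [(0,4,1,1),(4,0,0,1)])) (.E 5 10 (.T 5 10 0 (.F [(0,5,1,1),(5,0,0,1)])) (.F [(0,5,1,6),(1,14,1,5),(2,1,0,3),(3,2,1,1),(4,9,1,4),(5,4,0,5),(6,10,0,1),(7,2,1,1),(9,8,0,1),(9,13,1,2),(11,1,1,1),(13,12,1,1),(14,0,0,7),(15,14,0,1)])))))) (.P true [1,5,0,4,8])) (.S 5 0 (.F [(0,4,1,4),(2,6,1,3),(3,2,1,1),(4,9,1,4),(5,0,1,4),(6,5,1,4),(7,2,1,1),(9,8,0,1),(9,13,1,2),(13,12,1,1)]) (.P false [4,5,0,1,2]))) (.P true [2,6,10,14,1])) (.T 14 1 5 (.T 10 14 1 (.T 10 14 5 (.T 15 14 1 (.T 15 14 5 (.E 4 10 (.T 0 4 10 (.T 0 10 1 (.F [(0,1,1,1),(1,0,0,1)]))) (.E 4 14 (.T 0 4 14 (.T 0 14 1 (.F [(0,1,1,1),(1,0,0,1)]))) (.E 4 15 (.T 0 4 15 (.T 0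 15 1 (.F [(0,1,1,1),(1,0,0,1)]))) (.E 5 10 (.T 5 10 1 (.P true [2,6,10,5,1])) (.E 5 14 (.P true [2,6,10,14,5]) (.E 5 15 (.P true [3,7,11,15,5]) (.E 8 14 (.T 0 8 14 (.T 0 14 1 (.F [(0,1,1,1),(1,0,0,1)]))) (.F [(0,4,1,1),(2,6,1,3),(3,2,1,1),(4,9,1,2),(5,4,0,2),(6,5,1,3),(6,10,0,1),(7,2,1,1),(9,13,1,2),(10,14,0,1),(11,6,1,1),(13,12,1,1)]))))))))))))))
def tr16_2 : Tr := (.E 0 9 (.S 0 8 (.S 0 9 (.E 4 9 (.S 4 9 (.S 0 4 tr16_1 (.T 5 4 0 (.E 0 5 (.P true [1,5,0,4,8]) (.E 1 4 (.P true [1,4,0,8,12]) (.S 5 0 (.E 2 11 (.F [(0,9,1,4),(2,11,0,3),(3,2,1,1),(5,0,1,5),(6,5,1,5),(7,2,1,1),(9,8,0,1),(9,13,1,2),(11,6,1,4),(13,12,1,1)]) (.S 11 2 (.F [(0,9,1,4),(2,6,1,4),(3,11,0,1),(5,0,1,5),(6,5,1,5),(7,11,0,1),(9,8,0,1),(9,13,1,2),(11,2,1,3),(13,12,1,1)])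 (.P false [0,1,11,2,3]))) (.T 4 0 5 (.P false [0,5,4,1,2]))))))) (.P true [0,9,4,8,12])) (.T 10 9 4 (.E 4 10 (.P true [2,6,10,4,8]) (.S 9 4 (.F [(2,6,1,3),(3,2,1,1),(4,13,1,2),(5,9,1,4),(6,5,1,4),(7,2,1,1),(9,4,1,4),(11,6,1,1),(13,12,1,1)]) (.P false [8,9,4,5,3]))))) (.P true [1,5,9,0,4])) (.T 9 8 0 (.P true [1,5,9,0,4]))) (.T 5 9 0 (.T 10 9 0 (.E 0 5 (.T 9 0 5 (.T 0 5 9 (.T 0 9 5 (.F [(0,5,1,1),(5,0,0,1)])))) (.E 0 6 (.T 0 6 5 (.F [(0,5,1,1),(5,0,0,1)])) (.E 0 10 (.P true [2,6,10,0,4]) (.F [(2,6,1,1),(3,2,1,1),(5,9,1,1),(6,5,1,1),(9,0,0,1)])))))))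
def tr16_3 : Tr := (.E 0 13 (.E 4 13 (.S 4 13 (.E 6 11 (.T 2 6 11 (.T 6 11 15 (.E 2 11 (.E 2 15 (.E 6 15 (.S 6 11 (.F [(1,5,0,4),(2,6,1,3),(3,2,1,1),(5,9,1,4),(6,11,1,4),(7,2,1,1),(9,8,0,1),(9,13,1,2),(11,1,1,4),(13,12,1,1)]) (.P true [2,11,6,10,14])) (.T 11 15 6 (.P true [2,11,6,10,14]))) (.T 6 15 2 (.F [(2,6,1,1),(6,2,0,1)]))) (.T 6 11 2 (.F [(2,6,1,1),(6,2,0,1)]))))) (.S 11 6 tr16_2 (.P false [0,1,11,6,3]))) (.P true [0,13,4,8,12])) (.T 9 13 4 (.E 4 9 (.T 13 4 9 (.T 4 9 13 (.T 4 13 9 (.F [(4,9,1,1),(9,4,0,1)])))) (.E 4 10 (.T 13 4 10 (.T 4 10 13 (.T 13 10 9 (.T 4 13 9 (.F [(4,9,1,1),(9,4,0,1)]))))) (.F [(2,6,1,1),(5,9,1,1),(6,5,1,1),(9,13,1,1),(13,4,0,1)]))))) (.T 5 13 0 (.T 9 13 0 (.E 0 5 (.T 9 0 5 (.T 0 5 9 (.T 0 9 5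 (.F [(0,5,1,1),(5,0,0,1)])))) (.E 0 6 (.T 0 6 5 (.F [(0,5,1,1),(5,0,0,1)])) (.F [(2,6,1,1),(3,2,1,1),(5,9,1,1),(6,5,1,1),(9,13,1,1),(13,0,0,1)]))))))
def tr16_4 : Tr := (.E 1 11 (.T 2 1 11 (.E 1 10 (.E 1 14 (.E 1 15 (.E 2 11 (.E 2 15 (.S 1 11 (.E 11 13 (.S 11 15 (.E 4 11 (.T 0 4 11 (.E 0 11 (.E 5 11 (.F [(1,5,0,1),(2,6,1,3),(3,2,1,1),(5,9,1,4),(6,5,1,3),(7,2,1,1),(9,8,0,1),(9,13,1,2),(11,15,1,1),(13,12,1,1),(15,14,0,1)]) (.T 11 5 4 (.P true [0,11,4,8,12]))) (.T 11 0 4 (.T 4 11 0 (.P true [1,11,4,0,8]))))) (.S 11 4 (.F [(1,11,1,1),(2,6,1,1),(5,9,1,1),(6,5,1,1),(9,13,1,1),(11,4,1,1),(13,12,1,1)]) (.P false [8,9,10,11,4]))) (.P true [3,7,15,11,13])) (.S 11 8 (.F [(1,11,1,1),(2,6,1,3),(3,2,1,1),(5,9,1,3),(6,5,1,3),(7,2,1,1),(9,13,1,2),(11,8,1,1),(13,12,1,1)])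 (.P false [12,13,11,8,9]))) (.P true [2,11,1,5,9])) (.T 11 15 2 (.P true [1,11,2,6,10]))) (.T 11 2 1 (.P true [3,7,11,1,5]))) (.T 11 15 1 (.P true [3,7,11,1,5]))) (.T 10 14 1 (.P true [2,6,10,1,5]))) (.T 11 10 1 (.P true [3,7,11,1,5])))) (.T 11 1 0 (.T 11 1 4 (.E 0 11 (.P true [3,7,11,0,4]) (.E 4 11 (.T 4 11 0 (.P true [3,7,11,4,0])) (.S 11 1 tr16_3 (.P false [0,11,1,2,3])))))))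
def tr16_5 : Tr := (.S 6 14 (.E 0 6 (.T 1 0 6 (.E 0 10 (.E 1 6 (.S 0 6 (.F [(0,6,1,7),(1,0,0,1),(2,1,1,1),(3,7,0,1),(4,9,1,4),(6,4,1,5),(6,5,1,1),(6,14,1,1),(7,11,0,2),(8,12,1,1),(8,13,1,1),(9,8,0,3)]) (.P true [1,6,0,4,8])) (.T 6 1 0 (.P true [2,6,0,4,8]))) (.T 6 10 0 (.P true [2,6,0,4,8])))) (.S 6 0 (.E 2 11 (.T 2 11 15 (.E 2 15 (.F [(0,4,1,4),(2,11,0,3),(3,7,0,1),(4,9,1,4),(6,0,1,4),(7,2,1,2),(8,12,1,1),(8,13,1,1),(9,8,0,3),(11,6,1,3)]) (.T 15 2 11 (.T 2 15 11 (.T 11 15 2 (.F [(2,11,1,1),(11,2,0,1)])))))) (.S 11 2 (.E 8 14 (.T 4 8 14 (.T 9 8 14 (.E 4 14 (.E 9 14 (.S 8 14 (.F [(0,4,1,5),(2,6,1,4),(3,7,0,1),(4,9,1,5),(6,0,1,5),(7,11,0,2),(8,14,1,3),(9,8,0,4),(11,2,1,3),(14,12,0,1),(14,13,0,1)]) (.P true [0,4,9,14,8])) (.T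 14 9 8 (.P true [0,4,14,8,12]))) (.T 14 4 5 (.T 4 14 5 (.F [(4,5,1,1),(5,4,0,1)])))))) (.F [(0,4,1,4),(0,14,1,1),(2,6,1,4),(3,7,0,1),(4,9,1,4),(6,0,1,5),(7,11,0,2),(8,12,1,1),(8,13,1,1),(9,8,0,3),(11,2,1,3)])) (.P false [0,1,11,2,3]))) (.P false [4,5,6,0,1]))) (.T 14 6 4 (.T 14 6 10 (.T 0 14 6 (.T 0 14 10 (.T 15 14 6 (.F [(0,6,1,5),(0,10,1,1),(1,0,0,3),(2,1,1,2),(3,7,0,1),(4,9,1,4),(6,4,1,4),(6,5,1,1),(7,2,1,1),(7,11,0,1),(8,12,1,1),(8,13,1,1),(9,8,0,3),(14,4,1,1),(15,6,0,1)])))))))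
def tr16_6 : Tr := (.S 11 6 (.E 11 13 (.S 11 15 (.S 2 1 tr16_5 (.T 1 2 6 (.T 1 2 10 (.E 1 6 (.E 1 10 (.F [(1,6,1,5),(2,6,1,1),(3,7,0,1),(4,9,1,4),(6,4,1,5),(6,5,1,1),(7,11,0,1),(8,12,1,1),(8,13,1,1),(9,8,0,3)]) (.T 10 1 2 (.T 1 10 2 (.F [(1,2,1,1),(2,1,0,1)])))) (.T 6 1 2 (.T 1 6 2 (.F [(1,2,1,1),(2,1,0,1)]))))))) (.P true [3,7,15,11,13])) (.E 8 15 (.T 0 8 15 (.T 4 8 15 (.E 0 15 (.E 1 15 (.E 2 15 (.F [(0,4,1,4),(0,5,1,1),(1,0,0,1),(2,6,1,2),(3,7,0,1),(4,9,1,3),(6,10,0,1),(7,2,1,1),(7,11,0,1),(8,15,0,1),(9,8,0,2),(15,12,1,1),(15,13,1,1)]) (.T 15 2 1 (.T 0 15 1 (.F [(0,1,1,1),(1,0,0,1)])))) (.T 0 15 1 (.F [(0,1,1,1),(1,0,0,1)]))) (.T 4 15 0 (.F [(0,4,1,1),(4,0,0,1)]))))) (.E 0 6 (.E 0 10 (.F [(0,6,0,1),(4,9,1,1),(6,4,1,1),(8,13,1,1),(9,8,0,1)])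 (.T 6 10 0 (.P true [2,6,0,4,8]))) (.S 6 0 (.F [(0,4,1,4),(2,6,1,3),(3,7,0,1),(4,9,1,4),(6,0,1,4),(7,2,1,2),(8,12,1,1),(8,13,1,1),(9,8,0,3)]) (.P false [4,5,6,0,1]))))) (.P false [0,1,11,6,7]))
def tr16_7 : Tr := (.E 0 14 (.S 0 14 (.E 0 11 (.E 0 10 (.E 0 15 (.F [(0,11,0,1),(4,9,1,1),(8,13,1,1),(9,8,0,1),(11,4,1,1)]) (.T 11 15 0 (.P true [3,7,11,0,4]))) (.T 11 10 0 (.P true [3,7,11,0,4]))) (.S 11 0 (.E 1 11 (.E 1 10 (.E 1 15 (.F [(0,4,1,1),(1,11,0,1),(4,9,1,1),(9,8,0,1),(11,0,1,1)]) (.T 11 15 1 (.P true [3,7,11,1,4]))) (.T 11 10 1 (.P true [3,7,11,1,4]))) (.S 11 1 (.E 6 11 (.E 2 11 (.F [(0,4,1,4),(1,0,0,4),(2,6,1,3),(3,7,0,1),(4,9,1,4),(6,11,0,4),(7,2,1,2),(8,12,1,1),(8,13,1,1),(9,8,0,3),(11,1,1,4)]) (.T 6 11 2 (.F [(2,6,1,1),(6,2,0,1)])))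 tr16_6) (.P false [0,11,1,2,3]))) (.P false [4,5,11,0,1]))) (.P true [1,14,0,4,8])) (.T 6 14 0 (.T 10 14 0 (.T 11 14 0 (.T 15 14 0 (.E 0 6 (.T 14 0 6 (.P true [1,14,6,0,4])) (.E 0 10 (.T 14 0 10 (.P true [1,14,10,0,4])) (.E 0 11 (.P true [3,7,11,0,4]) (.E 0 15 (.P true [3,7,11,15,0]) (.F [(1,14,1,1),(14,0,0,1)]))))))))))
def tr16_8 : Tr := (.S 5 4 (.E 4 11 (.T 4 11 10 (.T 4 11 14 (.E 0 10 (.E 0 11 (.E 0 14 (.F [(0,5,1,4),(1,0,0,1),(2,6,1,3),(3,7,0,1),(4,11,0,8),(5,4,1,9),(6,5,1,4),(7,2,1,2),(9,8,0,1),(10,9,0,2),(10,14,0,1),(11,10,0,4),(11,15,0,3),(15,12,1,1),(15,13,1,1)]) (.T 4 14 0 (.F [(0,4,1,1),(4,0,0,1)]))) (.T 4 11 0 (.F [(0,4,1,1),(4,0,0,1)]))) (.T 4 10 0 (.F [(0,4,1,1),(4,0,0,1)]))))) (.E 4 9 (.S 4 9 (.E 0 6 (.E 0 10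 (.F [(0,6,0,1),(2,6,1,3),(3,7,0,1),(4,9,1,4),(5,4,1,5),(6,5,1,5),(7,2,1,2),(8,12,1,1),(8,13,1,1),(9,8,0,3)]) (.T 6 10 0 (.P true [2,6,0,4,8]))) (.S 6 0 (.F [(0,5,1,4),(2,6,1,3),(3,7,0,1),(4,9,1,4),(5,4,1,4),(6,0,1,4),(7,2,1,2),(8,12,1,1),(8,13,1,1),(9,8,0,3)]) (.P false [4,5,6,0,1]))) (.P true [0,5,9,4,8])) (.T 10 9 4 (.E 4 10 (.P true [2,6,10,4,8]) (.S 9 4 (.F [(0,5,1,1),(1,0,0,1),(2,6,1,3),(3,7,0,1),(4,8,0,3),(5,9,1,5),(6,5,1,4),(7,2,1,2),(8,12,1,1),(8,13,1,1),(9,4,1,4)]) (.P false [8,9,4,5,6])))))) (.T 4 5 8 (.T 4 5 9 (.E 1 4 (.E 4 9 (.E 5 8 (.E 4 11 (.T 4 11 10 (.T 4 11 14 (.T 4 11 15 (.E 0 10 (.E 0 11 (.E 0 14 (.E 0 15 (.F [(0,4,1,1),(4,9,1,1),(8,12,1,1),(9,8,0,1)]) (.T 4 15 0 (.F [(0,4,1,1),(4,0,0,1)]))) (.T 4 14 0 (.F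 [(0,4,1,1),(4,0,0,1)]))) (.T 4 11 0 (.F [(0,4,1,1),(4,0,0,1)]))) (.T 4 10 0 (.F [(0,4,1,1),(4,0,0,1)])))))) (.T 11 4 5 (.E 5 11 (.P true [3,7,11,5,8]) (.S 11 4 tr16_7 (.T 5 4 11 (.P false [4,11,5,6,7])))))) (.P false [8,5,4,6,7])) (.T 9 4 5 (.T 4 9 5 (.F [(4,5,1,1),(5,4,0,1)])))) (.P false [5,4,1,2,3])))))
def tr16_9 : Tr := (.E 1 6 (.P true [2,6,1,5,9]) (.E 1 10 (.P true [2,6,10,1,5]) (.E 1 11 (.P true [3,7,11,1,5]) (.E 1 15 (.P true [3,7,11,15,1]) (.E 4 10 (.T 0 4 10 (.T 0 10 1 (.F [(0,1,1,1),(1,0,0,1)]))) (.E 4 14 (.T 0 4 14 (.T 0 14 1 (.F [(0,1,1,1),(1,0,0,1)]))) (.E 4 15 (.T 0 4 15 (.T 0 15 1 (.F [(0,1,1,1),(1,0,0,1)]))) (.E 5 10 (.T 0 5 10 (.T 0 10 1 (.F [(0,1,1,1),(1,0,0,1)]))) (.E 5 14 (.T 0 5 14 (.T 0 14 1 (.F [(0,1,1,1),(1,0,0,1)])))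 (.E 5 15 (.T 0 5 15 (.T 0 15 1 (.F [(0,1,1,1),(1,0,0,1)]))) (.E 8 14 (.T 0 8 14 (.T 0 14 1 (.F [(0,1,1,1),(1,0,0,1)]))) (.E 8 15 (.T 0 8 15 (.T 0 15 1 (.F [(0,1,1,1),(1,0,0,1)]))) (.F [(0,5,1,4),(2,6,1,3),(3,7,0,1),(5,4,0,1),(5,9,1,2),(6,10,0,4),(7,2,1,2),(8,12,1,1),(8,13,1,1),(9,8,0,3),(10,14,0,3),(11,15,0,1),(14,1,0,2)])))))))))))))
def tr16_10 : Tr := (.E 2 11 (.E 2 15 (.E 4 10 (.E 4 14 (.E 4 15 (.E 5 10 (.E 5 11 (.E 5 14 (.E 5 15 (.F [(1,5,0,1),(2,6,1,3),(3,7,0,1),(4,11,0,1),(5,0,1,4),(6,5,1,2),(7,2,1,2),(9,8,0,1),(10,9,0,2),(11,10,0,1),(11,15,0,1),(15,12,1,1),(15,13,1,1)]) (.T 15 5 0 (.T 15 5 4 (.T 0 15 4 (.T 4 15 0 (.F [(0,4,1,1),(4,0,0,1)])))))) (.T 14 5 0 (.T 14 5 4 (.T 0 14 4 (.T 4 14 0 (.F [(0,4,1,1),(4,0,0,1)]))))))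 (.T 11 5 0 (.T 11 5 4 (.T 0 11 4 (.T 4 11 0 (.F [(0,4,1,1),(4,0,0,1)])))))) (.T 10 5 0 (.T 10 5 4 (.T 0 10 4 (.T 4 10 0 (.F [(0,4,1,1),(4,0,0,1)])))))) (.T 11 15 4 (.P true [0,11,4,8,12]))) (.T 10 14 4 (.P true [0,10,4,8,12]))) (.T 11 10 4 (.P true [0,11,4,8,12]))) (.T 15 2 1 (.T 0 15 1 (.T 0 15 2 (.T 1 15 2 (.T 0 1 2 (.T 0 2 1 (.F [(0,1,1,1),(1,0,0,1)])))))))) (.T 11 2 1 (.T 0 11 1 (.T 0 11 2 (.T 1 11 2 (.T 0 1 2 (.T 0 2 1 (.F [(0,1,1,1),(1,0,0,1)]))))))))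
def tr16_11 : Tr := (.E 1 14 (.E 1 8 (.E 1 6 (.F [(1,6,0,1),(5,0,1,1),(6,5,1,1)]) (.S 6 1 (.E 1 4 (.S 1 5 (.F [(1,5,1,1),(5,0,1,1)]) (.P true [5,1,4,8,12])) (.E 9 15 (.T 0 9 15 (.E 0 15 (.E 1 15 (.E 2 15 (.E 5 15 (.F [(0,4,0,1),(0,9,1,3),(1,5,0,4),(2,6,1,3),(3,7,0,1),(5,0,1,4),(6,1,1,4),(7,2,1,2),(8,13,1,1),(9,8,0,2),(15,12,1,1)]) (.T 0 15 5 (.F [(0,5,1,1),(5,0,0,1)]))) (.T 15 2 1 (.T 0 15 1 (.F [(0,1,1,1),(1,0,0,1)])))) (.T 0 15 1 (.F [(0,1,1,1),(1,0,0,1)]))) (.T 9 15 0 (.F [(0,9,1,1),(9,0,0,1)])))) (.T 15 9 8 (.E 8 15 (.P true [3,7,11,15,8]) (.F [(0,9,1,4),(1,5,0,4),(2,6,1,3),(3,7,0,1),(5,0,1,4),(6,1,1,4),(7,2,1,2),(8,12,1,1),(8,13,1,1),(9,8,0,3)]))))) (.P false [0,5,6,1,2]))) (.S 9 8 (.F [(0,9,1,4),(2,6,1,3),(3,7,0,1),(5,0,1,4),(6,5,1,4),(7,2,1,2),(8,12,1,1),(8,13,1,1),(9,8,1,3)])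 (.P false [9,8,1,2,3]))) (.T 14 1 0 (.T 14 1 5 (.T 10 14 1 (.E 0 10 (.T 14 0 10 (.T 0 10 14 (.T 14 10 1 (.T 0 14 1 (.F [(0,1,1,1),(1,0,0,1)]))))) (.E 0 14 (.T 1 0 14 (.T 5 0 14 (.T 0 14 1 (.T 0 14 5 (.T 1 14 5 (.T 5 14 1 (.T 0 1 5 (.T 0 5 1 (.F [(0,1,1,1),(1,0,0,1)]))))))))) (.F [(2,6,1,1),(5,0,1,1),(6,5,1,1),(7,2,1,1)])))))))
def tr16_12 : Tr := (.E 0 11 (.T 1 0 11 (.T 5 0 11 (.T 0 11 10 (.T 0 11 14 (.T 0 11 15 (.T 1 11 15 (.T 5 11 15 (.E 1 10 (.E 1 11 (.E 1 14 (.E 1 15 (.F [(0,11,0,4),(1,5,0,1),(2,6,1,3),(3,7,0,1),(4,8,0,3),(5,0,1,4),(6,5,1,3),(7,2,1,2),(8,12,1,1),(8,13,1,1),(11,4,1,4)]) (.T 15 1 5 (.T 0 15 1 (.T 0 15 5 (.T 1 15 5 (.T 5 15 1 (.T 0 1 5 (.T 0 5 1 (.F [(0,1,1,1),(1,0,0,1)]))))))))) (.T 14 1 15 (.T 0 14 15 (.T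 15 14 1 (.T 0 15 1 (.F [(0,1,1,1),(1,0,0,1)])))))) (.T 11 1 5 (.T 0 11 1 (.T 0 11 5 (.T 1 11 5 (.T 5 11 1 (.T 0 1 5 (.T 0 5 1 (.F [(0,1,1,1),(1,0,0,1)]))))))))) (.T 10 1 11 (.T 0 10 11 (.T 11 10 1 (.T 0 11 1 (.F [(0,1,1,1),(1,0,0,1)]))))))))))))) (.E 0 9 (.S 0 9 tr16_11 (.P true [1,5,9,0,4])) (.T 10 9 0 (.E 0 10 (.P true [2,6,10,0,4]) (.F [(2,6,1,1),(5,9,1,1),(6,5,1,1),(7,2,1,1),(9,0,0,1)])))))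
def tr16_13 : Tr := (.S 5 0 (.T 5 0 4 (.E 4 11 (.T 0 4 11 (.T 1 4 11 (.T 0 11 10 (.T 0 11 14 (.T 0 11 15 (.T 1 11 15 (.T 4 11 10 (.T 4 11 14 (.T 4 11 15 (.E 0 10 (.E 0 11 (.E 1 10 (.E 1 11 (.E 1 14 (.E 1 15 tr16_10 (.T 15 1 4 (.T 0 15 4 (.T 4 15 1 (.T 0 4 1 (.F [(0,1,1,1),(1,0,0,1)])))))) (.T 14 1 15 (.T 0 14 15 (.T 15 14 1 (.T 0 15 1 (.F [(0,1,1,1),(1,0,0,1)])))))) (.T 11 1 4 (.T 0 11 4 (.T 4 11 1 (.T 0 4 1 (.F [(0,1,1,1),(1,0,0,1)])))))) (.T 10 1 11 (.T 0 10 11 (.T 11 10 1 (.T 0 11 1 (.F [(0,1,1,1),(1,0,0,1)])))))) (.T 11 0 4 (.T 4 11 0 (.P true [3,7,11,4,0])))) (.T 10 0 4 (.T 4 10 0 (.T 11 10 4 (.P true [3,7,11,4,0])))))))))))))) (.S 11 4 tr16_12 (.P false [8,9,10,11,4])))) (.P false [4,5,0,1,2]))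
def tr16_14 : Tr := (.S 15 12 (.T 15 12 13 (.E 0 5 (.T 0 5 8 (.T 0 5 9 (.E 0 9 (.S 0 4 (.S 0 5 (.E 1 14 (.S 1 14 tr16_8 (.P true [2,6,10,14,1])) (.T 6 14 1 (.T 10 14 1 (.T 11 14 1 (.T 15 14 1 tr16_9))))) (.P true [1,5,0,4,8])) (.T 5 4 0 (.P true [1,5,0,4,8]))) (.T 9 0 5 (.T 0 9 5 (.T 5 9 0 (.F [(0,5,1,1),(5,0,0,1)]))))))) (.E 0 6 (.T 0 6 5 (.F [(0,5,1,1),(5,0,0,1)])) (.S 1 0 (.T 1 0 4 tr16_13) (.P false [1,0,5,6,7]))))) (.T 0 12 15 (.T 13 12 15 (.T 14 12 15 (.T 12 15 14 (.T 13 15 14 (.E 2 12 (.E 2 13 (.E 2 15 (.E 3 12 (.E 3 13 (.E 3 14 (.E 7 12 (.E 7 13 (.E 7 14 (.E 2 11 (.F [(2,6,1,3),(3,7,0,1),(5,9,1,2),(6,5,1,3),(7,2,1,2),(9,8,0,1)]) (.T 11 2 1 (.E 4 11 (.T 0 4 11 (.T 2 4 11 (.T 0 11 2 (.T 2 11 1 (.T 0 2 1 (.F [(0,1,1,1),(1,0,0,1)]))))))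 (.F [(2,6,1,3),(3,7,0,1),(5,4,0,1),(5,9,1,2),(6,5,1,3),(7,2,1,2),(9,8,0,1)])))) (.P false [12,13,15,14,7])) (.P false [12,14,15,13,7])) (.P false [13,14,15,12,7])) (.P false [12,13,15,14,3])) (.P false [12,14,15,13,3])) (.P false [13,14,15,12,3])) (.T 15 2 1 (.T 0 15 1 (.F [(0,1,1,1),(1,0,0,1)])))) (.P false [12,14,13,2,3])) (.P false [13,14,12,2,3]))))))))
def tr16_15 : Tr := (.E 1 7 (.P true [3,7,1,5,9]) (.S 3 2 (.S 7 2 (.S 13 12 (.S 3 7 (.E 8 13 (.T 0 8 13 (.T 4 8 13 (.E 0 13 (.E 4 13 (.S 8 13 tr16_0 (.P true [0,4,13,8,12])) (.T 13 4 8 (.T 8 13 4 (.P true [0,13,8,4,12])))) (.T 13 0 8 (.P true [1,5,9,13,8]))))) (.T 14 13 8 (.E 8 14 (.P true [2,6,10,14,8]) (.F [(2,6,1,3),(3,7,1,1),(5,9,1,3),(6,5,1,3),(7,2,1,2),(9,13,1,3),(13,8,0,1),(13,12,1,1)]))))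 (.E 3 4 (.P true [7,3,4,8,12]) (.E 3 5 (.P true [7,3,5,9,13]) (.E 3 6 (.P true [7,3,6,10,14]) tr16_4)))) (.T 8 12 13 (.E 0 13 (.E 1 12 (.E 8 13 (.S 0 12 (.S 8 12 (.T 8 12 13 tr16_14) (.P true [0,4,12,8,13])) (.T 12 0 8 (.P true [0,4,12,8,13]))) (.P false [8,13,12,14,15])) (.P false [13,12,1,2,3])) (.P false [0,13,12,14,15])))) (.P false [0,1,7,2,3])) (.P false [0,1,3,2,7])))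
def tr16_16 : Tr := (.E 1 10 (.E 1 14 (.E 1 15 (.E 2 11 (.E 2 15 (.E 6 11 (.E 6 15 (.E 0 5 (.S 0 5 (.F [(0,5,1,1),(1,0,0,1),(5,9,1,1),(8,13,1,1),(9,8,0,1),(13,12,1,1)]) (.P true [1,5,0,4,8])) (.F [(0,4,0,1),(0,9,1,2),(1,5,0,5),(2,1,1,1),(3,7,0,1),(5,0,0,4),(6,1,1,3),(7,6,1,2),(8,13,1,2),(9,8,0,3),(10,9,0,2),(11,10,0,1),(13,12,1,1),(15,14,0,1)])) (.T 15 6 2 (.T 1 15 2 (.T 1 15 6 (.T 2 15 6 (.T 1 2 6 (.T 1 6 2 (.F [(1,2,1,1),(2,1,0,1)])))))))) (.T 11 6 2 (.T 1 11 2 (.T 1 11 6 (.T 2 11 6 (.T 1 2 6 (.T 1 6 2 (.F [(1,2,1,1),(2,1,0,1)])))))))) (.T 15 2 6 (.T 1 15 2 (.T 1 15 6 (.T 2 15 6 (.T 1 2 6 (.T 1 6 2 (.F [(1,2,1,1),(2,1,0,1)])))))))) (.T 11 2 6 (.T 1 11 2 (.T 1 11 6 (.T 2 11 6 (.T 1 2 6 (.T 1 6 2 (.F [(1,2,1,1),(2,1,0,1)]))))))))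 (.T 11 15 1 (.P true [3,7,11,1,5]))) (.T 10 14 1 (.P true [2,6,10,1,5]))) (.T 11 10 1 (.P true [3,7,11,1,5])))
def tr16_17 : Tr := (.E 6 11 (.T 2 6 11 (.E 2 11 (.E 2 15 (.E 6 15 (.S 2 11 (.T 6 2 11 (.F [(0,4,0,3),(1,0,0,3),(2,11,1,1),(3,7,0,1),(4,9,1,3),(6,11,1,3),(7,6,1,2),(8,13,1,2),(9,8,0,2),(9,14,1,1),(10,8,0,1),(11,1,1,3),(13,12,1,1)])) (.T 11 2 6 (.P true [2,11,6,9,12]))) (.T 11 15 6 (.P true [2,11,6,9,12]))) (.T 15 2 6 (.T 11 15 6 (.P true [2,11,6,9,12])))) (.T 11 2 6 (.P true [3,7,11,6,2])))) (.T 11 6 2 (.E 2 11 (.P true [3,7,11,2,6]) (.S 11 2 (.S 14 13 (.F [(10,14,1,1),(13,12,1,1),(14,13,1,1)]) (.T 8 13 14 (.E 0 5 (.S 0 4 (.S 0 5 (.E 2 15 (.F [(0,5,1,3),(1,0,0,1),(2,1,1,1),(3,11,1,1),(4,9,1,3),(5,4,0,3),(7,11,0,1),(8,13,1,2),(8,14,1,1),(9,8,0,3),(10,8,0,1),(13,12,1,1)])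 (.T 15 2 1 (.E 4 15 (.T 0 4 15 (.T 0 15 1 (.F [(0,1,1,1),(1,0,0,1)]))) (.F [(0,5,1,1),(5,4,0,1)])))) (.P true [1,5,0,4,8])) (.T 5 4 0 (.P true [1,5,0,4,8]))) (.S 1 0 (.F [(1,0,1,1),(2,1,1,1),(3,11,1,1),(8,13,1,1),(10,8,0,1),(11,2,1,1),(13,12,1,1)]) (.P false [1,0,5,2,3]))))) (.T 6 2 11 (.P false [0,1,2,11,6]))))))
def tr16_18 : Tr := (.S 0 10 (.E 4 10 (.E 5 10 (.S 4 10 (.E 9 12 (.E 9 14 (.S 9 14 (.T 10 9 14 (.E 2 9 (.S 10 9 (.F [(0,4,0,11),(1,0,0,10),(2,1,1,3),(3,11,1,4),(4,10,1,13),(5,4,0,1),(6,1,1,6),(7,6,1,3),(8,13,1,8),(9,8,0,11),(9,14,1,3),(10,9,1,17),(11,15,0,1),(13,12,1,4)]) (.E 6 9 (.E 10 13 tr16_17 (.P false [12,13,10,9,11])) (.P false [8,10,9,6,3]))) (.S 10 9 (.F [(0,4,0,8),(1,0,0,7),(2,1,1,4),(3,11,1,3),(4,10,1,10),(5,4,0,1),(6,1,1,1),(7,2,1,3),(8,13,1,6),(9,8,0,7),(9,14,1,3),(10,9,1,13),(11,1,1,1),(11,15,0,1),(13,12,1,3)])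 (.P false [8,10,9,2,3])))) (.P true [0,4,10,14,9])) (.T 14 9 8 (.T 15 14 8 (.T 15 14 9 (.E 8 14 (.P true [0,4,10,14,8]) (.E 8 15 (.P true [3,7,11,15,8]) (.E 9 15 (.P true [3,7,11,15,9]) (.F [(0,4,0,14),(1,0,0,13),(2,1,1,4),(3,11,1,4),(4,10,1,16),(5,4,0,1),(6,1,1,8),(7,6,1,4),(8,13,1,8),(9,8,0,12),(10,14,0,20),(11,15,0,1),(13,12,1,4),(14,9,0,16)])))))))) (.S 9 8 (.F [(8,13,1,1),(9,8,1,1),(10,9,0,1),(13,12,1,1)]) (.P false [12,9,8,10,11]))) (.P true [0,10,4,8,12])) (.T 10 5 4 (.P true [0,10,4,8,12]))) (.S 10 4 (.F [(0,10,1,1),(10,4,1,1)]) (.P false [8,9,10,4,2]))) (.P true [1,10,0,4,8]))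
def tr16_19 : Tr := (.E 1 10 (.E 1 14 (.S 1 10 (.E 4 9 (.S 4 9 (.E 3 4 (.S 0 4 (.S 3 7 (.F [(0,4,1,1),(1,0,0,1),(2,1,1,1),(3,7,1,1),(4,9,1,1),(7,2,1,1),(8,13,1,1),(9,8,0,1),(13,12,1,1)]) (.P true [7,3,4,8,12])) (.P true [3,4,0,8,12])) (.E 4 14 (.E 0 14 (.E 0 10 tr16_18 (.T 10 0 4 (.E 4 10 (.T 4 10 0 (.P true [1,10,4,0,8])) (.S 10 0 (.F [(0,4,0,1),(1,10,1,1),(10,0,1,1)]) (.P false [4,10,0,1,2]))))) (.T 14 0 4 (.T 4 14 0 (.P true [1,10,14,4,0])))) (.T 10 14 4 (.E 4 10 (.P true [1,10,4,8,12]) (.F [(1,10,1,1),(10,14,0,1),(14,4,0,1)]))))) (.P true [0,9,4,8,12])) (.T 10 9 4 (.E 4 10 (.P true [1,10,4,8,12]) (.S 9 4 (.F [(0,9,1,1),(1,0,0,1),(9,4,1,1)]) (.P false [8,9,4,2,3]))))) (.P true [2,6,10,1,5])) (.T 10 14 1 (.P true [2,6,10,1,5])))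 (.T 10 1 0 (.E 0 10 (.P true [2,6,10,0,4]) (.S 10 1 (.E 0 5 (.S 0 5 (.F [(0,5,1,4),(1,0,0,4),(2,10,1,1),(3,7,0,1),(5,9,1,4),(6,10,1,3),(7,6,1,2),(8,13,1,2),(9,8,0,3),(10,1,1,4),(13,12,1,1)]) (.P true [1,5,0,4,8])) (.S 1 0 (.F [(1,0,1,1),(3,7,0,1),(6,10,1,1),(7,6,1,1),(10,1,1,1)]) (.P false [1,0,5,2,3]))) (.P false [0,10,1,2,3])))))
def tr16_20 : Tr := (.E 2 11 (.T 6 2 11 (.T 2 11 15 (.E 2 15 (.E 6 11 (.E 6 15 (.F [(2,11,0,1),(4,8,1,1),(6,11,0,1),(8,13,1,1),(10,4,1,2),(11,10,1,2),(13,12,1,1)]) (.T 2 15 6 (.F [(2,6,1,1),(6,2,0,1)]))) (.T 11 6 2 (.P true [3,7,11,2,6]))) (.T 15 2 6 (.T 2 15 6 (.F [(2,6,1,1),(6,2,0,1)])))))) (.T 11 2 6 (.E 6 11 (.P true [3,7,11,6,2]) (.S 11 2 (.E 1 10 (.E 1 14 (.F [(1,10,0,1),(10,4,1,1)]) (.T 10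 14 1 (.P true [2,6,10,1,5]))) (.T 10 1 0 (.T 10 1 5 (.E 0 10 (.P true [2,6,10,0,4]) (.E 5 10 (.T 5 10 1 (.P true [2,6,10,5,1])) (.S 10 1 (.E 0 5 (.S 0 4 (.F [(0,4,1,3),(1,0,0,3),(2,10,1,4),(3,7,0,1),(4,8,1,2),(7,11,0,2),(8,13,1,2),(10,1,1,3),(11,2,1,3),(13,12,1,1)]) (.T 5 4 0 (.P true [1,5,0,4,8]))) (.S 1 0 (.F [(1,0,1,1),(2,10,1,1),(10,1,1,1),(11,2,1,1)]) (.P false [1,0,5,2,3]))) (.P false [0,10,1,2,3]))))))) (.T 6 2 11 (.P false [0,1,2,11,6]))))))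
def tr16_21 : Tr := (.E 3 4 (.S 0 4 (.S 3 7 (.E 0 10 (.T 1 0 10 (.E 1 10 (.E 1 14 (.S 0 10 (.E 4 10 (.S 4 10 (.F [(0,4,1,4),(1,0,0,4),(2,1,1,1),(3,7,1,1),(4,10,1,4),(6,1,1,3),(7,6,1,2),(8,13,1,2),(9,8,0,3),(10,9,1,4),(13,12,1,1)]) (.P true [0,10,4,8,12])) (.S 10 4 (.F [(0,10,1,1),(1,0,0,1),(10,4,1,1)]) (.P false [8,9,10,4,2]))) (.P true [1,10,0,4,8])) (.T 10 14 1 (.P true [0,10,1,5,9]))) (.T 10 1 0 (.P true [2,6,10,0,4])))) (.T 10 0 4 (.E 4 10 (.T 4 10 0 (.F [(0,4,1,1),(4,0,0,1)])) (.S 10 0 (.F [(0,4,1,1),(2,10,1,1),(3,7,1,1),(4,8,1,1),(7,2,1,1),(8,13,1,1),(10,0,1,1),(13,12,1,1)]) (.P false [4,10,0,1,2]))))) (.P true [7,3,4,8,12])) (.P true [3,4,0,8,12])) (.E 4 10 (.T 0 4 10 (.T 0 10 9 (.T 4 10 9 (.E 0 9 (.E 0 10 (.E 0 14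 (.E 1 10 (.E 5 10 (.S 4 10 (.E 0 5 (.S 0 4 (.F [(0,4,1,1),(4,10,1,1),(8,13,1,1),(9,8,0,1),(10,9,1,1),(13,12,1,1)]) (.T 5 4 0 (.P true [1,5,0,4,8]))) (.S 1 0 (.F [(0,4,0,3),(1,0,1,4),(2,1,1,1),(3,7,0,1),(4,10,1,3),(6,1,1,3),(7,6,1,2),(8,13,1,2),(9,8,0,3),(10,9,1,4),(13,12,1,1)]) (.P false [1,0,5,2,3]))) (.P true [0,10,4,8,12])) (.T 10 5 4 (.P true [0,10,4,8,12]))) (.T 10 1 4 (.P true [0,10,4,8,12]))) (.T 14 0 4 (.T 10 14 4 (.P true [0,10,4,8,12])))) (.T 10 0 4 (.T 4 10 0 (.P true [2,6,10,4,0])))) (.T 9 0 4 (.T 0 9 4 (.T 4 9 0 (.F [(0,4,1,1),(4,0,0,1)])))))))) (.S 10 4 tr16_20 (.P false [8,9,10,4,2]))))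
def tr16_22 : Tr := (.E 9 12 (.E 3 4 (.S 0 4 (.F [(0,4,1,5),(1,0,0,5),(2,10,0,1),(3,7,0,1),(4,9,1,5),(6,10,0,4),(7,11,0,2),(8,14,1,3),(9,8,0,4),(10,1,1,5),(11,6,1,3),(13,12,1,1),(14,13,0,2)]) (.P true [3,4,0,8,12])) (.E 2 9 (.S 2 10 (.T 6 2 10 (.F [(2,10,1,4),(3,7,0,1),(6,10,1,1),(7,11,0,2),(11,2,1,3),(13,12,1,1),(14,13,0,2)])) (.P true [6,10,2,9,12])) (.E 6 8 (.S 2 10 (.T 6 2 10 (.F [(6,10,1,1)])) (.T 10 2 6 (.P true [2,10,6,8,12]))) (.E 6 9 (.S 2 10 (.T 6 2 10 (.F [(6,10,1,1)])) (.T 10 2 6 (.P true [2,10,6,9,12]))) (.E 2 13 (.E 0 5 (.S 0 5 (.E 0 15 (.F [(0,5,1,1),(5,4,0,1)]) (.F [(0,5,1,8),(3,7,0,2),(4,9,1,4),(5,4,0,6),(7,11,0,4),(9,8,0,2),(11,2,1,3),(13,12,1,2),(14,13,0,1),(15,0,0,2)])) (.P true [1,5,0,4,8])) (.S 1 0 (.F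 [(1,0,1,3),(2,10,0,1),(6,10,0,1),(10,1,1,3),(13,12,1,1)]) (.P false [1,0,5,2,3]))) (.S 14 13 (.F [(3,7,0,1),(6,2,0,1),(7,11,0,2),(11,2,1,3),(13,12,1,1),(14,13,1,2)]) (.P false [12,14,13,2,3]))))))) (.S 9 8 (.F [(0,4,0,5),(1,0,0,5),(2,10,0,1),(3,7,0,1),(4,9,1,5),(6,10,0,4),(7,11,0,2),(8,14,1,3),(9,8,1,4),(10,1,1,5),(11,6,1,3),(13,12,1,1),(14,13,0,2)]) (.P false [12,9,8,2,3])))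
def tr16_23 : Tr := (.E 7 10 (.S 2 10 (.T 6 2 10 (.S 7 11 (.F [(0,9,1,3),(3,7,0,1),(6,10,1,3),(7,11,1,2),(8,14,1,3),(9,8,0,3),(10,0,1,3),(11,6,1,3),(13,12,1,1),(14,13,0,2)]) (.P true [3,11,7,10,14]))) (.P true [3,7,10,2,6])) (.E 1 10 (.S 1 10 (.F [(1,10,1,1)]) (.P true [2,6,10,1,5])) (.S 10 1 (.E 10 13 (.E 4 9 (.S 4 9 (.E 10 15 (.T 2 10 15 (.E 2 15 (.E 6 15 tr16_22 (.T 15 6 10 (.T 10 15 6 (.P true [2,15,10,6,13])))) (.T 15 2 10 (.P true [3,7,11,15,10])))) (.T 15 10 1 (.E 1 15 (.T 10 1 15 (.T 1 15 10 (.T 1 10 15 (.T 1 15 10 (.F [(1,10,1,1),(10,1,0,1)]))))) (.S 15 10 (.F [(11,15,1,1),(15,10,1,1)]) (.P false [0,1,15,10,3]))))) (.P true [0,9,4,8,12])) (.S 9 4 (.F [(0,9,1,1),(1,0,0,1),(9,4,1,1)]) (.P false [8,9,4,2,3]))) (.S 14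 13 (.F [(3,7,0,1),(6,10,0,3),(7,11,0,2),(11,6,1,3),(13,12,1,1),(14,13,1,2)]) (.P false [12,14,13,10,3]))) (.P false [0,10,1,2,3]))))
def tr16_24 : Tr := (.E 0 10 (.T 1 0 10 (.E 1 10 (.S 0 10 (.E 0 5 (.S 0 5 (.E 4 10 (.T 5 4 10 (.E 5 10 (.S 4 10 (.F [(0,5,1,1),(4,10,1,1),(5,4,0,1),(8,14,1,1),(9,8,0,1),(10,9,1,1),(13,12,1,1),(14,13,0,1)]) (.P true [0,5,10,4,8])) (.T 10 5 4 (.P true [0,10,4,8,12])))) (.S 10 4 (.F [(0,10,1,1),(10,4,1,1)]) (.P false [8,9,10,4,2]))) (.P true [1,5,0,4,8])) (.S 1 0 (.F [(0,10,1,5),(1,0,1,5),(3,7,0,1),(6,1,1,3),(7,6,1,2),(8,14,1,3),(9,8,0,4),(10,9,1,5),(13,12,1,1),(14,13,0,2)]) (.P false [1,0,5,2,3]))) (.P true [1,10,0,4,8])) (.T 10 1 0 (.P true [2,6,10,0,4])))) (.T 10 0 4 (.E 4 10 (.T 4 10 0 (.P true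 [2,6,10,4,0])) (.S 10 0 (.E 2 11 (.T 6 2 11 (.T 2 11 15 (.E 2 15 (.E 6 11 (.F [(0,9,1,5),(2,11,0,3),(3,7,0,1),(6,11,0,1),(7,2,1,2),(8,14,1,3),(9,8,0,4),(10,0,1,5),(11,10,1,5),(13,12,1,1),(14,13,0,2)]) (.T 11 6 2 (.P true [3,7,11,2,6]))) (.T 15 2 6 (.T 2 15 6 (.F [(2,6,1,1),(6,2,0,1)])))))) (.T 11 2 6 (.E 6 11 (.P true [3,7,11,6,2]) (.S 11 2 (.T 11 2 6 (.E 5 10 (.T 5 10 0 (.E 0 5 (.T 10 0 5 (.T 0 5 10 (.T 0 10 5 (.F [(0,5,1,1),(5,0,0,1)])))) (.E 1 10 (.F [(1,5,0,1),(5,10,0,1),(10,0,1,1)]) (.T 10 1 5 (.T 5 10 1 (.P true [2,6,10,5,1])))))) tr16_23)) (.T 6 2 11 (.P false [0,1,2,11,6])))))) (.P false [4,10,0,1,2])))))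
def tr16_25 : Tr := (.S 0 9 (.E 5 14 (.S 5 14 (.E 8 14 (.T 4 8 14 (.E 4 14 (.E 9 14 (.S 8 14 tr16_24 (.P true [0,4,14,8,12])) (.T 14 9 8 (.P true [0,4,14,8,12]))) (.T 14 4 8 (.T 8 14 4 (.P true [0,14,8,4,12]))))) (.T 15 14 8 (.E 8 15 (.P true [3,7,11,15,8]) (.S 14 8 (.E 0 5 (.S 0 5 (.F [(0,5,1,1),(5,14,1,1),(14,8,1,1)]) (.P true [1,5,0,4,8])) (.S 1 0 (.F [(0,14,1,3),(1,0,1,3),(2,1,1,2),(3,7,0,1),(6,1,1,1),(7,2,1,2),(8,13,1,1),(13,12,1,1),(14,8,1,3)]) (.P false [1,0,5,2,3]))) (.P false [12,13,14,8,2]))))) (.P true [0,14,5,9,13])) (.T 14 5 4 (.T 0 14 5 (.T 10 14 4 (.T 15 14 4 (.E 0 5 (.E 4 10 (.T 14 4 10 (.P true [0,14,10,4,8])) (.E 4 14 (.P true [0,14,4,8,12]) (.E 4 15 (.P true [3,7,11,15,4]) (.F [(0,14,1,1),(5,4,0,1),(14,5,0,1)]))))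 (.F [(0,5,1,1),(5,0,0,1)]))))))) (.P true [1,5,9,0,4]))
def tr16_26 : Tr := (.E 0 14 (.T 1 0 14 (.E 1 14 (.S 0 14 (.E 0 9 tr16_25 (.T 5 9 0 (.E 0 5 (.T 9 0 5 (.T 0 5 9 (.T 0 9 5 (.F [(0,5,1,1),(5,0,0,1)])))) (.E 0 10 (.T 0 10 9 (.F [(0,9,1,1),(9,0,0,1)])) (.F [(1,5,0,1),(5,9,1,1),(9,0,0,1)]))))) (.P true [1,14,0,4,8])) (.T 14 1 0 (.P true [2,6,10,14,0])))) (.T 14 0 4 (.T 10 14 0 (.T 10 14 4 (.T 15 14 0 (.T 15 14 4 (.E 0 10 (.P true [2,6,10,0,4]) (.E 0 15 (.P true [3,7,11,15,0]) (.E 4 10 (.T 4 10 0 (.P true [2,6,10,4,0])) (.E 4 14 (.P true [2,6,10,14,4]) (.E 4 15 (.P true [3,7,11,15,4]) (.E 8 14 (.T 0 8 14 (.T 4 8 14 (.T 0 14 4 (.T 4 14 0 (.F [(0,4,1,1),(4,0,0,1)]))))) (.E 8 15 (.T 0 8 15 (.T 4 8 15 (.T 0 15 4 (.T 4 15 0 (.F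 [(0,4,1,1),(4,0,0,1)]))))) (.S 10 0 (.F [(0,8,1,2),(1,0,0,4),(2,1,1,1),(3,7,0,1),(5,4,0,1),(6,1,1,2),(6,14,1,1),(7,6,1,2),(8,13,1,2),(9,8,0,1),(10,0,1,1),(11,15,1,1),(13,12,1,1)]) (.P false [4,10,0,1,2])))))))))))))))
def tr16_27 : Tr := (.E 2 15 (.E 6 15 (.E 3 14 (.F [(0,9,1,4),(1,0,1,4),(2,1,1,3),(3,7,0,1),(6,1,1,1),(7,2,1,2),(8,13,1,2),(9,8,0,3),(13,12,1,1)]) (.S 15 14 (.E 8 15 (.T 0 8 15 (.T 4 8 15 (.E 0 15 (.E 1 15 (.E 4 15 (.F [(0,9,1,4),(1,0,1,4),(2,1,1,1),(3,7,0,1),(6,1,1,3),(7,6,1,2),(8,15,0,2),(9,8,0,3),(13,12,1,1),(14,13,0,2),(15,14,1,3)]) (.T 15 4 8 (.T 8 15 4 (.P true [0,15,8,4,12])))) (.T 0 15 1 (.F [(0,1,1,1),(1,0,0,1)]))) (.T 15 0 4 (.T 0 15 4 (.T 4 15 0 (.F [(0,4,1,1),(4,0,0,1)]))))))) (.F [(0,9,1,4),(1,0,1,4),(2,1,1,3),(3,7,0,1),(6,1,1,1),(7,2,1,2),(8,13,1,2),(9,8,0,3),(13,12,1,1)]))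 (.P false [12,13,15,14,3]))) (.T 15 6 2 (.P true [3,7,11,15,2]))) (.T 15 2 1 (.T 15 2 5 (.T 15 2 6 (.E 0 15 (.T 0 15 1 (.F [(0,1,1,1),(1,0,0,1)])) (.E 1 15 (.T 2 1 15 (.T 1 15 2 (.T 1 15 6 (.T 2 15 6 (.T 1 2 6 (.T 1 6 2 (.F [(1,2,1,1),(2,1,0,1)]))))))) (.E 4 15 (.T 0 4 15 (.T 0 15 1 (.F [(0,1,1,1),(1,0,0,1)]))) (.E 5 15 (.T 1 5 15 (.T 1 15 5 (.T 5 15 2 (.T 1 5 2 (.F [(1,2,1,1),(2,1,0,1)]))))) (.E 6 15 (.P true [3,7,11,15,6]) (.E 8 15 (.T 0 8 15 (.T 0 15 1 (.F [(0,1,1,1),(1,0,0,1)]))) (.E 9 15 (.T 0 9 15 (.T 0 15 1 (.F [(0,1,1,1),(1,0,0,1)]))) (.F [(11,15,1,1)]))))))))))))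
def tr16_28 : Tr := (.E 2 15 (.E 6 15 (.E 2 11 (.E 6 11 (.S 2 11 (.T 6 2 11 (.F [(6,11,1,1),(8,13,1,1),(9,8,0,1),(10,9,1,1),(11,10,1,1),(13,12,1,1)])) (.T 11 2 6 (.P true [2,11,6,10,14]))) (.T 11 6 2 (.P true [3,7,11,2,6]))) (.T 11 2 6 (.E 6 11 (.P true [3,7,11,6,2]) (.S 11 2 (.T 11 2 6 (.E 1 4 (.S 1 5 (.F [(1,5,1,1),(5,9,1,1),(8,13,1,1),(9,8,0,1),(13,12,1,1)]) (.P true [5,1,4,8,12])) (.S 1 0 (.T 1 0 4 (.E 4 10 (.T 0 4 10 (.E 1 10 (.F [(0,4,0,1),(1,0,1,1),(4,10,0,1),(8,13,1,1),(9,8,0,1),(10,9,1,1),(13,12,1,1)]) (.T 10 1 4 (.T 0 10 4 (.T 4 10 1 (.T 0 4 1 (.F [(0,1,1,1),(1,0,0,1)]))))))) (.F [(0,4,0,1),(0,9,1,3),(1,0,1,4),(2,1,1,1),(3,7,0,1),(6,1,1,2),(7,11,0,2),(8,13,1,1),(9,8,0,2),(11,6,1,1),(13,12,1,1),(14,13,0,1)]))) (.P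 false [4,1,0,2,3])))) (.T 6 2 11 (.P false [0,1,2,11,6])))))) (.T 15 6 2 (.T 1 15 2 (.T 1 15 6 (.T 2 15 6 (.T 1 2 6 (.T 1 6 2 (.F [(1,2,1,1),(2,1,0,1)])))))))) (.T 15 2 6 (.T 1 15 2 (.T 1 15 6 (.T 2 15 6 (.T 1 2 6 (.T 1 6 2 (.F [(1,2,1,1),(2,1,0,1)]))))))))
def tr16_29 : Tr := (.E 1 14 (.S 5 14 (.E 0 14 (.E 1 15 (.T 2 1 15 tr16_28) (.T 15 1 0 (.T 15 1 4 (.T 15 1 5 (.E 0 15 (.P true [3,7,11,15,0]) (.E 4 15 (.P true [3,7,11,15,4]) (.E 5 15 (.P true [3,7,11,15,5]) (.E 8 15 (.T 0 8 15 (.T 0 15 1 (.F [(0,1,1,1),(1,0,0,1)]))) (.E 9 15 (.T 0 9 15 (.T 0 15 1 (.F [(0,1,1,1),(1,0,0,1)]))) (.E 0 5 (.S 0 5 (.F [(0,5,1,4),(1,0,0,1),(2,1,1,1),(3,7,0,1),(5,4,0,1),(5,9,1,2),(6,1,1,1),(7,11,0,2),(8,13,1,1),(9,8,0,2),(10,9,1,1),(11,15,0,1),(13,12,1,1),(14,13,0,1)])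 (.P true [1,5,0,4,8])) (.S 1 0 (.F [(0,4,0,1),(0,9,1,2),(1,0,1,4),(2,1,1,1),(3,7,0,1),(6,1,1,2),(7,6,1,1),(7,11,0,1),(8,13,1,1),(9,8,0,2),(10,9,1,1),(11,15,0,1),(13,12,1,1),(14,13,0,1)]) (.P false [1,0,5,2,3])))))))))))) (.T 5 14 0 (.T 10 14 0 (.E 0 5 (.T 14 0 5 (.T 0 5 14 (.T 0 14 5 (.F [(0,5,1,1),(5,0,0,1)])))) (.E 0 10 (.T 14 0 10 (.P true [1,5,14,10,0])) (.F [(0,9,1,1),(1,5,0,4),(3,7,0,1),(5,14,1,4),(6,1,1,3),(7,6,1,2),(8,13,1,1),(9,8,0,1),(13,12,1,1),(14,0,0,4)])))))) (.P true [1,14,5,9,13])) (.T 14 1 5 (.P true [2,6,10,14,5])))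
def tr16_30 : Tr := (.E 0 9 (.S 0 9 (.E 5 14 (.T 1 5 14 tr16_29) (.T 14 5 4 (.T 14 5 8 (.T 10 14 4 (.T 10 14 5 (.T 15 14 4 (.T 15 14 5 (.T 15 14 8 (.E 4 10 (.P true [2,6,10,4,8]) (.E 4 14 (.P true [2,6,10,14,4]) (.E 4 15 (.P true [3,7,11,15,4]) (.E 5 10 (.P true [2,6,10,5,9]) (.E 5 15 (.P true [3,7,11,15,5]) (.E 8 14 (.T 4 8 14 (.T 4 14 8 (.T 8 14 5 (.T 4 8 5 (.F [(4,5,1,1),(5,4,0,1)]))))) (.E 8 15 (.T 4 8 15 (.T 4 15 8 (.T 8 15 5 (.T 4 8 5 (.F [(4,5,1,1),(5,4,0,1)]))))) (.E 9 14 (.T 9 14 5 (.F [(5,9,1,1),(9,5,0,1)])) (.E 9 15 (.T 9 15 5 (.F [(5,9,1,1),(9,5,0,1)])) (.F [(0,4,0,1),(0,9,1,3),(1,0,0,3),(1,5,0,1),(2,1,1,2),(2,14,1,1),(3,7,0,1),(6,1,1,1),(7,2,1,2),(8,13,1,1),(9,8,0,2),(13,12,1,1)])))))))))))))))))) (.P true [1,5,9,0,4]))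 (.T 5 9 0 (.E 0 5 (.T 9 0 5 (.T 0 5 9 (.T 0 9 5 (.F [(0,5,1,1),(5,0,0,1)])))) (.E 0 10 (.T 0 10 9 (.F [(0,9,1,1),(9,0,0,1)])) (.F [(0,8,1,1),(1,5,0,3),(2,1,1,2),(3,7,0,1),(5,9,1,3),(6,1,1,1),(7,2,1,2),(8,13,1,1),(9,0,0,3),(13,12,1,1)])))))
def tr16_31 : Tr := (.E 1 11 (.T 1 11 10 (.E 1 10 (.E 1 14 (.E 1 15 (.F [(0,8,1,1),(1,11,0,1),(8,13,1,1),(11,0,1,1),(13,12,1,1)]) (.T 11 15 1 (.P true [3,7,11,1,5]))) (.T 10 14 1 (.F [(1,10,1,1),(10,1,0,1)]))) (.F [(1,10,1,1),(10,1,0,1)]))) (.T 11 1 5 (.E 5 11 (.T 5 11 1 (.P true [3,7,11,5,1])) (.E 11 12 (.S 11 15 (.E 1 12 (.E 2 8 (.S 2 10 (.S 4 8 tr16_21 (.P true [6,2,8,4,12])) (.P true [6,10,2,8,12])) tr16_26) (.S 1 0 (.E 0 9 (.S 0 9 tr16_27 (.P true [1,5,9,0,4])) (.T 5 9 0 (.E 0 5 (.T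 9 0 5 (.T 0 5 9 (.T 0 9 5 (.F [(0,5,1,1),(5,0,0,1)])))) (.E 0 10 (.T 0 10 9 (.F [(0,9,1,1),(9,0,0,1)])) (.F [(0,8,1,1),(1,5,0,3),(2,1,1,2),(3,7,0,1),(5,9,1,3),(6,1,1,1),(7,2,1,2),(8,13,1,1),(9,0,0,3),(13,12,1,1)]))))) (.P false [12,1,0,2,3]))) (.P true [3,7,15,11,12])) tr16_30))))
def tr16_32 : Tr := (.E 4 11 (.T 0 4 11 (.T 0 11 15 (.T 4 11 15 (.E 1 11 (.E 1 15 (.F [(0,4,0,1),(1,5,0,1),(4,11,0,1),(5,0,1,1),(8,14,1,1),(9,8,0,1),(11,9,1,1),(13,12,1,1),(14,13,0,1)]) (.T 15 1 4 (.T 0 15 4 (.T 4 15 1 (.T 0 4 1 (.F [(0,1,1,1),(1,0,0,1)])))))) (.T 11 1 4 (.T 0 11 4 (.T 4 11 1 (.T 0 4 1 (.F [(0,1,1,1),(1,0,0,1)]))))))))) (.S 11 4 (.E 1 4 (.S 0 4 (.F [(0,4,1,1),(1,5,0,1),(4,9,1,1),(5,0,1,1),(8,14,1,1),(9,8,0,1),(13,12,1,1),(14,13,0,1)])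 (.P true [1,4,0,8,12])) (.E 0 11 (.F [(0,11,0,7),(1,5,0,5),(2,1,1,1),(3,7,0,1),(4,9,1,2),(5,0,1,6),(6,1,1,3),(7,6,1,2),(8,14,1,3),(9,8,0,3),(10,8,0,1),(11,4,1,5),(11,15,0,1),(13,12,1,1),(14,13,0,2)]) (.E 0 15 (.T 1 0 15 (.T 5 0 15 (.E 1 15 (.E 5 15 (.F [(1,5,0,1),(5,0,1,2),(8,14,1,1),(9,8,0,1),(13,12,1,1),(14,13,0,1)]) (.T 0 15 5 (.T 0 5 15 (.T 0 15 5 (.F [(0,5,1,1),(5,0,0,1)]))))) (.T 15 1 5 (.T 0 15 1 (.T 0 15 5 (.T 1 15 5 (.T 5 15 1 (.T 0 1 5 (.T 0 5 1 (.F [(0,1,1,1),(1,0,0,1)]))))))))))) (.F [(1,5,0,2),(5,0,1,3),(6,1,1,1),(8,14,1,1),(9,8,0,1),(13,12,1,1),(14,13,0,1)])))) (.P false [8,9,10,11,4])))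
def tr16_33 : Tr := (.E 4 9 (.S 4 9 (.E 0 5 (.S 0 4 (.S 0 5 (.E 0 15 (.F [(0,5,1,1),(4,8,1,1),(5,4,0,1),(8,14,1,1),(13,12,1,1),(14,13,0,1)]) (.T 11 15 0 (.E 4 11 (.T 4 11 0 (.F [(0,4,1,1),(4,0,0,1)])) (.E 4 15 (.T 4 15 0 (.F [(0,4,1,1),(4,0,0,1)])) (.E 5 11 (.T 5 11 0 (.F [(0,5,1,1),(5,0,0,1)])) (.E 5 15 (.T 5 15 0 (.F [(0,5,1,1),(5,0,0,1)])) (.E 8 15 (.T 4 8 15 (.T 4 15 0 (.F [(0,4,1,1),(4,0,0,1)]))) (.F [(0,5,1,4),(1,0,0,3),(2,1,1,1),(3,7,0,1),(4,8,1,2),(5,4,0,3),(6,1,1,1),(7,11,0,2),(8,14,1,1),(9,14,1,1),(10,14,1,1),(11,15,0,1),(13,12,1,1),(14,13,0,2)])))))))) (.P true [1,5,0,4,8])) (.T 5 4 0 (.P true [1,5,0,4,8]))) (.S 1 0 (.T 1 0 4 (.S 5 0 tr16_32 (.P false [4,5,0,1,2]))) (.P false [1,0,5,2,3]))) (.P true [0,9,4,8,12]))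 (.T 10 9 4 (.E 4 10 (.P true [0,10,4,8,12]) (.E 4 11 (.T 4 11 9 (.F [(4,9,1,1),(9,4,0,1)])) (.F [(0,9,1,6),(1,0,0,5),(2,1,1,3),(3,7,0,1),(4,8,1,4),(5,9,1,1),(6,1,1,1),(7,2,1,2),(8,14,1,3),(9,4,0,8),(10,4,0,1),(11,15,0,1),(13,12,1,1),(14,13,0,2)])))))
def tr16_34 : Tr := (.E 0 14 (.E 0 9 (.T 0 9 10 (.E 0 10 (.S 0 9 (.E 8 14 (.S 8 14 (.E 5 8 (.S 4 8 tr16_33 (.P true [1,5,8,4,12])) (.S 9 8 (.E 0 5 (.S 0 5 (.F [(0,5,1,1),(5,9,1,1),(8,14,1,1),(9,8,1,1),(13,12,1,1),(14,13,0,1)]) (.P true [1,5,0,4,8])) (.S 1 0 (.F [(0,9,1,4),(1,0,1,4),(2,1,1,3),(3,7,0,1),(6,1,1,1),(7,2,1,2),(8,14,1,3),(9,8,1,4),(13,12,1,1),(14,13,0,2)]) (.P false [1,0,5,2,3]))) (.P false [9,8,5,2,3]))) (.P true [0,4,14,8,12])) (.T 15 14 8 (.E 8 15 (.P true [3,7,11,15,8])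 (.S 14 8 (.F [(0,9,1,6),(1,0,0,5),(2,1,1,3),(3,7,0,1),(5,4,0,1),(6,1,1,1),(7,2,1,2),(8,13,1,2),(9,14,1,7),(10,14,1,1),(11,15,0,1),(13,12,1,1),(14,8,1,7)]) (.P false [12,13,14,8,9]))))) (.P true [1,5,9,0,4])) (.T 9 10 0 (.P true [1,5,9,0,4])))) (.T 5 9 0 (.T 10 9 0 (.E 0 5 (.T 9 0 5 (.T 0 5 9 (.T 0 9 5 (.F [(0,5,1,1),(5,0,0,1)])))) (.E 0 10 (.P true [1,5,10,0,4]) (.F [(0,4,0,1),(0,8,1,2),(1,5,0,5),(2,1,1,3),(3,7,0,1),(5,9,1,6),(6,1,1,1),(7,2,1,2),(8,13,1,1),(9,0,0,7),(10,0,0,1),(11,15,0,1),(13,12,1,1),(14,13,0,1)])))))) (.T 14 0 4 (.P true [1,5,9,14,4])))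
def tr16_35 : Tr := (.S 10 9 (.E 0 11 (.T 0 11 9 (.T 0 11 10 (.E 0 9 (.E 0 10 (.E 0 14 (.E 0 15 (.F [(0,11,0,1),(8,13,1,1),(9,8,0,1),(10,9,1,1),(11,10,1,1),(13,12,1,1)]) (.T 11 15 0 (.P true [3,7,11,0,4]))) (.T 10 14 0 (.F [(0,10,1,1),(10,0,0,1)]))) (.F [(0,10,1,1),(10,0,0,1)])) (.F [(0,9,1,1),(9,0,0,1)])))) (.T 11 0 4 (.E 4 11 (.T 4 11 0 (.P true [3,7,11,4,0])) (.S 11 0 tr16_31 (.P false [4,11,0,1,2]))))) (.T 1 9 10 (.T 5 9 10 (.T 1 10 14 (.T 5 10 14 (.T 9 10 14 (.E 1 10 (.E 1 14 (.E 2 9 (.E 5 10 (.E 5 14 (.E 6 9 (.E 9 14 (.S 9 14 (.T 10 9 14 (.E 4 14 tr16_34 (.T 9 14 4 (.T 10 14 4 (.E 4 9 (.T 10 4 9 (.T 4 9 10 (.T 4 10 9 (.F [(4,9,1,1),(9,4,0,1)])))) (.F [(1,0,0,1),(1,5,0,4),(2,1,1,1),(3,7,0,1),(4,8,0,3),(5,9,1,5),(6,1,1,3),(7,6,1,2),(8,13,1,2),(9,14,1,6),(10,14,1,1),(11,15,0,1),(13,12,1,1),(14,4,0,6)]))))))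 (.T 14 9 10 (.P true [1,5,9,14,10]))) (.P false [8,10,9,14,15])) (.P false [8,10,9,6,3])) (.T 9 14 5 (.F [(5,9,1,1),(9,5,0,1)]))) (.T 9 10 5 (.F [(5,9,1,1),(9,5,0,1)]))) (.P false [8,10,9,2,3])) (.T 14 1 5 (.T 1 14 5 (.T 5 14 1 (.F [(1,5,1,1),(5,1,0,1)]))))) (.T 10 1 5 (.T 1 10 5 (.T 5 10 1 (.F [(1,5,1,1),(5,1,0,1)])))))))))))
def tr16_36 : Tr := (.E 0 15 (.P true [3,7,11,15,0]) (.E 5 15 (.P true [3,7,11,15,5]) (.E 1 14 (.S 1 14 (.E 0 14 (.S 0 14 (.E 0 5 (.S 0 4 (.F [(0,4,1,4),(1,0,0,2),(2,1,1,1),(3,11,1,1),(4,9,1,3),(6,1,1,1),(7,11,1,1),(8,13,1,1),(9,8,0,2),(11,15,0,1),(13,12,1,1),(14,13,1,1)]) (.T 5 4 0 (.P true [1,5,0,4,8]))) (.E 5 14 (.S 1 0 (.F [(0,4,0,3),(1,0,1,3),(2,1,1,1),(3,11,1,1),(4,9,1,2),(6,1,1,1),(7,11,1,1),(9,8,0,1),(11,15,0,1),(13,12,1,1),(14,13,1,1)])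 (.P false [1,0,5,2,3])) (.T 0 14 5 (.F [(0,5,1,1),(5,0,0,1)])))) (.P true [1,14,0,4,8])) (.F [(0,4,0,4),(1,14,1,4),(2,1,1,2),(3,2,1,1),(4,9,1,3),(6,1,1,1),(7,11,1,1),(8,13,1,2),(9,8,0,2),(10,14,0,1),(11,15,0,1),(13,12,1,1),(14,0,0,5)])) (.P true [2,6,10,14,1])) (.T 14 1 0 (.T 14 1 4 (.T 14 1 5 (.E 0 14 (.P true [2,6,10,14,0]) (.E 4 14 (.P true [2,6,10,14,4]) (.E 5 14 (.P true [2,6,10,14,5]) (.E 8 14 (.T 0 8 14 (.T 0 14 1 (.F [(0,1,1,1),(1,0,0,1)]))) (.E 9 14 (.T 0 9 14 (.T 0 14 1 (.F [(0,1,1,1),(1,0,0,1)]))) (.F [(2,14,1,1),(7,2,1,1)]))))))))))))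
def tr16_37 : Tr := (.E 4 15 (.T 0 4 15 (.T 0 15 14 (.E 0 14 (.E 0 15 (.E 1 14 (.E 2 15 (.E 4 14 (.E 5 14 (.E 6 15 (.S 0 15 (.F [(0,15,1,3),(1,0,0,3),(2,1,1,2),(3,11,1,1),(6,1,1,1),(7,2,1,1),(8,13,1,1),(9,8,0,2),(13,12,1,1),(14,13,1,1),(15,9,1,3)]) (.T 15 0 4 (.P true [0,15,4,8,12]))) (.T 15 6 1 (.T 0 15 1 (.F [(0,1,1,1),(1,0,0,1)])))) (.T 14 5 4 (.P true [0,14,4,8,12]))) (.T 15 14 4 (.P true [0,15,4,8,12]))) (.T 15 2 1 (.T 0 15 1 (.F [(0,1,1,1),(1,0,0,1)])))) (.T 14 1 4 (.T 15 14 4 (.P true [0,15,4,8,12])))) (.T 15 0 4 (.P true [3,7,11,15,4]))) (.T 14 0 4 (.T 15 14 4 (.P true [3,7,11,15,4])))))) (.S 15 4 (.E 1 15 (.T 2 1 15 (.E 1 14 (.E 2 15 (.F [(1,15,0,4),(2,1,1,2),(3,2,1,1),(4,9,1,3),(6,1,1,1),(7,6,1,1),(8,13,1,2),(9,8,0,2),(13,12,1,1),(15,4,1,4)])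 (.T 15 2 6 (.T 1 15 2 (.T 1 15 6 (.T 2 15 6 (.T 1 2 6 (.T 1 6 2 (.F [(1,2,1,1),(2,1,0,1)])))))))) (.T 15 14 1 (.P true [3,7,11,15,1])))) (.T 15 1 0 (.T 15 1 5 tr16_36))) (.P false [8,9,15,4,2])))
def tr16_38 : Tr := (.E 1 11 (.T 1 11 10 (.E 1 10 (.E 1 14 (.E 1 15 (.F [(0,4,0,1),(1,11,0,1),(11,0,1,1)]) (.T 11 15 1 (.P true [3,7,11,1,5]))) (.T 10 14 1 (.F [(1,10,1,1),(10,1,0,1)]))) (.F [(1,10,1,1),(10,1,0,1)]))) (.T 11 1 5 (.E 5 11 (.T 5 11 1 (.P true [3,7,11,5,1])) (.E 9 15 (.T 0 9 15 (.T 4 9 15 (.E 0 15 (.E 1 15 (.E 2 15 (.E 4 15 (.E 5 15 (.E 6 15 (.F [(8,13,1,1),(15,8,1,1)]) (.T 15 6 1 (.T 0 15 1 (.F [(0,1,1,1),(1,0,0,1)])))) (.T 4 15 5 (.F [(4,5,1,1),(5,4,0,1)]))) (.T 9 15 4 (.F [(4,9,1,1),(9,4,0,1)]))) (.T 15 2 1 (.T 0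 15 1 (.F [(0,1,1,1),(1,0,0,1)])))) (.T 0 15 1 (.F [(0,1,1,1),(1,0,0,1)]))) (.T 15 0 4 (.T 0 15 4 (.T 4 15 0 (.F [(0,4,1,1),(4,0,0,1)]))))))) (.S 15 9 tr16_37 (.P false [8,15,9,10,3]))))))
def tr16_39 : Tr := (.E 4 11 (.T 0 4 11 (.T 0 11 10 (.T 0 11 14 (.T 4 11 10 (.T 4 11 14 (.E 0 10 (.E 0 11 (.E 0 14 (.E 0 15 (.E 1 11 (.E 1 15 (.F [(0,4,0,3),(1,5,0,1),(3,7,0,1),(4,11,0,2),(7,2,1,1),(7,6,1,1),(8,13,1,2),(10,9,0,1),(10,14,0,1),(11,10,1,3),(13,12,1,1),(15,8,1,1)]) (.T 11 15 1 (.P true [0,4,11,1,5]))) (.T 11 1 4 (.P true [0,11,4,8,12]))) (.T 15 0 4 (.T 11 15 4 (.P true [0,11,4,8,12])))) (.T 14 0 4 (.T 0 14 4 (.T 4 14 0 (.F [(0,4,1,1),(4,0,0,1)]))))) (.T 11 0 4 (.T 4 11 0 (.P true [3,7,11,4,0])))) (.T 10 0 4 (.T 0 10 4 (.T 4 10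 0 (.F [(0,4,1,1),(4,0,0,1)])))))))))) (.S 11 4 (.E 0 11 (.T 0 11 10 (.E 0 10 (.E 0 14 (.E 0 15 (.F [(0,11,0,1),(11,4,1,1)]) (.T 11 15 0 (.P true [3,7,11,0,4]))) (.T 10 14 0 (.F [(0,10,1,1),(10,0,0,1)]))) (.F [(0,10,1,1),(10,0,0,1)]))) (.S 11 0 tr16_38 (.P false [4,11,0,1,2]))) (.P false [8,9,10,11,4])))
def tr16_40 : Tr := (.E 8 15 (.T 0 8 15 (.T 4 8 15 (.E 0 15 (.E 1 15 (.E 4 15 (.E 5 15 (.F [(14,13,1,1),(15,14,0,1)]) (.T 4 15 5 (.F [(4,5,1,1),(5,4,0,1)]))) (.T 8 15 4 (.F [(4,8,1,1),(8,4,0,1)]))) (.T 0 15 1 (.F [(0,1,1,1),(1,0,0,1)]))) (.T 15 0 4 (.T 0 15 4 (.T 4 15 0 (.F [(0,4,1,1),(4,0,0,1)]))))))) (.S 15 8 (.E 9 15 (.T 0 9 15 (.T 4 9 15 (.E 0 15 (.E 1 15 (.E 4 15 (.F [(8,13,1,1),(15,8,1,1)]) (.T 9 15 4 (.F [(4,9,1,1),(9,4,0,1)])))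 (.T 0 15 1 (.F [(0,1,1,1),(1,0,0,1)]))) (.T 15 0 4 (.T 0 15 4 (.T 4 15 0 (.F [(0,4,1,1),(4,0,0,1)]))))))) (.E 0 5 (.S 0 4 (.F [(0,4,1,4),(1,0,0,4),(2,1,1,1),(3,7,0,1),(4,9,1,2),(4,14,1,2),(6,1,1,3),(7,6,1,2),(9,8,0,1),(13,12,1,1),(14,13,1,2)]) (.T 5 4 0 (.P true [1,5,0,4,8]))) (.S 1 0 (.F [(0,4,0,4),(1,0,1,4),(2,1,1,3),(3,7,0,1),(4,9,1,2),(4,14,1,2),(6,1,1,1),(7,2,1,2),(9,8,0,1),(13,12,1,1),(14,13,1,2)]) (.P false [1,0,5,2,3])))) (.P false [12,13,14,15,8])))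
def tr16_41 : Tr := (.E 1 14 (.S 1 14 (.E 4 14 (.T 0 4 14 (.E 0 14 (.S 4 14 tr16_40 (.P true [0,14,4,8,12])) (.T 14 0 4 (.T 4 14 0 (.P true [1,14,4,0,8]))))) (.T 10 14 4 (.E 4 10 (.T 14 4 10 (.P true [1,14,10,4,8])) (.E 4 11 (.T 4 11 10 (.F [(4,10,1,1),(10,4,0,1)])) (.F [(1,14,1,1),(14,4,0,1)]))))) (.P true [2,6,10,14,1])) (.T 14 1 0 (.T 14 1 4 (.T 14 1 5 (.T 10 14 0 (.T 10 14 1 (.T 10 14 4 (.T 10 14 5 (.E 0 10 (.P true [2,6,10,0,4]) (.E 0 14 (.P true [2,6,10,14,0]) (.E 1 10 (.P true [2,6,10,1,5]) (.E 4 10 (.T 4 10 0 (.P true [2,6,10,4,0])) (.E 4 14 (.P true [2,6,10,14,4]) (.E 5 10 (.T 5 10 1 (.P true [2,6,10,5,1])) (.E 5 14 (.P true [2,6,10,14,5]) (.E 8 14 (.T 0 8 14 (.T 0 14 1 (.F [(0,1,1,1),(1,0,0,1)]))) (.E 9 14 (.T 0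 9 14 (.T 0 14 1 (.F [(0,1,1,1),(1,0,0,1)]))) (.F [(7,11,1,1),(11,10,1,1),(15,14,0,1)]))))))))))))))))))
def tr16_42 : Tr := (.E 1 12 (.E 2 15 (.E 6 15 tr16_41 (.T 15 6 2 (.P true [3,7,11,15,2]))) (.T 15 2 1 (.T 15 2 5 (.T 15 2 6 (.E 0 15 (.T 0 15 1 (.F [(0,1,1,1),(1,0,0,1)])) (.E 1 15 (.T 2 1 15 (.T 1 15 2 (.T 1 15 6 (.T 2 15 6 (.T 1 2 6 (.T 1 6 2 (.F [(1,2,1,1),(2,1,0,1)]))))))) (.E 4 15 (.T 0 4 15 (.T 0 15 1 (.F [(0,1,1,1),(1,0,0,1)]))) (.E 5 15 (.T 1 5 15 (.T 1 15 5 (.T 5 15 2 (.T 1 5 2 (.F [(1,2,1,1),(2,1,0,1)]))))) (.E 6 15 (.P true [3,7,11,15,6]) (.E 8 15 (.T 0 8 15 (.T 0 15 1 (.F [(0,1,1,1),(1,0,0,1)]))) (.E 9 15 (.T 0 9 15 (.T 0 15 1 (.F [(0,1,1,1),(1,0,0,1)]))) (.F [(7,11,1,1),(11,15,0,1)])))))))))))) (.S 1 0 (.F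 [(0,4,0,2),(1,0,1,2),(3,7,0,1),(4,9,1,2),(6,1,1,2),(7,6,1,2),(8,13,1,2),(9,8,0,2),(13,12,1,1)]) (.P false [12,1,0,2,3])))
def tr16_43 : Tr := (.E 0 9 (.S 0 9 (.S 4 9 (.E 2 13 (.S 2 14 (.E 8 15 (.T 0 8 15 (.T 4 8 15 (.E 0 15 (.E 1 15 (.E 2 15 (.E 4 15 (.E 5 15 (.E 6 15 (.E 9 15 (.F [(14,13,1,1),(15,14,0,1)]) (.T 15 9 8 (.P true [0,4,15,8,12]))) (.T 15 6 1 (.T 0 15 1 (.F [(0,1,1,1),(1,0,0,1)])))) (.T 4 15 5 (.F [(4,5,1,1),(5,4,0,1)]))) (.T 8 15 4 (.F [(4,8,1,1),(8,4,0,1)]))) (.T 15 2 1 (.T 0 15 1 (.F [(0,1,1,1),(1,0,0,1)])))) (.T 0 15 1 (.F [(0,1,1,1),(1,0,0,1)]))) (.T 15 0 4 (.T 0 15 4 (.T 4 15 0 (.F [(0,4,1,1),(4,0,0,1)]))))))) (.S 15 8 tr16_39 (.P false [12,13,14,15,8]))) (.P true [6,10,14,2,13])) tr16_42) (.P true [0,9,4,8,12]))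 (.T 9 0 4 (.P true [0,9,4,8,12]))) (.T 9 0 4 (.T 4 9 0 (.P true [1,5,9,4,0]))))
def tr16_44 : Tr := (.E 10 15 (.T 0 10 15 (.T 4 10 15 (.E 0 15 (.E 1 15 (.E 2 15 (.E 4 15 (.E 5 15 (.E 6 15 (.S 10 14 (.F [(10,14,1,1),(13,12,1,1),(14,13,1,2),(15,14,0,1)]) (.P true [0,4,14,10,15])) (.T 15 6 1 (.T 0 15 1 (.F [(0,1,1,1),(1,0,0,1)])))) (.T 4 15 5 (.F [(4,5,1,1),(5,4,0,1)]))) (.T 10 15 4 (.F [(4,10,1,1),(10,4,0,1)]))) (.T 15 2 1 (.T 0 15 1 (.F [(0,1,1,1),(1,0,0,1)])))) (.T 0 15 1 (.F [(0,1,1,1),(1,0,0,1)]))) (.T 15 0 4 (.T 0 15 4 (.T 4 15 0 (.F [(0,4,1,1),(4,0,0,1)]))))))) (.T 15 10 8 (.T 15 10 9 (.E 8 15 (.P true [3,7,11,15,8]) (.E 9 15 (.P true [3,7,11,15,9]) (.E 1 4 (.S 0 4 (.F [(0,4,1,8),(1,0,0,7),(2,1,1,2),(3,7,0,2),(4,10,1,9),(6,1,1,3),(7,6,1,2),(7,11,0,2),(9,8,0,2),(10,9,0,4),(10,14,0,3),(11,15,0,1),(13,12,1,2),(14,13,1,4)])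 (.P true [1,4,0,8,12])) (.S 1 0 (.S 5 4 (.E 0 15 (.F [(0,4,0,4),(0,15,0,1),(1,0,1,4),(2,1,1,1),(3,7,0,1),(4,10,1,4),(5,4,1,1),(6,1,1,2),(7,6,1,1),(7,11,0,1),(9,8,0,1),(10,9,0,2),(10,14,0,1),(13,12,1,1),(14,13,1,2)]) (.F [(0,4,0,4),(1,0,1,5),(2,1,1,1),(3,7,0,1),(4,10,1,4),(5,4,1,1),(6,1,1,3),(7,6,1,2),(9,8,0,1),(10,9,0,2),(10,14,0,1),(11,15,0,1),(13,12,1,1),(14,13,1,2)])) (.P false [5,4,1,2,3])) (.P false [4,1,0,2,3]))))))))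
def tr16_45 : Tr := (.E 0 10 (.E 0 14 (.E 1 10 (.E 1 14 (.E 4 14 (.E 5 10 (.E 5 14 (.S 0 10 (.S 4 10 (.E 5 8 (.E 5 11 (.T 1 5 11 (.E 1 11 (.E 1 15 (.F [(1,5,0,1),(4,10,1,1),(5,11,0,1),(10,14,0,1),(11,4,1,1),(13,12,1,1),(14,13,1,1)]) (.T 15 1 5 (.T 11 15 5 (.P true [1,11,5,8,12])))) (.T 11 1 5 (.T 5 11 1 (.P true [3,7,11,5,1]))))) tr16_44) (.S 5 4 (.S 9 8 (.F [(1,5,0,2),(3,7,0,1),(4,10,1,2),(5,4,1,2),(6,1,1,1),(7,6,1,1),(8,13,1,2),(9,8,1,3),(10,9,0,3),(13,12,1,1)]) (.P false [9,8,5,2,3])) (.P false [8,5,4,2,3]))) (.P true [0,10,4,8,12])) (.T 10 0 4 (.P true [0,10,4,8,12]))) (.T 10 14 5 (.P true [0,4,10,5,9]))) (.T 10 5 4 (.P true [0,10,4,8,12]))) (.T 10 14 4 (.P true [0,10,4,8,12]))) (.T 10 14 1 (.P true [0,4,10,1,5]))) (.T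 10 1 4 (.P true [0,10,4,8,12]))) (.T 14 0 4 (.T 10 14 4 (.P true [0,10,4,8,12])))) (.T 10 0 4 (.T 4 10 0 (.P true [2,6,10,4,0]))))
def tr16_46 : Tr := (.E 9 15 (.T 0 9 15 (.T 0 15 14 (.T 9 15 14 (.E 0 14 (.E 0 15 (.E 1 14 (.E 1 15 (.E 2 15 (.F [(0,4,1,1),(1,5,1,3),(2,10,0,1),(3,7,0,1),(5,9,1,2),(6,1,1,2),(7,6,1,1),(7,11,0,1),(9,8,0,1),(13,12,1,1),(14,13,1,2),(15,14,0,1)]) (.T 15 2 1 (.T 0 15 1 (.F [(0,1,1,1),(1,0,0,1)])))) (.T 0 15 1 (.F [(0,1,1,1),(1,0,0,1)]))) (.T 0 14 1 (.F [(0,1,1,1),(1,0,0,1)]))) (.T 9 15 0 (.F [(0,9,1,1),(9,0,0,1)]))) (.T 9 14 0 (.F [(0,9,1,1),(9,0,0,1)])))))) (.T 15 9 8 (.E 8 15 (.P true [3,7,11,15,8]) (.S 15 9 (.E 5 15 (.T 1 5 15 (.T 5 15 14 (.E 1 14 (.E 1 15 (.E 2 15 (.F [(0,4,1,1),(1,0,0,2),(1,5,1,3),(2,10,0,1),(3,7,0,1),(5,15,0,2),(6,1,1,2),(7,6,1,1),(7,11,0,1),(8,13,1,1),(9,8,0,2),(13,12,1,1),(14,13,1,1),(15,9,1,3)])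 (.T 1 15 2 (.F [(1,2,1,1),(2,1,0,1)]))) (.T 5 15 1 (.F [(1,5,1,1),(5,1,0,1)]))) (.T 5 14 1 (.F [(1,5,1,1),(5,1,0,1)]))))) (.T 15 5 4 (.E 4 15 (.P true [3,7,11,15,4]) (.E 0 5 (.S 0 5 (.F [(0,5,1,12),(1,0,0,9),(2,1,1,6),(3,7,0,2),(5,4,0,2),(5,9,1,8),(6,1,1,2),(7,2,1,4),(8,13,1,4),(9,8,0,6),(10,0,1,2),(11,10,1,1),(11,15,0,1),(13,12,1,2)]) (.P true [1,5,0,4,8])) (.F [(0,4,1,3),(0,9,1,1),(1,5,1,6),(2,1,1,1),(3,7,0,1),(4,8,0,2),(5,0,0,5),(6,1,1,3),(7,6,1,2),(8,13,1,1),(11,1,1,1),(13,12,1,1),(14,13,1,1)]))))) (.P false [8,15,9,10,3])))))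
def tr16_47 : Tr := (.E 5 10 (.T 1 5 10 (.T 5 10 0 (.E 0 5 (.T 10 0 5 (.T 0 5 10 (.T 0 10 5 (.F [(0,5,1,1),(5,0,0,1)])))) (.E 1 10 (.E 1 14 (.E 5 14 (.F [(0,4,0,1),(0,9,1,3),(1,5,0,5),(2,1,1,1),(3,7,0,1),(5,10,0,6),(6,1,1,3),(7,6,1,2),(8,13,1,1),(9,8,0,2),(10,0,1,7),(13,12,1,1),(14,13,1,1)]) (.T 10 14 5 (.P true [1,10,5,9,13]))) (.T 14 1 5 (.T 10 14 5 (.P true [1,10,5,9,13])))) (.T 10 1 5 (.T 5 10 1 (.P true [2,6,10,5,1]))))))) (.S 10 5 (.E 8 14 (.T 0 8 14 (.T 4 8 14 (.E 0 14 (.E 4 14 (.S 8 14 (.F [(0,9,1,2),(1,0,1,2),(3,7,0,1),(5,4,1,1),(6,1,1,2),(7,6,1,2),(8,14,1,2),(9,8,0,2),(10,5,1,1),(11,10,1,1),(13,12,1,1),(14,13,1,2)]) (.P true [0,4,14,8,12])) (.T 14 4 8 (.T 8 14 4 (.P true [0,14,8,4,12])))) (.T 14 0 4 (.T 0 14 4 (.T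 4 14 0 (.F [(0,4,1,1),(4,0,0,1)]))))))) (.T 15 14 8 (.E 8 15 (.P true [3,7,11,15,8]) (.E 2 15 (.F [(0,9,1,3),(1,0,1,3),(2,1,1,1),(3,7,0,1),(5,4,1,1),(6,1,1,2),(7,6,1,2),(8,13,1,2),(9,8,0,3),(10,5,1,1),(11,10,1,1),(13,12,1,1)]) (.T 15 2 1 (.E 4 15 (.T 0 4 15 (.T 0 15 1 (.F [(0,1,1,1),(1,0,0,1)]))) (.F [(0,9,1,3),(1,0,1,3),(2,1,1,1),(3,7,0,1),(5,4,1,1),(6,1,1,2),(7,6,1,2),(8,13,1,2),(9,8,0,3),(10,5,1,1),(11,10,1,1),(13,12,1,1)]))))))) (.P false [0,10,5,2,3])))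
def tr16_48 : Tr := (.E 1 4 (.S 0 4 (.S 1 5 (.E 5 10 (.T 1 5 10 (.T 5 10 14 (.E 1 10 (.E 1 14 (.S 5 10 (.F [(1,5,1,1),(5,10,1,1),(10,4,1,1)]) (.P true [1,10,5,9,13])) (.T 5 14 1 (.F [(1,5,1,1),(5,1,0,1)]))) (.T 5 10 1 (.F [(1,5,1,1),(5,1,0,1)]))))) (.S 10 5 (.E 0 10 (.T 0 10 5 (.E 0 5 (.E 0 14 (.F [(0,10,0,4),(1,0,0,1),(2,1,1,1),(3,7,0,1),(5,4,0,1),(5,9,1,2),(7,2,1,1),(8,13,1,2),(9,8,0,2),(10,5,1,4),(13,12,1,1)]) (.T 10 14 0 (.P true [2,6,10,0,4]))) (.F [(0,5,1,1),(5,0,0,1)]))) (.S 10 0 tr16_46 (.P false [4,5,10,0,1]))) (.P false [4,10,5,2,3]))) (.P true [5,1,4,8,12])) (.P true [1,4,0,8,12])) (.S 1 0 (.S 5 4 (.E 0 10 (.T 1 0 10 (.E 0 14 (.E 1 10 (.S 0 10 (.F [(0,10,1,1),(10,4,1,1)]) (.P true [1,10,0,4,8])) (.T 0 10 1 (.T 0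 1 10 (.T 0 10 1 (.F [(0,1,1,1),(1,0,0,1)]))))) (.T 10 14 0 (.P true [2,6,10,0,4])))) (.S 10 0 tr16_47 (.P false [4,10,0,1,2]))) (.P false [5,4,1,2,3])) (.P false [4,1,0,2,3])))
def tr16_49 : Tr := (.E 0 9 (.S 0 9 (.E 4 10 (.T 0 4 10 (.T 4 10 14 tr16_45)) (.S 10 4 (.E 1 11 (.T 1 11 10 (.E 1 10 (.E 1 14 (.F [(1,11,0,1),(10,4,1,1),(11,10,1,1)]) (.T 10 14 1 (.F [(1,10,1,1),(10,1,0,1)]))) (.F [(1,10,1,1),(10,1,0,1)]))) (.T 11 1 0 (.T 11 1 5 (.E 0 11 (.P true [3,7,11,0,4]) (.E 5 11 (.T 5 11 1 (.P true [3,7,11,5,1])) (.S 11 1 tr16_48 (.P false [0,11,1,2,3]))))))) (.P false [8,9,10,4,2]))) (.P true [1,5,9,0,4])) (.T 9 0 4 (.T 5 9 0 (.T 10 9 0 (.E 0 5 (.T 9 0 5 (.T 0 5 9 (.T 0 9 5 (.F [(0,5,1,1),(5,0,0,1)])))) (.E 0 10 (.P true [2,6,10,0,4])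 (.E 0 11 (.T 0 11 9 (.F [(0,9,1,1),(9,0,0,1)])) (.E 4 9 (.T 4 9 0 (.P true [1,5,9,4,0])) (.S 9 0 (.F [(1,5,0,1),(5,9,1,1),(6,1,1,1),(7,6,1,1),(9,0,1,1)]) (.P false [4,9,0,1,2]))))))))))
def tr16_50 : Tr := (.E 7 8 (.S 3 11 (.S 4 8 (.S 7 11 (.E 3 4 (.S 0 4 (.S 3 7 (.F [(0,4,1,2),(1,0,0,2),(2,1,1,2),(3,7,1,1),(4,8,1,2),(7,2,1,2),(8,13,1,2),(13,12,1,1)]) (.P true [7,3,4,8,12])) (.P true [3,4,0,8,12])) (.E 4 9 (.T 0 4 9 tr16_43) (.T 10 9 4 (.E 4 10 (.P true [2,6,10,4,8]) (.E 4 11 (.T 4 11 9 (.F [(4,9,1,1),(9,4,0,1)])) (.S 9 4 (.F [(1,5,0,1),(5,9,1,1),(6,1,1,1),(7,6,1,1),(9,4,1,1)]) (.P false [8,9,4,2,3]))))))) (.P true [3,11,7,8,12])) (.P true [3,7,8,4,12])) (.T 11 3 7 (.P true [3,11,7,8,12]))) (.E 4 11 (.T 0 4 11 (.T 0 11 9 (.T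 0 11 10 (.T 0 11 14 (.T 4 11 9 (.T 4 11 10 (.T 4 11 14 (.E 0 9 (.E 0 10 (.E 0 11 (.E 0 14 (.E 0 15 (.E 1 11 (.E 1 15 (.E 2 11 (.F [(0,4,0,7),(1,5,0,1),(2,6,0,1),(3,7,0,1),(4,11,0,6),(7,6,1,2),(9,8,0,1),(10,9,0,2),(10,14,0,6),(11,10,1,9),(13,12,1,3),(14,13,1,6),(15,14,0,1)]) (.T 11 2 1 (.T 0 11 1 (.F [(0,1,1,1),(1,0,0,1)])))) (.T 11 15 1 (.P true [0,4,11,1,5]))) (.T 11 1 4 (.P true [0,11,4,8,12]))) (.T 15 0 4 (.T 11 15 4 (.P true [0,11,4,8,12])))) (.T 14 0 4 (.T 0 14 4 (.T 4 14 0 (.F [(0,4,1,1),(4,0,0,1)]))))) (.T 11 0 4 (.T 4 11 0 (.P true [3,7,11,4,0])))) (.T 10 0 4 (.T 0 10 4 (.T 4 10 0 (.F [(0,4,1,1),(4,0,0,1)]))))) (.T 9 0 4 (.T 0 9 4 (.T 4 9 0 (.F [(0,4,1,1),(4,0,0,1)])))))))))))) (.S 11 4 tr16_49 (.P false [8,9,10,11,4]))))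
def tr16_51 : Tr := (.E 3 10 (.S 2 10 (.T 6 2 10 (.S 3 11 (.E 0 9 (.S 0 9 (.E 1 11 (.T 2 1 11 (.T 1 11 15 (.T 2 11 15 tr16_16))) (.T 11 1 0 (.T 11 1 4 (.T 11 1 5 (.E 0 11 (.P true [3,7,11,0,4]) (.E 4 11 (.T 4 11 0 (.P true [3,7,11,4,0])) (.E 5 11 (.T 5 11 1 (.P true [3,7,11,5,1])) (.S 11 1 tr16_19 (.P false [0,11,1,2,3]))))))))) (.P true [1,5,9,0,4])) (.T 5 9 0 (.T 10 9 0 (.T 11 9 0 (.E 0 5 (.T 9 0 5 (.T 0 5 9 (.T 0 9 5 (.F [(0,5,1,1),(5,0,0,1)])))) (.E 0 10 (.P true [2,6,10,0,4]) (.E 0 11 (.P true [3,7,11,0,4]) (.F [(1,5,0,1),(3,7,0,1),(5,9,1,1),(6,1,1,1),(7,6,1,1),(9,0,0,1)])))))))) (.P true [7,11,3,10,14]))) (.P true [3,10,2,6,14])) (.S 11 9 (.S 11 10 (.T 11 10 14 (.E 6 13 (.S 2 14 (.T 6 2 14 tr16_35) (.T 14 2 6 (.P true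 [2,10,14,6,13]))) (.S 14 13 tr16_50 (.P false [12,14,13,6,3])))) (.P false [8,9,11,10,3])) (.T 10 9 11 (.P false [8,9,11,10,3]))))
def tr16_52 : Tr := (.E 1 15 (.S 1 15 (.E 0 15 (.S 0 15 (.E 8 14 (.S 8 14 (.E 0 5 (.S 0 4 (.F [(0,4,1,5),(1,0,0,2),(3,7,0,1),(4,9,1,1),(4,10,1,4),(6,1,1,2),(7,6,1,2),(8,14,1,3),(10,8,0,4),(14,12,0,1),(14,13,0,1)]) (.T 5 4 0 (.P true [1,5,0,4,8]))) (.E 5 15 (.S 5 0 (.E 0 11 (.F [(0,11,0,1),(1,5,0,5),(2,1,1,1),(3,7,0,1),(5,0,1,6),(6,1,1,3),(7,6,1,2),(8,14,1,3),(10,8,0,4),(14,12,0,1),(14,13,0,1)]) (.F [(1,5,0,1),(5,0,1,1)])) (.P false [4,5,0,1,2])) (.T 0 15 5 (.F [(0,5,1,1),(5,0,0,1)])))) (.P true [0,4,9,14,8])) (.F [(0,4,0,1),(1,0,0,1),(3,7,0,1),(4,10,1,1),(6,1,1,1),(7,6,1,1),(8,12,1,1),(8,13,1,1),(10,14,1,4),(14,8,0,3)]))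 (.P true [1,15,0,4,8])) (.T 11 15 0 (.E 0 11 (.T 15 0 11 (.P true [1,15,11,0,4])) (.F [(1,15,1,1),(15,0,0,1)])))) (.P true [2,6,15,1,5])) (.T 15 1 0 (.T 15 1 4 (.T 11 15 0 (.T 11 15 4 (.E 0 11 (.T 15 0 11 (.P true [2,6,15,11,0])) (.E 0 15 (.P true [2,6,15,0,4]) (.E 4 11 (.T 15 4 11 (.P true [2,6,15,11,4])) (.E 4 15 (.T 4 15 0 (.P true [2,6,15,4,0])) (.F [(1,0,0,1),(2,15,1,2),(3,11,1,1),(5,4,0,1),(6,15,1,1),(7,2,1,1),(8,12,1,1),(8,13,1,1),(9,8,0,1),(10,8,0,2),(10,14,1,1)]))))))))))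
def tr16_53 : Tr := (.E 3 4 (.S 0 4 (.S 3 7 (.F [(0,4,1,4),(1,0,0,4),(2,1,1,3),(3,7,1,1),(4,9,1,4),(6,1,1,1),(7,2,1,2),(8,12,1,1),(8,13,1,1),(9,8,0,3)]) (.P true [7,3,4,8,12])) (.P true [3,4,0,8,12])) (.E 4 10 (.S 4 10 (.E 9 14 (.S 9 14 (.T 10 9 14 (.E 6 9 (.E 2 9 (.S 10 9 (.F [(0,4,0,4),(1,0,0,4),(2,1,1,1),(3,7,0,1),(4,10,1,4),(6,1,1,3),(7,6,1,2),(8,12,1,1),(8,13,1,1),(9,8,0,3),(9,14,1,1),(10,9,1,5)]) (.E 10 12 (.E 10 13 tr16_52 (.P false [12,13,10,9,11])) (.P false [13,12,10,9,11]))) (.S 10 9 (.F [(0,4,0,4),(1,0,0,4),(2,1,1,1),(3,7,0,1),(4,10,1,4),(6,1,1,3),(7,6,1,2),(8,12,1,1),(8,13,1,1),(9,8,0,3),(9,14,1,1),(10,9,1,5)]) (.P false [8,10,9,2,3]))) (.S 10 9 (.F [(0,4,0,4),(1,0,0,4),(2,1,1,1),(3,7,0,1),(4,10,1,4),(6,1,1,3),(7,6,1,2),(8,12,1,1),(8,13,1,1),(9,8,0,3),(9,14,1,1),(10,9,1,5)])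 (.P false [8,10,9,6,3])))) (.P true [0,4,10,14,9])) (.T 14 9 8 (.T 15 14 8 (.T 15 14 9 (.E 8 14 (.P true [0,4,10,14,8]) (.E 8 15 (.P true [2,6,15,8,12]) (.E 9 15 (.P true [2,6,15,9,12]) (.F [(0,4,0,4),(1,0,0,4),(2,1,1,1),(3,7,0,1),(4,10,1,4),(6,1,1,3),(7,6,1,2),(8,12,1,1),(8,13,1,1),(9,8,0,3),(10,14,0,5),(14,9,0,4)])))))))) (.P true [0,10,4,8,12])) (.T 11 10 4 (.E 4 11 (.P true [3,7,11,4,8]) (.F [(0,10,1,1),(1,0,0,1),(10,4,0,1)])))))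
def tr16_54 : Tr := (.E 2 15 (.T 6 2 15 (.E 6 15 (.S 2 15 (.T 6 2 15 (.E 4 9 (.S 4 9 tr16_53 (.P true [0,9,4,8,12])) (.T 10 9 4 (.T 11 9 4 (.E 4 10 (.P true [0,10,4,8,12]) (.E 4 11 (.P true [3,7,11,4,8]) (.F [(0,10,1,1),(1,0,0,1),(9,4,0,1),(10,9,0,1)]))))))) (.T 15 2 6 (.P true [2,15,6,10,14]))) (.T 15 6 2 (.P true [3,7,11,15,2])))) (.T 15 2 1 (.T 15 2 5 (.T 15 2 6 (.E 0 15 (.T 0 15 1 (.F [(0,1,1,1),(1,0,0,1)])) (.E 1 15 (.T 2 1 15 (.T 1 15 2 (.T 1 15 6 (.T 2 15 6 (.T 1 2 6 (.T 1 6 2 (.F [(1,2,1,1),(2,1,0,1)]))))))) (.E 4 15 (.T 0 4 15 (.T 0 15 1 (.F [(0,1,1,1),(1,0,0,1)]))) (.E 5 15 (.T 1 5 15 (.T 1 15 5 (.T 5 15 2 (.T 1 5 2 (.F [(1,2,1,1),(2,1,0,1)]))))) (.E 6 15 (.P true [3,7,11,15,6]) (.E 8 15 (.T 0 8 15 (.T 0 15 1 (.F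 [(0,1,1,1),(1,0,0,1)]))) (.E 9 15 (.T 0 9 15 (.T 0 15 1 (.F [(0,1,1,1),(1,0,0,1)]))) (.F [(3,11,1,1),(11,15,0,1)]))))))))))))
def tr16_55 : Tr := (.E 4 10 (.T 4 10 0 (.P true [2,6,10,4,0])) (.E 4 11 (.T 4 11 0 (.P true [3,7,11,4,0])) (.S 10 0 (.E 4 9 (.T 0 4 9 (.E 0 9 (.S 4 9 (.E 5 10 (.T 5 10 0 (.E 0 5 (.T 10 0 5 (.T 0 5 10 (.T 0 10 5 (.F [(0,5,1,1),(5,0,0,1)])))) (.E 1 10 (.F [(1,5,0,1),(5,10,0,1),(10,0,1,1)]) (.T 10 1 5 (.T 5 10 1 (.P true [2,6,10,5,1])))))) (.S 10 5 (.E 0 5 (.S 0 4 (.F [(0,4,1,4),(2,10,1,3),(3,7,0,1),(4,9,1,4),(6,10,1,1),(7,2,1,2),(8,12,1,1),(8,13,1,1),(9,8,0,3),(10,0,1,4)]) (.T 5 4 0 (.P true [1,5,0,4,8]))) (.S 5 0 (.F [(3,7,0,1),(5,0,1,1),(6,10,1,1),(7,6,1,1),(10,5,1,1)]) (.P false [4,5,0,1,2]))) (.P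 false [0,10,5,2,3]))) (.P true [0,9,4,8,12])) (.T 9 0 4 (.T 4 9 0 (.P true [1,5,9,4,0]))))) (.S 9 4 (.F [(1,5,0,1),(5,9,1,1),(9,4,1,1)]) (.P false [8,9,4,2,3]))) (.P false [4,10,0,1,2]))))
def tr16_56 : Tr := (.E 5 14 (.E 0 10 (.T 1 0 10 (.T 0 10 9 (.E 0 9 (.E 0 14 (.E 1 10 (.S 0 9 (.S 0 10 (.E 5 10 tr16_54 (.T 10 5 4 (.T 0 10 5 (.T 11 10 4 (.E 0 5 (.E 4 10 (.P true [0,10,4,8,12]) (.E 4 11 (.P true [3,7,11,4,8]) (.S 10 4 (.F [(0,10,1,1),(10,4,1,1)]) (.T 5 4 10 (.P false [4,10,5,2,3]))))) (.F [(0,5,1,1),(5,0,0,1)])))))) (.P true [1,10,0,4,8])) (.P true [1,5,9,0,4])) (.T 10 1 0 (.P true [2,6,10,0,4]))) (.T 14 0 10 (.T 10 14 0 (.P true [1,5,14,10,0])))) (.T 10 9 0 (.P true [2,6,10,0,4]))))) (.T 10 0 4 (.T 11 10 0 (.T 11 10 4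 (.E 0 11 (.P true [3,7,11,0,4]) tr16_55))))) (.T 14 5 4 (.T 10 14 4 (.T 11 14 4 (.T 15 14 4 (.E 4 10 (.T 14 4 10 (.P true [1,14,10,4,8])) (.E 4 11 (.P true [3,7,11,4,8]) (.E 4 14 (.P true [1,14,4,8,12]) (.E 4 15 (.P true [3,7,11,15,4]) (.F [(1,14,1,1),(5,4,0,1),(14,5,0,1)]))))))))))
def tr16_57 : Tr := (.S 4 10 (.E 0 11 (.E 0 15 (.F [(0,11,0,12),(1,5,0,1),(3,7,0,2),(4,10,1,11),(6,1,1,2),(7,2,1,1),(7,6,1,3),(8,12,1,2),(8,13,1,2),(9,8,0,5),(10,9,0,7),(10,14,0,2),(11,4,1,13),(15,8,1,1)]) (.T 11 15 0 (.P true [3,7,11,0,4]))) (.S 11 0 (.E 1 11 (.F [(0,4,1,1),(1,11,0,1),(11,0,1,1)]) (.T 11 1 5 (.E 5 11 (.T 5 11 1 (.P true [3,7,11,5,1])) (.S 15 14 (.E 9 15 (.F [(0,4,1,6),(1,0,0,5),(2,1,1,3),(3,7,0,1),(4,10,1,5),(6,1,1,1),(7,2,1,2),(8,12,1,1),(8,13,1,1),(9,15,0,5),(10,9,0,6),(15,8,1,3),(15,14,1,1)])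 (.E 1 4 (.S 1 5 (.E 1 15 (.F [(0,4,1,7),(1,0,0,7),(1,5,1,1),(3,7,0,1),(4,10,1,6),(6,1,1,2),(7,6,1,2),(8,12,1,1),(8,13,1,1),(9,8,0,3),(10,9,0,4),(10,14,0,1)]) (.E 4 15 (.T 0 4 15 (.T 0 15 1 (.F [(0,1,1,1),(1,0,0,1)]))) (.E 5 15 (.T 5 15 1 (.F [(1,5,1,1),(5,1,0,1)])) (.F [(0,4,1,4),(1,0,0,3),(1,5,1,1),(2,1,1,1),(3,7,0,1),(4,10,1,3),(6,1,1,1),(7,11,0,2),(8,12,1,1),(8,13,1,1),(9,8,0,3),(10,9,0,4),(11,15,0,1)])))) (.P true [5,1,4,8,12])) (.S 1 0 (.F [(0,4,1,5),(1,0,1,5),(2,1,1,3),(3,7,0,1),(4,10,1,4),(6,1,1,1),(7,2,1,2),(8,12,1,1),(8,13,1,1),(9,8,0,3),(10,9,0,4)]) (.P false [4,1,0,2,3])))) (.T 10 14 15 (.T 14 15 8 (.F [(0,4,1,4),(1,0,0,4),(2,1,1,1),(3,7,0,1),(4,10,1,3),(6,1,1,2),(7,6,1,1),(7,11,0,1),(8,12,1,1),(8,13,1,1),(10,9,0,1),(10,14,0,2),(10,15,0,1),(14,8,1,3)])))))))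 (.P false [4,11,0,1,2]))) (.P true [0,10,4,8,12]))
def tr16_58 : Tr := (.E 9 14 (.S 9 14 (.E 2 15 (.E 6 15 (.E 0 5 (.S 0 5 (.F [(0,5,1,6),(1,0,0,3),(2,10,0,1),(3,7,0,1),(4,9,1,4),(5,4,0,5),(6,10,0,4),(7,11,0,2),(8,12,1,1),(8,13,1,1),(9,8,0,2),(9,14,1,1),(10,1,1,4),(11,6,1,3),(15,8,1,1)]) (.P true [1,5,0,4,8])) (.S 1 0 (.F [(0,4,1,5),(1,0,1,6),(2,10,0,1),(3,7,0,1),(4,9,1,4),(6,10,0,4),(7,11,0,2),(8,12,1,1),(8,13,1,1),(9,8,0,2),(9,14,1,1),(10,1,1,4),(11,6,1,3),(15,8,1,1)]) (.P false [1,0,5,2,3]))) (.T 15 6 2 (.P true [3,7,11,15,2]))) (.T 15 2 1 (.T 15 2 5 (.T 15 2 6 (.E 0 15 (.T 0 15 1 (.F [(0,1,1,1),(1,0,0,1)])) (.E 4 15 (.T 0 4 15 (.T 0 15 1 (.F [(0,1,1,1),(1,0,0,1)]))) (.E 5 15 (.T 1 5 15 (.T 1 15 5 (.T 5 15 2 (.T 1 5 2 (.F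 [(1,2,1,1),(2,1,0,1)]))))) (.E 6 15 (.P true [3,7,11,15,6]) (.E 9 15 (.T 0 9 15 (.T 0 15 1 (.F [(0,1,1,1),(1,0,0,1)]))) (.F [(0,4,1,1),(1,0,0,1),(3,7,0,1),(7,15,1,1)])))))))))) (.P true [0,4,14,9,12])) (.T 14 9 8 (.E 8 14 (.P true [0,4,14,8,12]) (.F [(0,4,1,5),(1,0,0,5),(2,10,0,4),(3,7,0,1),(4,14,1,5),(6,10,0,1),(7,11,0,2),(8,12,1,1),(8,13,1,1),(9,8,0,3),(10,1,1,5),(11,2,1,3),(14,9,0,4)]))))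
def tr16_59 : Tr := (.E 0 14 (.E 1 14 (.S 4 14 (.E 1 10 (.S 1 10 (.F [(1,10,1,1),(10,4,1,1)]) (.P true [2,6,10,1,5])) (.T 10 1 0 (.T 10 1 5 (.E 0 10 (.P true [2,6,10,0,4]) (.E 5 10 (.T 5 10 1 (.P true [2,6,10,5,1])) (.S 10 1 (.E 2 11 (.T 6 2 11 (.E 2 15 (.E 6 11 (.F [(0,4,1,2),(0,9,1,1),(1,0,0,2),(1,5,0,1),(2,11,0,3),(3,7,0,1),(4,8,0,1),(6,11,0,1),(7,2,1,2),(8,13,1,1),(10,1,1,4),(11,10,1,5),(14,12,0,1),(15,8,1,1)]) (.T 11 6 2 (.P true [3,7,11,2,6]))) (.T 11 15 2 (.P true [3,7,11,2,6])))) (.T 11 2 6 (.E 6 11 (.P true [3,7,11,6,2]) (.S 11 2 (.T 11 2 6 (.E 4 9 (.S 4 9 tr16_58 (.P true [0,9,4,8,12])) (.S 9 4 (.F [(0,9,1,1),(1,0,0,1),(9,4,1,1)]) (.P false [8,9,4,2,3])))) (.T 6 2 11 (.P false [0,1,2,11,6])))))) (.P false [0,10,1,2,3])))))))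 (.P true [0,14,4,8,12])) (.T 0 14 1 (.F [(0,1,1,1),(1,0,0,1)]))) (.T 4 14 0 (.F [(0,4,1,1),(4,0,0,1)])))
def tr16_60 : Tr := (.S 7 15 (.E 4 14 (.T 0 4 14 tr16_59) (.T 15 14 4 (.E 4 15 (.P true [3,7,11,15,4]) (.E 3 4 (.S 3 7 (.F [(0,4,1,1),(1,0,0,1),(2,1,1,1),(3,7,1,1),(7,2,1,1)]) (.P true [7,3,4,8,12])) (.F [(0,4,1,1),(1,0,0,1)]))))) (.T 15 7 1 (.T 15 7 11 (.T 11 15 7 (.E 4 15 (.T 0 4 15 (.T 0 15 1 (.F [(0,1,1,1),(1,0,0,1)]))) (.E 7 8 (.P true [3,11,7,8,12]) (.E 7 9 (.P true [3,11,7,9,12]) (.E 7 10 (.P true [3,11,7,10,14]) (.E 7 12 (.P true [3,11,15,7,12]) (.E 7 13 (.P true [3,11,15,7,13]) (.E 7 14 (.P true [3,11,15,7,14]) (.E 9 15 (.T 0 9 15 (.T 0 15 1 (.F [(0,1,1,1),(1,0,0,1)]))) (.E 11 12 (.P true [3,7,15,11,12]) (.E 11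 13 (.P true [3,7,15,11,13]) (.E 0 5 (.S 0 5 (.F [(0,5,1,4),(1,0,0,2),(2,1,1,1),(3,7,0,1),(5,9,1,4),(6,1,1,1),(8,12,1,1),(8,13,1,1),(9,8,0,3)]) (.P true [1,5,0,4,8])) (.S 1 0 (.F [(0,4,1,1),(1,0,1,1),(3,7,0,1)]) (.P false [1,0,5,2,3])))))))))))))))))
def tr16_61 : Tr := (.E 4 10 (.T 0 4 10 (.T 0 10 14 (.T 4 10 9 (.T 4 10 14 (.E 0 9 (.E 0 10 (.E 0 14 (.E 1 10 (.E 1 14 (.E 5 10 (.E 5 14 tr16_57 (.T 10 14 5 (.P true [0,4,10,5,9]))) (.T 10 5 4 (.P true [0,10,4,8,12]))) (.T 0 14 1 (.F [(0,1,1,1),(1,0,0,1)]))) (.T 0 10 1 (.F [(0,1,1,1),(1,0,0,1)]))) (.T 4 14 0 (.F [(0,4,1,1),(4,0,0,1)]))) (.T 4 10 0 (.F [(0,4,1,1),(4,0,0,1)]))) (.T 4 9 0 (.F [(0,4,1,1),(4,0,0,1)]))))))) (.S 10 4 (.E 0 11 (.T 0 11 9 (.T 0 11 10 (.E 0 9 (.E 0 10 (.E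 0 14 (.F [(0,11,0,1),(10,4,1,1),(11,10,1,1)]) (.T 10 14 0 (.F [(0,10,1,1),(10,0,0,1)]))) (.F [(0,10,1,1),(10,0,0,1)])) (.F [(0,9,1,1),(9,0,0,1)])))) (.E 0 9 (.S 0 9 tr16_60 (.P true [1,5,9,0,4])) (.T 5 9 0 (.T 10 9 0 (.E 0 5 (.T 9 0 5 (.T 0 5 9 (.T 0 9 5 (.F [(0,5,1,1),(5,0,0,1)])))) (.E 0 10 (.P true [2,6,10,0,4]) (.E 4 9 (.T 4 9 0 (.F [(0,4,1,1),(4,0,0,1)])) (.F [(0,4,1,1),(1,5,0,2),(3,7,0,1),(5,9,1,2),(6,1,1,1),(7,6,1,1),(9,0,0,2)])))))))) (.P false [8,9,10,4,2])))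
def tr16_62 : Tr := (.E 8 15 (.T 0 8 15 (.T 4 8 15 (.E 0 15 (.E 1 15 (.E 2 15 (.E 4 15 (.E 5 15 (.E 6 15 (.E 9 15 (.E 10 15 (.E 0 5 (.S 0 5 (.F [(0,5,1,3),(1,0,0,3),(3,7,0,1),(5,4,0,1),(5,9,1,2),(6,1,1,3),(7,6,1,2),(9,8,0,1),(14,12,0,1),(14,13,0,1),(15,14,0,3)]) (.P true [1,5,0,4,8])) (.S 1 0 (.F [(0,4,1,2),(1,0,1,3),(1,5,0,1),(2,1,1,1),(3,7,0,1),(4,8,0,1),(5,9,1,1),(6,1,1,3),(7,6,1,2),(14,12,0,1),(14,13,0,1),(15,14,0,3)]) (.P false [1,0,5,2,3]))) (.T 15 10 9 (.P true [0,4,8,15,9]))) (.T 15 9 8 (.P true [0,4,15,8,12]))) (.T 15 6 1 (.T 0 15 1 (.F [(0,1,1,1),(1,0,0,1)])))) (.T 15 5 8 (.T 4 15 8 (.T 8 15 5 (.T 4 8 5 (.F [(4,5,1,1),(5,4,0,1)])))))) (.T 15 4 8 (.T 8 15 4 (.P true [0,15,8,4,12])))) (.T 15 2 1 (.T 0 15 1 (.F [(0,1,1,1),(1,0,0,1)]))))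 (.T 0 15 1 (.F [(0,1,1,1),(1,0,0,1)]))) (.T 4 15 0 (.F [(0,4,1,1),(4,0,0,1)]))))) (.S 15 8 tr16_61 (.P false [12,13,14,15,8])))
def tr16_63 : Tr := (.E 2 8 (.S 2 10 (.E 1 10 (.E 0 15 (.T 4 0 15 (.E 1 15 (.F [(1,0,1,1)]) (.T 15 1 4 (.T 0 15 4 (.T 4 15 1 (.T 0 4 1 (.F [(0,1,1,1),(1,0,0,1)]))))))) (.F [(1,0,1,1)])) (.T 10 1 4 (.T 10 1 5 (.E 0 10 (.T 4 0 10 (.T 0 10 4 (.T 4 10 1 (.T 0 4 1 (.F [(0,1,1,1),(1,0,0,1)]))))) (.E 5 10 (.P true [2,6,10,5,1]) (.S 10 1 (.F [(1,0,1,1),(2,10,1,1),(10,1,1,1)]) (.T 5 1 10 (.P false [0,1,10,5,2])))))))) (.P true [6,10,2,8,12])) (.S 10 8 (.T 10 8 9 (.E 0 10 (.T 1 0 10 (.T 4 0 10 (.E 1 10 (.E 4 10 (.E 5 10 (.S 0 10 (.F [(0,10,1,4),(1,0,1,4),(2,1,1,3),(3,11,0,1),(6,1,1,1),(7,11,0,1),(8,14,1,3),(10,8,1,4),(10,9,1,1),(11,2,1,3),(14,12,0,1),(14,13,0,1)])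 (.T 10 0 4 (.P true [0,10,4,8,12]))) (.T 10 5 1 (.T 10 5 4 (.T 0 10 4 (.T 4 10 1 (.T 0 4 1 (.F [(0,1,1,1),(1,0,0,1)]))))))) (.T 10 4 0 (.P true [1,10,0,4,8]))) (.T 10 1 4 (.T 0 10 4 (.T 4 10 1 (.T 0 4 1 (.F [(0,1,1,1),(1,0,0,1)])))))))) (.T 10 0 4 (.E 4 10 (.P true [2,6,10,4,0]) (.E 2 15 (.E 6 15 (.E 1 15 (.F [(1,0,1,1)]) (.F [(1,0,1,1),(1,4,1,1),(15,1,0,1)])) (.T 15 6 2 (.P true [3,7,11,15,2]))) (.T 15 2 1 (.E 0 15 (.T 0 15 1 (.F [(0,1,1,1),(1,0,0,1)])) (.F [(1,0,1,1)])))))))) (.P false [9,10,8,2,3])))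
def tr16_64 : Tr := (.E 7 8 (.F [(0,8,1,3),(1,0,1,3),(2,1,1,3),(3,7,0,1),(7,11,0,2),(8,14,1,3),(11,2,1,3),(14,12,1,1),(14,13,1,1)]) (.E 6 12 (.E 6 13 (.E 7 9 (.F [(0,8,1,3),(1,0,1,3),(2,1,1,3),(3,7,0,1),(7,11,0,2),(8,14,1,3),(11,2,1,3),(14,12,1,1),(14,13,1,1)]) (.E 9 15 (.T 0 9 15 (.E 0 15 (.E 1 15 (.E 2 15 (.E 4 15 (.E 5 15 (.E 6 15 (.F [(0,8,1,1),(0,9,1,1),(1,0,1,2),(2,1,1,1),(6,1,1,1),(14,12,1,1),(15,14,0,1)]) (.T 15 6 1 (.T 0 15 1 (.F [(0,1,1,1),(1,0,0,1)])))) (.T 15 5 1 (.T 0 15 1 (.F [(0,1,1,1),(1,0,0,1)])))) (.T 0 15 4 (.F [(0,4,1,1),(4,0,0,1)]))) (.T 15 2 1 (.T 0 15 1 (.F [(0,1,1,1),(1,0,0,1)])))) (.T 0 15 1 (.F [(0,1,1,1),(1,0,0,1)]))) (.T 15 0 4 (.T 0 15 4 (.F [(0,4,1,1),(4,0,0,1)]))))) (.T 15 9 8 (.E 8 15 (.P true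 [3,7,11,15,8]) (.F [(0,8,1,1),(0,9,1,1),(1,0,1,2),(2,1,1,1),(6,1,1,1)]))))) (.F [(0,8,1,3),(1,0,1,3),(2,1,1,3),(3,7,0,1),(7,11,0,2),(8,14,1,3),(11,2,1,3),(14,12,1,1),(14,13,1,1)])) (.F [(0,8,1,3),(1,0,1,3),(2,1,1,3),(3,7,0,1),(7,11,0,2),(8,14,1,3),(11,2,1,3),(14,12,1,1),(14,13,1,1)])))
def tr16_65 : Tr := (.E 2 11 (.T 6 2 11 (.E 2 15 (.E 6 11 (.E 6 15 (.F [(0,9,1,11),(1,5,0,14),(2,11,0,3),(3,7,0,3),(5,0,1,12),(5,4,1,1),(6,11,0,9),(7,6,1,6),(8,12,1,3),(8,13,1,3),(9,8,0,9),(10,9,0,1),(11,1,1,15),(15,14,0,1)]) (.T 11 15 6 (.P true [2,11,6,10,14]))) (.T 11 6 2 (.P true [3,7,11,2,6]))) (.T 11 15 2 (.P true [3,7,11,2,6])))) (.T 11 2 6 (.E 6 11 (.P true [3,7,11,6,2]) (.S 11 2 (.T 11 2 6 (.E 8 14 (.T 9 8 14 (.E 9 14 (.S 8 14 (.T 9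 8 14 (.S 1 5 (.F [(0,9,1,5),(1,5,1,5),(2,1,1,1),(3,7,0,1),(5,0,1,5),(6,1,1,4),(7,11,0,2),(8,14,1,3),(9,8,0,4),(11,6,1,3),(14,12,0,1),(14,13,0,1)]) (.S 9 8 (.F [(0,9,1,5),(1,0,1,5),(2,1,1,1),(3,7,0,1),(6,1,1,4),(7,11,0,2),(8,14,1,3),(9,8,1,4),(11,6,1,3),(14,12,0,1),(14,13,0,1)]) (.E 2 12 tr16_63 (.S 14 12 (.T 14 12 13 (.E 2 13 (.E 3 8 (.F [(0,8,1,3),(1,0,1,3),(2,1,1,3),(3,7,0,1),(7,11,0,2),(8,14,1,3),(11,2,1,3),(14,12,1,1),(14,13,1,1)]) (.E 3 9 (.F [(0,9,1,3),(1,0,1,3),(2,1,1,3),(3,7,0,1),(7,11,0,2),(9,14,1,3),(11,2,1,3),(14,12,1,1),(14,13,1,1)]) tr16_64)) (.F [(0,8,1,3),(1,0,1,3),(2,1,1,3),(3,7,0,1),(7,11,0,2),(8,14,1,3),(11,2,1,3),(14,12,1,1),(14,13,1,1)]))) (.P false [13,14,12,2,3])))))) (.P true [0,4,9,14,8])) (.T 14 9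 8 (.P true [0,4,14,8,12])))) (.T 15 14 8 (.E 8 15 (.P true [3,7,11,15,8]) (.S 14 8 (.F [(0,9,1,1),(0,14,1,4),(1,5,0,5),(2,1,1,4),(3,7,0,1),(5,0,1,5),(6,1,1,1),(7,11,0,2),(8,12,1,1),(8,13,1,1),(11,2,1,3),(14,8,1,3)]) (.P false [12,13,14,8,9])))))) (.T 6 2 11 (.P false [0,1,2,11,6]))))))
def tr16_66 : Tr := (.E 4 14 (.T 0 4 14 (.E 0 14 (.S 0 14 (.E 0 9 (.T 4 0 9 (.E 4 9 (.S 0 9 (.E 5 11 (.T 1 5 11 (.T 1 11 10 (.T 5 11 10 (.E 1 10 (.E 1 11 (.F [(1,5,0,1),(5,11,0,1),(11,0,1,1)]) (.T 11 1 5 (.T 5 11 1 (.P true [3,7,11,5,1])))) (.T 10 1 5 (.T 1 10 5 (.T 5 10 1 (.F [(1,5,1,1),(5,1,0,1)])))))))) (.S 11 5 (.E 1 11 (.F [(1,11,0,1),(5,0,1,1),(11,5,1,1)]) (.S 11 1 tr16_65 (.P false [0,5,11,1,2]))) (.P false [0,11,5,2,3]))) (.T 9 0 4 (.P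 true [0,9,4,8,12]))) (.T 9 4 0 (.P true [1,5,9,0,4])))) (.T 10 9 0 (.E 0 10 (.P true [2,6,10,0,4]) (.F [(1,5,0,1),(5,9,1,1),(9,0,0,1)])))) (.T 14 0 4 (.P true [0,14,4,8,12]))) (.T 14 0 4 (.P true [1,5,14,4,0])))) (.T 14 4 0 (.T 10 14 0 (.E 0 10 (.T 14 0 10 (.P true [1,5,14,10,0])) (.E 0 14 (.P true [1,5,14,0,4]) (.F [(1,5,0,1),(5,14,1,1),(14,0,0,1)]))))))
def tr16_67 : Tr := (.E 5 14 (.T 1 5 14 (.E 1 14 (.S 5 14 (.E 4 11 (.T 0 4 11 (.T 0 11 10 (.T 0 11 15 (.T 4 11 15 (.E 1 10 (.E 1 11 (.E 1 15 (.F [(1,5,0,1),(5,0,1,1)]) (.T 15 1 4 (.T 0 15 4 (.T 4 15 1 (.T 0 4 1 (.F [(0,1,1,1),(1,0,0,1)])))))) (.T 11 1 4 (.T 0 11 4 (.T 4 11 1 (.T 0 4 1 (.F [(0,1,1,1),(1,0,0,1)])))))) (.T 0 10 1 (.F [(0,1,1,1),(1,0,0,1)]))))))) (.T 11 4 0 (.E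 0 11 (.P true [3,7,11,0,4]) (.S 11 0 tr16_66 (.T 4 0 11 (.P false [0,11,4,1,2])))))) (.P true [1,14,5,9,12])) (.T 14 1 5 (.P true [2,6,10,14,5])))) (.T 14 5 4 (.T 10 14 4 (.T 11 14 4 (.T 15 14 4 (.E 0 10 (.T 0 10 4 (.F [(0,4,1,1),(4,0,0,1)])) (.E 0 11 (.T 0 11 4 (.F [(0,4,1,1),(4,0,0,1)])) (.E 0 14 (.T 0 14 4 (.F [(0,4,1,1),(4,0,0,1)])) (.E 0 15 (.T 0 15 4 (.F [(0,4,1,1),(4,0,0,1)])) (.F [(1,5,0,1),(5,0,1,1)]))))))))))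
def tr16_68 : Tr := (.S 0 4 (.E 4 11 (.T 0 4 11 (.T 0 11 15 (.T 4 11 9 (.T 4 11 10 (.T 4 11 14 (.T 4 11 15 (.E 0 9 (.E 0 10 (.E 0 11 (.E 0 14 (.E 0 15 (.E 1 11 (.E 1 15 (.F [(0,4,1,5),(1,5,0,1),(3,7,0,1),(4,11,0,4),(7,2,1,1),(7,6,1,1),(8,12,1,1),(8,13,1,1),(9,8,0,3),(10,9,0,4),(11,10,1,5),(15,14,0,1)]) (.T 0 15 1 (.F [(0,1,1,1),(1,0,0,1)]))) (.T 0 11 1 (.F [(0,1,1,1),(1,0,0,1)]))) (.T 4 15 0 (.F [(0,4,1,1),(4,0,0,1)]))) (.T 4 14 0 (.F [(0,4,1,1),(4,0,0,1)]))) (.T 4 11 0 (.F [(0,4,1,1),(4,0,0,1)]))) (.T 4 10 0 (.F [(0,4,1,1),(4,0,0,1)]))) (.T 4 9 0 (.F [(0,4,1,1),(4,0,0,1)]))))))))) (.S 11 4 tr16_62 (.P false [8,9,10,11,4]))) (.T 5 4 0 (.E 0 5 (.P true [1,5,0,4,8]) (.E 1 4 (.P true [1,4,0,8,12]) (.E 3 4 (.P true [3,4,0,8,12])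 (.S 1 0 (.T 1 0 4 (.S 5 0 (.T 5 0 4 tr16_67) (.T 4 0 5 (.P false [0,5,4,1,2])))) (.T 4 0 1 (.P false [0,1,4,2,3]))))))))
def tr16_69 : Tr := (.S 0 8 (.S 13 12 tr16_51 (.E 1 12 (.E 9 12 (.E 3 10 (.S 2 10 (.T 6 2 10 (.S 3 11 (.E 1 14 (.S 1 14 tr16_56 (.P true [2,6,10,14,1])) (.T 14 1 0 (.T 14 1 4 (.T 14 1 5 (.E 0 14 (.P true [2,6,10,14,0]) (.E 4 14 (.P true [2,6,10,14,4]) (.E 5 14 (.P true [2,6,10,14,5]) (.E 8 14 (.T 0 8 14 (.T 0 14 1 (.F [(0,1,1,1),(1,0,0,1)]))) (.E 9 14 (.T 1 9 14 (.T 5 9 14 (.T 1 14 5 (.T 5 14 1 (.F [(1,5,1,1),(5,1,0,1)]))))) (.F [(3,7,0,1),(6,10,1,1),(7,6,1,1),(10,14,0,1)])))))))))) (.P true [7,11,3,10,14]))) (.P true [3,10,2,6,14])) (.S 11 9 (.S 11 10 (.T 11 10 14 tr16_68) (.P false [8,9,11,10,3])) (.T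 10 9 11 (.P false [8,9,11,10,3])))) (.P false [13,12,9,10,11])) (.P false [13,12,1,2,3]))) (.P true [1,8,0,4,12]))
def tr16_70 : Tr := (.E 0 10 (.E 0 11 (.E 2 11 (.E 2 15 (.E 4 9 (.E 4 10 (.E 4 14 (.E 4 15 (.E 5 10 (.E 5 11 (.E 5 15 (.F [(2,1,1,1),(3,7,0,1),(4,11,0,2),(5,0,1,1),(6,1,1,1),(7,6,1,2),(8,13,1,2),(9,8,1,3),(10,9,0,4),(11,10,0,3),(13,12,0,1),(15,14,0,1)]) (.T 15 5 0 (.T 15 5 4 (.T 0 15 4 (.T 4 15 0 (.F [(0,4,1,1),(4,0,0,1)])))))) (.T 11 5 0 (.T 11 5 4 (.T 0 11 4 (.T 4 11 0 (.F [(0,4,1,1),(4,0,0,1)])))))) (.T 10 5 0 (.T 10 5 4 (.T 0 10 4 (.T 4 10 0 (.F [(0,4,1,1),(4,0,0,1)])))))) (.T 11 15 4 (.P true [0,11,4,8,12]))) (.T 10 14 4 (.P true [0,10,4,8,12]))) (.T 11 10 4 (.P true [0,11,4,8,12]))) (.T 11 9 4 (.P true [0,11,4,8,12])))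 (.T 15 2 1 (.T 0 15 1 (.F [(0,1,1,1),(1,0,0,1)])))) (.T 11 2 1 (.T 0 11 1 (.F [(0,1,1,1),(1,0,0,1)])))) (.T 11 0 4 (.T 4 11 0 (.P true [3,7,11,4,0])))) (.T 10 0 4 (.T 4 10 0 (.T 11 10 4 (.P true [3,7,11,4,0])))))
def tr16_71 : Tr := (.E 1 10 (.E 1 11 (.E 1 15 (.E 2 11 (.E 2 15 (.E 5 10 (.E 5 11 (.E 5 15 (.F [(0,11,0,3),(1,5,0,3),(2,1,1,1),(3,7,0,1),(4,8,0,3),(5,0,1,4),(6,1,1,1),(7,6,1,2),(8,13,1,2),(10,9,0,1),(11,4,1,4),(13,12,0,1),(15,14,0,1)]) (.T 15 5 11 (.T 0 15 11 (.T 11 15 5 (.T 0 11 5 (.F [(0,5,1,1),(5,0,0,1)])))))) (.T 0 11 5 (.T 0 5 11 (.T 0 11 5 (.F [(0,5,1,1),(5,0,0,1)]))))) (.T 10 5 11 (.T 0 10 11 (.T 11 10 5 (.T 0 11 5 (.F [(0,5,1,1),(5,0,0,1)])))))) (.T 15 2 1 (.T 0 15 1 (.F [(0,1,1,1),(1,0,0,1)])))) (.T 11 2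 1 (.T 0 11 1 (.F [(0,1,1,1),(1,0,0,1)])))) (.T 15 1 5 (.T 0 15 1 (.T 0 15 5 (.T 1 15 5 (.T 5 15 1 (.T 0 1 5 (.T 0 5 1 (.F [(0,1,1,1),(1,0,0,1)]))))))))) (.T 11 1 5 (.T 0 11 1 (.T 0 11 5 (.T 1 11 5 (.T 5 11 1 (.T 0 1 5 (.T 0 5 1 (.F [(0,1,1,1),(1,0,0,1)]))))))))) (.T 10 1 11 (.T 0 10 11 (.T 11 10 1 (.T 0 11 1 (.F [(0,1,1,1),(1,0,0,1)]))))))
def tr16_72 : Tr := (.E 9 14 (.S 9 14 (.E 4 9 (.T 0 4 9 (.E 0 9 (.S 4 9 (.E 2 11 (.F [(0,4,0,4),(1,5,0,4),(2,1,1,1),(3,7,0,1),(4,9,1,4),(5,0,1,4),(6,1,1,3),(7,6,1,2),(8,13,1,2),(9,8,1,3),(13,12,0,1)]) (.T 11 2 6 (.E 6 11 (.P true [3,7,11,6,2]) (.S 11 2 (.T 11 2 6 (.F [(0,4,0,5),(1,5,0,5),(2,1,1,1),(3,7,0,1),(4,9,1,5),(5,0,1,5),(6,1,1,4),(7,11,0,2),(8,13,1,2),(9,8,1,3),(9,14,1,1),(11,6,1,3),(13,12,0,1)]))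 (.T 6 2 11 (.P false [0,1,2,11,6])))))) (.P true [0,9,4,8,12])) (.T 9 0 4 (.T 4 9 0 (.P true [1,5,9,4,0]))))) (.T 10 9 4 (.E 4 10 (.P true [2,6,10,4,8]) (.S 9 4 (.E 0 9 (.S 0 9 (.F [(0,9,1,1),(1,5,0,1),(3,7,0,1),(5,0,1,1),(6,1,1,1),(7,6,1,1),(9,4,1,1)]) (.P true [1,5,9,0,4])) (.T 10 9 0 (.E 0 10 (.P true [2,6,10,0,4]) (.F [(1,5,0,5),(2,1,1,1),(3,7,0,1),(4,8,0,1),(5,9,1,6),(6,1,1,3),(7,6,1,2),(9,0,0,3),(9,4,1,2),(13,12,0,1),(14,13,0,1)])))) (.P false [8,9,4,2,3]))))) (.P true [1,5,14,9,13])) (.T 14 9 8 (.T 15 14 9 (.E 8 14 (.T 9 8 14 (.T 8 14 9 (.T 8 9 14 (.T 8 14 9 (.F [(8,9,1,1),(9,8,0,1)]))))) (.E 8 15 (.T 9 8 15 (.T 8 15 9 (.T 8 15 14 (.T 9 15 14 (.T 8 9 14 (.T 8 14 9 (.F [(8,9,1,1),(9,8,0,1)]))))))) (.E 9 15 (.P true [3,7,11,15,9])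 (.S 14 9 (.F [(1,5,0,4),(2,1,1,1),(3,7,0,1),(5,14,1,4),(6,1,1,3),(7,6,1,2),(8,13,1,2),(9,8,1,3),(13,12,0,1),(14,9,1,4)]) (.P false [8,14,9,10,11]))))))))
def tr16_73 : Tr := (.E 5 14 (.T 1 5 14 (.E 1 14 (.S 5 14 (.E 4 11 (.T 0 4 11 (.T 0 11 10 (.T 0 11 15 (.T 4 11 10 (.T 4 11 15 tr16_70))))) (.S 11 4 (.E 0 11 (.T 1 0 11 (.T 5 0 11 (.T 0 11 10 (.T 0 11 15 (.T 1 11 15 (.T 5 11 15 tr16_71)))))) tr16_72) (.P false [8,9,10,11,4]))) (.P true [1,14,5,9,13])) (.T 14 1 5 (.P true [2,6,10,14,5])))) (.T 14 5 0 (.T 10 14 5 (.T 11 14 5 (.T 15 14 5 (.E 0 10 (.T 14 0 10 (.T 0 10 14 (.T 14 10 5 (.T 0 14 5 (.F [(0,5,1,1),(5,0,0,1)]))))) (.E 0 11 (.T 14 0 11 (.T 0 11 14 (.T 14 11 5 (.T 0 14 5 (.F [(0,5,1,1),(5,0,0,1)]))))) (.E 0 14 (.T 5 0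 14 (.T 0 14 5 (.T 0 5 14 (.T 0 14 5 (.F [(0,5,1,1),(5,0,0,1)]))))) (.E 0 15 (.T 5 0 15 (.T 0 15 5 (.T 0 15 14 (.T 5 15 14 (.T 0 5 14 (.T 0 14 5 (.F [(0,5,1,1),(5,0,0,1)]))))))) (.F [(1,5,0,1),(5,0,1,1),(6,1,1,1),(7,6,1,1)]))))))))))
def tr16_74 : Tr := (.E 8 13 (.T 0 8 13 (.T 4 8 13 (.E 0 13 (.E 4 13 (.S 8 12 (.S 8 13 (.E 1 8 tr16_69 (.S 1 0 (.S 9 8 (.E 0 5 (.S 0 5 (.F [(0,5,1,4),(1,0,1,4),(2,1,1,3),(3,7,0,1),(5,9,1,4),(6,1,1,1),(7,2,1,2),(8,13,1,2),(9,8,1,3),(13,12,0,1)]) (.P true [1,5,0,4,8])) (.S 5 0 (.T 5 0 4 tr16_73) (.P false [4,5,0,1,2]))) (.P false [9,8,1,2,3])) (.P false [8,1,0,2,3]))) (.P true [0,4,13,8,12])) (.P true [0,4,12,8,13])) (.T 13 4 8 (.T 8 13 4 (.P true [0,13,8,4,12])))) (.T 13 0 8 (.P true [1,5,9,13,8])))))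 (.T 14 13 8 (.T 15 13 8 (.E 8 14 (.P true [2,6,10,14,8]) (.E 8 15 (.P true [3,7,11,15,8]) (.S 13 8 (.E 2 11 (.F [(1,5,0,4),(2,1,1,1),(3,7,0,1),(5,9,1,4),(6,1,1,3),(7,6,1,2),(8,12,0,1),(9,13,1,4),(13,8,1,3)]) (.T 11 2 6 (.E 6 11 (.P true [3,7,11,6,2]) (.S 11 2 (.F [(1,5,0,5),(2,1,1,4),(3,7,0,1),(5,9,1,5),(6,1,1,1),(7,11,0,2),(8,12,0,1),(9,13,1,5),(11,2,1,3),(13,8,1,4)]) (.T 6 2 11 (.P false [0,1,2,11,6])))))) (.P false [12,13,8,9,10])))))))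
def tr16_75 : Tr := (.S 2 6 (.T 2 6 10 (.E 2 7 (.E 2 11 (.E 2 15 (.S 2 7 (.E 3 6 (.F [(2,7,1,2),(3,2,0,1),(5,9,1,4),(6,5,1,4),(7,6,1,3),(9,8,0,1),(9,13,1,2),(13,12,0,1)]) (.S 3 2 (.F [(2,7,1,3),(3,2,1,1),(5,9,1,4),(6,5,1,4),(7,6,1,4),(9,8,0,1),(9,13,1,2),(13,12,0,1)]) (.P false [4,5,6,3,2]))) (.P true [3,7,2,6,10])) (.T 7 15 2 (.P true [3,7,2,6,10]))) (.T 7 11 2 (.P true [3,7,2,6,10]))) (.T 7 2 0 (.T 7 2 1 (.E 0 7 (.P true [3,7,0,4,8]) tr16_15))))) (.T 6 2 1 (.T 3 6 2 (.T 7 6 1 (.T 7 6 2 (.E 0 6 (.P true [0,6,2,10,14]) (.E 0 7 (.T 0 7 1 (.F [(0,1,1,1),(1,0,0,1)])) (.E 1 6 (.P true [1,6,2,10,14]) (.E 1 7 (.T 1 7 2 (.F [(1,2,1,1),(2,1,0,1)])) (.E 2 4 (.P true [6,2,4,8,12]) (.E 2 5 (.P true [6,2,5,9,13]) (.E 2 7 (.T 2 7 6 (.F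 [(2,6,1,1),(6,2,0,1)])) (.E 3 6 (.P true [3,6,2,10,14]) (.S 2 1 (.T 6 2 1 tr16_74) (.P false [0,2,1,6,3])))))))))))))))
def tr16_76 : Tr := (.S 7 6 (.T 3 7 6 (.S 9 13 (.T 10 9 13 tr16_75) (.T 13 9 8 (.T 14 13 8 (.T 15 13 8 (.E 8 13 (.P true [0,4,8,13,9]) (.E 8 14 (.P true [2,6,10,14,8]) (.E 8 15 (.P true [3,7,11,15,8]) (.E 9 12 (.P true [1,5,13,9,12]) (.E 9 14 (.P true [1,5,13,9,14]) (.E 9 15 (.P true [1,5,13,9,15]) (.E 10 13 (.P true [2,6,10,13,9]) (.E 11 13 (.P true [3,7,11,13,9]) (.S 9 8 (.F [(2,6,0,1),(3,7,0,1),(5,9,1,3),(5,13,1,1),(6,5,1,4),(7,6,1,2),(8,12,0,1),(9,8,1,2)]) (.P false [9,8,13,10,11]))))))))))))))) (.T 2 6 7 (.T 6 7 11 (.E 2 7 (.E 2 11 (.E 2 15 (.E 3 6 (.E 6 11 (.E 6 15 (.E 7 10 (.E 7 14 (.S 2 6 (.E 3 10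 (.F [(2,6,1,2),(3,2,0,1),(5,9,1,4),(6,5,1,3),(7,5,1,1),(8,12,0,1),(9,8,0,2),(9,13,0,1)]) (.S 3 2 (.F [(2,6,1,2),(3,2,1,1),(5,9,1,4),(6,5,1,3),(7,5,1,1),(8,12,0,1),(9,8,0,2),(9,13,0,1)]) (.P false [8,9,10,3,2]))) (.P true [3,6,2,7,10])) (.P false [12,13,14,7,6])) (.P false [8,9,10,7,6])) (.T 15 6 7 (.T 11 15 7 (.P true [2,6,11,7,15])))) (.P false [4,5,7,6,11])) (.P false [4,5,7,6,3])) (.T 7 15 2 (.P true [3,7,2,6,10]))) (.T 7 11 2 (.P true [3,7,2,6,10]))) (.P false [0,1,2,7,6])))))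
def tr16_77 : Tr := (.E 0 14 (.E 0 5 (.T 0 5 4 (.E 0 9 (.S 0 5 (.E 0 15 (.F [(0,5,1,1),(5,4,1,1)]) (.E 4 15 (.T 4 15 0 (.F [(0,4,1,1),(4,0,0,1)])) (.F [(0,5,1,1),(5,4,1,1)]))) (.P true [1,5,0,4,8])) (.T 5 9 0 (.P true [1,5,0,4,8])))) (.T 9 5 0 (.E 0 9 (.P true [1,5,9,0,4]) (.S 5 0 (.E 2 7 (.E 2 11 (.F [(2,7,0,1),(5,0,1,1),(6,10,0,1),(7,6,0,1),(10,5,1,1)]) (.T 7 11 2 (.P true [3,7,2,6,10]))) (.S 3 2 (.F [(2,6,0,1),(3,2,1,1),(5,0,1,1),(6,10,0,1),(10,5,1,1)]) (.P false [0,1,3,2,7]))) (.P false [4,5,0,1,2]))))) (.T 5 14 0 (.T 9 14 0 (.E 0 5 (.T 9 0 5 (.T 0 5 9 (.T 0 9 5 (.F [(0,5,1,1),(5,0,0,1)])))) (.E 0 9 (.T 14 0 9 (.T 0 9 14 (.T 14 9 5 (.T 0 14 5 (.F [(0,5,1,1),(5,0,0,1)]))))) (.F [(14,0,0,1)]))))))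
def tr16_78 : Tr := (.E 0 11 (.P true [3,7,11,0,4]) (.E 5 14 (.T 9 5 14 (.E 9 14 (.S 5 14 (.T 9 5 14 tr16_77) (.T 14 5 9 (.P true [1,5,14,9,13]))) (.T 14 9 5 (.P true [1,14,5,9,13])))) (.T 14 5 8 (.T 14 5 9 (.T 15 14 5 (.T 15 14 8 (.T 15 14 9 (.E 4 14 (.T 5 4 14 (.T 4 14 5 (.T 4 14 9 (.T 5 14 9 (.T 4 5 9 (.T 4 9 5 (.F [(4,5,1,1),(5,4,0,1)]))))))) (.E 4 15 (.T 5 4 15 (.T 4 15 5 (.T 4 15 9 (.T 5 15 9 (.T 4 5 9 (.T 4 9 5 (.F [(4,5,1,1),(5,4,0,1)]))))))) (.E 5 15 (.P true [3,7,11,15,5]) (.E 8 14 (.T 4 8 14 (.T 4 14 8 (.T 8 14 5 (.T 4 8 5 (.F [(4,5,1,1),(5,4,0,1)]))))) (.E 8 15 (.T 4 8 15 (.T 4 15 8 (.T 8 15 5 (.T 4 8 5 (.F [(4,5,1,1),(5,4,0,1)]))))) (.F [(1,14,1,2),(2,1,0,1),(3,15,1,1),(4,8,0,1),(5,4,1,2),(14,5,0,3),(15,14,0,1)])))))))))))))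
def tr16_79 : Tr := (.E 3 5 (.S 1 5 (.T 1 5 9 (.S 3 7 (.F [(1,9,1,1),(3,7,1,1),(6,10,0,1),(7,6,1,1),(10,1,1,1)]) (.P true [7,3,5,9,13]))) (.P true [3,5,1,9,13])) (.E 2 5 (.S 1 5 (.T 1 5 9 (.S 2 6 (.F [(1,5,1,4),(1,9,1,1),(2,6,1,2),(3,2,0,1),(4,8,0,1),(4,13,1,2),(5,4,1,4),(6,10,0,4),(7,6,1,1),(10,1,1,4),(13,12,0,1)]) (.P true [6,2,5,9,13]))) (.P true [2,5,1,9,13])) (.E 0 9 (.E 0 5 (.S 0 5 (.F [(0,5,1,1)]) (.P true [1,5,0,4,8])) (.T 9 5 0 (.P true [1,5,9,0,4]))) (.T 5 9 0 (.E 0 5 (.P true [1,5,0,4,8]) (.S 1 0 (.S 5 0 (.E 0 15 (.T 1 0 15 (.T 5 0 15 (.E 1 15 (.F [(0,4,0,2),(1,5,0,6),(1,9,0,1),(2,6,0,1),(3,7,0,1),(4,8,0,1),(5,0,1,5),(6,10,0,4),(7,6,1,2),(10,1,1,6),(11,10,0,1),(13,12,0,1),(14,13,0,2),(15,14,1,1)]) (.T 15 1 5 (.T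 0 15 1 (.T 0 15 5 (.T 1 15 5 (.T 5 15 1 (.T 0 1 5 (.T 0 5 1 (.F [(0,1,1,1),(1,0,0,1)]))))))))))) (.F [(5,0,1,1)])) (.P false [4,5,0,1,2])) (.P false [1,0,5,2,3])))))))
def tr16_80 : Tr := (.E 3 5 (.S 1 5 (.T 1 5 9 (.S 3 6 (.F [(1,5,1,3),(1,9,1,1),(2,6,0,1),(3,6,1,1),(4,8,0,1),(4,13,1,1),(5,4,1,3),(6,10,0,3),(7,11,0,1),(10,1,1,3),(13,12,1,1),(14,13,0,1)]) (.T 7 6 3 (.P true [7,3,5,9,13])))) (.P true [3,5,1,9,13])) (.E 7 10 (.S 3 11 (.S 6 10 (.F [(1,5,0,4),(2,6,0,1),(3,11,1,1),(4,8,0,1),(4,13,1,1),(5,4,1,3),(6,10,1,3),(7,6,0,1),(10,1,1,3),(13,12,1,1),(14,13,0,1)]) (.P true [3,7,10,6,14])) (.T 11 3 7 (.P true [3,11,7,10,14]))) (.S 7 6 (.S 11 10 (.E 2 7 (.E 2 11 (.F [(1,5,0,1),(2,7,0,1),(6,10,0,1),(7,6,1,1),(10,1,1,1)]) (.T 7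 11 2 (.P true [3,7,2,6,10]))) (.S 7 2 (.E 2 11 (.F [(1,5,0,4),(2,11,0,3),(3,7,0,1),(4,13,1,2),(5,4,1,3),(7,2,1,2),(10,1,1,4),(11,10,1,4),(13,12,1,1)]) (.T 11 2 6 (.E 6 11 (.T 6 11 2 (.P true [3,7,11,6,2])) (.S 11 2 (.E 2 5 (.S 1 5 (.F [(1,5,1,6),(2,6,0,4),(3,7,0,1),(4,8,0,1),(4,13,1,1),(5,4,1,3),(6,10,0,5),(7,11,0,2),(10,1,1,5),(11,2,1,3),(13,12,1,1),(14,13,0,1)]) (.P true [2,5,1,9,13])) (.E 0 5 (.E 0 9 (.F [(0,5,0,1)]) (.T 5 9 0 (.P true [1,5,0,4,8]))) (.F [(1,5,0,7),(2,6,0,4),(3,7,0,1),(4,8,0,1),(5,4,1,1),(6,10,0,5),(7,11,0,2),(9,4,1,1),(10,1,1,6),(11,2,1,3),(13,12,1,1),(14,13,0,2)]))) (.P false [0,1,6,11,2]))))) (.P false [0,1,6,7,2]))) (.P false [0,1,11,10,7])) (.P false [0,1,10,7,6]))))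
def tr16_81 : Tr := (.E 1 10 (.S 1 10 (.F [(1,10,1,10),(2,6,0,4),(3,2,0,2),(4,8,0,2),(5,4,1,4),(6,1,1,8),(7,6,0,2),(10,0,1,1),(10,5,1,6),(10,9,1,2),(13,12,0,2),(14,13,0,3),(15,14,1,1)]) (.P true [2,6,10,1,5])) (.T 11 10 1 (.E 1 11 (.P true [3,7,11,1,5]) (.S 10 1 (.E 4 13 (.S 4 13 (.E 5 12 (.S 7 6 (.E 2 9 (.S 1 5 (.S 2 6 (.F [(1,5,1,5),(2,6,1,2),(3,2,0,1),(4,8,0,1),(4,13,1,2),(5,4,1,4),(6,10,0,4),(7,6,1,1),(10,1,1,4),(13,12,0,1)]) (.P true [6,2,9,5,12])) (.T 9 5 1 (.P true [2,9,1,5,12]))) tr16_79) (.T 6 7 11 (.E 2 7 (.E 2 11 (.E 2 15 (.E 3 6 (.E 6 11 (.F [(1,5,0,3),(1,9,0,1),(2,6,0,2),(3,2,0,1),(4,8,0,1),(5,4,1,2),(6,11,0,3),(7,11,0,1),(10,1,1,4),(11,10,0,5),(13,12,0,1),(14,13,0,2),(15,14,1,1)]) (.P false [0,1,7,6,11])) (.P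 false [0,1,7,6,3])) (.T 7 15 2 (.P true [3,7,2,6,10]))) (.T 7 11 2 (.P true [3,7,2,6,10]))) (.P false [0,1,2,7,6])))) (.S 13 12 tr16_80 (.P false [13,12,5,6,7]))) (.P true [0,13,4,8,12])) (.E 4 15 (.T 4 15 13 (.F [(4,13,1,1),(13,4,0,1)])) (.F [(13,4,0,1),(14,13,0,1)]))) (.P false [0,10,1,2,3])))))
def tr16_82 : Tr := (.T 7 6 1 (.E 0 6 (.P true [2,6,0,4,8]) (.E 0 7 (.P true [3,7,0,4,8]) (.E 1 7 (.P true [3,7,1,5,9]) (.S 6 1 (.E 0 10 (.T 0 10 5 (.E 0 5 (.E 0 9 (.E 0 14 (.F [(0,10,0,1),(5,4,1,1),(10,5,1,1)]) (.T 5 14 0 (.F [(0,5,1,1),(5,0,0,1)]))) (.T 5 9 0 (.F [(0,5,1,1),(5,0,0,1)]))) (.F [(0,5,1,1),(5,0,0,1)]))) (.T 11 10 0 (.E 0 11 (.P true [3,7,11,0,4]) (.S 10 0 (.E 0 14 tr16_81 (.T 5 14 0 (.T 9 14 0 (.E 0 5 (.T 9 0 5 (.T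 0 5 9 (.T 0 9 5 (.F [(0,5,1,1),(5,0,0,1)])))) (.E 0 9 (.T 14 0 9 (.T 0 9 14 (.T 14 9 5 (.T 0 14 5 (.F [(0,5,1,1),(5,0,0,1)]))))) (.F [(14,0,0,1)])))))) (.P false [4,5,10,0,1]))))) (.P false [0,6,1,2,3]))))))
def tr16_83 : Tr := (.E 5 14 (.T 9 5 14 (.E 9 14 (.S 5 14 (.T 9 5 14 (.E 1 6 (.E 1 10 (.S 1 6 (.F [(1,6,1,1),(5,4,1,1),(6,10,0,1),(10,5,1,1)]) (.P true [2,6,1,5,9])) (.T 6 10 1 (.P true [2,6,1,5,9]))) (.T 6 1 0 (.T 7 6 0 tr16_82)))) (.T 14 5 9 (.P true [1,5,14,9,13]))) (.T 14 9 5 (.P true [1,14,5,9,13])))) (.T 14 5 8 (.T 14 5 9 (.T 15 14 5 (.T 15 14 9 (.E 4 14 (.T 5 4 14 (.T 4 14 5 (.T 4 14 9 (.T 5 14 9 (.T 4 5 9 (.T 4 9 5 (.F [(4,5,1,1),(5,4,0,1)]))))))) (.E 4 15 (.T 4 15 5 (.F [(4,5,1,1),(5,4,0,1)])) (.E 5 15 (.T 5 15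 9 (.F [(5,9,1,1),(9,5,0,1)])) (.E 8 14 (.T 4 8 14 (.T 4 14 8 (.T 8 14 5 (.T 4 8 5 (.F [(4,5,1,1),(5,4,0,1)]))))) (.E 8 15 (.T 4 8 15 (.T 4 15 5 (.F [(4,5,1,1),(5,4,0,1)]))) (.F [(1,14,1,3),(2,1,0,1),(3,1,1,1),(4,8,0,1),(5,4,1,2),(14,5,0,3)])))))))))))
def tr16_84 : Tr := (.E 3 13 (.S 3 15 (.E 0 6 (.T 0 6 5 (.E 0 5 (.E 0 9 (.E 0 10 (.F [(0,6,0,1),(6,10,0,1),(9,4,1,1),(10,9,1,1)]) (.T 6 10 0 (.P true [2,6,0,4,8]))) (.T 5 9 0 (.F [(0,5,1,1),(5,0,0,1)]))) (.F [(0,5,1,1),(5,0,0,1)]))) (.T 7 6 0 (.E 0 7 (.P true [3,7,0,4,8]) (.E 0 10 (.T 0 10 5 (.E 0 5 (.E 0 9 (.E 0 14 (.F [(0,10,0,1),(5,4,1,1),(10,5,1,1)]) (.T 14 0 10 (.T 10 14 0 (.P true [1,14,10,0,4])))) (.T 5 9 0 (.F [(0,5,1,1),(5,0,0,1)]))) (.F [(0,5,1,1),(5,0,0,1)]))) (.T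 11 10 0 tr16_78))))) (.P true [7,11,15,3,13])) (.S 3 1 (.S 15 13 (.S 15 14 tr16_83 (.T 1 14 15 (.T 14 15 13 (.E 1 15 (.E 2 15 (.E 3 14 (.E 6 15 (.E 7 14 (.F [(0,4,0,1),(1,5,0,1),(1,9,0,1),(2,6,0,1),(3,1,1,1),(4,8,0,1),(5,4,1,1),(6,10,0,2),(7,11,0,1),(10,5,1,1),(13,12,0,1),(14,13,1,1),(15,13,1,1)]) (.P false [12,13,15,14,7])) (.P false [4,5,6,15,14])) (.P false [12,13,15,14,3])) (.T 1 15 2 (.F [(1,2,1,1),(2,1,0,1)]))) (.T 14 15 1 (.F [(1,14,1,1),(14,1,0,1)])))))) (.P false [12,14,15,13,3])) (.P false [12,13,3,1,2])))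
def tr16_85 : Tr := (.E 4 15 (.T 0 4 15 (.T 0 15 4 (.T 4 15 1 (.T 0 4 1 (.F [(0,1,1,1),(1,0,0,1)]))))) (.E 5 14 (.P true [2,6,10,14,5]) (.E 5 15 (.P true [3,7,11,15,5]) (.E 8 14 (.T 0 8 14 (.T 4 8 14 (.T 0 14 4 (.T 4 14 1 (.T 0 4 1 (.F [(0,1,1,1),(1,0,0,1)])))))) (.E 8 15 (.T 0 8 15 (.T 4 8 15 (.T 0 15 4 (.T 4 15 1 (.T 0 4 1 (.F [(0,1,1,1),(1,0,0,1)])))))) (.E 9 14 (.P true [2,6,10,14,9]) (.E 9 15 (.P true [3,7,11,15,9]) (.S 14 1 (.E 0 5 (.E 0 9 (.E 0 13 (.S 0 5 (.F [(0,5,1,1),(5,4,1,1)]) (.P true [1,5,0,4,8])) (.T 5 13 0 (.P true [1,5,0,4,8]))) (.T 5 9 0 (.P true [1,5,0,4,8]))) (.T 9 5 0 (.E 0 9 (.P true [1,5,9,0,4]) (.F [(1,5,0,4),(1,9,0,1),(2,6,0,2),(3,2,0,1),(4,8,0,1),(5,0,0,1),(5,4,1,2),(6,10,0,4),(7,6,0,1),(10,14,0,5),(11,15,0,1),(13,12,0,1),(14,1,1,4)]))))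 (.P false [0,14,1,2,3])))))))))
def tr16_86 : Tr := (.E 1 14 (.S 1 14 (.E 0 13 tr16_84 (.T 5 13 0 (.T 9 13 0 (.E 0 5 (.P true [1,5,0,4,8]) (.E 0 6 (.T 0 6 5 (.F [(0,5,1,1),(5,0,0,1)])) (.E 0 7 (.T 0 7 5 (.F [(0,5,1,1),(5,0,0,1)])) (.E 0 9 (.P true [1,5,9,0,4]) (.E 0 10 (.T 0 10 5 (.F [(0,5,1,1),(5,0,0,1)])) (.E 0 11 (.T 0 11 5 (.F [(0,5,1,1),(5,0,0,1)])) (.F [(1,14,1,1),(2,6,0,2),(3,2,0,1),(4,8,0,1),(5,4,1,2),(6,10,0,4),(7,6,0,1),(10,5,1,3),(10,9,1,1),(13,0,0,3),(14,13,0,3),(15,14,0,1)])))))))))) (.P true [2,6,10,14,1])) (.T 14 1 0 (.T 14 1 4 (.T 14 1 5 (.T 14 1 9 (.T 15 14 0 (.T 15 14 1 (.T 15 14 4 (.T 15 14 5 (.T 15 14 9 (.E 0 14 (.P true [2,6,10,14,0]) (.E 0 15 (.P true [3,7,11,15,0]) (.E 4 14 (.T 0 4 14 (.T 0 14 4 (.T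 4 14 1 (.T 0 4 1 (.F [(0,1,1,1),(1,0,0,1)]))))) tr16_85)))))))))))))
def tr16_87 : Tr := (.T 6 5 4 (.T 2 6 4 (.T 2 6 5 (.T 7 6 5 (.S 5 9 (.T 1 5 9 (.T 5 9 8 (.T 5 9 13 tr16_76))) (.T 9 5 4 (.T 10 9 4 (.T 10 9 5 (.T 11 9 4 (.T 11 9 5 (.E 4 9 (.P true [0,4,9,5,13]) (.E 4 10 (.P true [2,6,10,4,8]) (.E 4 11 (.P true [3,7,11,4,8]) (.E 5 8 (.P true [1,9,5,8,12]) (.E 5 10 (.P true [1,9,5,10,14]) (.E 5 11 (.P true [1,9,5,11,15]) (.E 6 9 (.P true [2,6,9,5,13]) (.E 7 9 (.P true [3,7,9,5,13]) (.S 1 4 (.S 5 4 (.T 5 4 8 (.T 9 5 4 (.S 10 5 (.T 10 5 9 (.T 11 10 5 tr16_86)) (.T 9 5 10 (.P false [4,5,10,9,6]))))) (.P false [5,4,9,6,7])) (.T 4 1 5 (.P false [5,4,9,6,7])))))))))))))))))))))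
def tr16_88 : Tr := (.E 0 15 (.E 1 15 (.E 2 15 (.E 4 15 (.E 5 15 (.E 6 15 (.E 9 15 (.E 10 15 (.F [(0,4,1,1),(1,5,1,4),(2,1,0,2),(3,7,1,2),(5,10,1,5),(6,4,0,1),(7,11,0,1),(9,8,1,2),(10,9,0,4),(13,12,0,2),(14,13,0,4),(15,14,0,6)]) (.T 15 10 9 (.T 8 15 9 (.T 8 15 10 (.T 9 15 10 (.T 8 9 10 (.T 8 10 9 (.F [(8,9,1,1),(9,8,0,1)])))))))) (.T 8 15 9 (.T 8 9 15 (.T 8 15 9 (.F [(8,9,1,1),(9,8,0,1)]))))) (.T 15 6 5 (.T 4 15 5 (.T 4 15 6 (.T 5 15 6 (.T 4 5 6 (.T 4 6 5 (.F [(4,5,1,1),(5,4,0,1)])))))))) (.T 15 5 6 (.T 4 15 5 (.T 4 15 6 (.T 5 15 6 (.T 4 5 6 (.T 4 6 5 (.F [(4,5,1,1),(5,4,0,1)])))))))) (.T 15 4 8 (.T 8 15 4 (.P true [0,15,8,4,12])))) (.T 15 2 1 (.T 0 15 1 (.F [(0,1,1,1),(1,0,0,1)])))) (.T 0 15 1 (.F [(0,1,1,1),(1,0,0,1)])))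 (.T 4 15 0 (.F [(0,4,1,1),(4,0,0,1)])))
def tr16_89 : Tr := (.E 0 10 (.T 0 10 9 (.E 0 9 (.E 0 14 (.E 5 11 (.E 1 11 (.F [(1,5,1,1),(5,10,1,2),(8,12,0,1),(9,8,1,2),(10,9,0,2)]) (.T 5 11 1 (.F [(1,5,1,1),(5,1,0,1)]))) (.T 11 5 4 (.E 4 11 (.P true [3,7,11,4,8]) (.E 8 13 (.T 4 8 13 (.E 4 13 (.S 8 13 (.F [(0,4,1,1),(1,5,1,2),(2,1,0,1),(3,7,1,2),(5,10,1,4),(6,10,1,1),(7,11,0,2),(8,13,1,4),(9,8,1,6),(10,9,0,6),(11,15,0,1),(13,12,0,2)]) (.P true [0,4,13,8,12])) (.T 13 4 8 (.T 8 13 4 (.P true [0,9,13,8,4]))))) (.F [(0,4,1,1),(1,5,1,2),(2,1,0,1),(3,7,1,1),(5,10,1,3),(6,10,1,1),(7,11,0,2),(8,12,0,1),(9,8,1,4),(10,9,0,5),(11,15,0,1),(14,13,0,1)]))))) (.T 10 14 0 (.P true [1,5,10,0,4]))) (.T 10 9 0 (.P true [1,5,10,0,4])))) (.T 5 10 0 (.T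 11 10 0 (.E 0 6 (.T 10 0 6 (.T 0 6 10 (.T 10 6 5 (.T 0 10 5 (.F [(0,5,1,1),(5,0,0,1)]))))) (.E 0 7 (.T 10 0 7 (.T 0 7 10 (.T 10 7 5 (.T 0 10 5 (.F [(0,5,1,1),(5,0,0,1)]))))) (.E 0 11 (.P true [3,7,11,0,4]) (.F [(5,10,1,1),(10,0,0,1)])))))))
def tr16_90 : Tr := (.E 0 15 (.E 1 15 (.E 2 15 (.E 4 15 (.E 5 15 (.E 6 15 (.E 9 15 (.E 10 15 (.F [(0,4,1,1),(1,0,0,1),(1,5,1,3),(2,1,0,2),(3,2,1,1),(5,10,1,3),(7,1,1,1),(9,8,1,1),(10,9,0,2),(13,12,0,1),(14,13,0,2),(15,14,0,3)]) (.T 15 10 9 (.T 8 15 9 (.T 8 15 10 (.T 9 15 10 (.T 8 9 10 (.T 8 10 9 (.F [(8,9,1,1),(9,8,0,1)])))))))) (.T 8 15 9 (.T 8 9 15 (.T 8 15 9 (.F [(8,9,1,1),(9,8,0,1)]))))) (.T 15 6 5 (.T 4 15 5 (.T 4 15 6 (.T 5 15 6 (.T 4 5 6 (.T 4 6 5 (.F [(4,5,1,1),(5,4,0,1)]))))))))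 (.T 15 5 6 (.T 4 15 5 (.T 4 15 6 (.T 5 15 6 (.T 4 5 6 (.T 4 6 5 (.F [(4,5,1,1),(5,4,0,1)])))))))) (.T 15 4 8 (.T 8 15 4 (.P true [0,15,8,4,12])))) (.T 15 2 1 (.T 0 15 1 (.F [(0,1,1,1),(1,0,0,1)])))) (.T 0 15 1 (.F [(0,1,1,1),(1,0,0,1)]))) (.T 4 15 0 (.F [(0,4,1,1),(4,0,0,1)])))
def tr16_91 : Tr := (.T 7 1 0 (.E 0 7 (.P true [3,7,0,4,8]) (.S 7 1 (.E 8 15 (.T 0 8 15 (.T 4 8 15 (.T 5 8 15 (.T 9 8 15 tr16_90)))) (.E 10 15 (.T 5 10 15 (.E 1 15 (.F [(1,5,1,1),(5,10,1,1),(9,8,1,1),(10,9,0,1)]) (.T 5 15 1 (.F [(1,5,1,1),(5,1,0,1)])))) (.T 15 10 9 (.E 9 15 (.P true [3,7,11,15,9]) (.E 8 14 (.T 0 8 14 (.T 4 8 14 (.T 4 14 13 (.T 8 14 13 (.E 0 14 (.E 4 13 (.E 4 14 (.E 8 13 (.S 8 13 (.F [(0,4,1,1),(1,5,1,4),(2,1,0,2),(3,2,1,1),(5,10,1,5),(6,10,1,1),(7,1,1,1),(8,13,1,2),(8,14,0,1),(9,8,1,4),(10,9,0,5),(11,15,0,1),(13,12,0,1)])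 (.P true [0,4,13,8,12])) (.T 14 13 8 (.P true [0,4,14,8,12]))) (.T 14 4 8 (.T 8 14 4 (.P true [0,14,8,4,12])))) (.T 13 4 8 (.T 8 13 4 (.T 14 13 8 (.P true [0,14,8,4,12]))))) (.T 4 14 0 (.F [(0,4,1,1),(4,0,0,1)]))))))) (.F [(1,5,1,1),(5,10,1,1),(9,8,1,1),(10,9,0,1)])))))) (.P false [0,7,1,2,3]))))
def tr16_92 : Tr := (.E 8 15 (.T 0 8 15 (.T 4 8 15 (.T 5 8 15 (.E 1 15 (.E 5 15 (.E 6 15 (.F [(1,5,1,1),(5,10,1,2),(6,10,1,1),(8,15,0,2),(9,8,1,3),(10,9,0,3),(13,12,1,2),(14,13,0,2),(15,14,0,2)]) (.T 15 6 5 (.T 4 15 5 (.T 4 15 6 (.T 5 15 6 (.T 4 5 6 (.T 4 6 5 (.F [(4,5,1,1),(5,4,0,1)])))))))) (.T 15 5 6 (.T 4 15 5 (.T 4 15 6 (.T 5 15 6 (.T 4 5 6 (.T 4 6 5 (.F [(4,5,1,1),(5,4,0,1)])))))))) (.T 0 15 1 (.F [(0,1,1,1),(1,0,0,1)]))))))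 (.E 8 14 (.T 0 8 14 (.T 4 8 14 (.T 4 14 13 (.T 8 14 13 (.E 0 14 (.E 4 13 (.E 4 14 (.E 8 13 (.S 8 13 (.F [(1,5,1,1),(5,10,1,2),(6,10,1,1),(8,13,1,2),(9,8,1,3),(10,9,0,3),(13,12,1,2)]) (.P true [0,4,13,8,12])) (.T 14 13 8 (.P true [0,4,14,8,12]))) (.T 14 4 8 (.T 8 14 4 (.P true [0,14,8,4,12])))) (.T 13 4 8 (.T 8 13 4 (.T 14 13 8 (.P true [0,14,8,4,12]))))) (.T 4 14 0 (.F [(0,4,1,1),(4,0,0,1)]))))))) (.E 8 13 (.T 0 8 13 (.T 4 8 13 (.E 0 13 (.E 4 13 (.S 8 13 (.F [(1,5,1,1),(5,10,1,2),(6,10,1,1),(8,13,1,2),(9,8,1,3),(10,9,0,3),(13,12,1,2)]) (.P true [0,4,13,8,12])) (.T 13 4 8 (.T 8 13 4 (.P true [0,13,8,4,12])))) (.T 4 13 0 (.F [(0,4,1,1),(4,0,0,1)]))))) (.F [(1,5,1,1),(5,10,1,1),(9,8,1,1),(10,9,0,1)]))))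
def tr16_93 : Tr := (.S 0 4 (.T 0 4 8 (.E 3 5 (.S 3 7 (.E 8 15 (.T 0 8 15 (.T 4 8 15 (.T 5 8 15 (.T 9 8 15 tr16_88)))) tr16_89) (.P true [7,3,5,9,13])) (.S 3 2 (.S 7 5 (.E 1 12 (.E 1 7 (.E 1 11 (.F [(1,7,0,1),(5,10,1,1),(7,5,1,1),(9,8,1,1),(10,9,0,1)]) (.T 7 11 1 (.P true [3,7,1,5,9]))) tr16_91) (.S 13 12 tr16_92 (.P false [13,12,1,2,3]))) (.P false [4,6,7,5,3])) (.P false [4,6,5,3,2])))) (.T 5 4 0 (.T 6 4 0 (.T 7 4 0 (.E 0 5 (.P true [1,5,0,4,8]) (.E 0 6 (.P true [1,6,0,4,8]) (.E 0 7 (.P true [3,7,0,4,8]) (.E 1 4 (.P true [1,4,0,8,12]) (.S 5 0 (.T 6 5 0 (.E 0 11 (.T 4 0 11 (.T 0 11 15 (.T 4 11 15 (.E 1 11 (.E 1 15 (.F [(1,5,1,1),(5,0,1,1)]) (.T 15 1 4 (.T 0 15 4 (.T 4 15 1 (.T 0 4 1 (.F [(0,1,1,1),(1,0,0,1)])))))) (.T 11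 1 4 (.T 0 11 4 (.T 4 11 1 (.T 0 4 1 (.F [(0,1,1,1),(1,0,0,1)]))))))))) (.E 0 15 (.T 4 0 15 (.E 1 15 (.F [(1,6,1,1),(6,0,1,1)]) (.T 15 1 4 (.T 0 15 4 (.T 4 15 1 (.T 0 4 1 (.F [(0,1,1,1),(1,0,0,1)]))))))) (.F [(1,5,1,1),(5,0,1,1)])))) (.T 4 0 5 (.P false [0,5,4,1,2])))))))))))
def tr16_94 : Tr := (.E 1 11 (.E 1 15 (.F [(1,5,1,1),(4,10,1,1),(5,4,0,1),(8,14,1,1),(10,8,0,1),(13,12,0,1),(14,13,0,1)]) (.T 11 15 1 (.P true [3,7,11,1,5]))) (.E 5 11 (.T 5 11 1 (.F [(1,5,1,1),(5,1,0,1)])) (.E 6 11 (.T 5 6 11 (.T 5 11 1 (.F [(1,5,1,1),(5,1,0,1)]))) (.S 11 1 (.E 2 7 (.E 2 15 (.F [(2,7,0,1),(7,11,0,1)]) (.T 7 15 2 (.P true [3,7,2,5,8]))) (.S 7 2 (.E 2 11 (.E 2 15 (.F [(1,5,1,6),(2,11,0,4),(3,7,0,1),(4,10,1,5),(5,4,0,6),(7,2,1,2),(8,14,1,3),(10,8,0,4),(10,9,0,1),(11,1,1,5),(13,12,0,1),(14,13,0,2)])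 (.T 11 15 2 (.P true [3,7,11,2,5]))) (.E 0 5 (.E 0 6 (.S 0 4 (.F [(0,4,1,6),(3,7,0,1),(4,10,1,6),(7,11,0,2),(8,14,1,3),(10,8,0,4),(10,9,0,1),(13,12,0,1),(14,13,0,2)]) (.T 5 4 0 (.P true [1,5,0,4,8]))) (.T 5 6 0 (.P true [1,5,0,4,8]))) (.T 6 5 0 (.E 0 6 (.P true [1,6,0,4,8]) (.S 5 0 (.F [(5,0,1,1)]) (.P false [4,5,0,1,2])))))) (.P false [0,1,7,2,3]))) (.P false [0,11,1,2,3])))))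
def tr16_95 : Tr := (.E 2 12 (.E 5 12 (.E 8 14 (.E 9 14 (.S 8 14 (.E 0 11 (.E 1 11 (.E 1 15 (.F [(1,5,1,1),(4,10,1,1),(5,4,0,1),(8,14,1,1),(10,8,0,1),(13,12,0,1),(14,13,0,1)]) (.T 11 15 1 (.P true [0,11,1,5,8]))) (.T 11 1 0 (.P true [3,7,11,0,4]))) (.T 11 0 4 (.T 7 11 0 (.E 0 7 (.P true [3,7,0,4,8]) (.E 4 11 (.T 4 11 0 (.P true [3,7,11,4,0])) (.E 1 7 (.E 1 11 (.F [(1,5,1,1),(4,10,1,1),(5,4,0,1),(8,14,1,1),(10,8,0,1),(13,12,0,1),(14,13,0,1)]) (.T 7 11 1 (.P true [3,7,1,5,8]))) tr16_94)))))) (.T 14 8 9 (.P true [0,4,8,14,9]))) (.T 14 9 8 (.P true [0,4,10,14,8]))) (.T 14 8 9 (.T 15 14 8 (.E 8 15 (.P true [3,7,11,15,8]) (.F [(0,4,0,1),(1,5,1,2),(2,1,0,1),(3,7,0,1),(4,10,1,6),(5,4,0,3),(6,4,0,1),(7,11,0,2),(8,13,1,2),(10,14,1,7),(11,15,0,1),(13,12,0,1),(14,8,0,5),(14,9,0,1)])))))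 (.S 5 4 (.T 6 5 4 (.F [(1,6,1,1),(4,10,1,1),(6,4,1,1),(8,13,1,1),(10,8,0,1),(13,12,0,1)])) (.P false [12,5,4,6,7]))) (.S 14 12 (.F [(1,5,1,1),(4,10,1,1),(5,4,0,1),(10,14,1,1),(14,12,1,1)]) (.P false [13,14,12,2,3])))
def tr16_96 : Tr := (.E 4 14 (.E 0 14 (.E 0 10 (.E 4 10 (.S 4 10 (.E 10 12 (.S 10 14 tr16_95 (.P true [0,4,14,10,12])) (.S 10 8 (.F [(1,5,1,1),(4,10,1,1),(5,4,0,1),(8,13,1,1),(10,8,1,1),(13,12,0,1)]) (.P false [12,10,8,9,11]))) (.P true [0,10,4,8,12])) (.T 11 10 4 (.E 4 11 (.P true [3,7,11,4,8]) (.S 10 4 (.F [(1,5,1,1),(5,10,1,1),(10,4,1,1)]) (.P false [8,9,10,4,5]))))) (.T 5 10 0 (.T 6 10 0 (.E 0 5 (.T 6 0 5 (.T 0 5 6 (.T 0 6 5 (.F [(0,5,1,1),(5,0,0,1)])))) (.E 0 6 (.T 10 0 6 (.T 0 6 10 (.T 10 6 5 (.T 0 10 5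 (.F [(0,5,1,1),(5,0,0,1)]))))) (.E 0 7 (.T 10 0 7 (.T 0 7 10 (.T 10 7 5 (.T 0 10 5 (.F [(0,5,1,1),(5,0,0,1)]))))) (.F [(1,5,1,1),(5,10,1,1),(10,0,0,1)]))))))) (.T 14 0 4 (.P true [1,5,10,14,4]))) (.T 10 14 4 (.T 11 14 4 (.E 4 10 (.P true [1,5,10,4,8]) (.E 4 11 (.P true [3,7,11,4,8]) (.F [(1,5,1,1),(5,10,1,1),(10,14,0,1),(14,4,0,1)]))))))
def tr16_97 : Tr := (.E 1 14 (.E 2 5 (.E 5 10 (.E 5 14 (.E 6 9 (.E 6 13 (.S 1 4 (.S 1 5 (.T 1 5 6 (.S 5 8 (.S 5 10 (.T 6 5 10 (.T 7 5 10 (.S 9 8 tr16_93 (.T 8 9 13 (.E 0 9 (.E 0 13 (.E 1 8 (.E 5 8 (.E 8 13 (.S 8 13 tr16_96 (.T 13 8 9 (.P true [0,4,8,13,9]))) (.P false [9,8,13,14,15])) (.P false [9,8,5,6,7])) (.P false [9,8,1,2,3])) (.T 9 13 0 (.P true [1,5,9,0,4]))) (.P false [0,9,8,10,11]))))))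 (.T 10 5 6 (.P true [1,5,10,6,9]))) (.T 8 5 6 (.T 9 8 6 (.P true [1,5,9,6,10]))))) (.P true [2,5,1,6,9])) (.T 5 4 1 (.P true [2,5,1,6,9]))) (.P false [12,13,6,5,7])) (.P false [8,9,6,5,7])) (.T 14 5 6 (.T 10 14 6 (.P true [1,5,10,6,14])))) (.P false [4,6,5,10,11])) (.P false [4,6,5,2,3])) (.T 6 14 1 (.P true [2,6,1,5,9])))
def tr16_98 : Tr := (.E 8 12 (.T 9 8 12 (.T 10 8 12 (.T 11 8 12 (.E 9 10 .X (.E 9 11 .X (.E 9 13 (.T 10 9 13 (.T 11 9 13 (.E 10 11 .X (.E 10 14 (.T 11 10 14 (.E 11 15 (.E 12 13 .X (.E 12 14 .X (.E 12 15 .X (.E 13 14 .X (.E 13 15 .X (.E 14 15 .X (.S 6 5 tr16_87 (.T 1 5 6 (.T 5 6 10 (.E 1 6 (.E 1 10 tr16_97 (.T 6 10 1 (.P true [2,6,1,5,9]))) (.P false [0,1,6,5,7]))))))))))) .X)) .X)))) .X)))))) .X)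
def tr16_99 : Tr := (.E 4 8 (.T 5 4 8 (.T 6 4 8 (.T 7 4 8 (.E 4 12 (.T 5 4 12 (.T 7 4 12 (.E 5 6 .X (.E 5 7 .X (.E 5 9 (.T 6 5 9 (.T 7 5 9 (.E 5 13 (.T 6 5 13 (.T 7 5 13 (.E 6 7 .X (.E 6 10 (.T 7 6 10 (.E 6 14 (.T 7 6 14 (.E 7 11 (.E 7 15 (.E 8 9 .X (.E 8 10 .X (.E 8 11 .X tr16_98))) .X) .X)) .X)) .X)))) .X))) .X))))) .X)))) .X)
def tr16_100 : Tr := (.T 2 0 12 (.T 3 0 12 (.E 1 2 .X (.E 1 3 .X (.E 1 5 (.T 2 1 5 (.T 3 1 5 (.E 1 9 (.T 2 1 9 (.E 1 13 (.T 2 1 13 (.T 3 1 13 (.E 2 3 .X (.E 2 6 (.T 3 2 6 (.E 2 10 (.T 3 2 10 (.E 2 14 (.T 3 2 14 (.E 3 7 (.E 3 11 (.E 3 15 (.E 4 5 .X (.E 4 6 .X (.E 4 7 .X tr16_99))) .X) .X) .X)) .X)) .X)) .X)))) .X)) .X))) .X)))))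
def tr16 : Tr := (.E 0 1 .X (.E 0 2 .X (.E 0 3 .X (.E 0 4 (.T 1 0 4 (.T 2 0 4 (.T 3 0 4 (.E 0 8 (.T 1 0 8 (.T 2 0 8 (.E 0 12 (.T 1 0 12 tr16_100) .X))) .X)))) .X))))

theorem tr9_ok : chk (3 * 3) 3 (fun i => (List.range (3 * 3)).getD i 0 / 3)
    (fun i => (List.range (3 * 3)).getD i 0 % 3) tr9 0 0 0 0 = true := by decide +kernel

def tr8 (o : ℕ) : Tr := [tr8o0, tr8o1, tr8o2, tr8o3, tr8o4, tr8o5, tr8o6, tr8o7, tr8o8].getD o .X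

theorem tr8_ok : ∀ o < 3 * 3, chk 8 3 (fun i => ((List.range (3 * 3)).erase o).getD i 0 / 3)
    (fun i => ((List.range (3 * 3)).erase o).getD i 0 % 3) (tr8 o) 0 0 0 0 = true := by
  decide +kernel

theorem tr16_ok : chk (4 * 4) 4 (fun i => (List.range (4 * 4)).getD i 0 / 4)
    (fun i => (List.range (4 * 4)).getD i 0 % 4) tr16 0 0 0 0 = true := by decide +kernel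

end Pool.Agent.Lib.MP_71763b_co
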