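import Pool.Agent.Lib.MP_71763b_co.Defs
import Pool.Agent.Lib.MP_71763b_co.All
import Pool.Agent.Lib.MP_71763b_co.Trees

namespace Pool.Agent.Lib.MP_71763b_co

theorem rel_iff {n k : ℕ} (c : Sym2 (Fin n) → Fin k) (c' : Fin n → Fin n → ℕ)
    (h : ∀ u v, u ≠ v → (c s(u, v)).val = c' u v) (j : Fin k) (u v : Fin n) :
    ((colourGraph c j).Adj u v ∧
      ((colourGraph c j).neighborSet u).ncard ≤ ((colourGraph c j).neighborSet v).ncard) ↔
      R c' j u v := by
  classical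
  have adj : ∀ u v, (colourGraph c j).Adj u v ↔ u ≠ v ∧ c' u v = j := by
    intro u v
    unfold colourGraph
    rw [SimpleGraph.fromEdgeSet_adj]
    constructor
    · rintro ⟨h1, h2⟩
      exact ⟨h2, by rw [← h u v h2]; exact congrArg Fin.val h1⟩
    · rintro ⟨h1, h2⟩
      exact ⟨Fin.ext (by rw [h u v h1, h2]), h1⟩
  have dg : ∀ u, ((colourGraph c j).neighborSet u).ncard = deg c' j u := by
    intro u
    unfold deg
    simp only [ind_eq]
    rw [← Finset.card_filter, ← Set.ncard_coe_finset]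
    congr 1
    ext v
    simp [adj, ne_comm, eq_comm]
  rw [adj, dg, dg]
  unfold R
  tauto

theorem not_mem_of_fe {k r n : ℕ} (hk : 1 ≤ k) (h : Fe (rho k r 0) n) :
    n ∉ ramseySet k (r + 1) := by
  obtain ⟨d, c', hG, _⟩ := h
  rintro ⟨_, hn⟩
  let c : Sym2 (Fin n) → Fin k := Sym2.lift ⟨fun u v =>
    if h : c' u v < k then ⟨c' u v, h⟩ else ⟨0, hk⟩, fun u v => by simp only [hG.1 u v]⟩
  have hc : ∀ u v, u ≠ v → (c s(u, v)).val = c' u v := by
    intro u v huv
    have : c' u v < k := by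
      by_contra hlt
      exact no_edge hG.1 (hG.2 (c' u v)) (by simp [rho, hlt]) u v huv rfl
    simp [c, this]
  obtain ⟨j, l, h1, h2, h3⟩ := hn c
  have := hG.2 j l h2 (h3.imp fun a b hab => (rel_iff c c' hc j a b).1 hab)
  simp [rho] at this
  omega

theorem mem_of_infeas {k r n : ℕ} (hn : 0 < n)
    (h : ∀ c : Fin n → Fin n → ℕ, (∀ u v, c u v = c v u) → (∀ u v, c u v < k) →
      (∀ j < k, NoPath c j r) → False) : n ∈ ramseySet k (r + 1) := by
  refine ⟨hn, fun c => ?_⟩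
  by_contra hcon
  refine h (fun u v => (c s(u, v)).val) (fun u v => by rw [Sym2.eq_swap]) (fun u v => Fin.is_lt _) ?_
  intro j hj l hN hC
  by_contra hl
  refine hcon ⟨⟨j, hj⟩, l.take (r + 1), by simp; omega, hN.sublist (List.take_sublist _ _), ?_⟩
  exact (hC.take _).imp fun a b hab =>
    (rel_iff c (fun u v => (c s(u, v)).val) (fun _ _ _ => rfl) ⟨j, hj⟩ a b).2 hab

theorem mem_of_lt {k r n : ℕ} (h : r ^ k < n) : n ∈ ramseySet k (r + 1) :=
  mem_of_infeas (by omega) fun _ h1 h2 h3 => absurd (upper h1 h2 h3) (by omega)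

theorem exact_value {k r : ℕ} (h : (3 ≤ k ∧ 3 ≤ r) ∨ (k = 2 ∧ 6 ≤ r)) :
    ramseySet k (r + 1) = {n | r ^ k < n} := by
  ext n
  refine ⟨fun hn => ?_, mem_of_lt⟩
  by_contra hlt
  exact not_mem_of_fe (by omega) (fe_main h (by simpa using hlt)) hn

theorem mem8 : 8 ∈ ramseySet 2 4 := mem_of_infeas (by omega) fun _ h1 h2 h3 =>
  infeas_one (by omega) (by omega) tr8 tr8_ok h1 h2 (h3 0 (by omega)) (h3 1 (by omega))

theorem mem9 : 9 ∈ ramseySet 2 4 := mem_of_infeas (n := 3 * 3) (by omega) fun _ h1 h2 h3 =>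
  infeas_full (by omega) tr9 tr9_ok h1 h2 (h3 0 (by omega)) (h3 1 (by omega))

theorem mem16 : 16 ∈ ramseySet 2 5 := mem_of_infeas (n := 4 * 4) (by omega) fun _ h1 h2 h3 =>
  infeas_full (by omega) tr16 tr16_ok h1 h2 (h3 0 (by omega)) (h3 1 (by omega))

theorem no_gaps {k r n : ℕ} (hk : 2 ≤ k) (hr : 3 ≤ r) (hn : n ∈ ramseySet k (r + 1)) :
    n + 1 ∈ ramseySet k (r + 1) := by
  by_cases h : (3 ≤ k ∧ 3 ≤ r) ∨ (k = 2 ∧ 6 ≤ r)
  · rw [exact_value h] at hn ⊢
    exact Nat.lt_succ_of_lt hn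
  obtain rfl : k = 2 := by omega
  have h6 : r < 6 := by omega
  interval_cases r
  · have : ¬ n ≤ 6 := fun g => not_mem_of_fe (by omega) (fe2_3 n g) hn
    rcases Nat.lt_or_ge n 9 with g | g
    · interval_cases n
      exacts [mem8, mem9]
    · exact mem_of_lt (by omega)
  · have : ¬ n ≤ 14 := fun g => not_mem_of_fe (by omega) (fe2_4 n g) hn
    rcases Nat.lt_or_ge n 16 with g | g
    · interval_cases n
      exact mem16
    · exact mem_of_lt (by omega)
  · have : ¬ n ≤ 24 := fun g => not_mem_of_fe (by omega) (fe2_5 n g) hn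
    exact mem_of_lt (by omega)

end Pool.Agent.Lib.MP_71763b_co
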