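import Pool.Agent.Lib.MP_71763b_co.Grid
import Pool.Agent.Lib.MP_71763b_co.Cb

namespace Pool.Agent.Lib.MP_71763b_co

open Finset

section
variable {V : Type} [Fintype V]

theorem fs_dc (A B : V → Prop) (E : V → V → Prop) :
    ∑ h ∈ fs A, (fs fun l => B l ∧ E h l).card = ∑ l ∈ fs B, (fs fun h => A h ∧ E h l).card := by
  classical
  have := sum_card_bipartiteAbove_eq_sum_card_bipartiteBelow (s := fs A) (t := fs B) E
  simpa only [bipartiteAbove, bipartiteBelow, filter_fs] using this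

theorem fs_mem (s : Finset V) : fs (· ∈ s) = s := by ext; simp

theorem fs_om (Om : Finset V) (P : V → Prop) : (fs fun x => x ∈ Om ∧ P x).card ≤ Om.card :=
  (fs_le fun _ h => h.1).trans (congrArg card (fs_mem Om)).le

theorem fs_pres (Om : Finset V) (P : V → Prop) :
    (fs fun x => x ∉ Om ∧ P x).card + (fs fun x => x ∈ Om ∧ P x).card = (fs P).card := by
  rw [fs_split P (· ∈ Om), add_comm]
  simp only [and_comm]

theorem pairs_ge (Om : Finset V) (A B : V → Prop) (E : V → V → Prop) (J : ℕ)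
    (h1 : ∀ h, A h → J ≤ (fs fun l => B l ∧ E h l).card)
    (h2 : ∀ l, (fs fun h => A h ∧ E h l).card ≤ J) :
    J * (fs A).card ≤ ∑ h ∈ fs fun h => h ∉ Om ∧ A h,
      (fs fun l => (l ∉ Om ∧ B l) ∧ E h l).card + 2 * J * Om.card := by
  have a1 := fs_pres Om A
  have a2 := fs_om Om A
  have a3 : (fs fun h => h ∉ Om ∧ A h).card * J ≤ ∑ h ∈ fs fun h => h ∉ Om ∧ A h,
      ((fs fun l => (l ∉ Om ∧ B l) ∧ E h l).card + (fs fun l => l ∈ Om ∧ E h l).card) := by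
    refine card_nsmul_le_sum _ _ J fun h hh => (h1 h (mem_fs.1 hh).2).trans ?_
    rw [← fs_pres Om]
    exact add_le_add (fs_le fun _ q => by tauto) (fs_le fun _ q => by tauto)
  rw [sum_add_distrib, fs_dc _ (· ∈ Om), fs_mem] at a3
  have a4 : ∑ l ∈ Om, (fs fun h => (h ∉ Om ∧ A h) ∧ E h l).card ≤ Om.card * J :=
    sum_le_card_nsmul _ _ J fun l _ => le_trans (fs_le fun _ q => ⟨q.1.2, q.2⟩) (h2 l)
  nlinarith

theorem loss (Om : Finset V) (A : V → Prop) (E : V → V → Prop) (J : ℕ)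
    (h1 : ∀ h, (fs (E h)).card ≤ J) (h2 : ∀ l, (fs fun h => E h l).card ≤ J) :
    ∑ h ∈ fs fun h => h ∉ Om ∧ A h, (fs fun l => l ∉ Om ∧ E h l).card ≤
      ∑ h ∈ fs A, (fs (E h)).card ∧ ∑ h ∈ fs A, (fs (E h)).card ≤
      ∑ h ∈ fs fun h => h ∉ Om ∧ A h, (fs fun l => l ∉ Om ∧ E h l).card + 2 * J * Om.card := by
  classical
  have a1 : ∑ h ∈ fs A, (fs (E h)).card = ∑ h ∈ fs fun h => h ∉ Om ∧ A h, (fs (E h)).card +
      ∑ h ∈ fs fun h => h ∈ Om ∧ A h, (fs (E h)).card := by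
    rw [← sum_filter_add_sum_filter_not (fs A) (· ∉ Om), filter_fs, filter_fs]
    simp only [and_comm, not_not]
  have a2 : ∑ h ∈ fs fun h => h ∈ Om ∧ A h, (fs (E h)).card ≤ Om.card * J :=
    (sum_le_card_nsmul _ _ J fun h _ => h1 h).trans (Nat.mul_le_mul_right _ (fs_om _ _))
  have a3 : ∑ h ∈ fs fun h => h ∉ Om ∧ A h, (fs (E h)).card = ∑ h ∈ fs fun h => h ∉ Om ∧ A h,
      ((fs fun l => l ∉ Om ∧ E h l).card + (fs fun l => l ∈ Om ∧ E h l).card) :=
    sum_congr rfl fun h _ => (fs_pres Om _).symm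
  rw [sum_add_distrib, fs_dc _ (· ∈ Om), fs_mem] at a3
  have a4 : ∑ l ∈ Om, (fs fun h => (h ∉ Om ∧ A h) ∧ E h l).card ≤ Om.card * J :=
    sum_le_card_nsmul _ _ J fun l _ => le_trans (fs_le fun _ q => q.2) (h2 l)
  exact ⟨by omega, by nlinarith⟩

theorem Frac.unif (A B : V → Prop) (E : V → V → Prop) (f f' : V → ℝ)
    (hf : ∀ h l, A h → B l → E h l → f h = f' l) (h0 : ∀ h, 0 ≤ f h ∧ f h ≤ 1) :
    ∃ w, Frac (fs A) (fs B) (fun h l => E h l ∧ f h ≠ 0)
      (fun h => f h * (fs fun l => B l ∧ E h l).card)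
      (fun l => f' l * (fs fun h => A h ∧ E h l).card) w ∧
      ∀ h l, A h → B l → E h l → w h l = f h := by
  classical
  refine ⟨fun h l => if A h ∧ B l ∧ E h l then f h else 0, ⟨fun h l => ?_, fun h l => ?_,
    fun h l e => ?_, fun h a => ?_, fun l a => ?_⟩, fun h l a b c => if_pos ⟨a, b, c⟩⟩
  · split_ifs <;> simp [h0]
  · split_ifs <;> simp [h0]
  · split_ifs at e with q
    · simpa [q] using e
    · exact absurd rfl e
  · rw [← sum_filter, sum_const, filter_univ_fs, nsmul_eq_mul, mul_comm]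
    simp [mem_fs.1 a]
  · rw [← sum_filter, filter_univ_fs, sum_congr rfl fun h hh => hf h l (mem_fs.1 hh).1
      (mem_fs.1 hh).2.1 (mem_fs.1 hh).2.2, sum_const, nsmul_eq_mul, mul_comm]
    simp [mem_fs.1 a]

open Classical in
theorem Frac.glue {K : Type} [Fintype K] (A B : V → Prop) (cA cB : V → K) (S : V → V → Prop)
    (p p' : V → ℝ) (h : ∀ c, ∃ w, Frac (fs fun x => A x ∧ cA x = c) (fs fun x => B x ∧ cB x = c)
      S p p' w) : ∃ w, Frac (fs A) (fs B) S p p' w := by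
  choose w hw using h
  refine ⟨fun h l => w (cA h) h l, fun h l => (hw _).nn h l, fun h l => (hw _).le h l,
    fun h l e => ?_, fun h a => (hw _).row h (by simpa using a), fun l a => ?_⟩
  · have := (hw _).sp h l e
    simp only [mem_fs] at this ⊢
    tauto
  · rw [← (hw (cB l)).col l (by simpa using a)]
    refine sum_congr rfl fun h _ => ?_
    by_cases e : cA h = cB l
    · rw [e]
    · have e1 : w (cA h) h l = 0 := by
        by_contra q
        exact e (mem_fs.1 ((hw _).sp h l q).2.1).2.symm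
      have e2 : w (cB l) h l = 0 := by
        by_contra q
        exact e (mem_fs.1 ((hw _).sp h l q).1).2
      rw [e1, e2]

end

variable {g : ℕ}

theorem shift_fs (x : Cu g) (P Q : Cu g → Prop) (h : ∀ u, P u ↔ Q (x + u)) :
    (fs P).card = (fs Q).card := by rw [fs_congr h, card_shift]

theorem f2_solve {a b c : F2} : a + b = c ↔ b = a + c := by revert a b c; decide

def rk (b : ℕ) (τ : ℕ → F2) (x : Cu g) : F2 × (Fin b → F2) := (co (g + 2) x, fun l => yy l x + τ l)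
def exF {b : ℕ} (v : Fin b → F2) (l : ℕ) : F2 := if h : l < b then v ⟨l, h⟩ else 0

theorem rk_iff {b : ℕ} {τ : ℕ → F2} {x : Cu g} {ρ : F2 × (Fin b → F2)} :
    rk b τ x = ρ ↔ co (g + 2) x = ρ.1 ∧ ∀ l ∈ range b, yy l x = τ l + exF ρ.2 l := by
  simp only [rk, Prod.ext_iff, funext_iff, mem_range, exF]
  refine and_congr_right fun _ => ⟨fun q l hl => ?_, fun q l => ?_⟩
  · rw [dif_pos hl, ← q ⟨l, hl⟩]; linear_combination -f2_self (τ l)
  · rw [q l l.2, dif_pos l.2]; linear_combination f2_self (τ l)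

theorem rk_row {i b : ℕ} (hi : i < g) (hb : b + 4 ≤ g) (α β γ : F2) (τ : ℕ → F2)
    (ρ : F2 × (Fin b → F2)) :
    (fs fun x : Cu g => Cl i α β γ x ∧ rk b τ x = ρ).card = 2 ^ (g - 1 - b) := by
  rw [← card_bx hi α β γ ρ.1 (range b) (fun l hl => by have := mem_range.1 hl; omega)
    (fun l => τ l + exF ρ.2 l) (g - 1 - b) (by simp; omega)]
  exact congrArg _ (fs_congr fun x => by simp only [rk_iff, Cl, Bx, and_assoc])

theorem rk_nb {i b : ℕ} (hi : i < g) (hb : b + 4 ≤ g) (τ2 : ℕ → F2) (x : Cu g) (τ : ℕ → F2) :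
    (fs fun u => (∀ l ∈ range b, yy l u = τ l) ∧
      Bx i 1 0 1 1 (Ico (b + 3) (g - 1)) τ2 (x + u)).card = 8 := by
  have h1 := card_bx hi 1 0 1 1 (range b ∪ Ico (b + 3) (g - 1)) (fun l hl => by
    simp only [mem_union, mem_range, mem_Ico] at hl
    omega) (fun l => if l < b then yy l x + τ l else τ2 l) 3 (by
    rw [card_union_of_disjoint (disjoint_left.2 fun a h1 h2 => by
      simp only [mem_range, mem_Ico] at h1 h2
      omega)]
    simp; omega)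
  refine (shift_fs x _ _ fun u => ?_).trans h1
  simp only [Bx, mem_union, or_imp, forall_and]
  have e1 : (∀ l ∈ range b, yy l (x + u) = if l < b then yy l x + τ l else τ2 l) ↔
      ∀ l ∈ range b, yy l u = τ l := forall₂_congr fun l hl => by
    rw [if_pos (mem_range.1 hl), yy_add, add_right_inj]
  have e2 : (∀ l ∈ Ico (b + 3) (g - 1), yy l (x + u) = if l < b then yy l x + τ l else τ2 l) ↔
      ∀ l ∈ Ico (b + 3) (g - 1), yy l (x + u) = τ2 l := forall₂_congr fun l hl => by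
    rw [if_neg (by have := (mem_Ico.1 hl).1; omega)]
  rw [e1, e2]; tauto

theorem grid4 {i b : ℕ} (hi : i < g) (hb : b + 4 ≤ g) (Om : Finset (Cu g)) (τ1 τ2 : ℕ → F2)
    (p p' : Cu g → ℝ) (a M N t Ip Im : ℝ) (ht : (Om.card : ℝ) = t) (hM : M = 2 ^ (g - 1 - b))
    (hN : N = 2 ^ b)
    (hH : ∀ x ∉ Om, co i x = 1 → a - 6 ≤ p x ∧ p x ≤ a + 4)
    (hL : ∀ x ∉ Om, co i x = 0 → a - 12 ≤ p' x ∧ p' x ≤ a + t)
    (hs : ∀ β γ, ∑ x ∈ fs fun x => x ∉ Om ∧ Cl i 1 β γ x, p x =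
      ∑ x ∈ fs fun x => x ∉ Om ∧ Cl i 0 β (γ + 1) x, p' x)
    (n0 : 2 * t < M) (n1 : 12 ≤ a) (n5 : Ip = 16 * M + 2 * t * a) (n6 : Im = M * (t + 6) + 2 * t * a)
    (n7 : 2 * Ip + Im ≤ N * 8 * (M - 2 * t)) (n9 : 2 * Ip + Im ≤ (a - 12) * (M - 2 * t))
    (n10 : (a + 4) * (a + t) ≤ (M - 2 * t) * (a - 6) - 2 * Ip) :
    ∃ w, Frac (fs fun x => x ∉ Om ∧ co i x = 1) (fs fun x => x ∉ Om ∧ co i x = 0)
      (fun h l => Bx i 1 0 1 0 (range b) τ1 (h + l) ∨ Bx i 1 0 1 1 (Ico (b + 3) (g - 1)) τ2 (h + l))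
      p p' w := by
  have t0 : 0 ≤ t := ht ▸ Nat.cast_nonneg _
  refine Frac.glue _ _ (fun x => (co (i + 1) x, co (g + 1) x))
    (fun x => (co (i + 1) x, co (g + 1) x + 1)) _ _ _ fun ⟨β, γ⟩ => ?_
  have eA : (fs fun x : Cu g => (x ∉ Om ∧ co i x = 1) ∧ (co (i + 1) x, co (g + 1) x) = (β, γ)) =
    fs fun x => x ∉ Om ∧ Cl i 1 β γ x := fs_congr fun x => by simp [Cl, and_assoc]
  have eB : (fs fun x : Cu g => (x ∉ Om ∧ co i x = 0) ∧ (co (i + 1) x, co (g + 1) x + 1) = (β, γ)) =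
      fs fun x => x ∉ Om ∧ Cl i 0 β (γ + 1) x := fs_congr fun x => by
    have : co (g + 1) x + 1 = γ ↔ co (g + 1) x = γ + 1 :=
      (by decide : ∀ c d : F2, c + 1 = d ↔ c = d + 1) _ _
    simp [Cl, and_assoc, this]
  rw [eA, eB]
  have row2 : ∀ α β γ τ ρ, M - 2 * t ≤ (fs fun x => (x ∉ Om ∧ Cl i α β γ x) ∧ rk b τ x = ρ).card ∧
      ((fs fun x => (x ∉ Om ∧ Cl i α β γ x) ∧ rk b τ x = ρ).card : ℝ) ≤ M := by
    intro α β γ τ ρ
    have a1 := fs_pres Om fun x => Cl i α β γ x ∧ rk b τ x = ρ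
    have a2 := fs_om Om fun x => Cl i α β γ x ∧ rk b τ x = ρ
    rw [rk_row hi hb] at a1
    simp only [and_assoc]
    have b1 := congrArg (Nat.cast : ℕ → ℝ) a1
    have b2 : (_ : ℝ) ≤ Om.card := Nat.cast_le.2 a2
    have b3 : (0 : ℝ) ≤ (fs fun x => x ∈ Om ∧ Cl i α β γ x ∧ rk b τ x = ρ).card := Nat.cast_nonneg _
    push_cast at b1
    constructor <;> linarith
  obtain ⟨T, hT⟩ : ∃ T : Cu g → Prop, T = Bx i 1 0 1 1 (Ico (b + 3) (g - 1)) τ2 := ⟨_, rfl⟩
  have nb : ∀ (x : Cu g) τ (ρ : F2 × (Fin b → F2)) (P : Cu g → Prop),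
      (∀ u, P u → rk b τ u = ρ ∧ T (x + u)) → (fs P).card ≤ 8 := by
    intro x τ ρ P h
    refine (fs_le fun u q => ?_).trans (rk_nb hi hb τ2 x fun l => τ l + exF ρ.2 l).le
    exact ⟨(rk_iff.1 (h u q).1).2, hT ▸ (h u q).2⟩
  have he : ∀ ρ ρ' : F2 × (Fin b → F2), ρ.1 ≠ ρ'.1 → 8 * (M - 2 * t) ≤
      ∑ h ∈ fs fun x => (x ∉ Om ∧ Cl i 1 β γ x) ∧ rk b (fun _ => 0) x = ρ,
        ((fs fun l => (l ∉ Om ∧ Cl i 0 β (γ + 1) l) ∧ rk b τ1 l = ρ' ∧ T (h + l)).card : ℝ) := by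
    intro ρ ρ' q
    have := pairs_ge Om (fun x => Cl i 1 β γ x ∧ rk b (fun _ => 0) x = ρ)
      (fun x => Cl i 0 β (γ + 1) x ∧ rk b τ1 x = ρ') (fun h l => T (h + l)) 8 (fun h hh => by
        refine (rk_nb hi hb τ2 h fun l => τ1 l + exF ρ'.2 l).ge.trans
          (fs_le fun u hu => ⟨⟨?_, rk_iff.2 ⟨?_, hu.1⟩⟩, hT ▸ hu.2⟩)
        · obtain ⟨b1, b2, b3, -⟩ := hu.2
          obtain ⟨⟨c1, c2, c3⟩, -⟩ := hh
          rw [co_add, f2_solve] at b1 b2 b3
          exact ⟨by rw [b1, c1]; rfl, by rw [b2, c2, add_zero], by rw [b3, c3]⟩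
        · have b4 := hu.2.2.2.2.1
          rw [co_add, f2_solve, (rk_iff.1 hh.2).1] at b4
          rw [b4]
          exact (by decide : ∀ c d : F2, c ≠ d → c + 1 = d) _ _ q)
      (fun l => nb l (fun _ => 0) ρ _ fun u q => ⟨q.1.2, add_comm u l ▸ q.2⟩)
    rw [rk_row hi hb] at this
    simp only [and_assoc] at this ⊢
    have b1 : (_ : ℝ) ≤ _ := Nat.cast_le.2 this
    push_cast at b1
    linarith
  obtain ⟨w, hw⟩ := grid (fs fun x => x ∉ Om ∧ Cl i 1 β γ x) (fs fun x => x ∉ Om ∧ Cl i 0 β (γ + 1) x)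
    (rk b fun _ => 0) (rk b τ1) (fun ρ => decide (ρ.1 = 1))
    (fun h l => T (h + l)) p p' N 8 M (M - 2 * t) (a - 6) (a + 4)
    (a - 12) (a + t) Ip Im (by rw [hN]; positivity) (by norm_num) (by linarith) (fun s => by
      have : (univ.filter fun ρ : F2 × (Fin b → F2) => decide (ρ.1 = 1) = s) =
          ({if s then 1 else 0} : Finset F2) ×ˢ univ := by
        ext ρ
        rw [mem_product]
        cases s <;> simp [← f2_ne1]
      rw [this, hN]; simp)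
    (fun h _ l _ q => by
      have := (hT ▸ q : Bx _ _ _ _ _ _ _ _).2.2.2.1
      rw [co_add] at this
      exact (by decide : ∀ c d : F2, c + d = 1 → decide (c = 1) ≠ decide (d = 1)) _ _ this)
    (fun h _ ρ => by
      rw [filter_fs]
      exact (Nat.cast_le.2 (nb h τ1 ρ _ fun u q => q.2)).trans (by norm_num))
    (fun l _ ρ => by
      rw [filter_fs]
      exact (Nat.cast_le.2 (nb l (fun _ => 0) ρ _ fun u q =>
        ⟨q.2.1, add_comm u l ▸ q.2.2⟩)).trans (by norm_num))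
    (fun ρ ρ' q => by
      simp only [filter_fs]
      exact he ρ ρ' fun e => q (by simp only [e]))
    (fun ρ => by rw [filter_fs]; exact row2 _ _ _ _ _)
    (fun ρ => by rw [filter_fs]; exact row2 _ _ _ _ _)
    (fun x hx => hH x (mem_fs.1 hx).1 (mem_fs.1 hx).2.1)
    (fun x hx => hL x (mem_fs.1 hx).1 (mem_fs.1 hx).2.1) (hs β γ) (by rw [n5]; nlinarith)
    (by linarith) (by linarith) (by linarith) (by linarith) (by rw [n5]; nlinarith)
    (by rw [n6]; nlinarith) n7 (by nlinarith [mul_nonneg t0 (show 0 ≤ a by linarith)]) n9 n10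
  refine ⟨w, hw.mono (fun h hh l hl q => q.imp (fun q => ?_) fun q => hT ▸ q) (fun _ _ => rfl)
    fun _ _ => rfl⟩
  obtain ⟨-, c1, c2, c3⟩ := mem_fs.1 hh
  obtain ⟨-, d1, d2, d3⟩ := mem_fs.1 hl
  simp only [rk, Prod.ext_iff, funext_iff] at q
  refine ⟨by rw [co_add, c1, d1]; rfl, by rw [co_add, c2, d2, f2_self],
    by rw [co_add, c3, d3, ← add_assoc, f2_self, zero_add], by rw [co_add, q.1, f2_self],
    fun n hn => ?_⟩
  have := q.2 ⟨n, mem_range.1 hn⟩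
  rw [yy_add]
  linear_combination this + f2_self (yy n l)

end Pool.Agent.Lib.MP_71763b_co
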