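import Pool.Agent.Lib.MP_71763b_co.GenA
import Pool.Agent.Lib.MP_71763b_co.Asm

namespace Pool.Agent.Lib.MP_71763b_co

open Finset

theorem numbers {q t μ ν n0 Λ ω mx a h00 h01 h10 h11 l00 l01 l10 l11 e0 e1 s0 s1 sp : ℝ}
    (t5 : 5 ≤ t) (μ0 : 0 ≤ μ) (μ2 : μ ≤ 2) (ν0 : 0 ≤ ν) (ν2 : ν ≤ 2) (n00 : 0 ≤ n0)
    (Λ1 : μ * n0 - μ * t ≤ Λ) (Λ2 : Λ ≤ μ * n0)
    (p1 : |l00 + l10 - h01 - h11| ≤ 16 * t) (p2 : |h00 + h10 - l01 - l11| ≤ 16 * t)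
    (p3 : h01 ≤ l00 + ω + 8 * t) (p4 : l00 ≤ h01 + 4 + 8 * t)
    (p5 : h00 ≤ l01 + ω + 8 * t) (p6 : l01 ≤ h00 + 4 + 8 * t)
    (e0' : 2 * q ≤ e0 + 4 * t) (e1' : 2 * q ≤ e1 + 4 * t) (s00 : 0 ≤ s0) (s10 : 0 ≤ s1)
    (s2 : s0 + s1 ≤ t) (sp0 : 0 ≤ sp) (sp2 : sp ≤ 2)
    (k1 : 2 * q + 19 * t + 2 ≤ n0 * (t - 2 * μ)) (k2 : n0 * t + 16 * t + 10 ≤ 6 * q)
    (k3 : ν * n0 + ω + 8 * t ≤ q) (k4 : 2 * q + μ * n0 + 17 * t ≤ mx * (t - μ))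
    (k5 : ν * (mx + 1) + ω + 8 * t ≤ q) (k6 : 13 * t + 4 ≤ q) (k7 : a * t + 18 * t + 2 ≤ 2 * q) :
    ∃ (m : ℕ) (ρ x0 x1 sh : ℝ), a ≤ m ∧ m * (t - μ) ≤ 2 * q + μ * n0 + 17 * t ∧ 0 ≤ ρ ∧ ρ ≤ 1 ∧
      0 ≤ x0 ∧ x0 ≤ 1 ∧ 0 ≤ x1 ∧ x1 ≤ 1 ∧ 0 ≤ sh ∧ sh ≤ 4 ∧
      (m + 1) * (q - ν) + ρ * t - h01 - x1 * e1 = m * q - l00 ∧
      m * (q - (t - μ - ν)) + Λ - h11 = (m - 1) * q - l10 - x1 * e1 ∧
      (m + 1) * q - h00 - x0 * e0 = m * q + ν * n0 - s0 - l01 ∧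
      m * q + sp - h10 = (n0 + m - 1 - sh) * (q - μ) - s1 - (n0 * (q - (t - μ - ν)) - Λ) - l11 -
        x0 * e0 := by
  rw [abs_le] at p1 p2
  obtain ⟨A, hA⟩ : ∃ A, A = 2 * q - ν + Λ + (l00 + l10 - h01 - h11) := ⟨_, rfl⟩
  have tμ : 0 < t - μ := by linarith
  have μt : μ * t ≤ 2 * t := by nlinarith
  have μn : 0 ≤ μ * n0 := mul_nonneg μ0 n00
  have A0 : 0 ≤ A := by linarith
  have m1 := Nat.le_ceil (A / (t - μ))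
  have m2 := Nat.ceil_lt_add_one (div_nonneg A0 tμ.le)
  generalize ⌈A / (t - μ)⌉₊ = m at m1 m2
  rw [div_le_iff₀ tμ] at m1
  rw [← sub_lt_iff_lt_add, lt_div_iff₀ tμ] at m2
  have m0 : (0 : ℝ) ≤ m := Nat.cast_nonneg _
  have m3 : m * (t - μ) ≤ 2 * q + μ * n0 + 17 * t := by linarith
  have m4 : m ≤ mx := le_of_mul_le_mul_right (by linarith) tμ
  have m5 : ν * (m + 1) ≤ ν * (mx + 1) := mul_le_mul_of_nonneg_left (by linarith) ν0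
  have m6 : 0 ≤ ν * (m + 1) := mul_nonneg ν0 (by linarith)
  have m7 : 0 ≤ m * μ := mul_nonneg m0 μ0
  have m8 : m * μ + 2 * q + 19 * t + 2 ≤ n0 * (t - μ) := by
    refine le_of_mul_le_mul_right ?_ tμ
    have a1 := mul_le_mul_of_nonneg_left m3 μ0
    have a2 := mul_le_mul_of_nonneg_left k1 (show 0 ≤ t by linarith)
    nlinarith [mul_nonneg μ0 (show 0 ≤ t by linarith)]
  have νn : 0 ≤ ν * n0 := mul_nonneg ν0 n00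
  have E0 : 0 < e0 := by linarith
  have E1 : 0 < e1 := by linarith
  have T0 : 0 < t := by linarith
  have Q0 : 0 < q - μ := by linarith
  refine ⟨m, (m * (t - μ) - A) / t, (q + s0 - ν * n0 - h00 + l01) / e0,
    (q - ν * (m + 1) + (m * (t - μ) - A) - h01 + l00) / e1,
    (n0 * (t - μ) - m * μ - (μ * n0 - Λ) - 2 * q + μ - s0 - s1 - sp + (h00 + h10 - l01 - l11)) /
      (q - μ), le_of_mul_le_mul_right (by nlinarith) T0, m3, div_nonneg (by linarith) T0.le,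
    div_le_one_of_le₀ (by linarith) T0.le, div_nonneg (by linarith) E0.le,
    div_le_one_of_le₀ (by linarith) E0.le, div_nonneg (by linarith) E1.le,
    div_le_one_of_le₀ (by linarith) E1.le, div_nonneg (by linarith) Q0.le,
    (div_le_iff₀ Q0).2 (by linarith), ?_, ?_, ?_, ?_⟩
  · rw [div_mul_cancel₀ _ T0.ne', div_mul_cancel₀ _ E1.ne']; ring
  · rw [div_mul_cancel₀ _ E1.ne', hA]; ring
  · rw [div_mul_cancel₀ _ E0.ne']; ring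
  · rw [div_mul_cancel₀ _ E0.ne', sub_mul _ _ (q - μ), div_mul_cancel₀ _ Q0.ne']; ring

end Pool.Agent.Lib.MP_71763b_co
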