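import Pool.Agent.Lib.MP_71763b_co.GenB

namespace Pool.Agent.Lib.MP_71763b_co

open Finset

variable {g : ℕ}

/-- present points of a class -/
noncomputable def PC (Om : Finset (Cu g)) (i : ℕ) (α β γ : F2) : Finset (Cu g) :=
  fs fun x => x ∉ Om ∧ Cl i α β γ x

/-- number of present neighbours -/
noncomputable def nb (Om : Finset (Cu g)) (E : Cu g → Cu g → Prop) (x : Cu g) : ℝ :=
  (fs fun u => u ∉ Om ∧ E x u).card

theorem mem_PC {Om : Finset (Cu g)} {i : ℕ} {α β γ : F2} {x : Cu g} :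
    x ∈ PC Om i α β γ ↔ x ∉ Om ∧ co i x = α ∧ co (i + 1) x = β ∧ co (g + 1) x = γ := by
  simp [PC, Cl]

theorem nb_nn (Om : Finset (Cu g)) (E : Cu g → Cu g → Prop) (x : Cu g) : 0 ≤ nb Om E x :=
  Nat.cast_nonneg _

theorem Cl.add {i : ℕ} {α β γ α' β' γ' : F2} {x u : Cu g} (h : Cl i α β γ x)
    (h' : Cl i α' β' γ' (x + u)) : Cl i (α + α') (β + β') (γ + γ') u := by
  obtain ⟨a, b, c⟩ := h
  obtain ⟨a', b', c'⟩ := h'
  rw [co_add, f2_solve] at a' b' c'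
  exact ⟨a ▸ a', b ▸ b', c ▸ c'⟩

theorem f2_cancel (a b : F2) : a + b + b = a := by revert a b; decide

theorem cls_dc (Om : Finset (Cu g)) {i : ℕ} (R : Cu g → Prop) {β' γ' : F2}
    (hR : ∀ z, R z → Cl i 1 β' γ' z) (β γ : F2) :
    ∑ x ∈ PC Om i 1 β γ, nb Om (fun x u => R (x + u)) x =
      ∑ x ∈ PC Om i 0 (β + β') (γ + γ'), nb Om (fun x u => R (x + u)) x := by
  have := fs_dc (fun x => x ∉ Om ∧ Cl i 1 β γ x) (fun x => x ∉ Om ∧ Cl i 0 (β + β') (γ + γ') x)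
    fun x u => R (x + u)
  unfold nb PC
  rw [← Nat.cast_sum, ← Nat.cast_sum]
  congr 1
  refine (sum_congr rfl fun x hx => congrArg _ (fs_congr fun u => ?_)).trans
    (this.trans (sum_congr rfl fun x hx => congrArg _ (fs_congr fun u => ?_)))
  · exact ⟨fun q => ⟨⟨q.1, (mem_fs.1 hx).2.add (hR _ q.2)⟩, q.2⟩, fun q => ⟨q.1.1, q.2⟩⟩
  · rw [add_comm u]
    refine ⟨fun q => ⟨q.1.1, q.2⟩, fun q => ⟨⟨q.1, ?_⟩, q.2⟩⟩
    simpa only [f2_cancel, zero_add] using (mem_fs.1 hx).2.add (hR _ q.2)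

theorem nb_eq (Om D : Finset (Cu g)) (x : Cu g) : nb Om (fun x u => x + u ∈ D) x =
    D.card - (fs fun u => u ∈ Om ∧ x + u ∈ D).card := by
  have := fs_pres Om fun u => x + u ∈ D
  rw [card_shift x (· ∈ D), fs_mem] at this
  rw [← this]; simp [nb]

theorem fs_empty {V : Type} [Fintype V] {P : V → Prop} (h : ∀ x, ¬ P x) : (fs P).card = 0 :=
  card_eq_zero.2 (eq_empty_of_forall_notMem fun u hu => h u (mem_fs.1 hu))

theorem nb_full (Om D : Finset (Cu g)) (x : Cu g) (h : ∀ u ∈ Om, x + u ∉ D) :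
    nb Om (fun x u => x + u ∈ D) x = D.card := by
  rw [nb_eq, fs_empty (P := fun u => u ∈ Om ∧ x + u ∈ D) fun u hu => h u hu.1 hu.2]
  simp

theorem card_PC (Om : Finset (Cu g)) {i : ℕ} (hi : i < g) (α β γ : F2) :
    ((PC Om i α β γ).card : ℝ) = 2 ^ g - (fs fun x => x ∈ Om ∧ Cl i α β γ x).card := by
  have := fs_pres Om (Cl i α β γ)
  rw [card_cl hi] at this
  have := congrArg (Nat.cast : ℕ → ℝ) this
  push_cast at this
  rw [← this]; simp [PC]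

theorem sum_ind_fs {V : Type} [Fintype V] (s : Finset V) (Q : V → Prop) :
    ∑ x ∈ s, (ind (Q x) : ℝ) = (fs fun x => x ∈ s ∧ Q x).card := by
  classical
  simp only [ind_eq]
  rw [← Nat.cast_sum, ← card_filter]
  congr 2
  ext; simp

theorem fs_or {V : Type} [Fintype V] {P Q : V → Prop} (h : ∀ x, P x → Q x → False) :
    (fs fun x => P x ∨ Q x).card = (fs P).card + (fs Q).card := by
  rw [fs_split _ P]
  congr 2 <;> exact fs_congr fun x => by have := h x; tauto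

/-- class sizes and sums of the losses -/
theorem cls_facts {i : ℕ} (hi : i < g) (Om D0 : Finset (Cu g)) {q t μ ν n0 : ℝ}
    (ht : (Om.card : ℝ) = t) (hq : q = 2 ^ g) (hO1 : ∀ ω ∈ Om, co (g + 1) ω = 1)
    (hO2 : ∀ ω ∈ Om, co i ω = 0 → co (i + 1) ω = 1)
    (hμ : ((fs fun x => x ∈ Om ∧ co i x = 0).card : ℝ) = μ)
    (hν : ((fs fun x => x ∈ Om ∧ co (i + 1) x = 0).card : ℝ) = ν)
    (hD0 : ∀ z ∈ D0, Cl i 1 0 0 z) (hn : (D0.card : ℝ) = n0) :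
    (∀ α β, ((PC Om i α β 0).card : ℝ) = q) ∧ ((PC Om i 0 0 1).card : ℝ) = q ∧
    ((PC Om i 0 1 1).card : ℝ) = q - μ ∧ ((PC Om i 1 0 1).card : ℝ) = q - ν ∧
    ((PC Om i 1 1 1).card : ℝ) = q - (t - μ - ν) ∧
    (∀ β, ∑ x ∈ PC Om i 1 β 0, nb Om (fun x u => x + u ∈ D0) x = n0 * q) ∧
    ∑ x ∈ PC Om i 1 0 1, nb Om (fun x u => x + u ∈ D0) x = n0 * (q - ν) ∧
    ∃ Λ, μ * n0 - μ * t ≤ Λ ∧ Λ ≤ μ * n0 ∧
      ∑ x ∈ PC Om i 1 1 1, nb Om (fun x u => x + u ∈ D0) x = n0 * (q - (t - μ - ν)) - Λ := by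
  have c0 : ∀ α β, ((PC Om i α β 0).card : ℝ) = q := by
    intro α β
    rw [card_PC Om hi, fs_empty fun x h => by simpa [h.2.2.2] using hO1 x h.1]
    simp [hq]
  have c1 : ((PC Om i 0 0 1).card : ℝ) = q := by
    rw [card_PC Om hi, fs_empty fun x h => by simpa [h.2.2.1] using hO2 x h.1 h.2.1]
    simp [hq]
  have e2 : (fs fun x => x ∈ Om ∧ Cl i 0 1 1 x) = fs fun x => x ∈ Om ∧ co i x = 0 :=
    fs_congr fun x => ⟨fun h => ⟨h.1, h.2.1⟩, fun h => ⟨h.1, h.2, hO2 x h.1 h.2, hO1 x h.1⟩⟩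
  have e3 : (fs fun x => x ∈ Om ∧ Cl i 1 0 1 x) = fs fun x => x ∈ Om ∧ co (i + 1) x = 0 :=
    fs_congr fun x => ⟨fun h => ⟨h.1, h.2.2.1⟩, fun h => ⟨h.1, f2_ne0.1 fun e => by
      simpa [h.2] using hO2 x h.1 e, h.2, hO1 x h.1⟩⟩
  have c3 : ((PC Om i 1 0 1).card : ℝ) = q - ν := by rw [card_PC Om hi, e3, hν, hq]
  have c4 : ((PC Om i 1 1 1).card : ℝ) = q - (t - μ - ν) := by
    have a1 := fs_split (· ∈ Om) fun x => co i x = 0
    have a2 := fs_split (fun x => x ∈ Om ∧ ¬ co i x = 0) fun x => co (i + 1) x = 0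
    have a3 : (fs fun x => (x ∈ Om ∧ ¬ co i x = 0) ∧ co (i + 1) x = 0) =
        fs fun x => x ∈ Om ∧ co (i + 1) x = 0 := fs_congr fun x =>
      ⟨fun h => ⟨h.1.1, h.2⟩, fun h => ⟨⟨h.1, fun e => by simpa [h.2] using hO2 x h.1 e⟩, h.2⟩⟩
    have a4 : (fs fun x => (x ∈ Om ∧ ¬ co i x = 0) ∧ ¬ co (i + 1) x = 0) =
        fs fun x => x ∈ Om ∧ Cl i 1 1 1 x := fs_congr fun x =>
      ⟨fun h => ⟨h.1.1, f2_ne0.1 h.1.2, f2_ne0.1 h.2, hO1 x h.1.1⟩,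
        fun h => ⟨⟨h.1, f2_ne0.2 h.2.1⟩, f2_ne0.2 h.2.2.1⟩⟩
    rw [a2, a3, a4, fs_mem] at a1
    rw [card_PC Om hi, ← ht, a1, ← hμ, ← hν, hq]
    push_cast; ring
  refine ⟨c0, c1, by rw [card_PC Om hi, e2, hμ, hq], c3, c4, fun β => ?_, ?_,
    ∑ x ∈ PC Om i 1 1 1, ((fs fun u => u ∈ Om ∧ x + u ∈ D0).card : ℝ), ?_⟩
  · rw [sum_congr rfl fun x hx => nb_full Om D0 x fun u hu e => by
      have := (hD0 _ e).2.2
      rw [co_add, (mem_PC.1 hx).2.2.2, hO1 u hu] at this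
      exact absurd this (by decide), sum_const, nsmul_eq_mul, c0, hn, mul_comm]
  · rw [sum_congr rfl fun x hx => nb_full Om D0 x fun u hu e => by
      have := Cl.add (mem_fs.1 hx).2 (hD0 _ e)
      simpa [this.2.1] using hO2 u hu this.1, sum_const, nsmul_eq_mul, c3, hn, mul_comm]
  · have a1 := fs_dc (fun x => x ∉ Om ∧ Cl i 1 1 1 x) (fun x => x ∈ Om ∧ Cl i 0 1 1 x)
      fun x u => x + u ∈ D0
    have a2 : ∑ x ∈ PC Om i 1 1 1, ((fs fun u => u ∈ Om ∧ x + u ∈ D0).card : ℝ) =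
        ∑ u ∈ fs fun x => x ∈ Om ∧ Cl i 0 1 1 x, nb Om (fun x u => x + u ∈ D0) u := by
      unfold nb PC
      rw [← Nat.cast_sum, ← Nat.cast_sum]
      congr 1
      refine (sum_congr rfl fun x hx => congrArg _ (fs_congr fun u => ?_)).trans
        (a1.trans (sum_congr rfl fun x hx => congrArg _ (fs_congr fun u => ?_)))
      · exact ⟨fun q => ⟨⟨q.1, (mem_fs.1 hx).2.add (hD0 _ q.2)⟩, q.2⟩, fun q => ⟨q.1.1, q.2⟩⟩
      · rw [add_comm u]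
        exact ⟨fun q => ⟨q.1.1, q.2⟩, fun q => ⟨⟨q.1, (mem_fs.1 hx).2.add (hD0 _ q.2)⟩, q.2⟩⟩
    have a3 : ∀ u, n0 - t ≤ nb Om (fun x u => x + u ∈ D0) u ∧
        nb Om (fun x u => x + u ∈ D0) u ≤ n0 := by
      intro u
      rw [nb_eq, hn, ← ht]
      exact ⟨sub_le_sub_left (Nat.cast_le.2 (fs_om _ _)) _, sub_le_self _ (Nat.cast_nonneg _)⟩
    refine ⟨?_, ?_, ?_⟩
    · rw [a2, ← mul_sub, ← hμ, ← e2, ← nsmul_eq_mul]
      exact card_nsmul_le_sum _ _ _ fun u _ => (a3 u).1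
    · rw [a2, ← hμ, ← e2, ← nsmul_eq_mul]
      exact sum_le_card_nsmul _ _ _ fun u _ => (a3 u).2
    · simp only [nb_eq]
      rw [sum_sub_distrib, sum_const, nsmul_eq_mul, c4, hn, mul_comm]

end Pool.Agent.Lib.MP_71763b_co
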