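import Pool.Agent.Lib.MP_71763b_co.GenC

namespace Pool.Agent.Lib.MP_71763b_co

open Finset

variable {g : ℕ}

noncomputable def ir (P : Prop) : ℝ := ind P
theorem ir_pos {P : Prop} (h : P) : ir P = 1 := by simp [ir, h]
theorem ir_neg {P : Prop} (h : ¬ P) : ir P = 0 := by simp [ir, h]
theorem ir_bd (P : Prop) : 0 ≤ ir P ∧ ir P ≤ 1 := by
  by_cases h : P
  · simp [ir_pos h]
  · simp [ir_neg h]

theorem sum_ir (Om S : Finset (Cu g)) (i : ℕ) (α β γ : F2) :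
    ∑ x ∈ PC Om i α β γ, ir (x ∈ S) = (fs fun x => x ∈ PC Om i α β γ ∧ x ∈ S).card :=
  sum_ind_fs _ _

noncomputable def psi (P : Cu g → Cu g → Prop) (i : ℕ) (α β γ : F2) : ℝ :=
  ∑ x ∈ fs (Cl i α β γ), ((fs (P x)).card : ℝ)

theorem psi_loss (Om : Finset (Cu g)) (P : Cu g → Cu g → Prop) (hP1 : ∀ x u, P x u → P u x)
    (hP4 : ∀ x, (fs (P x)).card ≤ 4) (i : ℕ) (α β γ : F2) :
    ∑ x ∈ PC Om i α β γ, nb Om P x ≤ psi P i α β γ ∧
      psi P i α β γ ≤ ∑ x ∈ PC Om i α β γ, nb Om P x + 8 * Om.card := by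
  have := loss Om (Cl i α β γ) P 4 hP4 fun l => (fs_le fun h q => hP1 h l q).trans (hP4 l)
  unfold psi nb PC
  exact_mod_cast this

theorem nb_le (Om : Finset (Cu g)) (E : Cu g → Cu g → Prop) (x : Cu g) {J : ℕ}
    (h : (fs (E x)).card ≤ J) : nb Om E x ≤ J :=
  Nat.cast_le.2 ((fs_le fun _ q => q.2).trans h)

theorem mul_bd {a b c d : ℝ} (h : 0 ≤ a ∧ a ≤ c) (h' : 0 ≤ b ∧ b ≤ d) : 0 ≤ a * b ∧ a * b ≤ c * d :=
  ⟨mul_nonneg h.1 h'.1, mul_le_mul h.2 h'.2 h'.1 (h.1.trans h.2)⟩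

noncomputable def base (i δ : ℕ) (x : Cu g) : ℤ := δ + ind (co i x = 1) - ind (co (i + 1) x = 1)

theorem gen {i b : ℕ} (hi : i < g) (hb : b + 4 ≤ g) (Om D0 S S' Sp : Finset (Cu g))
    (τ1 τ2 : ℕ → F2) (P : Cu g → Cu g → Prop) (a : ℕ) {q M N t μ ν ω n0 mx Ip Im : ℝ}
    (ht : (Om.card : ℝ) = t) (hq : q = 2 ^ g) (hM : M = 2 ^ (g - 1 - b)) (hN : N = 2 ^ b)
    (hO1 : ∀ ω ∈ Om, co (g + 1) ω = 1) (hO2 : ∀ ω ∈ Om, co i ω = 0 → co (i + 1) ω = 1)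
    (hμ : ((fs fun x => x ∈ Om ∧ co i x = 0).card : ℝ) = μ)
    (hν : ((fs fun x => x ∈ Om ∧ co (i + 1) x = 0).card : ℝ) = ν) (μ2 : μ ≤ 2) (ν2 : ν ≤ 2)
    (hD0 : ∀ z ∈ D0, Cl i 1 0 0 z) (hn : (D0.card : ℝ) = n0)
    (hS : ∀ x ∈ S, x ∈ PC Om i 1 0 1) (hSt : (S.card : ℝ) = t)
    (hS' : ∀ x ∈ S', co i x = 0 ∧ co (g + 1) x = 1) (hSt' : (S'.card : ℝ) ≤ t)
    (hSp : ∀ x ∈ Sp, Cl i 1 1 0 x) (hSp2 : Sp.card ≤ 2)
    (hP1 : ∀ x u, P x u → P u x)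
    (hP2 : ∀ x u, P x u → co i (x + u) = 1 ∧ co (g + 1) (x + u) = 0 ∧ x + u ∉ D0)
    (hP3 : ∀ h ∉ Om, ∀ l, P h l → co i h = 1 → co (i + 1) h = 0 ∨ co (i + 1) l = 1 ∨ h ∈ Sp)
    (hP4 : ∀ x, (fs (P x)).card ≤ 4)
    (hP5 : ∀ γ, psi P i 0 0 γ + psi P i 0 1 γ = psi P i 1 0 (γ + 1) + psi P i 1 1 (γ + 1))
    (hP6 : ∀ γ, psi P i 1 0 (γ + 1) ≤ psi P i 0 0 γ + ω ∧ psi P i 0 0 γ ≤ psi P i 1 0 (γ + 1) + 4)
    (t5 : 5 ≤ t) (k1 : 2 * q + 19 * t + 2 ≤ n0 * (t - 2 * μ)) (k2 : n0 * t + 16 * t + 10 ≤ 6 * q)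
    (k3 : ν * n0 + ω + 8 * t ≤ q) (k4 : 2 * q + μ * n0 + 17 * t ≤ mx * (t - μ))
    (k5 : ν * (mx + 1) + ω + 8 * t ≤ q) (k6 : 13 * t + 4 ≤ q) (k7 : a * t + 18 * t + 2 ≤ 2 * q)
    (n0' : 2 * t < M) (n1 : (12 : ℝ) ≤ a) (n5 : Ip = 16 * M + 2 * t * a)
    (n6 : Im = M * (t + 6) + 2 * t * a)
    (n7 : 2 * Ip + Im ≤ N * 8 * (M - 2 * t)) (n9 : 2 * Ip + Im ≤ (a - 12) * (M - 2 * t))
    (n10 : (a + 4) * (a + t) ≤ (M - 2 * t) * (a - 6) - 2 * Ip) :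
    ∃ m : ℕ, a ≤ m ∧ m * (t - μ) ≤ 2 * q + μ * n0 + 17 * t ∧
      ∀ (D1 : Finset (Cu g)) (own : Cu g → Cu g → ℕ), D1.card + a = m →
      (∀ z ∈ D1, Cl i 1 0 1 z ∧ ¬ Bx i 1 0 1 0 (range b) τ1 z ∧
        ¬ Bx i 1 0 1 1 (Ico (b + 3) (g - 1)) τ2 z) →
      (∀ x u, (x + u ∈ D0 ∨ P x u ∨ x + u ∈ D1) ∨ Bx i 1 1 1 1 (Ico 1 (g - 1)) τ2 (x + u) ∨
        Bx i 1 0 1 0 (range b) τ1 (x + u) ∨ Bx i 1 0 1 1 (Ico (b + 3) (g - 1)) τ2 (x + u) →
        own x u = i) →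
      (∀ x u, co (g + 1) x = co (g + 1) u → own x u = i → x + u ∈ D0 ∨ P x u) →
      ∃ w, Fine Om own i (fun x => base i (D0.card + m) x + ind (x ∈ Sp))
        (fun x => base i (D0.card + m) x + ind (x ∈ S) - ind (x ∈ S')) w := by
  obtain ⟨c0, c1, c2, c3, c4, f1, f2, Λ, Λ1, Λ2, f3⟩ := cls_facts hi Om D0 ht hq hO1 hO2 hμ hν hD0 hn
  have f4 := cls_dc Om (· ∈ D0) hD0
  simp only [add_zero] at f4
  obtain ⟨X, hX⟩ : ∃ X : Cu g → Prop, X = Bx i 1 1 1 1 (Ico 1 (g - 1)) τ2 := ⟨_, rfl⟩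
  have X1 : ∀ z, X z → Cl i 1 1 1 z := fun z h => by
    rw [hX] at h; exact ⟨h.1, h.2.1, h.2.2.1⟩
  have X2 : ∀ x, (fs fun u => X (x + u)).card = 2 := fun x => by
    rw [card_shift, hX, card_bx hi _ _ _ _ _ (fun l hl => by have := mem_Ico.1 hl; omega) _ 1
      (by simp; omega)]
    rfl
  have X3 : ∀ γ, 2 * q ≤ ∑ x ∈ PC Om i 1 0 γ, nb Om (fun x u => X (x + u)) x + 4 * t := by
    intro γ
    have := (loss Om (Cl i 1 0 γ) (fun x u => X (x + u)) 2 (fun x => (X2 x).le) fun x => by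
      simpa only [add_comm x] using (X2 x).le).2
    simp only [X2, sum_const, card_cl hi, smul_eq_mul] at this
    have b1 : (_ : ℝ) ≤ _ := Nat.cast_le.2 this
    push_cast at b1
    unfold nb PC
    linarith
  have X4 := cls_dc Om X X1
  have ps := psi_loss Om P hP1 hP4 i
  rw [ht] at ps
  have μ0 : 0 ≤ μ := hμ ▸ Nat.cast_nonneg _
  have s2 : ((fs fun x => x ∈ PC Om i 0 0 1 ∧ x ∈ S').card : ℝ) +
      (fs fun x => x ∈ PC Om i 0 1 1 ∧ x ∈ S').card ≤ t := by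
    rw [← Nat.cast_add, ← fs_or fun x h1 h2 => by
      simpa [(mem_PC.1 h1.1).2.2.1] using (mem_PC.1 h2.1).2.2.1]
    refine le_trans (Nat.cast_le.2 ?_) hSt'
    exact (fs_le fun x h => by tauto).trans (congrArg card (fs_mem S')).le
  have e01 : (0 : F2) + 1 = 1 := rfl
  have e11 : (1 : F2) + 1 = 0 := rfl
  obtain ⟨m, ρ, x0, x1, sh, m1, m2, ρ0, ρ1, x00, x01, x10, x11, sh0, sh4, q1, q2, q3, q4⟩ :=
    numbers (h00 := ∑ x ∈ PC Om i 1 0 0, nb Om P x) (h01 := ∑ x ∈ PC Om i 1 0 1, nb Om P x)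
      (h10 := ∑ x ∈ PC Om i 1 1 0, nb Om P x) (h11 := ∑ x ∈ PC Om i 1 1 1, nb Om P x)
      (l00 := ∑ x ∈ PC Om i 0 0 0, nb Om P x) (l01 := ∑ x ∈ PC Om i 0 0 1, nb Om P x)
      (l10 := ∑ x ∈ PC Om i 0 1 0, nb Om P x) (l11 := ∑ x ∈ PC Om i 0 1 1, nb Om P x)
      (sp := (fs fun x => x ∈ PC Om i 1 1 0 ∧ x ∈ Sp).card)
      t5 μ0 μ2 (hν ▸ Nat.cast_nonneg _) ν2 (hn ▸ Nat.cast_nonneg _) Λ1 Λ2
      (by
        have := hP5 0
        rw [e01] at this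
        rw [abs_le]
        constructor <;> linarith [ps 0 0 0, ps 0 1 0, ps 1 0 1, ps 1 1 1])
      (by
        have := hP5 1
        rw [e11] at this
        rw [abs_le]
        constructor <;> linarith [ps 0 0 1, ps 0 1 1, ps 1 0 0, ps 1 1 0])
      (by have := hP6 0; rw [e01] at this; linarith [ps 0 0 0, ps 1 0 1])
      (by have := hP6 0; rw [e01] at this; linarith [ps 0 0 0, ps 1 0 1])
      (by have := hP6 1; rw [e11] at this; linarith [ps 0 0 1, ps 1 0 0])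
      (by have := hP6 1; rw [e11] at this; linarith [ps 0 0 1, ps 1 0 0])
      (X3 0) (X3 1) (Nat.cast_nonneg _) (Nat.cast_nonneg _) s2 (Nat.cast_nonneg _)
      ((Nat.cast_le.2 ((fs_le fun x h => h.2).trans
        ((congrArg card (fs_mem Sp)).le.trans hSp2))).trans (by norm_num))
      k1 k2 k3 k4 k5 k6 k7
  refine ⟨m, by exact_mod_cast m1, m2, fun D1 own d1 d2 o1 o2 => ?_⟩
  have d3 : (D1.card : ℝ) = m - a := by rw [← d1]; simp
  have d4 := cls_dc Om (· ∈ D1) fun z hz => (d2 z hz).1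
  simp only [add_zero] at d4
  let Fx : Cu g → Cu g → Prop := fun x u => x + u ∈ D0 ∨ P x u ∨ x + u ∈ D1
  have Fx1 : ∀ x u, Fx x u → co i (x + u) = 1 := fun x u h => by
    rcases h with h | h | h
    exacts [(hD0 _ h).1, (hP2 _ _ h).1, (d2 _ h).1.1]
  have Fx2 : ∀ x u, Fx x u → Fx u x := fun x u h => by
    simp only [Fx, add_comm u]
    exact h.imp_right (Or.imp_left (hP1 _ _))
  have Fx3 : ∀ x, nb Om Fx x = nb Om (fun x u => x + u ∈ D0) x + nb Om P x +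
      nb Om (fun x u => x + u ∈ D1) x := fun x => by
    simp only [nb, Fx, and_or_left]
    rw [fs_or, fs_or]
    · push_cast; ring
    · exact fun u h1 h2 => by simpa [(hP2 _ _ h1.2).2.1] using (d2 _ h2.2).1.2.2
    · rintro u h1 (h2 | h2)
      · exact (hP2 _ _ h2.2).2.2 h1.2
      · simpa [(hD0 _ h1.2).2.2] using (d2 _ h2.2).1.2.2
  have side : ∀ (E : Cu g → Cu g → Prop), (∀ x u, E x u → co i (x + u) = 1) →
      (∀ x u, E x u → E u x) → (∀ h, co i h = 1 →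
        ((fs fun l => (l ∉ Om ∧ co i l = 0) ∧ E h l).card : ℝ) = nb Om E h) ∧
      ∀ l, co i l = 0 → ((fs fun h => (h ∉ Om ∧ co i h = 1) ∧ E h l).card : ℝ) = nb Om E l := by
    intro E h1 h2
    refine ⟨fun h a => congrArg _ (congrArg _ (fs_congr fun l => ⟨fun q => ⟨q.1.1, q.2⟩,
      fun q => ⟨⟨q.1, ?_⟩, q.2⟩⟩)), fun l a => congrArg _ (congrArg _ (fs_congr fun h =>
      ⟨fun q => ⟨q.1.1, h2 _ _ q.2⟩, fun q => ⟨⟨q.1, ?_⟩, h2 _ _ q.2⟩⟩))⟩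
    · simpa [co_add, a] using h1 _ _ q.2
    · simpa [co_add, a] using h1 _ _ q.2
  obtain ⟨w1, hw1, w1e⟩ := Frac.unif (fun x => x ∉ Om ∧ co i x = 1) (fun x => x ∉ Om ∧ co i x = 0)
    Fx (fun _ => 1) (fun _ => 1) (fun _ _ _ _ _ => rfl) (by simp)
  let ξ : F2 → F2 → ℝ := fun β γ => if β = 0 then if γ = 0 then x0 else x1 else 0
  have ξ0 : ∀ β γ, 0 ≤ ξ β γ ∧ ξ β γ ≤ 1 := fun β γ => by
    simp only [ξ]; split_ifs <;> simp [*]
  obtain ⟨w2, hw2, -⟩ := Frac.unif (fun x => x ∉ Om ∧ co i x = 1) (fun x => x ∉ Om ∧ co i x = 0)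
    (fun x u => X (x + u)) (fun x => ξ (co (i + 1) x) (co (g + 1) x))
    (fun x => ξ (co (i + 1) x + 1) (co (g + 1) x + 1)) (fun h l _ _ e => by
      obtain ⟨-, e1, e2⟩ := Cl.add ⟨rfl, rfl, rfl⟩ (X1 _ e)
      rw [e1, e2, f2_cancel, f2_cancel]) fun _ => ξ0 _ _
  have sF := side Fx Fx1 Fx2
  have sX := side (fun x u => X (x + u)) (fun x u h => (X1 _ h).1) fun x u h => add_comm x u ▸ h
  have bX : ∀ x β γ, 0 ≤ ξ β γ * nb Om (fun x u => X (x + u)) x ∧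
      ξ β γ * nb Om (fun x u => X (x + u)) x ≤ 2 := fun x β γ => by
    simpa using mul_bd (ξ0 β γ) ⟨nb_nn Om (fun x u => X (x + u)) x, nb_le _ _ _ (X2 x).le⟩
  have bF : ∀ x, nb Om Fx x ≤ n0 + (m - a) + 4 ∧
      n0 + (m - a) - (fs fun u => u ∈ Om ∧ co i (x + u) = 1).card ≤ nb Om Fx x := fun x => by
    have a1 : nb Om P x ≤ 4 := by simpa using nb_le Om P x (hP4 x)
    have a2 : ((fs fun u => u ∈ Om ∧ x + u ∈ D0).card : ℝ) + (fs fun u => u ∈ Om ∧ x + u ∈ D1).card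
        ≤ (fs fun u => u ∈ Om ∧ co i (x + u) = 1).card := by
      rw [← Nat.cast_add, ← fs_or fun u h1 h2 => by
        simpa [(hD0 _ h1.2).2.2] using (d2 _ h2.2).1.2.2]
      exact Nat.cast_le.2 (fs_le fun u h => h.elim (fun h => ⟨h.1, (hD0 _ h.2).1⟩)
        fun h => ⟨h.1, (d2 _ h.2).1.1⟩)
    rw [Fx3, nb_eq, nb_eq, hn, d3]
    have := nb_nn Om P x
    have : (0 : ℝ) ≤ (fs fun u => u ∈ Om ∧ x + u ∈ D0).card := Nat.cast_nonneg _
    have : (0 : ℝ) ≤ (fs fun u => u ∈ Om ∧ x + u ∈ D1).card := Nat.cast_nonneg _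
    constructor <;> linarith
  let τH : Cu g → ℝ := fun x => n0 + m + 1 - ir (co (i + 1) x = 1) + ρ * ir (x ∈ S) + ir (x ∈ Sp)
  let τL : Cu g → ℝ := fun x => n0 + m - ir (co (i + 1) x = 1) - ir (x ∈ S') -
    sh * (ir (co (i + 1) x = 1) * ir (co (g + 1) x = 1))
  obtain ⟨w3, hw3⟩ := grid4 hi hb Om τ1 τ2
    (fun x => τH x - nb Om Fx x - ξ (co (i + 1) x) (co (g + 1) x) * nb Om (fun x u => X (x + u)) x)
    (fun x => τL x - nb Om Fx x -
      ξ (co (i + 1) x + 1) (co (g + 1) x + 1) * nb Om (fun x u => X (x + u)) x)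
    a M N t Ip Im ht hM hN (fun x hx e => by
      have a1 := bF x
      have a2 := bX x (co (i + 1) x) (co (g + 1) x)
      have a3 : ((fs fun u => u ∈ Om ∧ co i (x + u) = 1).card : ℝ) = μ := by
        rw [← hμ]; simp [co_add, e]
      have a4 := mul_bd ⟨ρ0, ρ1⟩ (ir_bd (x ∈ S))
      have a5 := ir_bd (co (i + 1) x = 1)
      have a6 : 0 ≤ ir (x ∈ Sp) ∧ ir (x ∈ Sp) ≤ ir (co (i + 1) x = 1) := by
        by_cases q : x ∈ Sp
        · simp [ir_pos q, ir_pos (hSp x q).2.1]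
        · simp [ir_neg q, a5]
      simp only [τH]
      constructor <;> linarith)
    (fun x hx e => by
      have a1 := bF x
      have a2 := bX x (co (i + 1) x + 1) (co (g + 1) x + 1)
      have a3 : ((fs fun u => u ∈ Om ∧ co i (x + u) = 1).card : ℝ) ≤ t :=
        ht ▸ Nat.cast_le.2 (fs_om _ _)
      have a4 := ir_bd (x ∈ S')
      have a5 := ir_bd (co (i + 1) x = 1)
      have a6 := mul_bd ⟨sh0, sh4⟩ (mul_bd a5 (ir_bd (co (g + 1) x = 1)))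
      simp only [τL]
      constructor <;> linarith)
    (fun β γ => by
      change ∑ x ∈ PC Om i 1 β γ, _ = ∑ x ∈ PC Om i 0 β (γ + 1), _
      have a1 : ∀ x ∈ PC Om i 1 β γ, τH x - nb Om Fx x -
          ξ (co (i + 1) x) (co (g + 1) x) * nb Om (fun x u => X (x + u)) x =
          (n0 + m + 1 - ir (β = 1)) + ρ * ir (x ∈ S) + ir (x ∈ Sp) - nb Om Fx x -
          ξ β γ * nb Om (fun x u => X (x + u)) x := fun x hx => by
        simp only [τH, (mem_PC.1 hx).2.2.1, (mem_PC.1 hx).2.2.2]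
      have a2 : ∀ x ∈ PC Om i 0 β (γ + 1), τL x - nb Om Fx x -
          ξ (co (i + 1) x + 1) (co (g + 1) x + 1) * nb Om (fun x u => X (x + u)) x =
          (n0 + m - ir (β = 1) - sh * (ir (β = 1) * ir (γ + 1 = 1))) - ir (x ∈ S') - nb Om Fx x -
          ξ (β + 1) γ * nb Om (fun x u => X (x + u)) x := fun x hx => by
        simp only [τL, (mem_PC.1 hx).2.2.1, (mem_PC.1 hx).2.2.2, f2_cancel]; ring
      rw [sum_congr rfl a1, sum_congr rfl a2]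
      simp only [Fx3, sum_sub_distrib, sum_add_distrib, ← mul_sum, sum_const, nsmul_eq_mul, sum_ir,
        d4]
      have z1 : ∀ β γ, ¬ (β = 0 ∧ γ = 1) → (fs fun x => x ∈ PC Om i 1 β γ ∧ x ∈ S).card = 0 :=
        fun β γ h => fs_empty fun x q => h ⟨(mem_PC.1 q.1).2.2.1.symm.trans
          (mem_PC.1 (hS x q.2)).2.2.1, (mem_PC.1 q.1).2.2.2.symm.trans (mem_PC.1 (hS x q.2)).2.2.2⟩
      have z2 : ∀ β γ, ¬ (β = 1 ∧ γ = 0) → (fs fun x => x ∈ PC Om i 1 β γ ∧ x ∈ Sp).card = 0 :=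
        fun β γ h => fs_empty fun x q => h ⟨(mem_PC.1 q.1).2.2.1.symm.trans
          (hSp x q.2).2.1, (mem_PC.1 q.1).2.2.2.symm.trans (hSp x q.2).2.2⟩
      have z3 : ∀ β, (fs fun x => x ∈ PC Om i 0 β 0 ∧ x ∈ S').card = 0 :=
        fun β => fs_empty fun x q => by simpa [(mem_PC.1 q.1).2.2.2] using (hS' x q.2).2
      have z4 : ((fs fun x => x ∈ PC Om i 1 0 1 ∧ x ∈ S).card : ℝ) = t := by
        rw [← hSt, fs_congr (Q := (· ∈ S)) fun x => ⟨fun q => q.2, fun q => ⟨hS x q, q⟩⟩, fs_mem]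
      have i0 : ir ((0 : F2) = 1) = 0 := ir_neg (by decide)
      have i1 : ir True = 1 := ir_pos trivial
      have y0 := X4 0 0
      have y1 := X4 0 1
      rw [e01] at y0 y1
      rw [e11] at y1
      rcases f2_cases β with rfl | rfl <;> rcases f2_cases γ with rfl | rfl <;>
        simp only [e01, e11, i0, i1, ξ, ← f4, ← y0, ← y1, c0, c1, c2, c3, c4, f1, f2, f3, z3, z4,
          if_true, one_ne_zero, if_false]
      · rw [z1 _ _ (by decide), z2 _ _ (by decide), Nat.cast_zero]; linear_combination q3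
      · rw [z2 _ _ (by decide), Nat.cast_zero]; linear_combination q1
      · rw [z1 _ _ (by decide), Nat.cast_zero]; linear_combination q4
      · rw [z1 _ _ (by decide), z2 _ _ (by decide), Nat.cast_zero]; linear_combination q2)
    n0' n1 n5 n6 n7 n9 n10
  have hw := (hw1.add hw2 fun h _ l _ a b => by
    rcases a.1 with a | a | a
    · simpa [(hD0 _ a).2.1] using (X1 _ b.1).2.1
    · simpa [(hP2 _ _ a).2.1] using (X1 _ b.1).2.2
    · simpa [(d2 _ a).1.2.1] using (X1 _ b.1).2.1).add hw3 fun h _ l _ a b => by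
    have b1 : Cl i 1 0 1 (h + l) := b.elim (fun b => ⟨b.1, b.2.1, b.2.2.1⟩)
      fun b => ⟨b.1, b.2.1, b.2.2.1⟩
    rcases a with ⟨a | a | a, -⟩ | a
    · simpa [(hD0 _ a).2.2] using b1.2.2
    · simpa [(hP2 _ _ a).2.1] using b1.2.2
    · exact b.elim (d2 _ a).2.1 (d2 _ a).2.2
    · simpa [b1.2.1] using (X1 _ a.1).2.1
  have rH : ∀ x ∉ Om, co i x = 1 → ∑ l, (w1 x l + w2 x l + w3 x l) = τH x := fun x hx e => by
    rw [hw.row x (mem_fs.2 ⟨hx, e⟩), sF.1 x e, sX.1 x e]; ring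
  have rL : ∀ x ∉ Om, co i x = 0 → ∑ l, (w1 l x + w2 l x + w3 l x) = τL x := fun x hx e => by
    rw [hw.col x (mem_fs.2 ⟨hx, e⟩), sF.2 x e, sX.2 x e]; ring
  have bs : ∀ x : Cu g,
      (base i (D0.card + m) x : ℝ) = n0 + m + ir (co i x = 1) - ir (co (i + 1) x = 1) :=
    fun x => by simp [base, ir, hn]
  refine ⟨_, fun h l => ⟨hw.nn h l, hw.le h l⟩, fun h l e => ?_, fun h hh l hl a1 a2 a3 a4 => ?_,
    fun x hx e => ?_, fun x hx e => ?_⟩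
  · obtain ⟨a1, a2, a3⟩ := hw.sp h l e
    rw [mem_fs] at a1 a2
    refine ⟨a1.1, a2.1, a1.2, a2.2, o1 h l (by rw [← hX]; tauto), ?_⟩
    have b1 : co (i + 1) h = 0 ∨ co (i + 1) l = 1 ∨ h ∈ Sp := by
      have key : co (i + 1) (h + l) = 0 → co (i + 1) h = 0 ∨ co (i + 1) l = 1 ∨ h ∈ Sp := by
        rw [co_add]
        rcases f2_cases (co (i + 1) h) with r | r <;> rcases f2_cases (co (i + 1) l) with s | s <;>
          simp [r, s]
      rcases a3 with (⟨a | a | a, -⟩ | a) | a | a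
      · exact key (hD0 _ a).2.1
      · exact hP3 h a1.1 l a a1.2
      · exact key (d2 _ a).1.2.1
      · exact Or.inl (by by_contra r; exact a.2 (if_neg r))
      · exact key a.2.1
      · exact key a.2.1
    have b2 : l ∉ S := fun r => by simpa [a2.2] using (mem_PC.1 (hS l r)).2.1
    have b3 : ind (co (i + 1) h = 1) ≤ 1 := (ind_mono fun _ => trivial).trans ind_true.le
    simp only [base, ind_pos a1.2, ind_neg b2, ind_neg (show ¬ co i l = 1 by simp [a2.2])]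
    rcases b1 with r | r | r
    · rw [ind_neg (show ¬ co (i + 1) h = 1 by simp [r])]; omega
    · rw [ind_pos r]; omega
    · rw [ind_pos r]; omega
  · have := w1e h l ⟨hh, a1⟩ ⟨hl, a2⟩ ((o2 h l a4 a3).imp_right Or.inl)
    linarith [hw.le h l, hw2.nn h l, hw3.nn h l]
  · rw [rH x hx e]
    push_cast
    have a4 := mul_bd ⟨ρ0, ρ1⟩ ⟨(ir_bd (x ∈ S)).1, le_rfl⟩
    simp only [bs, τH, ir_pos e]
    refine ⟨by change _ + ir _ ≤ _; linarith, fun r => ?_⟩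
    rw [ir_neg (P := x ∈ Sp) fun s => by simpa [r] using (hSp x s).2.2,
      ind_neg (p := x ∈ S') fun s => by simpa [e] using (hS' x s).1]
    change _ ≤ _ + ir _ - _
    simp only [Nat.cast_zero]; linarith
  · rw [rL x hx e]
    push_cast
    have a6 := mul_bd ⟨sh0, sh4⟩ (mul_bd (ir_bd (co (i + 1) x = 1)) (ir_bd (co (g + 1) x = 1)))
    have a4 := ir_bd (x ∈ S)
    simp only [bs, τL, ir_neg (show ¬ co i x = 1 by simp [e])]
    refine ⟨by change _ ≤ _ + ir _ - ir _; linarith, fun r => ?_⟩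
    rw [ir_neg (P := x ∈ S') fun s => by simpa [r] using (hS' x s).2,
      ir_neg (show ¬ co (g + 1) x = 1 by simp [r]),
      ind_neg (p := x ∈ Sp) fun s => by simpa [e] using (hSp x s).1]
    simp

end Pool.Agent.Lib.MP_71763b_co
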