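import Mathlib

namespace Pool.Agent.Lib.MP_71763b_co

open Finset

section
variable {V R : Type} [Fintype V] [Fintype R]

/-- a fractional bipartite graph between `A` and `B`, supported on `S`, with degrees `p`, `p'` -/
structure Frac (A B : Finset V) (S : V → V → Prop) (p p' : V → ℝ) (w : V → V → ℝ) : Prop where
  nn : ∀ h l, 0 ≤ w h l
  le : ∀ h l, w h l ≤ 1
  sp : ∀ h l, w h l ≠ 0 → h ∈ A ∧ l ∈ B ∧ S h l
  row : ∀ h ∈ A, ∑ l, w h l = p h
  col : ∀ l ∈ B, ∑ h, w h l = p' l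

theorem Frac.add {A B : Finset V} {S T : V → V → Prop} {p p' r r' : V → ℝ} {w u : V → V → ℝ}
    (h1 : Frac A B S p p' w) (h2 : Frac A B T r r' u)
    (hd : ∀ h ∈ A, ∀ l ∈ B, S h l → T h l → False) :
    Frac A B (fun h l => S h l ∨ T h l) (fun x => p x + r x) (fun x => p' x + r' x)
      fun h l => w h l + u h l where
  nn h l := add_nonneg (h1.nn h l) (h2.nn h l)
  le h l := by
    by_cases a : w h l = 0
    · simpa [a] using h2.le h l
    · by_cases b : u h l = 0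
      · simpa [b] using h1.le h l
      · exact (hd h (h1.sp h l a).1 l (h1.sp h l a).2.1 (h1.sp h l a).2.2 (h2.sp h l b).2.2).elim
  sp h l e := by
    by_cases a : w h l = 0
    · have := h2.sp h l (by simpa [a] using e)
      tauto
    · have := h1.sp h l a
      tauto
  row h a := by rw [sum_add_distrib, h1.row h a, h2.row h a]
  col h a := by rw [sum_add_distrib, h1.col h a, h2.col h a]

theorem Frac.mono {A B : Finset V} {S T : V → V → Prop} {p p' r r' : V → ℝ} {w : V → V → ℝ}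
    (h1 : Frac A B S p p' w) (hS : ∀ h ∈ A, ∀ l ∈ B, S h l → T h l) (hp : ∀ x ∈ A, p x = r x)
    (hp' : ∀ x ∈ B, p' x = r' x) : Frac A B T r r' w where
  nn := h1.nn
  le := h1.le
  sp h l e := by
    obtain ⟨a, b, c⟩ := h1.sp h l e
    exact ⟨a, b, hS h a l b c⟩
  row h a := by rw [h1.row h a, hp h a]
  col h a := by rw [h1.col h a, hp' h a]

omit [Fintype R] in
open Classical in
theorem grid_rows (A B : Finset V) (rA rB : V → R) (p p' : V → ℝ)
    (hp : ∀ x ∈ A, 0 ≤ p x) (hp' : ∀ x ∈ B, 0 ≤ p' x)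
    (hb : ∀ ρ, ∑ x ∈ A.filter (rA · = ρ), p x = ∑ x ∈ B.filter (rB · = ρ), p' x)
    (hc : ∀ h ∈ A, ∀ l ∈ B, rA h = rB l → p h * p' l ≤ ∑ x ∈ A.filter (rA · = rA h), p x) :
    ∃ w, Frac A B (fun h l => rA h = rB l) p p' w := by
  let P : R → ℝ := fun ρ => ∑ x ∈ A.filter (rA · = ρ), p x
  have P0 : ∀ ρ, 0 ≤ P ρ := fun ρ => sum_nonneg fun x hx => hp x (mem_filter.1 hx).1
  refine ⟨fun h l => if h ∈ A ∧ l ∈ B ∧ rA h = rB l then p h * p' l / P (rA h) else 0,
    fun h l => ?_, fun h l => ?_, fun h l e => ?_, fun h a => ?_, fun l a => ?_⟩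
  · split_ifs with g
    · exact div_nonneg (mul_nonneg (hp _ g.1) (hp' _ g.2.1)) (P0 _)
    · exact le_rfl
  · split_ifs with g
    · exact div_le_one_of_le₀ (hc h g.1 l g.2.1 g.2.2) (P0 _)
    · exact zero_le_one
  · by_contra g
    exact e (if_neg g)
  · rw [← sum_filter, ← sum_div, ← mul_sum]
    have : (univ.filter fun l => h ∈ A ∧ l ∈ B ∧ rA h = rB l) = B.filter (rB · = rA h) := by
      ext l; simp [a, eq_comm]
    rw [this, ← hb]
    by_cases e : P (rA h) = 0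
    · have := (sum_eq_zero_iff_of_nonneg fun x hx => hp x (mem_filter.1 hx).1).1 e h
        (mem_filter.2 ⟨a, rfl⟩)
      simp [this]
    · exact mul_div_cancel_right₀ _ e
  · rw [← sum_filter]
    have : (univ.filter fun h => h ∈ A ∧ l ∈ B ∧ rA h = rB l) = A.filter (rA · = rB l) := by
      ext h; simp [a]
    rw [this, sum_congr rfl fun x hx => by rw [(mem_filter.1 hx).2], ← sum_div, ← sum_mul]
    by_cases e : P (rB l) = 0
    · have := (sum_eq_zero_iff_of_nonneg fun x hx => hp' x (mem_filter.1 hx).1).1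
        ((hb _).symm.trans e) l (mem_filter.2 ⟨a, rfl⟩)
      simp [this]
    · exact mul_div_cancel_left₀ _ e

open Classical in
theorem grid_flow (A B : Finset V) (rA rB : V → R) (sg : R → Bool) (E : V → V → Prop)
    (N J m K : ℝ) (c : Bool → ℝ) (inn : R → ℝ) (hN0 : 0 < N) (hJ0 : 0 < J) (hm : 0 < m)
    (hN : ∀ s, ((univ.filter fun ρ => sg ρ = s).card : ℝ) = N)
    (hE : ∀ h ∈ A, ∀ l ∈ B, E h l → sg (rA h) ≠ sg (rB l))
    (hJ1 : ∀ h ∈ A, ∀ ρ, ((B.filter fun l => rB l = ρ ∧ E h l).card : ℝ) ≤ J)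
    (hJ2 : ∀ l ∈ B, ∀ ρ, ((A.filter fun h => rA h = ρ ∧ E h l).card : ℝ) ≤ J)
    (he : ∀ ρ ρ', sg ρ ≠ sg ρ' → J * m ≤
      ∑ h ∈ A.filter (rA · = ρ), ((B.filter fun l => rB l = ρ' ∧ E h l).card : ℝ))
    (hi : ∀ ρ, 0 ≤ inn ρ ∧ inn ρ ≤ K) (hK : K ≤ N * J * m)
    (hc : ∀ s, ∑ ρ ∈ univ.filter (sg · = s), inn ρ = N * c (!s)) :
    ∃ w d d', Frac A B E d d' w ∧ (∀ h ∈ A, d h * m ≤ c (sg (rA h))) ∧ (∀ l ∈ B, d' l * m ≤ K) ∧
      (∀ ρ, ∑ x ∈ A.filter (rA · = ρ), d x = c (sg ρ)) ∧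
      ∀ ρ, ∑ x ∈ B.filter (rB · = ρ), d' x = inn ρ := by
  let e : R → R → ℝ := fun ρ ρ' =>
    ∑ h ∈ A.filter (rA · = ρ), ((B.filter fun l => rB l = ρ' ∧ E h l).card : ℝ)
  let f : R → R → ℝ := fun ρ ρ' => if sg ρ ≠ sg ρ' then inn ρ' / (N * e ρ ρ') else 0
  have Jm : 0 < J * m := mul_pos hJ0 hm
  have e0 : ∀ ρ ρ', sg ρ ≠ sg ρ' → 0 < e ρ ρ' := fun ρ ρ' g => Jm.trans_le (he ρ ρ' g)
  have f0 : ∀ ρ ρ', 0 ≤ f ρ ρ' := by
    intro ρ ρ'
    simp only [f]
    split_ifs with g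
    · exact div_nonneg (hi _).1 (mul_pos hN0 (e0 _ _ g)).le
    · exact le_rfl
  have f1 : ∀ ρ ρ', J * f ρ ρ' * m ≤ if sg ρ ≠ sg ρ' then inn ρ' / N else 0 := by
    intro ρ ρ'
    simp only [f]
    split_ifs with g
    · rw [show J * (inn ρ' / (N * e ρ ρ')) * m = inn ρ' / N * (J * m / e ρ ρ') by field_simp]
      exact mul_le_of_le_one_right (div_nonneg (hi _).1 hN0.le)
        (div_le_one_of_le₀ (he _ _ g) (e0 _ _ g).le)
    · simp
  have f2 : ∀ ρ ρ', e ρ ρ' * f ρ ρ' = if sg ρ ≠ sg ρ' then inn ρ' / N else 0 := by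
    intro ρ ρ'
    simp only [f]
    split_ifs with g
    · have := e0 _ _ g
      field_simp
    · simp
  have s1 : ∀ ρ, (∑ ρ', if sg ρ ≠ sg ρ' then inn ρ' / N else 0) = c (sg ρ) := by
    intro ρ
    rw [← sum_filter, ← sum_div]
    have : (univ.filter fun ρ' => sg ρ ≠ sg ρ') = univ.filter (sg · = !sg ρ) := by
      ext ρ'; cases sg ρ <;> simp
    rw [this, hc]; simp; field_simp
  have s2 : ∀ ρ', (∑ ρ, if sg ρ ≠ sg ρ' then inn ρ' / N else 0) = inn ρ' := by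
    intro ρ'
    rw [← sum_filter, sum_const]
    have : (univ.filter fun ρ => sg ρ ≠ sg ρ') = univ.filter (sg · = !sg ρ') := by
      ext ρ; cases sg ρ' <;> simp
    rw [this, nsmul_eq_mul, hN]; field_simp
  let w : V → V → ℝ := fun h l => if h ∈ A ∧ l ∈ B ∧ E h l then f (rA h) (rB l) else 0
  have r1 : ∀ h ∈ A, ∑ l, w h l =
      ∑ ρ, ((B.filter fun l => rB l = ρ ∧ E h l).card : ℝ) * f (rA h) ρ := by
    intro h a
    rw [← sum_filter, ← sum_fiberwise (g := rB)]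
    refine sum_congr rfl fun ρ _ => ?_
    rw [sum_congr rfl fun x hx => by rw [(mem_filter.1 hx).2], sum_const, nsmul_eq_mul]
    congr 3
    ext l; simp [a]; tauto
  have r2 : ∀ l ∈ B, ∑ h, w h l =
      ∑ ρ, ((A.filter fun h => rA h = ρ ∧ E h l).card : ℝ) * f ρ (rB l) := by
    intro l a
    rw [← sum_filter, ← sum_fiberwise (g := rA)]
    refine sum_congr rfl fun ρ _ => ?_
    rw [sum_congr rfl fun x hx => by rw [(mem_filter.1 hx).2], sum_const, nsmul_eq_mul]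
    congr 3
    ext l; simp [a]; tauto
  refine ⟨w, fun h => ∑ l, w h l, fun l => ∑ h, w h l, ⟨fun h l => ?_, fun h l => ?_,
    fun h l e => ?_, fun _ _ => rfl, fun _ _ => rfl⟩, fun h a => ?_, fun l a => ?_, fun ρ => ?_,
    fun ρ' => ?_⟩
  · simp only [w]
    split_ifs
    exacts [f0 _ _, le_rfl]
  · simp only [w]
    split_ifs with g
    · have g' := hE h g.1 l g.2.1 g.2.2
      have := f1 (rA h) (rB l)
      rw [if_pos g', le_div_iff₀ hN0] at this
      have := (hi (rB l)).2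
      by_contra q
      have := mul_pos (mul_pos hN0 Jm) (sub_pos.2 (not_le.1 q))
      nlinarith
    · exact zero_le_one
  · by_contra g
    exact e (if_neg g)
  · beta_reduce
    rw [r1 h a, ← s1, sum_mul]
    refine sum_le_sum fun ρ _ => le_trans ?_ (f1 _ _)
    exact mul_le_mul_of_nonneg_right (mul_le_mul_of_nonneg_right (hJ1 h a ρ) (f0 _ _)) hm.le
  · beta_reduce
    rw [r2 l a, sum_mul]
    refine le_trans ?_ ((s2 (rB l)).le.trans (hi _).2)
    refine sum_le_sum fun ρ _ => le_trans ?_ (f1 _ _)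
    exact mul_le_mul_of_nonneg_right (mul_le_mul_of_nonneg_right (hJ2 l a ρ) (f0 _ _)) hm.le
  · beta_reduce
    rw [sum_congr rfl fun x hx => by rw [r1 x (mem_filter.1 hx).1, (mem_filter.1 hx).2], sum_comm,
      ← s1]
    exact sum_congr rfl fun ρ' _ => by rw [← sum_mul, f2]
  · beta_reduce
    rw [sum_congr rfl fun x hx => by rw [r2 x (mem_filter.1 hx).1, (mem_filter.1 hx).2], sum_comm,
      ← s2]
    refine sum_congr rfl fun ρ _ => ?_
    rw [← sum_mul, ← f2]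
    congr 1
    simp only [e]
    rw [← Nat.cast_sum, ← Nat.cast_sum]
    congr 1
    have := sum_card_bipartiteAbove_eq_sum_card_bipartiteBelow (s := A.filter (rA · = ρ))
      (t := B.filter (rB · = ρ')) E
    simp only [bipartiteAbove, bipartiteBelow, filter_filter] at this
    exact this.symm

open Classical in
theorem grid (A B : Finset V) (rA rB : V → R) (sg : R → Bool) (E : V → V → Prop) (p p' : V → ℝ)
    (N J M m l1 h1 l2 h2 Ip Im : ℝ) (hN0 : 0 < N) (hJ0 : 0 < J) (hm : 0 < m)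
    (hN : ∀ s, ((univ.filter fun ρ => sg ρ = s).card : ℝ) = N)
    (hE : ∀ h ∈ A, ∀ l ∈ B, E h l → sg (rA h) ≠ sg (rB l))
    (hJ1 : ∀ h ∈ A, ∀ ρ, ((B.filter fun l => rB l = ρ ∧ E h l).card : ℝ) ≤ J)
    (hJ2 : ∀ l ∈ B, ∀ ρ, ((A.filter fun h => rA h = ρ ∧ E h l).card : ℝ) ≤ J)
    (he : ∀ ρ ρ', sg ρ ≠ sg ρ' → J * m ≤
      ∑ h ∈ A.filter (rA · = ρ), ((B.filter fun l => rB l = ρ' ∧ E h l).card : ℝ))
    (hA : ∀ ρ, m ≤ (A.filter (rA · = ρ)).card ∧ ((A.filter (rA · = ρ)).card : ℝ) ≤ M)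
    (hB : ∀ ρ, m ≤ (B.filter (rB · = ρ)).card ∧ ((B.filter (rB · = ρ)).card : ℝ) ≤ M)
    (hp : ∀ x ∈ A, l1 ≤ p x ∧ p x ≤ h1) (hp' : ∀ x ∈ B, l2 ≤ p' x ∧ p' x ≤ h2)
    (hs : ∑ x ∈ A, p x = ∑ x ∈ B, p' x)
    (n0 : 0 ≤ Ip) (n1 : 0 ≤ l1) (n2 : 0 ≤ l2) (n3 : l1 ≤ h1) (n4 : l2 ≤ h2)
    (n5 : M * h1 - m * l2 ≤ Ip) (n6 : M * h2 - m * l1 ≤ Im) (n7 : 2 * Ip + Im ≤ N * J * m)
    (n8 : 2 * Ip ≤ l1 * m) (n9 : 2 * Ip + Im ≤ l2 * m) (n10 : h1 * h2 ≤ m * l1 - 2 * Ip) :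
    ∃ w, Frac A B (fun h l => rA h = rB l ∨ E h l) p p' w := by
  have bd : ∀ (s : Finset V) (f : V → ℝ) (a b : ℝ), 0 ≤ a → a ≤ b → m ≤ s.card →
      (s.card : ℝ) ≤ M → (∀ x ∈ s, a ≤ f x ∧ f x ≤ b) →
      m * a ≤ ∑ x ∈ s, f x ∧ ∑ x ∈ s, f x ≤ M * b := by
    intro s f a b h0 hab q1 q2 q3
    have a1 := card_nsmul_le_sum s f a fun x hx => (q3 x hx).1
    have a2 := sum_le_card_nsmul s f b fun x hx => (q3 x hx).2
    rw [nsmul_eq_mul] at a1 a2
    constructor <;> nlinarith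
  have bA := fun ρ => bd _ p l1 h1 n1 n3 (hA ρ).1 (hA ρ).2 fun x hx => hp x (mem_filter.1 hx).1
  have bB := fun ρ => bd _ p' l2 h2 n2 n4 (hB ρ).1 (hB ρ).2 fun x hx => hp' x (mem_filter.1 hx).1
  let I : R → ℝ := fun ρ => ∑ x ∈ A.filter (rA · = ρ), p x - ∑ x ∈ B.filter (rB · = ρ), p' x
  have I1 : ∀ ρ, I ρ ≤ Ip := fun ρ => by have := bA ρ; have := bB ρ; simp only [I]; linarith
  have I2 : ∀ ρ, -Im ≤ I ρ := fun ρ => by have := bA ρ; have := bB ρ; simp only [I]; linarith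
  let S : Bool → ℝ := fun s => ∑ ρ ∈ univ.filter (sg · = s), I ρ
  have S1 : ∀ s, S s ≤ N * Ip := fun s => by
    have := sum_le_card_nsmul (univ.filter (sg · = s)) I Ip fun x _ => I1 x
    rwa [nsmul_eq_mul, hN] at this
  have S2 : ∀ s, S (!s) = -S s := by
    have : S true + S false = 0 := by
      have := sum_fiberwise univ sg I
      simp only [Fintype.univ_bool, mem_singleton, Bool.true_eq_false, not_false_eq_true,
        sum_insert, sum_singleton] at this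
      simp only [S]
      rw [this, sum_sub_distrib, sum_fiberwise A rA p, sum_fiberwise B rB p', hs, sub_self]
    intro s
    cases s <;> simp <;> linarith
  let c : Bool → ℝ := fun s => Ip + max 0 (S s / N)
  have c1 : ∀ s, Ip ≤ c s := fun s => le_add_of_nonneg_right (le_max_left _ _)
  have c2 : ∀ s, c s ≤ 2 * Ip := fun s => by
    have : max 0 (S s / N) ≤ Ip := max_le n0 (by rw [div_le_iff₀ hN0]; linarith [S1 s])
    simp only [c]; linarith
  obtain ⟨w, d, d', hw, d1, d2, d3, d4⟩ := grid_flow A B rA rB sg E N J m (2 * Ip + Im) c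
    (fun ρ => c (sg ρ) - I ρ) hN0 hJ0 hm hN hE hJ1 hJ2 he
    (fun ρ => ⟨by linarith [c1 (sg ρ), I1 ρ], by linarith [c2 (sg ρ), I2 ρ]⟩) n7 (fun s => by
      rw [sum_sub_distrib, sum_congr rfl fun x hx => by rw [(mem_filter.1 hx).2], sum_const,
        nsmul_eq_mul, hN]
      change N * c s - S s = _
      simp only [c, S2]
      have : max 0 (-S s / N) = max 0 (S s / N) - S s / N := by
        rw [neg_div]
        rcases le_total 0 (S s / N) with g | g
        · rw [max_eq_right g, max_eq_left (by linarith)]; ring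
        · rw [max_eq_left g, max_eq_right (by linarith)]; ring
      rw [this]; field_simp; ring)
  have e1 : ∀ x ∈ A, 0 ≤ d x := fun x hx => hw.row x hx ▸ sum_nonneg fun l _ => hw.nn x l
  have e2 : ∀ x ∈ B, 0 ≤ d' x := fun x hx => hw.col x hx ▸ sum_nonneg fun l _ => hw.nn l x
  have e3 : ∀ x ∈ A, 0 ≤ p x - d x := fun x hx => by
    have := d1 x hx
    have := c2 (sg (rA x))
    have := (hp x hx).1
    have : d x ≤ l1 := le_of_mul_le_mul_right (by linarith) hm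
    linarith
  have e4 : ∀ x ∈ B, 0 ≤ p' x - d' x := fun x hx => by
    have := d2 x hx
    have := (hp' x hx).1
    have : d' x ≤ l2 := le_of_mul_le_mul_right (by linarith) hm
    linarith
  obtain ⟨u, hu⟩ := grid_rows A B rA rB (fun x => p x - d x) (fun x => p' x - d' x) e3 e4
    (fun ρ => by rw [sum_sub_distrib, sum_sub_distrib, d3, d4]; simp only [I]; ring)
    (fun h a l b _ => by
      rw [sum_sub_distrib, d3]
      have := c2 (sg (rA h))
      have := (bA (rA h)).1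
      have : (p h - d h) * (p' l - d' l) ≤ h1 * h2 :=
        mul_le_mul (by linarith [(hp h a).2, e1 h a]) (by linarith [(hp' l b).2, e2 l b])
          (e4 l b) (by linarith)
      linarith)
  exact ⟨_, (hu.add hw fun h a l b q g => hE h a l b g (by rw [q])).mono (fun _ _ _ _ q => q)
    (fun x _ => by ring) fun x _ => by ring⟩

end

end Pool.Agent.Lib.MP_71763b_co
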