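import Mathlib

namespace Pool.Agent.Lib.MP_71763b_co

open Finset

open Classical in
/-- Hall's theorem with capacities -/
theorem cap_hall {α : Type} (Y : Finset α) (K : Finset ℕ) (opt : α → ℕ → Prop) (κ : ℕ → ℕ)
    (h : ∀ I ⊆ K, (Y.filter fun y => ∀ i ∈ I, ¬ opt y i).card ≤ ∑ i ∈ K \ I, κ i) :
    ∃ f : α → ℕ, (∀ y ∈ Y, f y ∈ K ∧ opt y (f y)) ∧ ∀ i, (Y.filter fun y => f y = i).card ≤ κ i := by
  let T : Y → Finset (Σ _ : ℕ, ℕ) := fun y => (K.filter (opt y.1)).sigma fun i => range (κ i)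
  obtain ⟨f, hf, hT⟩ := (all_card_le_biUnion_card_iff_exists_injective T).1 fun s => by
    have h1 := h (K.filter fun i => ∀ y ∈ s, ¬ opt y.1 i) (filter_subset _ _)
    have h2 : s.card ≤ (Y.filter fun y =>
        ∀ i ∈ K.filter fun i => ∀ y ∈ s, ¬ opt y.1 i, ¬ opt y i).card :=
      card_le_card_of_injOn Subtype.val (fun y hy => by
        simp only [coe_filter, mem_filter, Set.mem_ofPred_eq]
        exact ⟨y.2, fun i hi => hi.2 y hy⟩) Subtype.val_injective.injOn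
    refine h2.trans (h1.trans ?_)
    have h3 : ((K \ K.filter fun i => ∀ y ∈ s, ¬ opt y.1 i).sigma fun i => range (κ i)) ⊆
        s.biUnion T := by
      intro e he
      simp only [mem_sigma, mem_sdiff, mem_filter, not_and, not_forall, not_not] at he
      obtain ⟨y, hy, ho⟩ := he.1.2 he.1.1
      exact mem_biUnion.2 ⟨y, hy, mem_sigma.2 ⟨mem_filter.2 ⟨he.1.1, ho⟩, he.2⟩⟩
    have := card_le_card h3
    simpa [card_sigma] using this
  refine ⟨fun y => if hy : y ∈ Y then (f ⟨y, hy⟩).1 else 0, fun y hy => ?_, fun i => ?_⟩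
  · simp only [hy, dif_pos]
    exact mem_filter.1 (mem_sigma.1 (hT ⟨y, hy⟩)).1
  · rw [← card_range (κ i)]
    refine card_le_card_of_injOn (fun y => if hy : y ∈ Y then (f ⟨y, hy⟩).2 else 0) ?_ ?_
    · intro y hy
      simp only [coe_filter, Set.mem_ofPred_eq] at hy
      obtain ⟨hy, e⟩ := hy
      simp only [hy, dif_pos] at e ⊢
      subst e
      exact (mem_sigma.1 (hT ⟨y, hy⟩)).2
    · intro y hy z hz e
      simp only [coe_filter, Set.mem_ofPred_eq] at hy hz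
      obtain ⟨hy, e1⟩ := hy
      obtain ⟨hz, e2⟩ := hz
      simp only [hy, hz, dif_pos] at e e1 e2
      have : f ⟨y, hy⟩ = f ⟨z, hz⟩ := Sigma.ext (e1.trans e2.symm) (heq_of_eq e)
      exact congrArg Subtype.val (hf this)

open Classical in
theorem cap_exact {α : Type} (Y : Finset α) (K : Finset ℕ) (opt : α → ℕ → Prop) (κ : ℕ → ℕ)
    (hs : ∑ i ∈ K, κ i = Y.card)
    (h : ∀ I ⊆ K, (Y.filter fun y => ∀ i ∈ I, ¬ opt y i).card ≤ ∑ i ∈ K \ I, κ i) :
    ∃ f : α → ℕ, (∀ y ∈ Y, f y ∈ K ∧ opt y (f y)) ∧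
      ∀ i ∈ K, (Y.filter fun y => f y = i).card = κ i := by
  obtain ⟨f, h1, h2⟩ := cap_hall Y K opt κ h
  refine ⟨f, h1, (sum_eq_sum_iff_of_le fun i _ => h2 i).1 ?_⟩
  rw [hs, card_eq_sum_card_fiberwise fun y hy => (h1 y hy).1]

theorem exists_split (g E : ℕ) (hg : 0 < g) :
    ∃ x : ℕ → ℕ, ∑ i ∈ range g, x i = E ∧ ∀ i, E / g ≤ x i ∧ x i ≤ E / g + 1 := by
  refine ⟨fun i => E / g + if i < E % g then 1 else 0, ?_, fun i => by dsimp only; split_ifs <;> omega⟩
  rw [sum_add_distrib, ← card_filter]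
  have : ((range g).filter fun i => i < E % g) = range (E % g) := by
    have := Nat.mod_lt E hg
    ext i; simp; omega
  rw [this]
  simpa using Nat.div_add_mod E g

end Pool.Agent.Lib.MP_71763b_co
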