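import Pool.Agent.Lib.MP_71763b_co.GenD

namespace Pool.Agent.Lib.MP_71763b_co

open Finset

variable {g : ℕ}

def PJ (γ1 γ2 x u : Cu g) : Prop :=
  (x + u = γ1 ∧ co 0 x = 0 ∧ co (g + 1) x = 0) ∨ (x + u = γ2 ∧ co (g + 1) x = 1 ∧ co g x ≠ co 0 x)

theorem card_one (R : Cu g → Prop) (x z : Cu g) (Q : Prop) (h : Q → R (x + z)) :
    (fs fun u => R u ∧ x + u = z ∧ Q).card = ind Q := by
  by_cases q : Q
  · rw [ind_pos q, card_eq_one]
    refine ⟨x + z, ?_⟩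
    ext u
    simp only [mem_fs, cu_eq_iff, mem_singleton]
    exact ⟨fun a => a.2.1, fun a => ⟨a ▸ h q, a, q⟩⟩
  · rw [ind_neg q, fs_empty fun u a => q a.2.2]

noncomputable def baseJ (δ : ℕ) (x : Cu g) : ℤ :=
  δ + ind (co g x = 1) - ind (co 0 x = 1) - ind (co (g + 1) x = 1)

theorem jcol (Om D : Finset (Cu g)) (γ1 γ2 : Cu g) (B : Cu g → Prop) (K : ℕ) (hK : 0 < K)
    (own : Cu g → Cu g → ℕ)
    (hO : ∀ ω ∈ Om, co g ω = 1 ∧ co 0 ω = 1 ∧ co (g + 1) ω = 1)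
    (hD : ∀ z ∈ D, co g z = 1 ∧ co 0 z = 0 ∧ co (g + 1) z = 0)
    (h1 : co g γ1 = 1 ∧ co 0 γ1 = 0 ∧ co (g + 1) γ1 = 0) (h1' : γ1 ∉ D)
    (h2 : co g γ2 = 1 ∧ co 0 γ2 = 1 ∧ co (g + 1) γ2 = 0)
    (hB : ∀ z, B z → co g z = 1 ∧ co (g + 1) z = 1) (hBK : (fs B).card ≤ K)
    (J1 : ∀ l, co g l = 0 → co 0 l = 1 → co (g + 1) l = 1 →
      2 ≤ (fs fun u => u ∈ Om ∧ l + u ∈ D).card)
    (J2 : ∀ h, co g h = 1 → co (g + 1) h = 0 → K + 2 * (fs fun l => co 0 l = 1 ∧ B (h + l)).card ≤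
      ∑ l ∈ fs fun l => co 0 l = 1 ∧ B (h + l), (fs fun u => u ∈ Om ∧ l + u ∈ D).card)
    (o1 : ∀ x u, (x + u ∈ D ∨ PJ γ1 γ2 x u) ∨ B (x + u) → own x u = g)
    (o2 : ∀ x u, co (g + 1) x = co (g + 1) u → own x u = g → x + u ∈ D ∨ PJ γ1 γ2 x u) :
    ∃ w, Fine Om own g (baseJ (D.card + 1)) (baseJ (D.card + 1)) w := by
  classical
  let Fx : Cu g → Cu g → Prop := fun x u => x + u ∈ D ∨ PJ γ1 γ2 x u
  have Fx1 : ∀ x u, Fx x u → co g (x + u) = 1 ∧ co (g + 1) (x + u) = 0 := fun x u h => by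
    rcases h with h | ⟨h, -⟩ | ⟨h, -⟩
    exacts [⟨(hD _ h).1, (hD _ h).2.2⟩, h ▸ ⟨h1.1, h1.2.2⟩, h ▸ ⟨h2.1, h2.2.2⟩]
  have Fx2 : ∀ x u, Fx x u → Fx u x := fun x u h => by
    simp only [Fx, PJ, add_comm u]
    refine h.imp_right (Or.imp (fun a => ⟨a.1, ?_⟩) fun a => ⟨a.1, ?_⟩)
    · simp [cu_eq_iff.1 a.1, co_add, a.2, h1]
    · simpa [cu_eq_iff.1 a.1, co_add, a.2.1, h2] using a.2.2
  have Fx3 : ∀ x, nb Om Fx x = D.card - (fs fun u => u ∈ Om ∧ x + u ∈ D).card +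
      ir (co 0 x = 0 ∧ co (g + 1) x = 0) + ir (co (g + 1) x = 1 ∧ co g x ≠ co 0 x) := fun x => by
    rw [← nb_eq]
    simp only [nb, Fx, PJ, and_or_left]
    rw [fs_or, fs_or, card_one (· ∉ Om), card_one (· ∉ Om)]
    · simp only [ir]; push_cast; ring
    · intro q e
      obtain ⟨a, b, -⟩ := hO _ e
      rw [co_add, h2.1, add_eq_right] at a
      rw [co_add, h2.2.1, add_eq_right] at b
      exact q.2 (a.trans b.symm)
    · intro q e
      simpa [co_add, q.2, h1] using (hO _ e).2.2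
    · exact fun u a b => by simpa [a.2.2.2] using b.2.2.1
    · rintro u a (b | b)
      · exact h1' (b.2.1 ▸ a.2)
      · simpa [b.2.1, h2] using (hD _ a.2).2.1
  obtain ⟨w1, hw1, w1e⟩ := Frac.unif (fun x => x ∉ Om ∧ co g x = 1) (fun x => x ∉ Om ∧ co g x = 0)
    Fx (fun _ => 1) (fun _ => 1) (fun _ _ _ _ _ => rfl) (by simp)
  have sH : ∀ h, co g h = 1 →
      ((fs fun l => (l ∉ Om ∧ co g l = 0) ∧ Fx h l).card : ℝ) = nb Om Fx h := fun h a =>
    congrArg _ (congrArg _ (fs_congr fun l => ⟨fun q => ⟨q.1.1, q.2⟩,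
      fun q => ⟨⟨q.1, by simpa [co_add, a] using (Fx1 _ _ q.2).1⟩, q.2⟩⟩))
  have sL : ∀ l, co g l = 0 →
      ((fs fun h => (h ∉ Om ∧ co g h = 1) ∧ Fx h l).card : ℝ) = nb Om Fx l := fun l a =>
    congrArg _ (congrArg _ (fs_congr fun h => ⟨fun q => ⟨q.1.1, Fx2 _ _ q.2⟩,
      fun q => ⟨⟨q.1, by simpa [co_add, a] using (Fx1 _ _ q.2).1⟩, Fx2 _ _ q.2⟩⟩))
  let c : Cu g → ℝ := fun l => (fs fun u => u ∈ Om ∧ l + u ∈ D).card - 2
  let C : Cu g → ℝ := fun h => ∑ l ∈ fs fun l => co 0 l = 1 ∧ B (h + l), c l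
  have tg : ∀ h l, co g h = 1 → co (g + 1) h = 0 → B (h + l) → co g l = 0 ∧ co (g + 1) l = 1 :=
    fun h l a b e => by simpa [co_add, a, b] using hB _ e
  have c0 : ∀ l, co g l = 0 → co 0 l = 1 → co (g + 1) l = 1 → 0 ≤ c l := fun l a b e =>
    sub_nonneg.2 (by exact_mod_cast J1 l a b e)
  have C0 : ∀ h, co g h = 1 → co (g + 1) h = 0 → (K : ℝ) ≤ C h := fun h a b => by
    have : (_ : ℝ) ≤ _ := Nat.cast_le.2 (J2 h a b)
    simp only [C, c, sum_sub_distrib, sum_const, nsmul_eq_mul]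
    push_cast at this
    linarith
  have K0 : (0 : ℝ) < K := Nat.cast_pos.2 hK
  let T : Cu g → Cu g → Prop := fun h l => co g h = 1 ∧ co (g + 1) h = 0 ∧ co 0 l = 1 ∧ B (h + l)
  let w2 : Cu g → Cu g → ℝ := fun h l => if T h l then c l / C h else 0
  have T0 : ∀ h l, T h l → 0 ≤ c l := fun h l q =>
    c0 l (tg h l q.1 q.2.1 q.2.2.2).1 q.2.2.1 (tg h l q.1 q.2.1 q.2.2.2).2
  have hw2 : Frac (fs fun x => x ∉ Om ∧ co g x = 1) (fs fun x => x ∉ Om ∧ co g x = 0) T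
      (fun h => ∑ l, w2 h l) (fun l => ∑ h, w2 h l) w2 := by
    refine ⟨fun h l => ?_, fun h l => ?_, fun h l e => ?_, fun _ _ => rfl, fun _ _ => rfl⟩
    · simp only [w2]
      split_ifs with q
      exacts [div_nonneg (T0 h l q) (K0.le.trans (C0 h q.1 q.2.1)), le_rfl]
    · simp only [w2]
      split_ifs with q
      · exact div_le_one_of_le₀ (single_le_sum (f := c) (fun l' e =>
          T0 h l' ⟨q.1, q.2.1, by simpa using e⟩) (by simpa using q.2.2)) (K0.le.trans (C0 h q.1 q.2.1))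
      · exact zero_le_one
    · have q : T h l := by by_contra q; exact e (if_neg q)
      have := tg h l q.1 q.2.1 q.2.2.2
      exact ⟨mem_fs.2 ⟨fun r => by simpa [q.2.1] using (hO _ r).2.2, q.1⟩,
        mem_fs.2 ⟨fun r => by simpa [this.1] using (hO _ r).1, this.1⟩, q⟩
  have r2 : ∀ h, co g h = 1 → ∑ l, w2 h l = ir (co (g + 1) h = 0) := fun h a => by
    by_cases b : co (g + 1) h = 0
    · rw [ir_pos b, ← sum_filter, ← sum_div, filter_univ_fs,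
        fs_congr (Q := fun l => co 0 l = 1 ∧ B (h + l)) fun l => by simp [T, a, b]]
      exact div_self (K0.trans_le (C0 h a b)).ne'
    · rw [ir_neg b]
      exact sum_eq_zero fun l _ => if_neg fun q => b q.2.1
  have r3 : ∀ l, co g l = 0 → co 0 l = 1 → co (g + 1) l = 1 → ∑ h, w2 h l ≤ c l := fun l a b e => by
    rw [← sum_filter, filter_univ_fs]
    refine (sum_le_card_nsmul _ _ (c l / K) fun h q => ?_).trans ?_
    · exact div_le_div_of_nonneg_left (c0 l a b e) K0 (C0 h (mem_fs.1 q).1 (mem_fs.1 q).2.1)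
    · have : ((fs fun h => T h l).card : ℝ) ≤ K := Nat.cast_le.2
        ((fs_le fun h q => add_comm h l ▸ q.2.2.2).trans ((card_shift l B).le.trans hBK))
      rw [nsmul_eq_mul]
      exact (mul_le_mul_of_nonneg_right this (div_nonneg (c0 l a b e) K0.le)).trans
        (mul_div_cancel₀ _ K0.ne').le
  have r4 : ∀ l, co g l = 0 → ¬ (co 0 l = 1 ∧ co (g + 1) l = 1) → ∑ h, w2 h l = 0 ∧
      (fs fun u => u ∈ Om ∧ l + u ∈ D).card = 0 := fun l a b =>
    ⟨sum_eq_zero fun h _ => if_neg fun q => b ⟨q.2.2.1, (tg h l q.1 q.2.1 q.2.2.2).2⟩,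
      fs_empty fun u q => b (by
        have := (hD _ q.2).2
        rw [co_add, co_add, (hO _ q.1).2.1, (hO _ q.1).2.2] at this
        exact (by decide : ∀ a b : F2, a + 1 = 0 ∧ b + 1 = 0 → a = 1 ∧ b = 1) _ _ this)⟩
  have hw := hw1.add hw2 fun h _ l _ a b => by simpa [(Fx1 _ _ a.1).2] using (hB _ b.2.2.2).2
  have bs : ∀ x : Cu g, (baseJ (D.card + 1) x : ℝ) =
      D.card + 1 + ir (co g x = 1) - ir (co 0 x = 1) - ir (co (g + 1) x = 1) :=
    fun x => by simp [baseJ, ir]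
  have i0 : ir False = 0 := ir_neg id
  have i1 : ir True = 1 := ir_pos trivial
  refine ⟨_, fun h l => ⟨hw.nn h l, hw.le h l⟩, fun h l e => ?_, fun h hh l hl a1 a2 a3 a4 => ?_,
    fun x hx e => ?_, fun x hx e => ?_⟩
  · obtain ⟨a1, a2, a3⟩ := hw.sp h l e
    rw [mem_fs] at a1 a2
    refine ⟨a1.1, a2.1, a1.2, a2.2, o1 h l (a3.imp And.left fun q => q.2.2.2), ?_⟩
    have : (co 0 h = co 0 l ∨ co 0 h = 0 ∨ co 0 l = 1) ∧
        (co (g + 1) h = co (g + 1) l ∨ co (g + 1) h = 0) := by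
      have key : ∀ a b : F2, a + b = 0 → a = b := by decide
      rcases a3 with ⟨a, -⟩ | a
      · refine ⟨?_, Or.inl (key _ _ (co_add _ h l ▸ (Fx1 _ _ a).2))⟩
        rcases a with a | a | a
        · exact Or.inl (key _ _ (co_add _ h l ▸ (hD _ a).2.1))
        · exact Or.inr (Or.inl a.2.1)
        · exact Or.inr (Or.inl (f2_ne1.1 (a1.2 ▸ a.2.2.symm)))
      · exact ⟨Or.inr (Or.inr a.2.2.1), Or.inr a.2.1⟩
    unfold baseJ
    rw [a1.2, a2.2]
    revert this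
    rcases f2_cases (co 0 h) with r | r <;> rcases f2_cases (co 0 l) with s | s <;>
      rcases f2_cases (co (g + 1) h) with r' | r' <;> rcases f2_cases (co (g + 1) l) with s' | s' <;>
      simp [r, s, r', s'] <;> omega
  · have := w1e h l ⟨hh, a1⟩ ⟨hl, a2⟩ (o2 h l a4 a3)
    linarith [hw.le h l, hw2.nn h l]
  · rw [hw.row x (mem_fs.2 ⟨hx, e⟩), sH x e, Fx3, r2 x e, bs,
      fs_empty fun u q => by simpa [co_add, e, (hO _ q.1).1] using (hD _ q.2).1]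
    rcases f2_cases (co 0 x) with r | r <;> rcases f2_cases (co (g + 1) x) with s | s <;>
      simp [r, s, e, i0, i1]
  · rw [hw.col x (mem_fs.2 ⟨hx, e⟩), sL x e, Fx3, bs]
    by_cases q : co 0 x = 1 ∧ co (g + 1) x = 1
    · have := r3 x e q.1 q.2
      simp only [c] at this
      simp [q, e, i0, i1]
      linarith
    · rw [(r4 x e q).1, (r4 x e q).2]
      rcases f2_cases (co 0 x) with r | r <;> rcases f2_cases (co (g + 1) x) with s | s <;>
        simp [r, s, e, i0, i1] at q ⊢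

end Pool.Agent.Lib.MP_71763b_co
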