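import Pool.Agent.Lib.MP_71763b_co.Core

namespace Pool.Agent.Lib.MP_71763b_co

open Finset

structure G3 {n : ℕ} (k : ℕ) (c : Fin n → Fin n → ℕ) : Prop where
  sym : ∀ u v, c u v = c v u
  lt : ∀ u v, c u v < k
  np : ∀ j < k, NoPath c j 2

section
variable {n k : ℕ} {c : Fin n → Fin n → ℕ}

def Ad (c : Fin n → Fin n → ℕ) (j : ℕ) (u v : Fin n) : Prop := v ≠ u ∧ c u v = j

theorem G3.ad_symm (h : G3 k c) {j : ℕ} {u v : Fin n} (a : Ad c j u v) : Ad c j v u :=
  ⟨a.1.symm, by rw [h.sym]; exact a.2⟩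

theorem G3.path3 (h : G3 k c) {j : ℕ} {a b d : Fin n} (h1 : Ad c j b a) (h2 : Ad c j b d)
    (h3 : a ≠ d) (h4 : deg c j a ≤ deg c j b) (h5 : deg c j b ≤ deg c j d) : False := by
  have hj : j < k := h1.2 ▸ h.lt b a
  have := h.np j hj [a, b, d] (by simp [h1.1, h2.1.symm, h3])
    (by simp [R, h1.1, h2.1.symm, h4, h5, h2.2, h.sym a b, h1.2])
  simp at this

def HH (c : Fin n → Fin n → ℕ) (j : ℕ) (v : Fin n) : Prop := ∃ u, Ad c j v u ∧ deg c j u < deg c j v
def LL (c : Fin n → Fin n → ℕ) (j : ℕ) (v : Fin n) : Prop := ∃ u, Ad c j v u ∧ deg c j v < deg c j u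
def KK (c : Fin n → Fin n → ℕ) (j : ℕ) (v : Fin n) : Prop := ∃ u, Ad c j v u ∧ deg c j u = deg c j v
def II (c : Fin n → Fin n → ℕ) (j : ℕ) (v : Fin n) : Prop := ∀ u, ¬ Ad c j v u

theorem G3.k_uniq (h : G3 k c) {j : ℕ} {v u w : Fin n} (h1 : Ad c j v u)
    (h2 : deg c j u = deg c j v) (h3 : Ad c j v w) : w = u := by
  by_contra hne
  rcases le_total (deg c j w) (deg c j v) with g | g
  · exact h.path3 h3 h1 hne g h2.ge
  · exact h.path3 h1 h3 (Ne.symm hne) h2.le g

theorem G3.k_eq (h : G3 k c) {j : ℕ} {v w : Fin n} (h1 : KK c j v) (h3 : Ad c j v w) :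
    deg c j w = deg c j v := by
  obtain ⟨u, a, b⟩ := h1
  rw [h.k_uniq a b h3, b]

theorem G3.h_lt (h : G3 k c) {j : ℕ} {v w : Fin n} (h1 : HH c j v) (h3 : Ad c j v w) :
    deg c j w < deg c j v := by
  obtain ⟨u, a, b⟩ := h1
  by_cases e : u = w
  · exact e ▸ b
  · by_contra g
    exact h.path3 a h3 e b.le (by omega)

theorem G3.l_lt (h : G3 k c) {j : ℕ} {v w : Fin n} (h1 : LL c j v) (h3 : Ad c j v w) :
    deg c j v < deg c j w := by
  obtain ⟨u, a, b⟩ := h1
  by_cases e : w = u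
  · exact e ▸ b
  · by_contra g
    exact h.path3 h3 a e (by omega) b.le

def Bt (c : Fin n → Fin n → ℕ) (j : ℕ) (v : Fin n) : Prop :=
  HH c j v ∨ ∃ u, Ad c j v u ∧ deg c j u = deg c j v ∧ u < v

theorem G3.bt_ad (h : G3 k c) {j : ℕ} {u v : Fin n} (a : Ad c j u v) : Bt c j u ↔ ¬ Bt c j v := by
  have a' := h.ad_symm a
  have key : ∀ u v, Ad c j u v → deg c j v < deg c j u → Bt c j u ∧ ¬ Bt c j v := by
    intro u v a g
    have a' := h.ad_symm a
    refine ⟨Or.inl ⟨v, a, g⟩, ?_⟩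
    rintro (b | ⟨w, b1, b2, _⟩)
    · have := h.h_lt b a'; omega
    · have := h.k_eq ⟨w, b1, b2⟩ a'; omega
  have key2 : ∀ u v, Ad c j u v → deg c j v = deg c j u → v < u → Bt c j u ∧ ¬ Bt c j v := by
    intro u v a g hlt
    have a' := h.ad_symm a
    refine ⟨Or.inr ⟨v, a, g, hlt⟩, ?_⟩
    rintro (b | ⟨w, b1, b2, b3⟩)
    · have := h.h_lt b a'; omega
    · have := h.k_uniq b1 b2 a'
      subst this
      exact absurd hlt (not_lt.2 b3.le)
  rcases lt_trichotomy (deg c j u) (deg c j v) with g | g | g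
  · have := key v u a' g; tauto
  · rcases lt_or_gt_of_ne a.1 with e | e
    · have := key2 u v a g.symm e; tauto
    · have := key2 v u a' g e; tauto
  · have := key u v a g
    exact ⟨fun _ => this.2, fun _ => this.1⟩

theorem deg_ad (j : ℕ) (v : Fin n) : deg c j v = ∑ u, ind (Ad c j v u) := rfl

theorem deg_pos_of_ad {j : ℕ} {v u : Fin n} (a : Ad c j v u) : 0 < deg c j v := by
  rw [deg_ad]
  exact sum_pos' (fun _ _ => Nat.zero_le _) ⟨u, mem_univ _, by rw [ind_pos a]; omega⟩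

/-- double counting over the edges of one colour -/
theorem G3.dc (h : G3 k c) (j : ℕ) (f : Fin n → Fin n → ℝ) :
    (∑ v, ∑ u, (ind (¬ Bt c j v ∧ Ad c j v u) : ℝ) * f v u) =
      ∑ u, ∑ v, (ind (Bt c j u ∧ Ad c j u v) : ℝ) * f v u := by
  rw [sum_comm]
  refine sum_congr rfl fun u _ => sum_congr rfl fun v _ => ?_
  have : (¬ Bt c j v ∧ Ad c j v u) ↔ (Bt c j u ∧ Ad c j u v) := by
    constructor
    · rintro ⟨a, b⟩
      exact ⟨(h.bt_ad (h.ad_symm b)).2 a, h.ad_symm b⟩
    · rintro ⟨a, b⟩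
      exact ⟨(h.bt_ad b).1 a, h.ad_symm b⟩
  simp only [this]

theorem sum_ad0 (j : ℕ) (v : Fin n) (x : ℝ) :
    (∑ u, (ind (Ad c j v u) : ℝ) * x) = deg c j v * x := by
  rw [deg_ad, ← sum_mul]; push_cast; rfl

theorem sum_ad (P : Prop) (j : ℕ) (v : Fin n) (x : ℝ) :
    (∑ u, (ind (P ∧ Ad c j v u) : ℝ) * x) = ind P * (deg c j v * x) := by
  by_cases g : P
  · simp only [g, true_and, ind_true]
    rw [sum_ad0]; simp
  · simp [g]

theorem G3.colour_bound (h : G3 k c) (j : ℕ) (ν : ℝ) :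
    (2 * ν - 1) * (∑ v, (ind (¬ Bt c j v ∧ ¬ KK c j v) : ℝ)) -
      ν ^ 2 * ((∑ v, (ind (¬ Bt c j v) : ℝ)) - ∑ v, (ind (Bt c j v) : ℝ)) ≤
    ∑ v, (ind (¬ Bt c j v) : ℝ) * deg c j v := by
  have e1 : (∑ v, (ind (Bt c j v) : ℝ)) =
      ∑ v, ∑ u, (ind (¬ Bt c j v ∧ Ad c j v u) : ℝ) * (1 / (deg c j u : ℝ)) := by
    rw [h.dc j fun _ u => 1 / (deg c j u : ℝ)]
    refine sum_congr rfl fun u _ => ?_
    rw [sum_ad]
    by_cases g : Bt c j u
    · have : 0 < deg c j u := by
        rcases g with ⟨w, a, _⟩ | ⟨w, a, _⟩ <;> exact deg_pos_of_ad a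
      field_simp
    · simp [g]
  rw [e1, ← sum_sub_distrib, mul_sum, mul_sum, ← sum_sub_distrib]
  refine sum_le_sum fun v _ => ?_
  by_cases g : Bt c j v
  · simp [g]
  simp only [g, not_false_eq_true, true_and, ind_true, Nat.cast_one, one_mul]
  have hd : (0 : ℝ) ≤ deg c j v := Nat.cast_nonneg _
  by_cases g2 : KK c j v
  · have : (∑ u, (ind (Ad c j v u) : ℝ) * (1 / (deg c j u : ℝ))) = 1 := by
      have e : (∑ u, (ind (Ad c j v u) : ℝ) * (1 / (deg c j u : ℝ))) =
          ∑ u, (ind (Ad c j v u) : ℝ) * (1 / (deg c j v : ℝ)) := by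
        refine sum_congr rfl fun u _ => ?_
        by_cases a : Ad c j v u
        · rw [h.k_eq g2 a]
        · simp [a]
      rw [e, sum_ad0]
      obtain ⟨w, a, _⟩ := g2
      have := deg_pos_of_ad a
      field_simp
    rw [this]
    simp [g2]
  · have : (∑ u, (ind (Ad c j v u) : ℝ) * (1 / (deg c j u : ℝ))) ≤
        deg c j v * (1 / (deg c j v + 1)) := by
      rw [← sum_ad0]
      refine sum_le_sum fun u _ => ?_
      by_cases a : Ad c j v u
      · have : deg c j v < deg c j u := by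
          rcases lt_trichotomy (deg c j u) (deg c j v) with b | b | b
          · exact absurd (Or.inl ⟨u, a, b⟩) g
          · exact absurd ⟨u, a, b⟩ g2
          · exact b
        have : (deg c j v + 1 : ℝ) ≤ deg c j u := by exact_mod_cast this
        exact mul_le_mul_of_nonneg_left (one_div_le_one_div_of_le (by linarith) this)
          (Nat.cast_nonneg _)
      · simp [a]
    simp only [g2, not_false_eq_true, ind_true, Nat.cast_one]
    generalize (∑ u, (ind (Ad c j v u) : ℝ) * (1 / (deg c j u : ℝ))) = s at this ⊢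
    generalize (deg c j v : ℝ) = d at this hd ⊢
    have e : d * (1 / (d + 1)) = 1 - 1 / (d + 1) := by field_simp; ring
    have e2 : 2 * ν - (d + 1) ≤ ν ^ 2 * (1 / (d + 1)) := by
      rw [mul_one_div, le_div_iff₀ (by linarith)]
      nlinarith [sq_nonneg (ν - (d + 1))]
    have : ν ^ 2 * (1 / (d + 1)) ≤ ν ^ 2 * (1 - s) :=
      mul_le_mul_of_nonneg_left (by linarith) (sq_nonneg _)
    linarith

theorem G3.half (h : G3 k c) (j : ℕ) :
    2 * ∑ v, (ind (¬ Bt c j v) : ℝ) * deg c j v = ∑ v, (deg c j v : ℝ) := by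
  have := h.dc j fun _ _ => 1
  simp only [sum_ad] at this
  simp only [mul_one] at this
  rw [two_mul]
  nth_rewrite 1 [this]
  rw [← sum_add_distrib]
  refine sum_congr rfl fun v _ => ?_
  by_cases g : Bt c j v <;> simp [g]

theorem G3.khalf (h : G3 k c) (j : ℕ) :
    2 * ∑ v, (ind (¬ Bt c j v ∧ KK c j v) : ℝ) = ∑ v, (ind (KK c j v) : ℝ) := by
  have h1 : ∀ v, KK c j v → deg c j v = 1 := by
    rintro v ⟨u, a, b⟩
    rw [deg_ad, sum_eq_single u]
    · exact ind_pos a
    · exact fun w _ hw => ind_neg fun g => hw (h.k_uniq a b g)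
    · simp
  have h2 := h.dc j fun v _ => ind (KK c j v)
  have h3 : (∑ u, ∑ v, (ind (Bt c j u ∧ Ad c j u v) : ℝ) * ind (KK c j v)) =
      ∑ u, ∑ v, (ind (Bt c j u ∧ Ad c j u v) : ℝ) * ind (KK c j u) := by
    refine sum_congr rfl fun u _ => sum_congr rfl fun v _ => ?_
    by_cases a : Ad c j u v
    · have : KK c j v ↔ KK c j u :=
        ⟨fun g => ⟨v, a, (h.k_eq g (h.ad_symm a)).symm⟩,
          fun g => ⟨u, h.ad_symm a, (h.k_eq g a).symm⟩⟩
      rw [this]
    · simp [a]
  rw [h3] at h2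
  simp only [sum_ad] at h2
  have h4 : ∀ P : Fin n → Prop, (∑ v, (ind (P v) : ℝ) * (deg c j v * ind (KK c j v))) =
      ∑ v, (ind (P v ∧ KK c j v) : ℝ) := by
    intro P
    refine sum_congr rfl fun v _ => ?_
    by_cases g : KK c j v
    · simp [g, h1 v g]
    · simp [g]
  rw [h4, h4] at h2
  rw [two_mul]
  nth_rewrite 1 [h2]
  rw [← sum_add_distrib]
  refine sum_congr rfl fun v _ => ?_
  by_cases g : Bt c j v <;> simp [g]

theorem G3.deg_sum (h : G3 k c) (v : Fin n) : ∑ j : Fin k, deg c j v + 1 = n := by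
  simp only [deg_ad]
  rw [sum_comm]
  have : ∀ u, (∑ j : Fin k, ind (Ad c j v u)) = if u ≠ v then 1 else 0 := by
    intro u
    split_ifs with g
    · rw [sum_eq_single ⟨c v u, h.lt v u⟩]
      · exact ind_pos ⟨g, rfl⟩
      · exact fun b _ hb => ind_neg fun e => hb (Fin.ext e.2.symm)
      · simp
    · exact sum_eq_zero fun j _ => ind_neg fun e => g e.1
  simp only [this]
  rw [← card_filter]
  have : (univ.filter fun u : Fin n => u ≠ v) = univ.erase v := by
    ext u; simp
  rw [this, card_erase_of_mem (by simp), card_univ, Fintype.card_fin]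
  have := v.2
  omega

open Classical in
noncomputable def code (k : ℕ) (c : Fin n → Fin n → ℕ) (v : Fin n) : Fin k → Bool :=
  fun j => decide (Bt c j v)

theorem G3.code_ne (h : G3 k c) {u v : Fin n} (huv : v ≠ u) :
    code k c u ⟨c u v, h.lt u v⟩ ≠ code k c v ⟨c u v, h.lt u v⟩ := by
  have := h.bt_ad (j := c u v) ⟨huv, rfl⟩
  unfold code
  by_cases g : Bt c (c u v) v <;> simp [this, g]

theorem G3.code_inj (h : G3 k c) : Function.Injective (code k c) := by
  intro u v e
  by_contra hne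
  exact h.code_ne (Ne.symm hne) (by rw [e])

def fl {k : ℕ} (j : Fin k) (x : Fin k → Bool) : Fin k → Bool := Function.update x j (!x j)

theorem fl_same (j : Fin k) (x : Fin k → Bool) : fl j x j = !x j := by simp [fl]
theorem fl_ne {j i : Fin k} (x : Fin k → Bool) (h : i ≠ j) : fl j x i = x i := by simp [fl, h]
theorem fl_fl (j : Fin k) (x : Fin k → Bool) : fl j (fl j x) = x := by
  funext i
  by_cases h : i = j
  · subst h; simp [fl]
  · simp [fl, h]
theorem fl_inj (j : Fin k) : Function.Injective (fl j) :=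
  Function.LeftInverse.injective (fl_fl j)

theorem G3.ad_of_fl (h : G3 k c) {j : Fin k} {u v : Fin n} (e : code k c u = fl j (code k c v)) :
    Ad c j v u := by
  have hne : u ≠ v := by
    rintro rfl
    have := congrFun e j
    rw [fl_same] at this
    simp at this
  refine ⟨hne, ?_⟩
  have := h.code_ne hne
  by_contra g
  rw [e, fl_ne] at this
  · exact this rfl
  · exact fun e => g (congrArg Fin.val e)

theorem G3.ad_of_fl2 (h : G3 k c) {j i : Fin k} {u v : Fin n} (hne : u ≠ v)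
    (e : ∀ a, a ≠ j → a ≠ i → code k c u a = code k c v a) : Ad c j v u ∨ Ad c i v u := by
  have := h.code_ne hne
  by_contra g
  refine this (e _ ?_ ?_).symm
  · exact fun e => g (Or.inl ⟨hne, congrArg Fin.val e⟩)
  · exact fun e => g (Or.inr ⟨hne, congrArg Fin.val e⟩)

theorem G3.two_present (h : G3 k c) {j i : Fin k} {v u w : Fin n} (hji : j ≠ i) (a : KK c j v)
    (b : KK c i v) (e1 : code k c u = fl j (code k c v)) (e2 : code k c w = fl i (code k c v)) :
    False := by
  have a1 := h.ad_of_fl e1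
  have a2 := h.ad_of_fl e2
  have hne : u ≠ w := by
    rintro rfl
    exact hji (Fin.ext (a1.2.symm.trans a2.2))
  rcases h.ad_of_fl2 (j := j) (i := i) hne
    (fun x h1 h2 => by rw [e1, e2, fl_ne _ h1, fl_ne _ h2]) with g | g
  · exact a2.1 (h.k_uniq (h.ad_symm a1) (h.k_eq a a1).symm (h.ad_symm g))
  · exact a1.1 (h.k_uniq (h.ad_symm a2) (h.k_eq b a2).symm g)

noncomputable def Om (k : ℕ) (c : Fin n → Fin n → ℕ) : Finset (Fin k → Bool) :=
  univ.filter fun x => ¬ ∃ v, code k c v = x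

theorem mem_Om {x : Fin k → Bool} : x ∈ Om k c ↔ ∀ v, code k c v ≠ x := by simp [Om]

theorem G3.split (h : G3 k c) (P : (Fin k → Bool) → Prop) :
    ∑ v, ind (P (code k c v)) + ∑ x ∈ Om k c, ind (P x) = ∑ x, ind (P x) := by
  classical
  rw [← sum_filter_add_sum_filter_not univ (fun x => ∃ v, code k c v = x)]
  congr 1
  have : (univ.filter fun x => ∃ v, code k c v = x) = univ.image (code k c) := by
    ext x; simp
  rw [this, sum_image fun a _ b _ e => h.code_inj e]

theorem G3.card_Om (h : G3 k c) : n + (Om k c).card = 2 ^ k := by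
  have := h.split fun _ => True
  simpa using this

theorem half_cube (j : Fin k) (b : Bool) : 2 * ∑ x : Fin k → Bool, ind (x j = b) = 2 ^ k := by
  have e : ∑ x : Fin k → Bool, ind (x j = b) = ∑ x : Fin k → Bool, ind (¬ x j = b) := by
    refine sum_bijective (fl j) ⟨fl_inj j, fun x => ⟨fl j x, fl_fl j x⟩⟩ (by simp) fun x _ => ?_
    rw [fl_same]
    cases x j <;> cases b <;> simp
  rw [two_mul]
  nth_rewrite 2 [e]
  rw [← sum_add_distrib]
  have : ∀ x : Fin k → Bool, ind (x j = b) + ind (¬ x j = b) = 1 := by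
    intro x
    by_cases g : x j = b <;> simp [g]
  simp [this]

noncomputable def ZZ (k : ℕ) (c : Fin n → Fin n → ℕ) : ℕ :=
  ∑ j : Fin k, ∑ x ∈ Om k c, ind (x j = false)

noncomputable def KT (k : ℕ) (c : Fin n → Fin n → ℕ) : ℕ := ∑ v, ∑ j : Fin k, ind (KK c j v)

theorem ZZ_ge : (Om k c).card ≤ ZZ k c + 1 := by
  classical
  unfold ZZ
  rw [sum_comm]
  have h1 : ∑ x ∈ (Om k c).erase (fun _ => true), 1 ≤
      ∑ x ∈ (Om k c).erase (fun _ => true), ∑ j : Fin k, ind (x j = false) := by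
    refine sum_le_sum fun x hx => ?_
    have : ∃ j, x j = false := by
      by_contra g
      exact (mem_erase.1 hx).1 (funext fun j => by simpa using fun e => g ⟨j, e⟩)
    obtain ⟨j, hj⟩ := this
    have := single_le_sum (f := fun j : Fin k => ind (x j = false)) (fun _ _ => Nat.zero_le _)
      (mem_univ j)
    rwa [ind_pos hj] at this
  have h2 := sum_le_sum_of_subset (f := fun x : Fin k → Bool => ∑ j : Fin k, ind (x j = false))
    (erase_subset (fun _ => true) (Om k c))
  have h3 := pred_card_le_card_erase (s := Om k c) (a := fun _ => true)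
  simp only [sum_const, smul_eq_mul, mul_one] at h1
  omega

theorem sum_ind_le_one {ι : Type} [Fintype ι] (P : ι → Prop) (h : ∀ a b, P a → P b → a = b) :
    ∑ j, ind (P j) ≤ 1 := by
  by_cases g : ∃ a, P a
  · obtain ⟨a, ha⟩ := g
    rw [sum_eq_single a, ind_pos ha]
    · exact fun b _ hb => ind_neg fun e => hb (h _ _ e ha)
    · simp
  · rw [sum_eq_zero fun j _ => ind_neg fun e => g ⟨j, e⟩]; omega

theorem G3.KT_le (h : G3 k c) : KT k c ≤ n + (Om k c).card * k := by
  classical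
  have h1 : KT k c ≤ ∑ v, ∑ j : Fin k, (ind (KK c j v ∧ fl j (code k c v) ∉ Om k c) +
      ind (fl j (code k c v) ∈ Om k c)) := by
    refine sum_le_sum fun v _ => sum_le_sum fun j _ => ?_
    by_cases g : fl j (code k c v) ∈ Om k c <;> by_cases g2 : KK c j v <;> simp [g, g2]
  simp only [sum_add_distrib] at h1
  have h2 : ∑ v, ∑ j : Fin k, ind (KK c j v ∧ fl j (code k c v) ∉ Om k c) ≤ ∑ v : Fin n, 1 := by
    refine sum_le_sum fun v _ => sum_ind_le_one _ ?_
    rintro a b ⟨a1, a2⟩ ⟨b1, b2⟩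
    by_contra hne
    simp only [mem_Om, not_forall, not_not] at a2 b2
    obtain ⟨u, hu⟩ := a2
    obtain ⟨w, hw⟩ := b2
    exact h.two_present hne a1 b1 hu hw
  have h3 : ∑ v, ∑ j : Fin k, ind (fl j (code k c v) ∈ Om k c) ≤ ∑ j : Fin k, (Om k c).card := by
    rw [sum_comm]
    refine sum_le_sum fun j _ => ?_
    simp only [ind_eq]
    rw [← card_filter]
    exact card_le_card_of_injOn (fun v => fl j (code k c v)) (fun v hv => by simpa using hv)
      fun a _ b _ e => h.code_inj (fl_inj j e)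
  simp at h2 h3
  nlinarith

theorem G3.special (h : G3 k c) (ht : (Om k c).card = 2) : 2 ≤ ZZ k c ∨ KT k c ≤ n := by
  classical
  by_contra hcon
  push Not at hcon
  have : ∃ v, ∃ a b : Fin k, KK c a v ∧ KK c b v ∧ a ≠ b := by
    by_contra g
    have : KT k c ≤ ∑ v : Fin n, 1 := sum_le_sum fun v _ => sum_ind_le_one _ fun a b ha hb => by
      by_contra hne
      exact g ⟨v, a, b, ha, hb, hne⟩
    simp at this
    omega
  obtain ⟨v, a, b, ha, hb, hab⟩ := this
  have two : ∀ x y, x ∈ Om k c → y ∈ Om k c → x ≠ y → Om k c = {x, y} := by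
    intro x y hx hy hxy
    refine (eq_of_subset_of_card_le ?_ (by rw [card_pair hxy, ht])).symm
    intro z hz
    simp only [mem_insert, mem_singleton] at hz
    rcases hz with rfl | rfl <;> assumption
  have one : ∀ a b : Fin k, KK c a v → KK c b v → a ≠ b → fl a (code k c v) ∈ Om k c →
      fl b (code k c v) ∉ Om k c → False := by
    intro a b ha hb hab h1 h2
    simp only [mem_Om, not_forall, not_not] at h2
    obtain ⟨u, hu⟩ := h2
    have au := h.ad_of_fl hu
    obtain ⟨w, aw, ew⟩ := ha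
    have h3 : fl a (code k c u) ∈ Om k c := by
      rw [mem_Om]
      intro y hy
      have ay := h.ad_of_fl hy
      have hyv : y ≠ v := by
        rintro rfl
        have := congrFun hy b
        rw [fl_ne _ hab.symm, hu, fl_same] at this
        simp at this
      rcases h.ad_of_fl2 (j := a) (i := b) hyv
        (fun x h1 h2 => by rw [hy, fl_ne _ h1, hu, fl_ne _ h2]) with g | g
      · have := h.k_uniq aw ew g
        subst this
        exact au.1 (h.k_uniq (h.ad_symm aw) ew.symm (h.ad_symm ay))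
      · obtain ⟨w', aw', ew'⟩ := hb
        exact ay.1 ((h.k_uniq aw' ew' g).trans (h.k_uniq aw' ew' au).symm)
    have h4 : fl a (code k c w) ∈ Om k c := by
      rw [mem_Om]
      intro y hy
      have := h.k_uniq (h.ad_symm aw) ew.symm (h.ad_of_fl hy)
      subst this
      rw [hy, fl_fl] at h1
      exact mem_Om.1 h1 w rfl
    rw [two _ _ h1 h3 fun e => au.1 (h.code_inj (fl_inj a e)).symm] at h4
    simp only [mem_insert, mem_singleton] at h4
    rcases h4 with e | e
    · exact aw.1 (h.code_inj (fl_inj a e))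
    · have := h.code_inj (fl_inj a e)
      subst this
      exact hab (Fin.ext (aw.2.symm.trans au.2))
  by_cases h1 : fl a (code k c v) ∈ Om k c <;> by_cases h2 : fl b (code k c v) ∈ Om k c
  · have hne : fl a (code k c v) ≠ fl b (code k c v) := by
      intro e
      have := congrFun e a
      rw [fl_same, fl_ne _ hab] at this
      simp at this
    have e := two _ _ h1 h2 hne
    have : ∑ j ∈ ({a, b} : Finset (Fin k)), ∑ x ∈ Om k c, ind (x j = false) ≤ ZZ k c :=
      sum_le_sum_of_subset (subset_univ _)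
    rw [sum_pair hab, e, sum_pair hne, sum_pair hne, fl_same, fl_same, fl_ne _ hab,
      fl_ne _ hab.symm] at this
    revert this
    cases code k c v a <;> cases code k c v b <;> simp <;> omega
  · exact one a b ha hb hab h1 h2
  · exact one b a hb ha hab.symm h2 h1
  · simp only [mem_Om, not_forall, not_not] at h1 h2
    obtain ⟨u, hu⟩ := h1
    obtain ⟨w, hw⟩ := h2
    exact h.two_present hab ha hb hu hw

theorem G3.key (h : G3 k c) (ν : ℝ) :
    (2 * ν - 1) * (k * 2 ^ k - KT k c) - 2 * ν ^ 2 * k * (Om k c).card +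
      2 * ZZ k c * (2 * ν ^ 2 - 2 * ν + 1) ≤ n * (n - 1) := by
  have h1 : ∀ j : Fin k, (2 * ν - 1) * (2 ^ k - ∑ v, (ind (KK c j v) : ℝ)) -
      2 * ν ^ 2 * (Om k c).card +
      2 * (∑ x ∈ Om k c, (ind (x j = false) : ℝ)) * (2 * ν ^ 2 - 2 * ν + 1) ≤
      ∑ v, (deg c j v : ℝ) := by
    intro j
    have a1 := h.colour_bound j ν
    have a2 := h.half j
    have a3 := h.khalf j
    have a4 := h.split fun x => x j = false
    have a5 := h.split fun x => x j = true
    have a6 := half_cube j false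
    have a7 := half_cube j true
    have a8 : ∑ x ∈ Om k c, ind (x j = false) + ∑ x ∈ Om k c, ind (x j = true) = (Om k c).card := by
      rw [← sum_add_distrib, card_eq_sum_ones]
      refine sum_congr rfl fun x _ => ?_
      cases x j <;> simp
    have a9 : ∑ v, (ind (¬ Bt c j v ∧ ¬ KK c j v) : ℝ) + ∑ v, (ind (¬ Bt c j v ∧ KK c j v) : ℝ) =
        ∑ v, (ind (¬ Bt c j v) : ℝ) := by
      rw [← sum_add_distrib]
      refine sum_congr rfl fun v _ => ?_
      by_cases g : KK c j v <;> simp [g]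
    simp only [code, decide_eq_false_iff_not, decide_eq_true_eq] at a4 a5
    have b4 := congrArg (Nat.cast : ℕ → ℝ) a4
    have b5 := congrArg (Nat.cast : ℕ → ℝ) a5
    have b6 := congrArg (Nat.cast : ℕ → ℝ) a6
    have b7 := congrArg (Nat.cast : ℕ → ℝ) a7
    have b8 := congrArg (Nat.cast : ℕ → ℝ) a8
    push_cast at b4 b5 b6 b7 b8
    have c1 : ∑ v, (ind (¬ Bt c j v ∧ ¬ KK c j v) : ℝ) =
        (2 ^ k - ∑ v, (ind (KK c j v) : ℝ)) / 2 - ∑ x ∈ Om k c, (ind (x j = false) : ℝ) := by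
      linarith
    have c2 : (∑ v, (ind (¬ Bt c j v) : ℝ)) - ∑ v, (ind (Bt c j v) : ℝ) =
        (Om k c).card - 2 * ∑ x ∈ Om k c, (ind (x j = false) : ℝ) := by
      linarith
    rw [c1, c2] at a1
    linarith
  have h2 := sum_le_sum fun j (_ : j ∈ (univ : Finset (Fin k))) => h1 j
  have h3 : ∑ j : Fin k, ∑ v, (deg c j v : ℝ) = n * (n - 1) := by
    rw [sum_comm]
    have : ∀ v, ∑ j : Fin k, (deg c j v : ℝ) = n - 1 := by
      intro v
      have := congrArg (Nat.cast : ℕ → ℝ) (h.deg_sum v)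
      push_cast at this
      linarith
    simp only [this, sum_const, card_univ, Fintype.card_fin, nsmul_eq_mul]
  have h4 : (KT k c : ℝ) = ∑ j : Fin k, ∑ v, (ind (KK c j v) : ℝ) := by
    unfold KT; push_cast; rw [sum_comm]
  have h5 : (ZZ k c : ℝ) = ∑ j : Fin k, ∑ x ∈ Om k c, (ind (x j = false) : ℝ) := by
    unfold ZZ; push_cast; rfl
  rw [h3, sum_add_distrib, sum_sub_distrib, ← mul_sum, sum_sub_distrib, ← h4, sum_const,
    sum_const, ← sum_mul, ← mul_sum, ← h5] at h2
  simp only [card_univ, Fintype.card_fin, nsmul_eq_mul] at h2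
  linarith

theorem pow_big : ∀ k, 7 ≤ k → (k - 1) ^ 2 * k < (k - 5) * 2 ^ k + (k - 5) * ((k - 1) / 2) := by
  intro k hk
  rcases Nat.lt_or_ge k 9 with g | g
  · interval_cases k <;> norm_num
  have : ∀ m, (m + 8) ^ 2 * (m + 9) < (m + 4) * 2 ^ (m + 9) := by
    intro m
    induction m with
    | zero => norm_num
    | succ m ih =>
      have e : 2 ^ (m + 1 + 9) = 2 * 2 ^ (m + 9) := by ring
      rw [e]
      nlinarith [Nat.zero_le (m ^ 3), Nat.zero_le (m ^ 2), Nat.zero_le (2 ^ (m + 9))]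
  obtain ⟨m, rfl⟩ : ∃ m, k = m + 9 := ⟨k - 9, by omega⟩
  have := this m
  rw [show m + 9 - 1 = m + 8 by omega, show m + 9 - 5 = m + 4 by omega]
  omega

theorem low_num {k t n : ℝ} (d1 : 2 * t + 1 ≤ k) (d2 : 4 ≤ k) (d3 : 1 ≤ n) (d4 : 0 ≤ t)
    (main : ∀ ν : ℝ, 1 / 2 ≤ ν → 2 * ν * ((k - 1) * n - 2 * t + 2) -
      2 * ((k - 2) * t + 2) * ν ^ 2 - ((k - 1) * n - 2 * t + 2) ≤ n * (n - 1))
    (fin' : 2 * ((k - 2) * t + 2) * (n + k - 1) < (k - 1) ^ 2 * (n - 1)) : False := by
  obtain ⟨B, hB⟩ : ∃ B : ℝ, B = (k - 2) * t + 2 := ⟨_, rfl⟩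
  obtain ⟨A, hA⟩ : ∃ A : ℝ, A = (k - 1) * n - 2 * t + 2 := ⟨_, rfl⟩
  obtain ⟨P, hP⟩ : ∃ P : ℝ, P = (k - 1) * (n - 1) := ⟨_, rfl⟩
  rw [← hB, ← hA] at main
  rw [← hB] at fin'
  have f1 : 0 < B := by rw [hB]; nlinarith
  have f2 : P ≤ A := by rw [hP, hA]; nlinarith
  have f3 : 2 * B * n < (k - 1) * (P - 2 * B) := by rw [hP]; nlinarith
  have f4 : 0 < P - 2 * B := by
    by_contra g
    nlinarith
  have f5 := main (A / (2 * B)) (by rw [le_div_iff₀ (by linarith)]; linarith)
  have f6 : 2 * (A / (2 * B)) * A - 2 * B * (A / (2 * B)) ^ 2 - A = A * (A - 2 * B) / (2 * B) := by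
    field_simp; ring
  rw [f6, div_le_iff₀ (by linarith)] at f5
  have f7 : P * (P - 2 * B) ≤ A * (A - 2 * B) :=
    mul_le_mul f2 (by linarith) f4.le (by linarith)
  have f8 : 0 < n - 1 := by
    by_contra g
    have : P ≤ 0 := by rw [hP]; nlinarith
    linarith
  have f9 := mul_lt_mul_of_pos_left f3 f8
  have f10 : (n - 1) * ((k - 1) * (P - 2 * B)) = P * (P - 2 * B) := by rw [hP]; ring
  linarith

theorem G3.low (h : G3 k c) (hk : 4 ≤ k) (ht : 2 * 2 ^ k + 1 ≤ 2 * n + k) (h4 : k = 4 → 16 ≤ n) :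
    False := by
  have a1 := h.card_Om
  have a2 := ZZ_ge (k := k) (c := c)
  have a3 := h.KT_le
  have key := h.key
  have sp := h.special
  generalize (Om k c).card = t at *
  generalize ZZ k c = Z at *
  generalize KT k c = K at *
  have b1 : (n : ℝ) + t = 2 ^ k := by exact_mod_cast a1
  have b2 : (t : ℝ) ≤ Z + 1 := by exact_mod_cast a2
  have b3 : (K : ℝ) ≤ n + t * k := by exact_mod_cast a3
  by_cases hs : k = 5 ∧ t = 2
  · obtain ⟨rfl, rfl⟩ := hs
    obtain rfl : n = 30 := by omega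
    rcases sp rfl with g | g
    · have := key 10
      have g' : (2 : ℝ) ≤ Z := by exact_mod_cast g
      push_cast at this b3
      linarith
    · have := key 8
      have g' : (K : ℝ) ≤ 30 := by exact_mod_cast g
      push_cast at this b2
      linarith
  have main : ∀ ν : ℝ, 1 / 2 ≤ ν → 2 * ν * ((k - 1) * n - 2 * t + 2) -
      2 * ((k - 2) * t + 2) * ν ^ 2 - ((k - 1) * n - 2 * t + 2) ≤ n * (n - 1) := by
    intro ν hν
    have := key ν
    rw [← b1] at this
    have c1 : (2 * ν - 1) * K ≤ (2 * ν - 1) * (n + t * k) :=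
      mul_le_mul_of_nonneg_left b3 (by linarith)
    have c2 : (t - 1) * (2 * ν ^ 2 - 2 * ν + 1) ≤ Z * (2 * ν ^ 2 - 2 * ν + 1) :=
      mul_le_mul_of_nonneg_right (by linarith) (by nlinarith [sq_nonneg (ν - 1), sq_nonneg ν])
    nlinarith
  have ht' : 2 * t + 1 ≤ k := by omega
  have fin : 2 * ((k - 2) * t + 2) * (n + k - 1) < (k - 1) ^ 2 * (n - 1) := by
    rcases Nat.lt_or_ge k 7 with g | g
    · interval_cases k
      · have : n = 16 := by omega
        have : t = 0 := by omega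
        subst_vars; norm_num
      · have : t ≤ 1 := by omega
        have : n = 32 - t := by omega
        subst_vars; interval_cases t <;> norm_num
      · have : t ≤ 2 := by omega
        have : n = 64 - t := by omega
        subst_vars; interval_cases t <;> norm_num
    · have p := pow_big k g
      rw [← a1] at p
      obtain ⟨m, rfl⟩ : ∃ m, k = m + 7 := ⟨k - 7, by omega⟩
      obtain ⟨q, rfl⟩ : ∃ q, n = q + 1 := ⟨n - 1, by
        have : m + 7 < 2 ^ (m + 7) := Nat.lt_two_pow_self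
        omega⟩
      have e1 : t + (m + 7 - 1) / 2 ≤ m + 6 := by omega
      simp only [show m + 7 - 1 = m + 6 by omega, show m + 7 - 5 = m + 2 by omega,
        show m + 7 - 2 = m + 5 by omega, show q + 1 + (m + 7) - 1 = q + 1 + (m + 6) by omega,
        Nat.add_sub_cancel] at p e1 ⊢
      have p2 : (m + 6) ^ 2 * (m + 7) < (m + 2) * (q + 1 + (m + 6)) := by
        refine p.trans_le ?_
        rw [← mul_add]
        exact Nat.mul_le_mul_left _ (by omega)
      have p3 : 2 * ((m + 5) * t + 2) + (m + 2) ≤ (m + 6) ^ 2 := by nlinarith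
      nlinarith [Nat.mul_le_mul_right (q + 1 + (m + 6)) p3]
  have hn : 1 ≤ n := by
    have : k < 2 ^ k := Nat.lt_two_pow_self
    omega
  have fin' : 2 * (((k : ℝ) - 2) * t + 2) * (n + k - 1) < (k - 1) ^ 2 * (n - 1) := by
    have := (Nat.cast_lt (α := ℝ)).2 fin
    push_cast [Nat.cast_sub (show 2 ≤ k by omega), Nat.cast_sub (show 1 ≤ k by omega),
      Nat.cast_sub hn, Nat.cast_sub (show 1 ≤ n + k by omega)] at this
    exact this
  have d1 : (2 : ℝ) * t + 1 ≤ k := by exact_mod_cast ht'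
  have d2 : (4 : ℝ) ≤ k := by exact_mod_cast hk
  have d3 : (1 : ℝ) ≤ n := by exact_mod_cast hn
  have d4 : (0 : ℝ) ≤ t := Nat.cast_nonneg _
  exact low_num d1 d2 d3 d4 main fin'

end

end Pool.Agent.Lib.MP_71763b_co
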