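import Pool.Agent.Lib.MP_71763b_co.Build

namespace Pool.Agent.Lib.MP_71763b_co

def NumQ (g b t r mm lam κ a L X : ℕ) (q M N nj lo hi mx L1 X1 Ip Im : ℚ) : Prop :=
  (14 ≤ g) ∧
  (b + 4 ≤ g) ∧
  (2 ≤ r) ∧
  (mm ≤ 2) ∧
  (5 ≤ t) ∧
  (g ≤ 2 ^ b) ∧
  (g < 2 ^ (g - 1 - (b + 3))) ∧
  (2 ^ g ≤ 14 * κ) ∧
  (8 * 2 ^ b ≤ lam * 2 ^ r) ∧
  (lam + 1 ≤ 4 * 2 ^ b) ∧
  (16 * 2 ^ b ≤ t * lam) ∧
  (q = 2 ^ g) ∧
  (M = 2 ^ (g - 1 - b)) ∧
  (N = 2 ^ b) ∧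
  (lam * 2 ^ (g - b - 2) + (3 / 4) ^ g * (4 * q) ≤ nj) ∧
  (g * L + (t - 2) * X ≤ 4 * q - 6 - nj) ∧
  (g * lo ≤ 4 * q - 6 - nj - (t - 2) * X - g) ∧
  (4 * q + g + g * mm * X ≤ g * hi) ∧
  (∀ m : ℕ, m < g → 1 ≤ m → (3 / 4) ^ m * (4 * q) ≤ (g - m) * lo ∨
    (3 / 4) ^ m * (4 * q) + m * hi ≤ 4 * q - 6 - nj) ∧
  (∀ μ : ℕ, μ < mm + 1 → 2 * q + 19 * t + 2 ≤ (L + μ * X) * (t - 2 * μ)) ∧
  (hi * t + 16 * t + 10 ≤ 6 * q) ∧
  (mm * hi + 4 * κ + 8 * t ≤ q) ∧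
  (2 * q + mm * hi + 17 * t ≤ mx * (t - mm)) ∧
  (mm * (mx + 1) + 4 * κ + 8 * t ≤ q) ∧
  (13 * t + 4 ≤ q) ∧
  (a * t + 18 * t + 2 ≤ 2 * q) ∧
  (2 * q + 17 * t ≤ L1 * t) ∧
  (L1 + hi ≤ X1 * (t - mm)) ∧
  (∀ m : ℕ, m < g + 1 → 1 ≤ m →
    (3 / 4) ^ m * (4 * q) + m * (mx - a) ≤ 4 * q - (g * (M + 8 * N + 2) + 8 * N) ∨
    (3 / 4) ^ m * (4 * q) + (g * L1 + (t - 2) * X1 - g * a) ≤ 4 * q - (g * (M + 8 * N + 2) + 8 * N)) ∧
  (2 * t < M) ∧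
  (12 ≤ a) ∧
  (Ip = 16 * M + 2 * t * a) ∧
  (Im = M * (t + 6) + 2 * t * a) ∧
  (2 * Ip + Im ≤ N * 8 * (M - 2 * t)) ∧
  (2 * Ip + Im ≤ (a - 12) * (M - 2 * t)) ∧
  ((a + 4) * (a + t) ≤ (M - 2 * t) * (a - 6) - 2 * Ip)

instance (g b t r mm lam κ a L X : ℕ) (q M N nj lo hi mx L1 X1 Ip Im : ℚ) :
    Decidable (NumQ g b t r mm lam κ a L X q M N nj lo hi mx L1 X1 Ip Im) := by
  unfold NumQ; infer_instance

theorem NumQ.num {g b t r mm lam κ a L X : ℕ} {q M N nj lo hi mx L1 X1 Ip Im : ℚ}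
    (h : NumQ g b t r mm lam κ a L X q M N nj lo hi mx L1 X1 Ip Im) :
    Num g b t r mm lam κ a L X q M N nj lo hi mx L1 X1 Ip Im := by
  obtain ⟨g14, hb, hr, mm2, t5, tag1, tag2, hκ, l1, l2, l3, hq, hM, hN, hnj, s0, hlo, hhi, h0, k1, k2, k3, k4, k5, k6, k7, k8, k9, h1, n0, n1, n5, n6, n7, n9, n10⟩ := h
  have c : ∀ {x y : ℚ}, x ≤ y → (x : ℝ) ≤ y := fun h => Rat.cast_le.2 h
  exact {
    g14 := g14
    hb := hb
    hr := hr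
    mm2 := mm2
    t5 := t5
    tag1 := tag1
    tag2 := tag2
    hκ := hκ
    l1 := l1
    l2 := l2
    l3 := l3
    hq := by rw [hq]; push_cast; rfl
    hM := by rw [hM]; push_cast; rfl
    hN := by rw [hN]; push_cast; rfl
    hnj := by simpa using c hnj
    s0 := by simpa using c s0
    hlo := by simpa using c hlo
    hhi := by simpa using c hhi
    h0 := fun m a b => (h0 m b a).imp (fun h => by simpa using c h) fun h => by simpa using c h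
    k1 := fun m a => by simpa using c (k1 m (by omega))
    k2 := by simpa using c k2
    k3 := by simpa using c k3
    k4 := by simpa using c k4
    k5 := by simpa using c k5
    k6 := by simpa using c k6
    k7 := by simpa using c k7
    k8 := by simpa using c k8
    k9 := by simpa using c k9
    h1 := fun m a b => (h1 m (by omega) a).imp (fun h => by simpa using c h)
      fun h => by simpa using c h
    n0 := by exact_mod_cast n0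
    n1 := n1
    n5 := by rw [n5]; push_cast; rfl
    n6 := by rw [n6]; push_cast; rfl
    n7 := by simpa using c n7
    n9 := by simpa using c n9
    n10 := by simpa using c n10 }

def finQ (b e t : ℕ) : Prop :=
  let g := 2 * b + 6 + e
  let mm := if t ≤ g + 1 then 1 else 2
  let lam := 16 * 2 ^ b / (b + 6) + 1
  let U := 2 * 2 ^ g + 19 * t + 2
  let X := 2 * U / (t * (t - 2 * mm)) + 1
  let q : ℚ := 2 ^ g
  let M : ℚ := 2 ^ (g - 1 - b)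
  let a := 12 * 2 ^ (b + e)
  let nj : ℚ := lam * 2 ^ (g - b - 2) + (3 / 4) ^ g * (4 * q)
  let hi : ℚ := (4 * q + g + g * mm * X) / g
  let L1 : ℚ := (2 * q + 17 * t) / t
  NumQ g b t (Nat.log 2 (b + 6)) mm lam (2 ^ g / 14 + 1) a (U / t + 1) X q M (2 ^ b) nj
    ((4 * q - 6 - nj - (t - 2) * X - g) / g) hi ((2 * q + mm * hi + 17 * t) / (t - mm)) L1
    ((L1 + hi) / (t - mm)) (16 * M + 2 * t * a) (M * (t + 6) + 2 * t * a)

instance (b e t : ℕ) : Decidable (finQ b e t) := by unfold finQ; infer_instance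

theorem fin_ok : ∀ b < 16, ∀ e < 2, ∀ t < 43, 4 ≤ b ∧ b + 6 ≤ t ∧ t ≤ 2 * b + 10 + 2 * e →
    finQ b e t := by decide +kernel

end Pool.Agent.Lib.MP_71763b_co
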