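import Pool.Agent.Lib.MP_71763b_co.Build

namespace Pool.Agent.Lib.MP_71763b_co

theorem pow_sq_big (b : ℕ) (hb : 16 ≤ b) : 100 * (b + 6) ^ 2 ≤ 2 ^ b := by
  induction b, hb using Nat.le_induction with
  | base => norm_num
  | succ b hb ih => rw [pow_succ 2]; nlinarith

theorem theta_small (T : ℕ) (hT : 22 ≤ T) : (3 / 4 : ℝ) ^ T * (8 * T) ≤ 1 := by
  induction T, hT using Nat.le_induction with
  | base => norm_num
  | succ T hT ih =>
    have : (22 : ℝ) ≤ T := by exact_mod_cast hT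
    have h : (0 : ℝ) < (3 / 4) ^ T := by positivity
    rw [pow_succ]
    push_cast
    nlinarith

theorem theta_le {m n : ℕ} (h : n ≤ m) : (3 / 4 : ℝ) ^ m ≤ (3 / 4) ^ n :=
  pow_le_pow_of_le_one (by norm_num) (by norm_num) h

theorem div_bd (a d : ℕ) (hd : 0 < d) :
    (a : ℝ) ≤ (a / d + 1 : ℕ) * d ∧ ((a / d + 1 : ℕ) : ℝ) * d ≤ a + d := by
  have := Nat.div_add_mod a d
  have := Nat.mod_lt a hd
  exact ⟨by exact_mod_cast (by nlinarith : a ≤ (a / d + 1) * d),
    by exact_mod_cast (by nlinarith [Nat.zero_le (a % d)] : (a / d + 1) * d ≤ a + d)⟩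

theorem num_big {b e t mm : ℕ} (hb : 16 ≤ b) (he : e < 2) (t1 : b + 6 ≤ t) (t2 : t ≤ 2 * b + 12)
    (hm : mm = 1 ∨ (mm = 2 ∧ 2 * b + 8 ≤ t)) :
    ∃ lam κ a L X q M N nj lo hi mx L1 X1 Ip Im, Num (2 * b + 6 + e) b t (Nat.log 2 (b + 6)) mm
      lam κ a L X q M N nj lo hi mx L1 X1 Ip Im := by
  obtain ⟨g, hg⟩ : ∃ g, g = 2 * b + 6 + e := ⟨_, rfl⟩
  obtain ⟨T, hT⟩ : ∃ T, T = b + 6 := ⟨_, rfl⟩
  obtain ⟨U, hU⟩ : ∃ U, U = 2 * 2 ^ g + 19 * t + 2 := ⟨_, rfl⟩
  have pb := pow_sq_big b hb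
  rw [← hg, ← hT]
  rw [← hT] at pb t1
  have T0 : 0 < T := by omega
  have l1 := div_bd (16 * 2 ^ b) T T0
  have l2 := div_bd U t (by omega)
  have l3 := div_bd (2 * U) (t * (t - 2 * mm)) (Nat.mul_pos (by omega) (by omega))
  have l4 := div_bd (2 ^ g) 14 (by omega)
  have lg1 := Nat.lt_pow_succ_log_self (show 1 < 2 by omega) T
  have l5 : 16 * 2 ^ b ≤ (16 * 2 ^ b / T + 1) * T := by exact_mod_cast l1.1
  have l6 : (16 * 2 ^ b / T + 1) * T ≤ 16 * 2 ^ b + T := by exact_mod_cast l1.2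
  generalize 16 * 2 ^ b / T + 1 = lam at *
  generalize 2 * U / (t * (t - 2 * mm)) + 1 = X at *
  generalize U / t + 1 = L at *
  have l7 : 2 ^ g ≤ 14 * (2 ^ g / 14 + 1) := by omega
  generalize 2 ^ g / 14 + 1 = κ at *
  obtain ⟨N, hN⟩ : ∃ N : ℝ, N = 2 ^ b := ⟨_, rfl⟩
  obtain ⟨y, hy⟩ : ∃ y : ℝ, y = 2 ^ (b + e) := ⟨_, rfl⟩
  obtain ⟨u, hu⟩ : ∃ u : ℝ, u = 2 ^ g / T := ⟨_, rfl⟩
  have T22 : (22 : ℝ) ≤ T := by exact_mod_cast (by omega : 22 ≤ T)
  have q1 : (2 : ℝ) ^ g = T * u := by rw [hu]; field_simp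
  have q2 : T * u = 64 * N * y := by rw [← q1, hN, hy, hg]; ring
  have N1 : 100 * (T : ℝ) ^ 2 ≤ N := by rw [hN]; exact_mod_cast pb
  have y1 : N ≤ y := by rw [hN, hy]; exact pow_le_pow_right₀ (by norm_num) (by omega)
  have ml : ∀ {a b c : ℝ}, a ≤ b → 0 ≤ c → a * c ≤ b * c := mul_le_mul_of_nonneg_right
  have Tp : (0 : ℝ) ≤ T := Nat.cast_nonneg _
  have tp : (0 : ℝ) ≤ t := Nat.cast_nonneg _
  have gp : (0 : ℝ) ≤ g := Nat.cast_nonneg _
  have N2 : 2200 * (T : ℝ) ≤ N := by linarith only [N1, ml T22 Tp]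
  have y0 : 0 ≤ y := by linarith only [N2, y1, Tp]
  have N0 : 0 ≤ N := by linarith only [N2, Tp]
  have u1 : 6400 * T * y ≤ u := le_of_mul_le_mul_left (a := (T : ℝ))
    (by linarith only [q2, ml N1 y0]) (by linarith only [T22])
  have Ty : 22 * y ≤ T * y := ml T22 y0
  have u2 : 100000 * (T : ℝ) ≤ u := by linarith only [u1, Ty, N2, y1, Tp]
  have u0 : 0 ≤ u := by linarith only [u2, Tp]
  have Tu : 22 * u ≤ T * u := ml T22 u0
  have g1 : 2 * (T : ℝ) - 6 ≤ g := by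
    have : (2 * T : ℝ) ≤ g + 6 := by exact_mod_cast (by omega : 2 * T ≤ g + 6)
    linarith only [this]
  have g2 : (g : ℝ) ≤ 2 * T - 5 := by
    have : (g + 5 : ℝ) ≤ 2 * T := by exact_mod_cast (by omega : g + 5 ≤ 2 * T)
    linarith only [this]
  have t3 : (T : ℝ) ≤ t := by exact_mod_cast t1
  have t4 : (t : ℝ) ≤ 2 * T := by exact_mod_cast (by omega : t ≤ 2 * T)
  have t5 : (0 : ℝ) < t := by linarith only [t3, T22]
  have m2 : (mm : ℝ) ≤ 2 := by exact_mod_cast (by omega : mm ≤ 2)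
  have U1 : (U : ℝ) = 2 * (T * u) + 19 * t + 2 := by rw [hU, ← q1]; push_cast; ring
  have U2 : (U : ℝ) ≤ T * (2 * u + 39) := by linarith only [U1, t4, T22]
  push_cast [Nat.cast_sub (show 2 * mm ≤ t by omega)] at l1 l3 l4
  rw [← hN] at l1
  rw [q1] at l4
  have X0 : (0 : ℝ) ≤ X := Nat.cast_nonneg _
  have L0 : (0 : ℝ) ≤ L := Nat.cast_nonneg _
  have tu := ml t3 u0
  have tu' := ml t4 u0
  have gu := ml g1 u0
  have gu' := ml g2 u0
  have A : (L : ℝ) ≤ 2 * u + 40 :=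
    le_of_mul_le_mul_right (a := (t : ℝ)) (by linarith only [l2.2, U2, tu, t3]) t5
  have B : (t - 2) * (X : ℝ) ≤ 4 * u + 78 + 2 * T := by
    rcases hm with rfl | ⟨rfl, h⟩
    · refine le_of_mul_le_mul_right (a := (t : ℝ)) ?_ t5
      push_cast at l3
      linarith only [l3.2, U2, tu, t3, ml t4 tp, tp]
    · have h' : (T : ℝ) ≤ t - 4 := by
        have : (T : ℝ) + 4 ≤ t := by exact_mod_cast (by omega : T + 4 ≤ t)
        linarith only [this]
      have : (t : ℝ) * X ≤ 4 * u + 78 + t := by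
        refine le_of_mul_le_mul_right (a := (t : ℝ) - 4) ?_ (by linarith only [h', T22])
        push_cast at l3
        linarith only [l3.2, U2, ml h' u0, h']
      linarith only [this, t4, X0]
  have D : mm * (X : ℝ) ≤ u / 4 := by
    rcases hm with rfl | ⟨rfl, h⟩
    · push_cast; linarith only [B, ml (T22.trans t3) X0, u2, T22]
    · have h' : (40 : ℝ) ≤ t := by exact_mod_cast (by omega : 40 ≤ t)
      push_cast; linarith only [B, ml h' X0, u2, T22]
  have th : ∀ m, T ≤ m → (3 / 4 : ℝ) ^ m * (4 * (T * u)) ≤ u / 2 := fun m hm => by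
    linarith only [ml (theta_small T (by omega)) u0, ml (theta_le hm) (mul_nonneg Tp u0)]
  have th1 : ∀ m, 1 ≤ m → (3 / 4 : ℝ) ^ m * (4 * (T * u)) ≤ 3 * (T * u) := fun m hm => by
    linarith only [ml (theta_le hm) (mul_nonneg Tp u0)]
  have th5 : ∀ m, 5 ≤ m → (3 / 4 : ℝ) ^ m * (4 * (T * u)) ≤ T * u := fun m hm => by
    linarith only [ml (theta_le hm) (mul_nonneg Tp u0), mul_nonneg Tp u0]
  have R : g * (32 * y + 8 * N + 2) + 8 * N ≤ u / 10 := by
    linarith only [ml g2 y0, ml y1 gp, g2, u1, u2, y0, y1, Ty]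
  have a0 : ((12 * 2 ^ (b + e) : ℕ) : ℝ) = 12 * y := by rw [hy]; push_cast; ring
  have tm : (0 : ℝ) < t - mm := by linarith only [t3, T22, m2]
  have L1 : (2 * (T * u) + 17 * t) / t ≤ 2 * u + 17 := by
    rw [div_le_iff₀ t5]; linarith only [tu]
  have L2 : 0 ≤ (2 * (T * u) + 17 * t) / t := by positivity
  have ty : (t : ℝ) * 1100 * y ≤ N * y := ml (by linarith only [t4, N2]) y0
  have yy : N * y ≤ y * y := ml y1 y0
  have tN : N * t ≤ y * t := ml y1 tp
  have ty' : 22 * y ≤ t * y := ml (T22.trans t3) y0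
  have ty'' := ml t4 y0
  have mu := ml m2 u0
  have pb' : 2200 * T ≤ 2 ^ b := by nlinarith only [pb, show 22 ≤ T by omega]
  refine ⟨lam, κ, 12 * 2 ^ (b + e), L, X, T * u, 32 * y, N, 5 * u, u, 13 / 5 * u, 13 / 5 * u,
    (2 * (T * u) + 17 * t) / t, ((2 * (T * u) + 17 * t) / t + 13 / 5 * u) / (t - mm), _, _,
    by omega, by omega, ?_, by omega, by omega, by omega, ?_, l7, ?_,
    by nlinarith only [l6, pb', show 22 ≤ T by omega], by nlinarith only [l5, t1],
    q1.symm, ?_, hN, ?_, by linarith only [B, ml A gp, gu', g2, u2, T22],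
    by linarith only [B, gu', g2, u2, T22, Tu], by linarith only [ml D gp, gu, g2, u2, T22, Tu],
    fun m h1 h2 => ?_, fun μ hμ => ?_,
    by linarith only [tu', t4, u2, T22, Tu], by linarith only [mu, l4.2, t4, u2, T22, Tu],
    by linarith only [mu, tu, t4, u2, T22, Tu], by linarith only [mu, m2, l4.2, t4, u2, T22, Tu],
    by linarith only [t4, u2, T22, Tu], by rw [a0]; linarith only [ty'', u1, t4, u2, T22, Tu, Ty, y0],
    (div_mul_cancel₀ _ t5.ne').ge, (div_mul_cancel₀ _ tm.ne').ge, fun m h1 h2 => ?_,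
    by linarith only [t4, N2, y1, T22], ?_, rfl, rfl,
    by rw [a0]; linarith only [ty, tN, ty', y0], by rw [a0]; linarith only [ty, yy, ty', y0, tp],
    by rw [a0]; linarith only [ty, yy, ty', y0, tp]⟩
  · exact (Nat.le_log_iff_pow_le (by omega) (by omega)).2 (by omega)
  · have := Nat.pow_le_pow_right (show 0 < 2 by omega) (show b ≤ g - 1 - (b + 3) by omega)
    omega
  · rw [pow_succ] at lg1
    nlinarith only [lg1, l5]
  · rw [hy, show g - 1 - b = b + e + 5 by omega]; ring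
  · rw [show g - b - 2 = b + e + 4 by omega, pow_add _ (b + e), ← hy]
    have : lam * (16 * y) ≤ 4 * u + 16 * y := le_of_mul_le_mul_right (a := (T : ℝ))
      (by linarith only [ml l1.2 y0, q2]) (by linarith only [T22])
    linarith only [this, th g (by omega), u1, Ty, y0]
  · rcases Nat.lt_or_ge m T with a | a
    · right
      have a' : (m : ℝ) ≤ T := by exact_mod_cast a.le
      rcases Nat.lt_or_ge m 5 with c | c
      · have c' : (m : ℝ) ≤ 4 := by exact_mod_cast Nat.lt_succ_iff.1 c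
        linarith only [th1 m h1, ml c' u0, Tu, u2, T22]
      · linarith only [th5 m c, ml a' u0, Tu, u2, T22]
    · left
      have : (m : ℝ) + 1 ≤ g := by exact_mod_cast h2
      linarith only [th m a, ml this u0, u0]
  · have μ1 : (μ : ℝ) ≤ mm := by exact_mod_cast hμ
    have μ0 : (0 : ℝ) ≤ μ := Nat.cast_nonneg _
    rw [← U1]
    refine le_of_mul_le_mul_right (a := (t : ℝ)) ?_ t5
    linarith only [ml l2.1 (show (0 : ℝ) ≤ t - 2 * μ by linarith only [μ1, m2, t3, T22]),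
      ml l3.1 μ0, ml μ1 (mul_nonneg (mul_nonneg μ0 X0) tp)]
  · rw [a0]
    rcases Nat.lt_or_ge m T with a | a
    · left
      have a' : (m : ℝ) ≤ T := by exact_mod_cast a.le
      have m0 : 0 ≤ m * y := by positivity
      rcases Nat.lt_or_ge m 5 with c | c
      · have c' : (m : ℝ) ≤ 4 := by exact_mod_cast Nat.lt_succ_iff.1 c
        linarith only [th1 m h1, ml c' u0, Tu, u0, R, m0]
      · linarith only [th5 m c, ml a' u0, Tu, u0, R, m0]
    · right
      have m0 : 0 ≤ g * y := by positivity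
      have m1 : (t : ℝ) - 2 ≤ t - mm := by linarith only [m2]
      have : (t - 2) * (((2 * (T * u) + 17 * t) / t + 13 / 5 * u) / (t - mm)) ≤
          (2 * (T * u) + 17 * t) / t + 13 / 5 * u := by
        rw [← mul_div_assoc, div_le_iff₀ tm, mul_comm]
        exact mul_le_mul_of_nonneg_left m1 (by positivity)
      linarith only [this, mul_le_mul g2 L1 L2 (gp.trans g2), th m a, R, m0, L1, u2, T22]
  · exact Nat.le_mul_of_pos_right _ (by positivity)

end Pool.Agent.Lib.MP_71763b_co
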