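import Pool.Agent.Lib.MP_71763b_co.GenC

namespace Pool.Agent.Lib.MP_71763b_co

open Finset

variable {g : ℕ}

/-- the set of deleted points together with a syndrome map -/
structure OmOK (b t r mm : ℕ) (Om : Finset (Cu g)) (σ : Cu g → Fin r → F2) : Prop where
  card : Om.card = t
  one : ∀ ω ∈ Om, co g ω = 1 ∧ co 0 ω = 1 ∧ co (g + 1) ω = 1
  top : ∀ x, (∀ n ≤ g + 1, co n x = 1) → x ∈ Om
  adj : ∀ ω ∈ Om, ∀ i < g, co i ω = 0 → co (i + 1) ω = 1
  mu : ∀ i ≤ g, (fs fun x => x ∈ Om ∧ co i x = 0).card ≤ mm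
  sum : ∑ i ∈ range g, (fs fun x => x ∈ Om ∧ co i x = 0).card + 2 ≤ t
  add : ∀ x y, σ (x + y) = σ x + σ y
  sur : ∀ w, ∃ ω ∈ Om, σ ω = w
  loc : ∀ w, ∃ u, σ u = w ∧ ∀ n, n = 0 ∨ b + 3 ≤ n → co n u = 0

def pt (g p : ℕ) (s : F2) : Cu g :=
  mk g fun n => if n = g + 2 then s else if n = p ∧ p ≠ 0 then 0 else 1

theorem co_pt {n : ℕ} (p : ℕ) (s : F2) (h : n ≤ g + 1) :
    co n (pt g p s) = if n = p ∧ p ≠ 0 then 0 else 1 := by
  rw [pt, co_mk (by omega), if_neg (by omega)]

theorem co_pt' (p : ℕ) (s : F2) : co (g + 2) (pt g p s) = s := by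
  rw [pt, co_mk (by omega), if_pos rfl]

theorem pt_inj (s : F2) {p p' : ℕ} (h : p ≤ g) (h' : p' ≤ g) (e : pt g p s = pt g p' s) :
    p = p' := by
  have a := congrArg (co p) e
  have b := congrArg (co p') e
  rw [co_pt _ _ (by omega), co_pt _ _ (by omega)] at a b
  by_contra q
  simp [q, Ne.symm q] at a b
  omega

theorem exists_enum (r : ℕ) : ∃ f : ℕ → Fin r → F2, f 0 = 0 ∧ (∀ w, ∃ n < 2 ^ r, f n = w) ∧
    ∀ p : Fin r, f (p + 1) = Pi.single p 1 := by
  classical
  let f : Fin (2 ^ r) → Fin r → F2 := fun i j => if i.val = j + 1 then 1 else 0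
  obtain ⟨e, he⟩ := exists_equiv_extend_of_card_eq (α := Fin (2 ^ r))
    (t := (univ : Finset (Fin r → F2))) (by simp) (s := univ.filter fun i => i.val ≤ r) (f := f)
    (subset_univ _) (fun i hi j hj e => by
      simp only [coe_filter, mem_univ, true_and, Set.mem_ofPred_eq] at hi hj
      by_contra q
      have q' : i.val ≠ j.val := fun e => q (Fin.ext e)
      rcases Nat.eq_zero_or_pos i with a | a
      · have := congrFun e ⟨j - 1, by omega⟩
        simp only [f] at this
        rw [if_neg (by omega), if_pos (by omega)] at this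
        exact absurd this (by decide)
      · have := congrFun e ⟨i - 1, by omega⟩
        simp only [f] at this
        rw [if_pos (by omega), if_neg (by omega)] at this
        exact absurd this (by decide))
  have hr : r < 2 ^ r := Nat.lt_two_pow_self
  refine ⟨fun n => if h : n < 2 ^ r then e ⟨n, h⟩ else 0, ?_, fun w => ?_, fun p => ?_⟩
  · beta_reduce
    rw [dif_pos (by omega), he _ (by simp)]
    funext j; simp [f]
  · exact ⟨e.symm ⟨w, mem_univ _⟩, Fin.is_lt _, by simp⟩
  · have := p.2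
    beta_reduce
    rw [dif_pos (by omega), he _ (by simp)]
    funext j
    simp [f, Pi.single_apply, Fin.ext_iff, eq_comm]

theorem exists_om {b r n1 n2 mm : ℕ} (h1 : n2 ≤ n1) (h2 : n1 < g) (h3 : 2 ^ r ≤ n1 + 2)
    (h4 : r ≤ b + 2) (h5 : r ≤ g) (h6 : 2 ≤ mm ∨ (mm = 1 ∧ n2 = 0)) :
    ∃ Om σ, OmOK (g := g) b (n1 + n2 + 2) r mm Om σ := by
  classical
  obtain ⟨f, f0, f1, f2⟩ := exists_enum r
  let h : ℕ → Fin r → F2 := fun n => if n = g + 2 then f (n1 + 1) else f n
  let σ : Cu g → Fin r → F2 := fun x => ∑ n : Fin (g + 3), x n • h n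
  have σ1 : ∀ x y, σ (x + y) = σ x + σ y := fun x y => by simp [σ, add_smul, sum_add_distrib]
  have σ2 : ∀ n < g + 3, σ (ee g n) = h n := fun n hn => by
    simp only [σ]
    rw [sum_eq_single ⟨n, hn⟩]
    · simp [ee, mk]
    · intro m _ hm
      simp [ee, mk, show m.val ≠ n from fun e => hm (Fin.ext e)]
    · simp
  let Om := (range (n1 + 1)).image (pt g · 1) ∪ (range (n2 + 1)).image (pt g · 0)
  have mO : ∀ x, x ∈ Om ↔ (∃ p ≤ n1, pt g p 1 = x) ∨ ∃ p ≤ n2, pt g p 0 = x := by
    simp [Om]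
  have mO' : ∀ x ∈ Om, ∃ p s, p < g ∧ pt g p s = x := fun x hx => by
    rcases (mO x).1 hx with ⟨p, a, e⟩ | ⟨p, a, e⟩ <;> exact ⟨p, _, by omega, e⟩
  have cO : Om.card = n1 + n2 + 2 := by
    rw [card_union_of_disjoint, card_image_of_injOn, card_image_of_injOn]
    · simp; omega
    · exact fun p a p' b => pt_inj 0 (by simp at a; omega) (by simp at b; omega)
    · exact fun p a p' b => pt_inj 1 (by simp at a; omega) (by simp at b; omega)
    · simp only [disjoint_left, mem_image]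
      rintro _ ⟨p, -, rfl⟩ ⟨p', -, e⟩
      simpa [co_pt'] using congrArg (co (g + 2)) e
  have mu : ∀ i ≤ g, (fs fun x => x ∈ Om ∧ co i x = 0).card ≤
      (if 1 ≤ i ∧ i ≤ n1 then 1 else 0) + if 1 ≤ i ∧ i ≤ n2 then 1 else 0 := fun i hi => by
    have : (fs fun x => x ∈ Om ∧ co i x = 0) ⊆ (if 1 ≤ i ∧ i ≤ n1 then {pt g i 1} else ∅) ∪
        if 1 ≤ i ∧ i ≤ n2 then {pt g i 0} else ∅ := by
      intro x hx
      rw [mem_fs, mO] at hx
      obtain ⟨⟨p, a, rfl⟩ | ⟨p, a, rfl⟩, e⟩ := hx <;>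
      · rw [co_pt _ _ (by omega)] at e
        obtain ⟨rfl, c⟩ : i = p ∧ p ≠ 0 := by by_contra q; simp [q] at e
        simp [show 1 ≤ i by omega, a]
    refine (card_le_card this).trans ((card_union_le _ _).trans ?_)
    split_ifs <;> simp
  refine ⟨Om, σ, cO, fun ω hω => ?_, fun x hx => ?_, fun ω hω i hi e => ?_, fun i hi => ?_, ?_, σ1,
    fun w => ?_, fun w => ?_⟩
  · obtain ⟨p, s, a, rfl⟩ := mO' ω hω
    rw [co_pt _ _ (by omega), co_pt _ _ (by omega), co_pt _ _ (by omega), if_neg (by omega),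
      if_neg (by omega), if_neg (by omega)]
    simp
  · have : pt g 0 (co (g + 2) x) = x := cu_ext fun n hn => by
      rcases Nat.lt_or_ge n (g + 2) with q | q
      · rw [co_pt _ _ (by omega), hx n (by omega)]; simp
      · rw [show n = g + 2 by omega, co_pt']
    rw [mO]
    rcases f2_cases (co (g + 2) x) with e | e <;> rw [e] at this
    exacts [Or.inr ⟨0, by omega, this⟩, Or.inl ⟨0, by omega, this⟩]
  · obtain ⟨p, s, a, rfl⟩ := mO' ω hω
    rw [co_pt _ _ (by omega)] at e ⊢
    obtain ⟨rfl, c⟩ : i = p ∧ p ≠ 0 := by by_contra q; simp [q] at e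
    simp
  · have := mu i hi
    split_ifs at this <;> omega
  · have a : ∀ n, ∑ i ∈ range g, (if 1 ≤ i ∧ i ≤ n then 1 else 0) ≤ n := fun n => by
      rw [← card_filter]
      exact (card_le_card (t := Icc 1 n) fun i hi => by simpa using (mem_filter.1 hi).2).trans
        (by simp)
    have := sum_le_sum fun i (hi : i ∈ range g) => mu i (mem_range.1 hi).le
    rw [sum_add_distrib] at this
    have := a n1
    have := a n2
    omega
  · obtain ⟨n, hn, e⟩ := f1 (w - σ (pt g 0 1))
    rw [eq_sub_iff_add_eq'] at e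
    by_cases q : n = 0
    · exact ⟨pt g 0 1, (mO _).2 (Or.inl ⟨0, by omega, rfl⟩), by simpa [q, f0] using e⟩
    by_cases q' : n = n1 + 1
    · refine ⟨pt g 0 0, (mO _).2 (Or.inr ⟨0, by omega, rfl⟩), ?_⟩
      have : pt g 0 0 = pt g 0 1 + ee g (g + 2) := cu_ext fun n hn => by
        rcases Nat.lt_or_ge n (g + 2) with q | q
        · simp [co_add, co_pt _ _ (show n ≤ g + 1 by omega), co_ee_ne q.ne]
        · rw [show n = g + 2 by omega, co_add, co_pt', co_pt', co_ee_self (by omega)]; rfl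
      rw [this, σ1, σ2 _ (by omega), ← e, q']; simp [h]
    · refine ⟨pt g n 1, (mO _).2 (Or.inl ⟨n, by omega, rfl⟩), ?_⟩
      have : pt g n 1 = pt g 0 1 + ee g n := cu_ext fun m hm => by
        rcases Nat.lt_or_ge m (g + 2) with s | s
        · rw [co_add, co_pt _ _ (by omega), co_pt _ _ (by omega)]
          by_cases c : m = n
          · rw [c, co_ee_self (by omega)]; simp [q]; rfl
          · simp [c, co_ee_ne c]
        · rw [show m = g + 2 by omega, co_add, co_pt', co_pt', co_ee_ne (by omega), add_zero]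
      rw [this, σ1, σ2 _ (by omega), ← e]; simp [h, show n ≠ g + 2 by omega]
  · have : ∀ s : Finset (Fin r), ∃ u, σ u = ∑ p ∈ s, Pi.single p 1 ∧
        ∀ n, n = 0 ∨ b + 3 ≤ n → co n u = 0 := by
      intro s
      induction s using Finset.induction_on with
      | empty => exact ⟨0, by simp [σ], fun n _ => co_zero n⟩
      | insert p s hp ih =>
        obtain ⟨u, a, c⟩ := ih
        have := p.2
        refine ⟨ee g (p + 1) + u, ?_, fun n hn => ?_⟩
        · rw [σ1, σ2 _ (by omega), sum_insert hp, a, ← f2]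
          simp [h, show p.val ≠ g + 1 by omega]
        · rw [co_add, c n hn, co_ee_ne (by omega), add_zero]
    obtain ⟨u, a, c⟩ := this (univ.filter fun p => w p = 1)
    refine ⟨u, a.trans ?_, c⟩
    funext j
    rw [Finset.sum_apply]
    simp only [Pi.single_apply, sum_ite_eq, mem_filter, mem_univ, true_and]
    rcases f2_cases (w j) with e | e <;> simp [e]

end Pool.Agent.Lib.MP_71763b_co
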