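import Pool.Agent.Lib.MP_71763b_co.Jc
import Pool.Agent.Lib.MP_71763b_co.Hall

namespace Pool.Agent.Lib.MP_71763b_co

open Finset

theorem hall_fs {α : Type} [Fintype α] (Y : α → Prop) (K : Finset ℕ) (opt : α → ℕ → Prop)
    (κ : ℕ → ℕ) (h : ∀ I ⊆ K, (fs fun y => Y y ∧ ∀ i ∈ I, ¬ opt y i).card ≤ ∑ i ∈ K \ I, κ i) :
    ∃ f : α → ℕ, (∀ y, Y y → f y ∈ K ∧ opt y (f y)) ∧
      ∀ i, (fs fun y => Y y ∧ f y = i).card ≤ κ i := by
  simpa only [filter_fs, mem_fs] using cap_hall (fs Y) K opt κ (by simpa only [filter_fs] using h)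

theorem exact_fs {α : Type} [Fintype α] (Y : α → Prop) (K : Finset ℕ) (opt : α → ℕ → Prop)
    (κ : ℕ → ℕ) (hs : ∑ i ∈ K, κ i = (fs Y).card)
    (h : ∀ I ⊆ K, (fs fun y => Y y ∧ ∀ i ∈ I, ¬ opt y i).card ≤ ∑ i ∈ K \ I, κ i) :
    ∃ f : α → ℕ, (∀ y, Y y → f y ∈ K ∧ opt y (f y)) ∧
      ∀ i ∈ K, (fs fun y => Y y ∧ f y = i).card = κ i := by
  simpa only [filter_fs, mem_fs] using
    cap_exact (fs Y) K opt κ hs (by simpa only [filter_fs] using h)

variable {g : ℕ}

def W1 (g : ℕ) : Cu g := mk g fun n => if n ≤ g then 1 else 0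
def W2 (g : ℕ) : Cu g := W1 g + ee g (g + 2)
def G1 (g : ℕ) : Cu g := ee g 1 + ee g g
def G2 (g : ℕ) : Cu g := G1 g + ee g 0

theorem co_W1 {n : ℕ} (h : n ≤ g) : co n (W1 g) = 1 := by rw [W1, co_mk (by omega), if_pos h]
theorem co_W1o : co (g + 1) (W1 g) = 0 := by rw [W1, co_mk (by omega), if_neg (by omega)]
theorem co_W1s : co (g + 2) (W1 g) = 0 := by rw [W1, co_mk (by omega), if_neg (by omega)]
theorem co_W2 {n : ℕ} (h : n ≤ g) : co n (W2 g) = 1 := by
  rw [W2, co_add, co_W1 h, co_ee_ne (by omega), add_zero]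
theorem co_W2o : co (g + 1) (W2 g) = 0 := by
  rw [W2, co_add, co_W1o, co_ee_ne (by omega), add_zero]
theorem co_W2s : co (g + 2) (W2 g) = 1 := by
  rw [W2, co_add, co_W1s, co_ee_self (by omega), zero_add]
theorem W1_ne : W1 g ≠ W2 g := fun e => by simpa [co_W1s, co_W2s] using congrArg (co (g + 2)) e

theorem co_G (h : 3 ≤ g) : (co g (G1 g) = 1 ∧ co 0 (G1 g) = 0 ∧ co (g + 1) (G1 g) = 0) ∧
    (co g (G2 g) = 1 ∧ co 0 (G2 g) = 1 ∧ co (g + 1) (G2 g) = 0) ∧
    (co 1 (G1 g) = 1 ∧ co 2 (G1 g) = 0) ∧ co 1 (G2 g) = 1 ∧ co 2 (G2 g) = 0 := by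
  simp (disch := omega) only [G1, G2, co_add, co_ee_ne, co_ee_self]
  simp

theorem const_of (z : Cu g) (h : ∀ i < g, co i z = co (i + 1) z) : ∀ n ≤ g, co n z = co 0 z := by
  intro n
  induction n with
  | zero => exact fun _ => rfl
  | succ n ih => exact fun hn => (h n hn).symm.trans (ih (by omega))

theorem eq_W {x : Cu g} (c : F2) (h : ∀ n ≤ g, co n x = c) (h' : co (g + 1) x = 0) :
    (c = 0 ∧ (x = 0 ∨ x = ee g (g + 2))) ∨ (c = 1 ∧ (x = W1 g ∨ x = W2 g)) := by
  have key : ∀ y : Cu g, (∀ n ≤ g, co n y = c) → co (g + 1) y = 0 → co (g + 2) y = co (g + 2) x →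
      x = y := fun y a b d => cu_ext fun n hn => by
    rcases (by omega : n ≤ g ∨ n = g + 1 ∨ n = g + 2) with q | rfl | rfl
    exacts [(h n q).trans (a n q).symm, h'.trans b.symm, d.symm]
  rcases f2_cases c with rfl | rfl <;> rcases f2_cases (co (g + 2) x) with e | e
  · exact Or.inl ⟨rfl, Or.inl (key _ (fun _ _ => co_zero _) (co_zero _) (by rw [e, co_zero]))⟩
  · exact Or.inl ⟨rfl, Or.inr (key _ (fun _ _ => co_ee_ne (by omega)) (co_ee_ne (by omega))
      (by rw [e, co_ee_self (by omega)]))⟩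
  · exact Or.inr ⟨rfl, Or.inl (key _ (fun _ => co_W1) co_W1o (by rw [e, co_W1s]))⟩
  · exact Or.inr ⟨rfl, Or.inr (key _ (fun _ => co_W2) co_W2o (by rw [e, co_W2s]))⟩

theorem exists_fw {κ : ℕ} (hg : 14 ≤ g) (hκ : 2 ^ g ≤ 14 * κ) : ∃ f : Cu g → ℕ, (∀ x, f x < g) ∧
    (∀ x u, (∀ i < g, co i u = co (i + 1) u) → f (x + u) = f x) ∧
    (∀ x, co (f x) x = co (f x + 1) x → ∀ i < g, co i x = co (i + 1) x) ∧
    ∀ i < g, ∀ γ, (fs fun x => Cl i 1 0 γ x ∧ f x = i).card ≤ 2 * κ := by
  classical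
  let d : Cu g → Fin g → F2 := fun x i => co i x + co (i + 1) x
  obtain ⟨f, f1, f2⟩ := hall_fs (fun _ : Fin g → F2 => True) (range g)
    (fun y i => (∃ h : i < g, y ⟨i, h⟩ = 1) ∨ y = 0) (fun _ => κ) fun I hI => by
      rw [sum_const, card_sdiff_of_subset hI, card_range, smul_eq_mul]
      have hc : I.card ≤ g := by simpa using card_le_card hI
      rcases hc.lt_or_eq with q | q
      · refine le_trans (card_le_card (t := Fintype.piFinset fun i : Fin g =>
          if i.val ∈ I then {0} else univ) fun y hy => ?_) ?_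
        · rw [Fintype.mem_piFinset]
          intro i
          split_ifs with a
          · exact mem_singleton.2 (f2_ne1.1 fun e => by
              rw [mem_fs] at hy
              exact hy.2 i a (Or.inl ⟨i.2, e⟩))
          · exact mem_univ _
        · rw [Fintype.card_piFinset]
          simp only [apply_ite card, card_singleton, card_univ, ZMod.card]
          rw [prod_ite, prod_const_one, one_mul, prod_const]
          have e : (univ.filter fun i : Fin g => i.val ∉ I).card = g - I.card := by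
            have := card_filter_add_card_filter_not (s := univ) fun i : Fin g => i.val ∈ I
            have e2 : (univ.filter fun i : Fin g => i.val ∈ I).card = I.card :=
              card_bij (fun i _ => i.val) (by simp) (fun _ _ _ _ e => Fin.ext e)
                fun n hn => ⟨⟨n, mem_range.1 (hI hn)⟩, by simpa using hn, rfl⟩
            simp only [card_univ, Fintype.card_fin] at this
            omega
          rw [e]
          obtain ⟨m, rfl⟩ := Nat.exists_eq_add_of_le q.le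
          generalize I.card = c at *
          rw [Nat.add_sub_cancel_left]
          have : 14 ≤ 2 ^ c * m := by
            rcases Nat.lt_or_ge c 4 with a | a
            · interval_cases c <;> omega
            · have := Nat.pow_le_pow_right (show 0 < 2 by omega) a
              nlinarith
          rw [pow_add] at hκ
          refine Nat.le_of_mul_le_mul_left ?_ (show 0 < 14 by omega)
          have h3 := Nat.mul_le_mul_right (2 ^ m) this
          nlinarith [Nat.mul_le_mul_left m hκ]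
      · rw [fs_empty fun y hy => ?_]
        · omega
        · have : I = range g := eq_of_subset_of_card_le hI (by simp [q])
          subst this
          exact hy.2 0 (by simp; omega) (Or.inr (funext fun i =>
            f2_ne1.1 fun e => hy.2 i (by simp) (Or.inl ⟨i.2, e⟩)))
  refine ⟨fun x => f (d x), fun x => mem_range.1 (f1 _ trivial).1, fun x u hu => ?_,
    fun x hx i hi => ?_, fun i hi γ => ?_⟩
  · refine congrArg f (funext fun i => ?_)
    simp only [d, co_add, hu i i.2]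
    linear_combination f2_self (co (i + 1) u)
  · rcases (f1 (d x) trivial).2 with ⟨a, e⟩ | e
    · simp only [d] at e hx
      rw [hx, f2_self] at e
      exact absurd e (by decide)
    · exact (by decide : ∀ a b : F2, a + b = 0 → a = b) _ _ (congrFun e ⟨i, hi⟩)
  · refine le_trans (card_le_card_of_injOn (t := univ ×ˢ fs fun y => True ∧ f y = i)
      (fun x => (co (g + 2) x, d x)) (fun x hx => ?_) fun x hx y hy e => ?_) ?_
    · simpa using (mem_fs.1 hx).2
    · simp only [Prod.ext_iff, funext_iff, d] at e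
      obtain ⟨⟨a1, -, a2⟩, -⟩ := mem_fs.1 hx
      obtain ⟨⟨b1, -, b2⟩, -⟩ := mem_fs.1 hy
      have := const_of (x + y) fun j hj => by
        rw [co_add, co_add]
        linear_combination e.2 ⟨j, hj⟩ + f2_self (co j y) - f2_self (co (j + 1) x)
      have z : co 0 (x + y) = 0 := by rw [← this i hi.le, co_add, a1, b1]; rfl
      rw [z] at this
      rcases eq_W 0 this (by rw [co_add, a2, b2, f2_self]) with ⟨-, q | q⟩ | q
      · simpa [cu_eq_iff, eq_comm] using q
      · simpa [co_add, e.1, f2_self, co_ee_self] using congrArg (co (g + 2)) q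
      · simp at q
    · rw [card_product]
      simpa using f2 i

def PW (f : Cu g → ℕ) (i : ℕ) (x u : Cu g) : Prop := (x + u = W1 g ∨ x + u = W2 g) ∧ f x = i
def PR (x u : Cu g) : Prop := (x + u = G1 g ∨ x + u = G2 g) ∧ ¬ PJ (G1 g) (G2 g) x u
def PP (f : Cu g → ℕ) (i : ℕ) (x u : Cu g) : Prop := PW f i x u ∨ (i = 1 ∧ PR x u)

theorem card_PP (hg : 3 ≤ g) (f : Cu g → ℕ) (i : ℕ) (x : Cu g) : (fs (PP f i x)).card =
    2 * ind (f x = i) + (ind (i = 1 ∧ ¬ (co 0 x = 0 ∧ co (g + 1) x = 0)) +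
      ind (i = 1 ∧ ¬ (co (g + 1) x = 1 ∧ co g x ≠ co 0 x))) := by
  obtain ⟨a1, a2, a3, a4⟩ := co_G hg
  have ne : G1 g ≠ G2 g := fun e => by simp [e, a2] at a1
  rw [two_mul, ← card_one (fun _ => True) x (W1 g) _ fun _ => trivial]
  nth_rewrite 2 [card_one (fun _ => True) x (W1 g) _ fun _ => trivial]
  rw [← card_one (fun _ => True) x (W2 g) _ fun _ => trivial,
    ← card_one (fun _ => True) x (G1 g) _ fun _ => trivial,
    ← card_one (fun _ => True) x (G2 g) _ fun _ => trivial, ← fs_or, ← fs_or, ← fs_or]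
  · refine congrArg _ (fs_congr fun u => ?_)
    unfold PP PW PR PJ
    by_cases e : x + u = G1 g
    · simp [e, ne, or_and_right]
    · simp [e, or_and_right]; tauto
  · rintro u (a | a) (b | b) <;>
    · have := congrArg (co 2) (a.2.1.symm.trans b.2.1)
      simp [co_W1 (show 2 ≤ g by omega), co_W2 (show 2 ≤ g by omega), a3, a4] at this
  · exact fun u a b => ne (a.2.1.symm.trans b.2.1)
  · exact fun u a b => W1_ne (a.2.1.symm.trans b.2.1)

theorem psi_PP (hg : 3 ≤ g) (f : Cu g → ℕ) {i : ℕ} (hi : i < g) (α β γ : F2) :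
    psi (PP f i) i α β γ = 2 * (fs fun x => Cl i α β γ x ∧ f x = i).card +
      if i = 1 then 3 / 2 * 2 ^ g else 0 := by
  unfold psi
  simp only [card_PP hg]
  push_cast
  rw [sum_add_distrib, sum_add_distrib, ← mul_sum, sum_ind_fs, sum_ind_fs, sum_ind_fs]
  simp only [mem_fs]
  split_ifs with e
  · subst e
    have inv : ∀ x : Cu g, Cl 1 α β γ x → Cl 1 α β γ (x + ee g 0) := fun x hx => by
      simp only [Cl, co_add] at hx ⊢
      rwa [co_ee_ne (by omega), co_ee_ne (by omega), co_ee_ne (by omega), add_zero, add_zero,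
        add_zero]
    have c := card_cl hi α β γ
    have h1 := half _ (by omega) inv 1
    have h2 := fib (Cl (g := g) 1 α β γ) (fun x => co g x + co 0 x) (fun x y => by
      simp only [co_add]; ring) (fun w => by
        rcases f2_cases w with rfl | rfl
        · exact ⟨0, by simp [co_zero], by simp⟩
        · exact ⟨_, by rw [co_ee_ne (by omega), co_ee_self (by omega), zero_add], inv⟩) 0
    rw [c] at h1 h2
    simp only [ZMod.card] at h2
    have b1 := congrArg (Nat.cast : ℕ → ℝ) h1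
    have b2 := congrArg (Nat.cast : ℕ → ℝ) h2
    have b3 := congrArg (Nat.cast : ℕ → ℝ) c
    push_cast at b1 b2 b3
    rcases f2_cases γ with rfl | rfl
    · rw [fs_congr (P := fun x => _ ∧ _ ∧ ¬ (co 0 x = 0 ∧ _)) (Q := fun x => Cl 1 α β 0 x ∧ co 0 x = 1)
        fun x => and_congr_right fun hx => by simp [hx.2.2, ← f2_ne0],
        fs_congr (P := fun x => _ ∧ _ ∧ ¬ (co (g + 1) x = 1 ∧ _)) (Q := Cl 1 α β 0)
        fun x => and_iff_left_of_imp fun hx => by simp [hx.2.2]]
      linarith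
    · rw [fs_congr (P := fun x => _ ∧ _ ∧ ¬ (co 0 x = 0 ∧ _)) (Q := Cl 1 α β 1)
        fun x => and_iff_left_of_imp fun hx => by simp [hx.2.2],
        fs_congr (P := fun x => _ ∧ _ ∧ ¬ (co (g + 1) x = 1 ∧ _))
        (Q := fun x => Cl 1 α β 1 x ∧ co g x + co 0 x = 0)
        fun x => and_congr_right fun hx => by
          simpa [hx.2.2] using (by decide : ∀ a b : F2, a = b ↔ a + b = 0) _ _]
      linarith
  · simp [e, fs_empty]

theorem PJ_symm (hg : 3 ≤ g) {x u : Cu g} (h : PJ (G1 g) (G2 g) x u) : PJ (G1 g) (G2 g) u x := by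
  obtain ⟨h1, h2, -⟩ := co_G hg
  simp only [PJ, add_comm u]
  refine h.imp (fun a => ⟨a.1, ?_⟩) fun a => ⟨a.1, ?_⟩
  · simp [cu_eq_iff.1 a.1, co_add, a.2, h1]
  · simpa [cu_eq_iff.1 a.1, co_add, a.2.1, h2] using a.2.2

theorem W_const {z : Cu g} (h : z = W1 g ∨ z = W2 g) : (∀ n ≤ g, co n z = 1) ∧ co (g + 1) z = 0 := by
  rcases h with rfl | rfl
  exacts [⟨fun _ => co_W1, co_W1o⟩, ⟨fun _ => co_W2, co_W2o⟩]

theorem G_co (hg : 3 ≤ g) {z : Cu g} (h : z = G1 g ∨ z = G2 g) :
    co g z = 1 ∧ co 1 z = 1 ∧ co 2 z = 0 ∧ co (g + 1) z = 0 := by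
  obtain ⟨h1, h2, h3, h4⟩ := co_G hg
  rcases h with rfl | rfl <;> tauto

theorem pp_facts (hg : 3 ≤ g) {κ : ℕ} {f : Cu g → ℕ}
    (f2 : ∀ x u, (∀ i < g, co i u = co (i + 1) u) → f (x + u) = f x)
    (f3 : ∀ x, co (f x) x = co (f x + 1) x → ∀ i < g, co i x = co (i + 1) x)
    (f4 : ∀ i < g, ∀ γ, (fs fun x => Cl i 1 0 γ x ∧ f x = i).card ≤ 2 * κ) {i : ℕ} (hi : i < g)
    (Om : Finset (Cu g)) (top : ∀ x, (∀ n ≤ g + 1, co n x = 1) → x ∈ Om) :
    (∀ x u, PP f i x u → PP f i u x) ∧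
    (∀ x u, PP f i x u → co i (x + u) = 1 ∧ co (g + 1) (x + u) = 0) ∧
    (∀ h ∉ Om, ∀ l, PP f i h l → co i h = 1 →
      co (i + 1) h = 0 ∨ co (i + 1) l = 1 ∨ h ∈ fs fun z => z = W1 g ∨ z = W2 g) ∧
    (∀ x, (fs (PP f i x)).card ≤ 4) ∧
    (∀ γ, psi (PP f i) i 0 0 γ + psi (PP f i) i 0 1 γ =
      psi (PP f i) i 1 0 (γ + 1) + psi (PP f i) i 1 1 (γ + 1)) ∧
    ∀ γ, psi (PP f i) i 1 0 (γ + 1) ≤ psi (PP f i) i 0 0 γ + 4 * κ ∧
      psi (PP f i) i 0 0 γ ≤ psi (PP f i) i 1 0 (γ + 1) + 4 := by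
  refine ⟨fun x u h => h.imp (fun a => ⟨add_comm x u ▸ a.1, ?_⟩) fun a =>
    ⟨a.1, add_comm x u ▸ a.2.1, fun q => a.2.2 (PJ_symm hg q)⟩, fun x u h => ?_,
    fun h hh l a e => ?_, fun x => ?_, fun γ => ?_, fun γ => ?_⟩
  · rw [← cu_cancel x u, f2 _ _ fun j hj => by
      rw [(W_const a.1).1 j hj.le, (W_const a.1).1 _ hj], a.2]
  · rcases h with a | ⟨rfl, a⟩
    exacts [⟨(W_const a.1).1 i hi.le, (W_const a.1).2⟩, ⟨(G_co hg a.1).2.1, (G_co hg a.1).2.2.2⟩]
  · rcases a with a | ⟨rfl, a⟩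
    · rcases f2_cases (co (i + 1) h) with q | q
      · exact Or.inl q
      · have c := const_of h (f3 h (by rw [a.2, e, q]))
        have c' : ∀ n ≤ g, co n h = 1 := fun n hn => by rw [c n hn, ← c i hi.le, e]
        rcases f2_cases (co (g + 1) h) with r | r
        · exact Or.inr (Or.inr (by simpa using eq_W 1 c' r))
        · exact absurd (top h fun n hn => by
            rcases (by omega : n ≤ g ∨ n = g + 1) with s | rfl
            exacts [c' n s, r]) hh
    · have := (G_co hg a.1).2.2.1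
      rw [co_add] at this
      rcases f2_cases (co 2 h) with q | q
      · exact Or.inl q
      · exact Or.inr (Or.inl (by rw [q, f2_solve] at this; exact this))
  · rw [card_PP hg]
    have := fun p : Prop => (ind_mono (p := p) fun _ => trivial).trans ind_true.le
    linarith [this (f x = i), this (i = 1 ∧ ¬ (co 0 x = 0 ∧ co (g + 1) x = 0)),
      this (i = 1 ∧ ¬ (co (g + 1) x = 1 ∧ co g x ≠ co 0 x))]
  · have key : ∀ β, (fs fun x => Cl i 0 β γ x ∧ f x = i).card =
        (fs fun x => Cl i 1 (β + 1) (γ + 1) x ∧ f x = i).card := fun β =>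
      shift_fs (W1 g + ee g (g + 1)) _ _ fun u => by
        rw [add_comm _ u, f2 _ _ fun j hj => by
          rw [co_add, co_add, co_W1 hj.le, co_W1 hj, co_ee_ne (by omega), co_ee_ne (by omega)]]
        simp only [Cl, co_add]
        rw [co_W1 hi.le, co_W1 hi, co_W1o, co_ee_ne (by omega), co_ee_ne (by omega),
          co_ee_self (by omega)]
        simp
    simp only [psi_PP hg f hi, key]
    rw [show (1 : F2) + 1 = 0 from rfl, zero_add (1 : F2)]; ring
  · simp only [psi_PP hg f hi]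
    have a1 : ((fs fun x => Cl i 1 0 (γ + 1) x ∧ f x = i).card : ℝ) ≤ 2 * κ := by
      exact_mod_cast f4 i hi (γ + 1)
    have a2 : (fs fun x => Cl i 0 0 γ x ∧ f x = i).card ≤ 2 := by
      refine le_trans (card_le_card_of_injOn (t := univ) (co (g + 2)) (by simp)
        fun x hx y hy e => ?_) (by simp)
      obtain ⟨⟨a1, a2, a3⟩, a4⟩ := mem_fs.1 hx
      obtain ⟨⟨b1, b2, b3⟩, b4⟩ := mem_fs.1 hy
      have c := const_of x (f3 x (by rw [a4, a1, a2]))
      have d := const_of y (f3 y (by rw [b4, b1, b2]))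
      refine cu_ext fun n hn => ?_
      rcases (by omega : n ≤ g ∨ n = g + 1 ∨ n = g + 2) with s | rfl | rfl
      · rw [c n s, d n s, ← c i hi.le, ← d i hi.le, a1, b1]
      · rw [a3, b3]
      · exact e
    have a3 : ((fs fun x => Cl i 0 0 γ x ∧ f x = i).card : ℝ) ≤ 2 := by exact_mod_cast a2
    have a4 : (0 : ℝ) ≤ (fs fun x => Cl i 0 0 γ x ∧ f x = i).card := Nat.cast_nonneg _
    have a5 : (0 : ℝ) ≤ (fs fun x => Cl i 1 0 (γ + 1) x ∧ f x = i).card := Nat.cast_nonneg _
    constructor <;> linarith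

end Pool.Agent.Lib.MP_71763b_co
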