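import Pool.Agent.Lib.MP_71763b_co.Check

namespace Pool.Agent.Lib.MP_71763b_co

def rho (k r a : ℕ) : ℕ → ℕ := fun i => if i < a then r + 1 else if i < k then r else 1

def dl (l : List ℕ) : ℕ → ℕ := fun j => l.getD j 0

theorem rho_pos (k r a i : ℕ) (hr : 1 ≤ r) : 1 ≤ rho k r a i := by
  unfold rho; split_ifs <;> omega

end Pool.Agent.Lib.MP_71763b_co
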