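import Pool.Agent.Lib.MP_71763b_co.Cube
import Pool.Agent.Lib.MP_71763b_co.Low

namespace Pool.Agent.Lib.MP_71763b_co

open Finset

def XP (k i : ℕ) : ℕ := Nat.rec 0 (fun m acc => bif i.blt m then acc ||| (acc <<< 2 ^ m) else
  bif i.beq m then (2 ^ (2 ^ m) - 1) <<< 2 ^ m else 0) k

theorem XP_spec (i : ℕ) : ∀ k x, (XP k i).testBit x = (decide (x < 2 ^ k) && x.testBit i) := by
  intro k
  induction k with
  | zero =>
    intro x
    show Nat.testBit 0 x = _
    rcases Nat.eq_zero_or_pos x with rfl | h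
    · simp
    · simp; omega
  | succ m ih =>
    intro x
    show Nat.testBit (bif i.blt m then XP m i ||| (XP m i <<< 2 ^ m) else
      bif i.beq m then (2 ^ (2 ^ m) - 1) <<< 2 ^ m else 0) x = _
    have e2 : 2 ^ (m + 1) = 2 ^ m + 2 ^ m := by ring
    rcases lt_trichotomy i m with h | rfl | h
    · rw [show i.blt m = true by simpa using h, cond_true, Nat.testBit_or, Nat.testBit_shiftLeft,
        ih, ih]
      rcases Nat.lt_or_ge x (2 ^ m) with g | g
      · simp [g, show x < 2 ^ (m + 1) by omega, show ¬ 2 ^ m ≤ x by omega]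
      · obtain ⟨y, rfl⟩ := Nat.exists_eq_add_of_le g
        rw [Nat.testBit_two_pow_add_gt h, e2]
        simp
    · rw [show i.blt i = false by simp [← Bool.not_eq_true], cond_false,
        show i.beq i = true by simp, cond_true, Nat.testBit_shiftLeft, Nat.testBit_two_pow_sub_one]
      rcases Nat.lt_or_ge x (2 ^ i) with g | g
      · simp [Nat.testBit_lt_two_pow g, show ¬ 2 ^ i ≤ x by omega]
      · obtain ⟨y, rfl⟩ := Nat.exists_eq_add_of_le g
        rw [Nat.testBit_two_pow_add_eq, e2]
        by_cases g2 : y < 2 ^ i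
        · simp [g2, Nat.testBit_lt_two_pow g2]
        · simp [g2]
    · rw [show i.blt m = false by simp [← Bool.not_eq_true]; omega, cond_false,
        show i.beq m = false by simp [← Bool.not_eq_true]; omega, cond_false]
      by_cases g : x < 2 ^ (m + 1)
      · have : x < 2 ^ i := g.trans_le (Nat.pow_le_pow_right (by omega) h)
        simp [Nat.testBit_lt_two_pow this]
      · simp [g]

theorem add_pow_eq_xor {x i : ℕ} (h : x.testBit i = false) : 2 ^ i + x = x ^^^ 2 ^ i := by
  have h1 : x = 2 ^ (i + 1) * (x / 2 ^ (i + 1)) + x % 2 ^ i := by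
    have a := Nat.div_add_mod x (2 ^ (i + 1))
    have b : x % 2 ^ (i + 1) = x % 2 ^ i := by
      apply Nat.eq_of_testBit_eq
      intro j
      simp only [Nat.testBit_mod_two_pow]
      rcases lt_trichotomy j i with g | rfl | g
      · simp [g, show j < i + 1 by omega]
      · simp [h]
      · simp [show ¬ j < i by omega, show ¬ j < i + 1 by omega]
    omega
  have hlt : x % 2 ^ i < 2 ^ i := Nat.mod_lt _ (by positivity)
  have h2 : 2 ^ i + x = 2 ^ (i + 1) * (x / 2 ^ (i + 1)) + (2 ^ i + x % 2 ^ i) := by omega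
  apply Nat.eq_of_testBit_eq
  intro j
  rw [h2, Nat.testBit_two_pow_mul_add _ (by rw [pow_succ]; omega), Nat.testBit_xor,
    Nat.testBit_two_pow]
  rcases lt_trichotomy j i with g | rfl | g
  · rw [if_pos (by omega), Nat.testBit_two_pow_add_gt g]
    simp [g, show ¬ i = j by omega]
  · rw [if_pos (by omega), Nat.testBit_two_pow_add_eq]
    simp [h]
  · rw [if_neg (by omega), Nat.testBit_div_two_pow]
    simp [show ¬ i = j by omega, show j - (i + 1) + (i + 1) = j by omega]

def sw (k i P : ℕ) : ℕ := ((P &&& XP k i) >>> 2 ^ i) ||| ((P ^^^ (P &&& XP k i)) <<< 2 ^ i)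

theorem sw_spec {k i x : ℕ} (P : ℕ) (hi : i < k) (hx : x < 2 ^ k) :
    (sw k i P).testBit x = P.testBit (x ^^^ 2 ^ i) := by
  have hp : 2 ^ i < 2 ^ k := Nat.pow_lt_pow_right (by omega) hi
  have hxor := Nat.xor_lt_two_pow hx hp
  simp only [sw, Nat.testBit_or, Nat.testBit_shiftRight, Nat.testBit_shiftLeft, Nat.testBit_and,
    Nat.testBit_xor, XP_spec, Nat.testBit_two_pow_add_eq]
  cases h : x.testBit i
  · have e := add_pow_eq_xor h
    rw [e]
    by_cases g : 2 ^ i ≤ x
    · obtain ⟨y, rfl⟩ := Nat.exists_eq_add_of_le g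
      rw [Nat.testBit_two_pow_add_eq] at h
      have h' : y.testBit i = true := by simpa using h
      have hy : y < 2 ^ k := lt_of_le_of_lt (Nat.le_add_left _ _) hx
      simp [hxor, h', hy]
    · simp [hxor, g]
  · have g : 2 ^ i ≤ x := Nat.ge_two_pow_of_testBit h
    obtain ⟨y, rfl⟩ := Nat.exists_eq_add_of_le g
    rw [Nat.testBit_two_pow_add_eq] at h
    have h' : y.testBit i = false := by simpa using h
    have e : (2 ^ i + y) ^^^ 2 ^ i = y := by
      rw [add_pow_eq_xor h', Nat.xor_assoc]; simp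
    simp [h', e]

def trA (k z P m : ℕ) : ℕ := Nat.rec P (fun i acc => bif z.testBit i then sw k i acc else acc) m

theorem trA_spec {k z P : ℕ} : ∀ m ≤ k, ∀ x < 2 ^ k,
    (trA k z P m).testBit x = P.testBit (x ^^^ z % 2 ^ m) := by
  intro m
  induction m with
  | zero => intro _ x _; simp [trA, Nat.mod_one]
  | succ m ih =>
    intro hm x hx
    show Nat.testBit (bif z.testBit m then sw k m (trA k z P m) else trA k z P m) x = _
    have hp : 2 ^ m < 2 ^ k := Nat.pow_lt_pow_right (by omega) hm
    cases h : z.testBit m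
    · rw [cond_false, ih (by omega) x hx]
      congr 2
      apply Nat.eq_of_testBit_eq
      intro j
      simp only [Nat.testBit_mod_two_pow]
      rcases lt_trichotomy j m with g | rfl | g
      · simp [g, show j < m + 1 by omega]
      · simp [h]
      · simp [show ¬ j < m by omega, show ¬ j < m + 1 by omega]
    · rw [cond_true, sw_spec _ hm hx, ih (by omega) _ (Nat.xor_lt_two_pow hx hp), Nat.xor_assoc]
      congr 2
      apply Nat.eq_of_testBit_eq
      intro j
      simp only [Nat.testBit_mod_two_pow, Nat.testBit_xor, Nat.testBit_two_pow]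
      rcases lt_trichotomy j m with g | rfl | g
      · simp [g, show j < m + 1 by omega, show ¬ m = j by omega]
      · simp [h]
      · simp [show ¬ j < m by omega, show ¬ j < m + 1 by omega, show ¬ m = j by omega]

def tr (k z P : ℕ) : ℕ := trA k z P k

theorem tr_spec {k z x : ℕ} (P : ℕ) (hz : z < 2 ^ k) (hx : x < 2 ^ k) :
    (tr k z P).testBit x = P.testBit (x ^^^ z) := by
  rw [tr, trA_spec k le_rfl x hx, Nat.mod_eq_of_lt hz]

def ins : List ℕ → ℕ → List ℕ
  | [], P => [P]
  | a :: L, P => (a ||| P) :: ins L (a &&& P)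

def srt : List ℕ → List ℕ
  | [] => []
  | a :: L => ins (srt L) a

def cn : List ℕ → ℕ → ℕ
  | [], _ => 0
  | a :: L, x => (a.testBit x).toNat + cn L x

theorem cn_ins (x : ℕ) : ∀ L P, cn (ins L P) x = (P.testBit x).toNat + cn L x
  | [], P => rfl
  | a :: L, P => by
    simp only [ins, cn, cn_ins x L, Nat.testBit_or, Nat.testBit_and]
    cases a.testBit x <;> cases P.testBit x <;> simp

theorem cn_srt (x : ℕ) : ∀ L, cn (srt L) x = cn L x
  | [] => rfl
  | a :: L => by rw [srt, cn_ins, cn_srt x L, cn]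

def rep (m : ℕ) (L : List ℕ) (d : ℕ) : List ℕ := Nat.rec L (fun _ acc => m :: acc) d

theorem cn_rep {m x : ℕ} (L : List ℕ) (h : m.testBit x = true) :
    ∀ d, cn (rep m L d) x = d + cn L x := by
  intro d
  induction d with
  | zero => simp [rep]
  | succ d ih =>
    show cn (m :: rep m L d) x = _
    rw [cn, ih, h]; simp; omega

def sb (m : ℕ) : List ℕ → List ℕ → Bool
  | [], _ => true
  | b :: B, [] => (b &&& m).beq 0 && sb m B []
  | b :: B, a :: A => ((b &&& m) &&& a).beq (b &&& m) && sb m B A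

theorem sb_spec {m x : ℕ} (h : m.testBit x = true) : ∀ B A, sb m B A = true → cn B x ≤ cn A x
  | [], _, _ => Nat.zero_le _
  | b :: B, [], g => by
    simp only [sb, Bool.and_eq_true, Nat.beq_eq] at g
    have h1 := sb_spec h B [] g.2
    have h2 := congrArg (fun y => y.testBit x) g.1
    simp only [Nat.testBit_and, h, Bool.and_true, Nat.zero_testBit] at h2
    simpa [cn, h2] using h1
  | b :: B, a :: A, g => by
    simp only [sb, Bool.and_eq_true, Nat.beq_eq] at g
    have h1 := sb_spec h B A g.2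
    have h2 := congrArg (fun y => y.testBit x) g.1
    simp only [Nat.testBit_and, h, Bool.and_true] at h2
    simp only [cn]
    revert h2
    cases b.testBit x <;> cases a.testBit x <;> simp <;> omega

def val : List ℕ → ℕ → ℕ
  | [], _ => 0
  | a :: A, x => (a.testBit x).toNat + 2 * val A x

def addP : List ℕ → List ℕ → ℕ → List ℕ
  | a :: A, b :: B, c => (a ^^^ b ^^^ c) :: addP A B ((a &&& b) ||| (c &&& (a ^^^ b)))
  | _, _, c => [c]

theorem val_addP (x : ℕ) : ∀ A B c, A.length = B.length →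
    val (addP A B c) x = val A x + val B x + (c.testBit x).toNat
  | [], [], c, _ => by simp [addP, val]
  | [], _ :: _, _, h => by simp at h
  | _ :: _, [], _, h => by simp at h
  | a :: A, b :: B, c, h => by
    simp only [addP, val, val_addP x A B _ (by simpa using h), Nat.testBit_or, Nat.testBit_and,
      Nat.testBit_xor]
    cases a.testBit x <;> cases b.testBit x <;> cases c.testBit x <;> simp <;> omega

def pop : ℕ → List ℕ → ℕ
  | 0, L => val L 0
  | m + 1, L => pop m (addP (L.map fun a => a % 2 ^ (2 ^ m)) (L.map fun a => a >>> 2 ^ m) 0)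

theorem val_map {f : ℕ → ℕ} {x y : ℕ} (h : ∀ a, (f a).testBit x = a.testBit y) :
    ∀ L : List ℕ, val (L.map f) x = val L y
  | [] => rfl
  | a :: L => by simp only [List.map_cons, val, h, val_map h L]

theorem pop_spec : ∀ m L, pop m L = ∑ x ∈ range (2 ^ m), val L x
  | 0, L => by simp [pop]
  | m + 1, L => by
    rw [pop, pop_spec m, show 2 ^ (m + 1) = 2 ^ m + 2 ^ m by ring, sum_range_add,
      ← sum_add_distrib]
    refine sum_congr rfl fun x hx => ?_
    rw [val_addP _ _ _ _ (by simp), val_map (y := x), val_map (y := 2 ^ m + x)]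
    · simp
    · intro a; simp
    · intro a; simp [mem_range.1 hx]

def eqP : List ℕ → ℕ → ℕ → ℕ
  | [], m, i => bif i.beq 0 then m else 0
  | b :: B, m, i => bif (i % 2).beq 1 then eqP B (m &&& b) (i / 2)
      else eqP B (m ^^^ (m &&& b)) (i / 2)

theorem eqP_spec (x : ℕ) : ∀ B m i,
    (eqP B m i).testBit x = true ↔ m.testBit x = true ∧ val B x = i
  | [], m, i => by
    rcases Nat.eq_zero_or_pos i with rfl | h
    · simp [eqP, val]
    · simp [eqP, val, show i.beq 0 = false by simp [← Bool.not_eq_true]; omega, h.ne]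
  | b :: B, m, i => by
    rcases Nat.mod_two_eq_zero_or_one i with h | h
    · simp only [eqP, h, val, show Nat.beq 0 1 = false from rfl, cond_false, eqP_spec x B,
        Nat.testBit_xor, Nat.testBit_and]
      cases m.testBit x <;> cases b.testBit x <;> simp <;> omega
    · simp only [eqP, h, val, show Nat.beq 1 1 = true from rfl, cond_true, eqP_spec x B,
        Nat.testBit_and]
      cases m.testBit x <;> cases b.testBit x <;> simp <;> omega

def orb : List ℕ → ℕ
  | [] => 0
  | z :: L => (1 <<< z) ||| orb L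

theorem orb_spec (x : ℕ) : ∀ L, (orb L).testBit x = decide (x ∈ L)
  | [] => by simp [orb]
  | z :: L => by
    rw [orb, Nat.testBit_or, orb_spec x L, Nat.one_shiftLeft, Nat.testBit_two_pow]
    simp [eq_comm]

def cpl (k : ℕ) (L : List ℕ) : ℕ := (2 ^ (2 ^ k) - 1) ^^^ orb L

theorem cpl_spec {k x : ℕ} (L : List ℕ) (hx : x < 2 ^ k) :
    (cpl k L).testBit x = decide (x ∉ L) := by
  simp [cpl, orb_spec, hx]

def ex (k z a : ℕ) : List (ℕ × ℕ) → ℕ → List (ℕ × ℕ)
  | [], r => [(a, r)]
  | p :: E, r => (p.1, (p.2 ||| tr k z p.2) &&& r) ::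
      ex k z a E (r ^^^ ((p.2 ||| tr k z p.2) &&& r))

def pick (x y a : ℕ) : List (ℕ × ℕ) → ℕ
  | [] => a
  | p :: E => bif p.2.testBit x || p.2.testBit y then p.1 else pick x y a E

theorem pick_symm (x y a : ℕ) : ∀ E, pick x y a E = pick y x a E
  | [] => rfl
  | p :: E => by rw [pick, pick, pick_symm x y a E, Bool.or_comm]

def sel (i : ℕ) : List (ℕ × ℕ) → List ℕ → List ℕ
  | [], L => L
  | p :: E, L => bif p.1.beq i then p.2 :: sel i E L else sel i E L

theorem cn_sel_ex {k z a x : ℕ} (i : ℕ) (L : List ℕ) (hz : z < 2 ^ k) (hx : x < 2 ^ k) : ∀ E r,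
    cn (sel i (ex k z a E r) L) x =
      ind (r.testBit x = true ∧ pick x (x ^^^ z) a E = i) + cn L x
  | [], r => by
    simp only [ex, sel, pick]
    by_cases h : a = i
    · subst h
      cases g : r.testBit x <;> simp [cn, g]
    · simp [show a.beq i = false by simpa [← Bool.not_eq_true] using h, h]
  | p :: E, r => by
    simp only [ex, sel, pick]
    by_cases h : p.1 = i
    · simp only [show p.1.beq i = true by simpa using h, cond_true, cn,
        cn_sel_ex i L hz hx E, Nat.testBit_xor, Nat.testBit_and, Nat.testBit_or, tr_spec _ hz hx]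
      cases r.testBit x <;> cases p.2.testBit x <;> cases p.2.testBit (x ^^^ z) <;> simp [h]
    · simp only [show p.1.beq i = false by simpa [← Bool.not_eq_true] using h, cond_false,
        cn_sel_ex i L hz hx E, Nat.testBit_xor, Nat.testBit_and, Nat.testBit_or, tr_spec _ hz hx]
      cases r.testBit x <;> cases p.2.testBit x <;> cases p.2.testBit (x ^^^ z) <;> simp [h]

theorem mem_of_cn_sel {i x : ℕ} : ∀ E : List (ℕ × ℕ), 0 < cn (sel i E []) x →
    ∃ p ∈ E, p.1 = i ∧ p.2.testBit x = true
  | [], h => by simp [sel, cn] at h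
  | p :: E, h => by
    by_cases g : p.1 = i
    · simp only [sel, show p.1.beq i = true by simpa using g, cond_true, cn] at h
      cases g2 : p.2.testBit x
      · obtain ⟨q, hq, e⟩ := mem_of_cn_sel E (by simpa [g2] using h)
        exact ⟨q, by simp [hq], e⟩
      · exact ⟨p, by simp, g, g2⟩
    · simp only [sel, show p.1.beq i = false by simpa [← Bool.not_eq_true] using g,
        cond_false] at h
      obtain ⟨q, hq, e⟩ := mem_of_cn_sel E h
      exact ⟨q, by simp [hq], e⟩

abbrev Sp := ℕ × ℕ × List (ℕ × ℕ)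

def nxt (K i : ℕ) : ℕ := (i + 1) % K

def exs (k P : ℕ) (s : Sp) : List (ℕ × ℕ) := ex k s.1 s.2.1 s.2.2 (tr k s.1 P)

def selAll (k P i : ℕ) : List Sp → List ℕ → List ℕ
  | [], L => L
  | s :: S, L => sel i (exs k P s) (selAll k P i S L)

def okE (K P z : ℕ) (p : ℕ × ℕ) : Bool :=
  (p.2 &&& P).beq 0 || (p.1.blt K && z.testBit p.1 && (!z.testBit (nxt K p.1) ||
    (p.2 &&& P &&& (XP (K + 1) p.1 ^^^ XP (K + 1) (nxt K p.1))).beq (p.2 &&& P)))

def nd : List ℕ → Bool
  | [] => true
  | a :: L => !(orb L).testBit a && nd L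

theorem nd_spec : ∀ L, nd L = true → L.Nodup
  | [], _ => List.nodup_nil
  | a :: L, h => by
    simp only [nd, Bool.and_eq_true, orb_spec, Bool.not_eq_true', decide_eq_false_iff_not] at h
    exact List.nodup_cons.2 ⟨h.1, nd_spec L h.2⟩

def lookup (z : ℕ) : List Sp → Option Sp
  | [] => none
  | s :: S => if s.1 = z then some s else lookup z S

theorem lookup_none {z : ℕ} : ∀ S : List Sp, z ∉ S.map Prod.fst → lookup z S = none
  | [], _ => rfl
  | s :: S, h => by
    simp only [List.map_cons, List.mem_cons, not_or] at h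
    rw [lookup, if_neg (Ne.symm h.1), lookup_none S h.2]

theorem lookup_mem : ∀ S : List Sp, (S.map Prod.fst).Nodup → ∀ s ∈ S, lookup s.1 S = some s
  | [], _, s, h => by simp at h
  | q :: S, hN, s, h => by
    rw [List.map_cons, List.nodup_cons] at hN
    rcases List.mem_cons.1 h with rfl | h
    · simp [lookup]
    · rw [lookup, if_neg, lookup_mem S hN.2 s h]
      intro e
      exact hN.1 (e ▸ List.mem_map_of_mem h)

def colr (K : ℕ) (bs : List ℕ) (S : List Sp) (x y : ℕ) : ℕ :=
  if x ^^^ y = 2 ^ K then K else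
  match lookup (x ^^^ y) S with
  | some s => pick x y s.2.1 s.2.2
  | none => val bs (x ^^^ y)

theorem colr_symm (K : ℕ) (bs : List ℕ) (S : List Sp) (x y : ℕ) :
    colr K bs S x y = colr K bs S y x := by
  unfold colr
  rw [Nat.xor_comm y x]
  split_ifs
  · rfl
  · split
    · exact pick_symm _ _ _ _
    · rfl

def chkC (K P : ℕ) (Om : List ℕ) (S : List Sp) (i δ C : ℕ) : Bool :=
  (C &&& XP (K + 1) i).beq C && (C &&& XP (K + 1) (nxt K i)).beq 0 && (pop (K + 1) [C]).ble δ &&
  sb (P &&& XP (K + 1) i)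
    (rep (P &&& XP (K + 1) i) (srt (Om.map fun w => tr (K + 1) (w ^^^ (2 ^ (K + 1) - 1))
      (tr (K + 1) (2 ^ (K + 1) - 1) C))) (δ - pop (K + 1) [C] + 1))
    (srt (selAll (K + 1) P i S [XP (K + 1) (nxt K i)])) &&
  sb (P ^^^ (P &&& XP (K + 1) i))
    (srt (selAll (K + 1) P i S [XP (K + 1) (nxt K i)]))
    (rep (P ^^^ (P &&& XP (K + 1) i)) (srt (Om.map fun w => tr (K + 1) (w ^^^ (2 ^ (K + 1) - 1))
      (tr (K + 1) (2 ^ (K + 1) - 1) C))) (δ - pop (K + 1) [C]))

def cover (K m : ℕ) (bs : List ℕ) : ℕ := Nat.rec 0 (fun i acc => eqP bs m i ||| acc) K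

theorem cover_spec {m x : ℕ} {bs : List ℕ} : ∀ K, (cover K m bs).testBit x = true → val bs x < K := by
  intro K
  induction K with
  | zero => intro h; simp [cover] at h
  | succ K ih =>
    intro h
    change (eqP bs m K ||| cover K m bs).testBit x = true at h
    rw [Nat.testBit_or, Bool.or_eq_true, eqP_spec] at h
    rcases h with h | h
    · omega
    · have := ih h; omega

def chk3 (K : ℕ) (Om de bs : List ℕ) (S : List Sp) : Bool :=
  nd Om && Om.all (fun w => w.blt (2 ^ (K + 1))) &&
  nd (0 :: 2 ^ K :: S.map Prod.fst) && S.all (fun s => s.1.blt (2 ^ (K + 1))) &&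
  (cover K (cpl (K + 1) (0 :: 2 ^ K :: S.map Prod.fst)) bs).beq
    (cpl (K + 1) (0 :: 2 ^ K :: S.map Prod.fst)) &&
  S.all (fun s => (exs (K + 1) (cpl (K + 1) Om) s).all (okE K (cpl (K + 1) Om) s.1)) &&
  allLt K fun i => chkC K (cpl (K + 1) Om) Om S i (de.getD i 0)
    (eqP bs (cpl (K + 1) (0 :: 2 ^ K :: S.map Prod.fst)) i)

end Pool.Agent.Lib.MP_71763b_co
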