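import Pool.Agent.Lib.MP_71763b_co.Slice

namespace Pool.Agent.Lib.MP_71763b_co

open Finset

theorem xor_xor (x z : ℕ) : x ^^^ (x ^^^ z) = z := by rw [← Nat.xor_assoc]; simp

theorem XP_lt {k x : ℕ} (i : ℕ) (hx : x < 2 ^ k) : (XP k i).testBit x = x.testBit i := by
  simp [XP_spec, hx]

theorem toNat_ind (b : Bool) : b.toNat = ind (b = true) := by cases b <;> simp

theorem cn_selAll {k P i x : ℕ} (L : List ℕ) (hx : x < 2 ^ k) : ∀ S : List Sp,
    (∀ s ∈ S, s.1 < 2 ^ k) → cn (selAll k P i S L) x =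
      (S.map fun s => ind (P.testBit (x ^^^ s.1) = true ∧
        pick x (x ^^^ s.1) s.2.1 s.2.2 = i)).sum + cn L x
  | [], _ => by simp [selAll]
  | s :: S, h => by
    have hs := h s (by simp)
    rw [selAll, exs, cn_sel_ex i _ hs hx, cn_selAll L hx S fun q hq => h q (by simp [hq]),
      tr_spec _ hs hx, List.map_cons, List.sum_cons, add_assoc]

theorem cn_map (f : ℕ → ℕ) (x : ℕ) : ∀ L : List ℕ,
    cn (L.map f) x = (L.map fun w => ind ((f w).testBit x = true)).sum
  | [] => rfl
  | a :: L => by simp only [List.map_cons, cn, List.sum_cons, cn_map f x L, toNat_ind]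

theorem sum_list {α : Type} (f : α → ℕ) (W : ℕ) (g : ℕ → ℕ) : ∀ L : List α, (L.map f).Nodup →
    (∀ s ∈ L, f s < W) →
    ∑ z ∈ range W, ind (z ∈ L.map f) * g z = (L.map fun s => g (f s)).sum
  | [], _, _ => by simp
  | a :: L, hN, h => by
    rw [List.map_cons, List.nodup_cons] at hN
    rw [List.map_cons, List.map_cons, List.sum_cons,
      ← sum_list f W g L hN.2 fun s hs => h s (by simp [hs])]
    have : g (f a) = ∑ z ∈ range W, ind (z = f a) * g z := by
      rw [sum_eq_single (f a)]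
      · simp
      · intro b _ hb; simp [hb]
      · intro hb; exact absurd (mem_range.2 (h a (by simp))) hb
    rw [this, ← sum_add_distrib]
    refine sum_congr rfl fun z _ => ?_
    by_cases g1 : z = f a
    · subst g1
      rw [ind_pos (by simp), ind_neg hN.1]; simp
    · simp only [List.mem_cons, g1, false_or]; simp

theorem sum_xor {k x : ℕ} (hx : x < 2 ^ k) (f : ℕ → ℕ) :
    ∑ y ∈ range (2 ^ k), f y = ∑ z ∈ range (2 ^ k), f (x ^^^ z) := by
  refine sum_nbij' (fun y => x ^^^ y) (fun y => x ^^^ y) ?_ ?_ ?_ ?_ ?_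
  · intro y hy; exact mem_range.2 (Nat.xor_lt_two_pow hx (mem_range.1 hy))
  · intro y hy; exact mem_range.2 (Nat.xor_lt_two_pow hx (mem_range.1 hy))
  · intro y _; exact xor_xor x y
  · intro y _; exact xor_xor x y
  · intro y _; rw [xor_xor]

theorem sum_sub (W : ℕ) (Om : List ℕ) (f : ℕ → ℕ) :
    ∑ u : {x : Fin W // x.val ∉ Om}, f u.1.1 = ∑ y ∈ range W, ind (y ∉ Om) * f y := by
  rw [← sum_subtype (univ.filter fun x : Fin W => x.val ∉ Om) (by simp) (fun x => f x.val),
    sum_filter, ← Fin.sum_univ_eq_sum_range (fun y => ind (y ∉ Om) * f y)]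
  refine sum_congr rfl fun y _ => ?_
  split_ifs with h <;> simp [h]

theorem and_beq {a b x : ℕ} (h : (a &&& b).beq a = true) (hx : a.testBit x = true) :
    b.testBit x = true := by
  have := congrArg (fun y => y.testBit x) (Nat.eq_of_beq_eq_true h)
  simpa [hx] using this

theorem and_beq0 {a b x : ℕ} (h : (a &&& b).beq 0 = true) (hx : a.testBit x = true) :
    b.testBit x = false := by
  have := congrArg (fun y => y.testBit x) (Nat.eq_of_beq_eq_true h)
  simpa [hx] using this

theorem chk3_sound {K : ℕ} {Om de bs : List ℕ} {S : List Sp} (h : chk3 K Om de bs S = true) :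
    F3 (K + 1) (2 ^ (K + 1) - Om.length) := by
  simp only [chk3, Bool.and_eq_true, List.all_eq_true, Nat.blt_eq] at h
  obtain ⟨⟨⟨⟨⟨⟨h1, h2⟩, h3⟩, h4⟩, h5⟩, h6⟩, h7⟩ := h
  have n1 := nd_spec _ h1
  have n3 := nd_spec _ h3
  rw [List.nodup_cons, List.nodup_cons] at n3
  have h5 := Nat.eq_of_beq_eq_true h5
  have h7 := allLt_spec h7
  set W := 2 ^ (K + 1) with hW
  set P := cpl (K + 1) Om with hP
  set Z := 0 :: 2 ^ K :: S.map Prod.fst with hZ
  set m := cpl (K + 1) Z with hm
  have hPs : ∀ x < W, P.testBit x = true ↔ x ∉ Om := fun x hx => by rw [cpl_spec _ hx]; simp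
  have hms : ∀ x < W, m.testBit x = true ↔ x ∉ Z := fun x hx => by rw [cpl_spec _ hx]; simp
  have cbase : ∀ x z, z ∉ Z → colr K bs S x (x ^^^ z) = val bs z := by
    intro x z hz
    simp only [hZ, List.mem_cons, not_or] at hz
    rw [colr, xor_xor, if_neg hz.2.1, lookup_none S hz.2.2]
  have cspec : ∀ x, ∀ s ∈ S, colr K bs S x (x ^^^ s.1) = pick x (x ^^^ s.1) s.2.1 s.2.2 := by
    intro x s hs
    rw [colr, xor_xor, if_neg, lookup_mem S n3.2.2 s hs]
    intro e
    exact n3.2.1 (e ▸ List.mem_map_of_mem hs)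
  have ctw : ∀ x, colr K bs S x (x ^^^ 2 ^ K) = K := fun x => by rw [colr, xor_xor, if_pos rfl]
  have edge : ∀ x < W, ∀ z < W, x ∉ Om → x ^^^ z ∉ Om → z ≠ 0 → z ≠ 2 ^ K →
      ∀ j, colr K bs S x (x ^^^ z) = j → j < K ∧ z.testBit j = true ∧
        (z.testBit (nxt K j) = false ∨ x.testBit j ≠ x.testBit (nxt K j)) := by
    intro x hx z hz o1 o2 z0 z1 j hj
    by_cases g : z ∈ S.map Prod.fst
    · obtain ⟨s, hs, rfl⟩ := List.mem_map.1 g
      rw [cspec x s hs] at hj
      have := cn_sel_ex (a := s.2.1) j [] hz hx s.2.2 (tr (K + 1) s.1 P)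
      rw [tr_spec _ hz hx, ind_pos ⟨(hPs _ (Nat.xor_lt_two_pow hx hz)).2 o2, hj⟩] at this
      obtain ⟨p, hp, rfl, e⟩ := mem_of_cn_sel _ (by rw [this]; omega)
      have ok := h6 s hs p hp
      have e2 : (p.2 &&& P).testBit x = true := by rw [Nat.testBit_and, e, (hPs x hx).2 o1]; rfl
      simp only [okE, Bool.or_eq_true, Bool.and_eq_true, Nat.blt_eq, Bool.not_eq_true'] at ok
      rcases ok with ok | ⟨⟨a1, a2⟩, a3⟩
      · rw [Nat.eq_of_beq_eq_true ok] at e2
        simp at e2
      · refine ⟨a1, a2, a3.imp id fun a3 => ?_⟩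
        have := and_beq a3 e2
        rw [Nat.testBit_xor, XP_lt _ hx, XP_lt _ hx] at this
        simpa using this
    · have hzZ : z ∉ Z := by simp only [hZ, List.mem_cons, not_or]; exact ⟨z0, z1, g⟩
      rw [cbase x z hzZ] at hj
      have a1 : m.testBit z = true := (hms z hz).2 hzZ
      have a2 : j < K := hj ▸ cover_spec K (by rw [h5]; exact a1)
      have a3 := h7 j a2
      simp only [chkC, Bool.and_eq_true] at a3
      have a4 := (eqP_spec z bs m j).2 ⟨a1, hj⟩
      have a5 := and_beq a3.1.1.1.1 a4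
      have a6 := and_beq0 a3.1.1.1.2 a4
      rw [XP_lt _ hz] at a5 a6
      exact ⟨a2, a5, Or.inl a6⟩
  let c : {x : Fin W // x.val ∉ Om} → {x : Fin W // x.val ∉ Om} → ℕ :=
    fun u v => colr K bs S u.1.1 v.1.1
  have dg : ∀ i, ∀ v, deg c i v = ∑ z ∈ range W,
      ind (v.1.1 ^^^ z ∉ Om) * ind (z ≠ 0 ∧ colr K bs S v.1.1 (v.1.1 ^^^ z) = i) := by
    intro i v
    have e : deg c i v = ∑ u : {x : Fin W // x.val ∉ Om},
        (fun y => ind (y ≠ v.1.1 ∧ colr K bs S v.1.1 y = i)) u.1.1 := by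
      refine sum_congr rfl fun u _ => ?_
      simp only [c, ne_eq, Subtype.ext_iff, Fin.ext_iff]
    rw [e, sum_sub W Om fun y => ind (y ≠ v.1.1 ∧ colr K bs S v.1.1 y = i), sum_xor v.1.2]
    refine sum_congr rfl fun z _ => ?_
    have : (v.1.1 ^^^ z ≠ v.1.1) ↔ z ≠ 0 := by
      refine not_congr ⟨fun e => ?_, fun e => by simp [e]⟩
      rw [← xor_xor v.1.1 z, e]; simp
    simp only [this]
  have lev : ∀ i < K, ∀ v : {x : Fin W // x.val ∉ Om},
      (v.1.1.testBit i = true → de.getD i 0 + 1 ≤ deg c i v + (v.1.1.testBit (nxt K i)).toNat) ∧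
      (v.1.1.testBit i = false → deg c i v + (v.1.1.testBit (nxt K i)).toNat ≤ de.getD i 0) := by
    intro i hi v
    have hx := v.1.2
    have a3 := h7 i hi
    simp only [chkC, Bool.and_eq_true, Nat.ble_eq] at a3
    obtain ⟨⟨⟨_, a1⟩, a2⟩, a3⟩ := a3
    set C := eqP bs m i with hC
    set x := v.1.1 with hxx
    have b1 : pop (K + 1) [C] = ∑ z ∈ range W, ind (C.testBit z = true) := by
      rw [pop_spec]; simp [val, toNat_ind, hW]
    have b2 : cn (srt (Om.map fun w => tr (K + 1) (w ^^^ (W - 1)) (tr (K + 1) (W - 1) C))) x =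
        ∑ z ∈ range W, ind (x ^^^ z ∈ Om) * ind (C.testBit z = true) := by
      have := sum_list id W (fun y => ind (C.testBit (x ^^^ y) = true)) Om (by simpa using n1) h2
      rw [sum_xor hx] at this
      simp only [List.map_id, xor_xor, id] at this
      rw [cn_srt, cn_map, this]
      congr 1
      refine List.map_congr_left fun w hw => ?_
      have o1 : W - 1 < W := by omega
      have o2 := Nat.xor_lt_two_pow (h2 w hw) o1
      rw [tr_spec _ o2 hx, tr_spec _ o1 (Nat.xor_lt_two_pow hx o2), Nat.xor_assoc, Nat.xor_assoc]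
      simp
    have b3 : cn (srt (selAll (K + 1) P i S [XP (K + 1) (nxt K i)])) x =
        ∑ z ∈ range W, ind (z ∈ S.map Prod.fst) *
          ind (x ^^^ z ∉ Om ∧ colr K bs S x (x ^^^ z) = i) + (x.testBit (nxt K i)).toNat := by
      rw [cn_srt, cn_selAll _ hx S h4, sum_list Prod.fst W _ S n3.2.2 h4]
      congr 1
      · congr 1
        refine List.map_congr_left fun s hs => ?_
        rw [hPs _ (Nat.xor_lt_two_pow hx (h4 s hs)), cspec x s hs]
      · simp [cn, XP_lt _ hx]
    have b4 : deg c i v + ∑ z ∈ range W, ind (x ^^^ z ∈ Om) * ind (C.testBit z = true) =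
        ∑ z ∈ range W, ind (C.testBit z = true) + ∑ z ∈ range W, ind (z ∈ S.map Prod.fst) *
          ind (x ^^^ z ∉ Om ∧ colr K bs S x (x ^^^ z) = i) := by
      rw [dg, ← hxx, ← sum_add_distrib, ← sum_add_distrib]
      refine sum_congr rfl fun z hz => ?_
      rw [hC, eqP_spec, hms z (mem_range.1 hz)]
      by_cases g : z ∈ Z
      · by_cases g2 : z ∈ S.map Prod.fst
        · have : z ≠ 0 := fun e => n3.1 (by rw [← e]; exact List.mem_cons_of_mem _ g2)
          by_cases g3 : x ^^^ z ∈ Om <;> simp only [g, g2, g3] <;> simp [this]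
        · have : ¬ (z ≠ 0 ∧ colr K bs S x (x ^^^ z) = i) := by
            simp only [hZ, List.mem_cons, g2, or_false] at g
            rcases g with rfl | rfl
            · simp
            · rw [ctw]; omega
          simp only [g, g2, this]; simp
      · have g' := g
        simp only [hZ, List.mem_cons, not_or] at g'
        rw [cbase x z g]
        by_cases g3 : x ^^^ z ∈ Om <;> simp only [g, g', g3] <;> simp [g'.1]
    have hv := (hPs x hx).2 v.2
    constructor
    · intro g
      have m1 : (P &&& XP (K + 1) i).testBit x = true := by simp [hv, XP_lt _ hx, g]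
      have := sb_spec m1 _ _ a2
      rw [cn_rep _ m1, b2, b3] at this
      omega
    · intro g
      have m1 : (P ^^^ (P &&& XP (K + 1) i)).testBit x = true := by simp [hv, XP_lt _ hx, g]
      have := sb_spec m1 _ _ a3
      rw [cn_rep _ m1, b2, b3] at this
      omega
  have edge' : ∀ u v : {x : Fin W // x.val ∉ Om}, u ≠ v → ∀ j, c u v = j →
      (u.1.1 ^^^ v.1.1 = 2 ^ K ∧ j = K) ∨ (j < K ∧ (u.1.1 ^^^ v.1.1).testBit j = true ∧
        ((u.1.1 ^^^ v.1.1).testBit (nxt K j) = false ∨
          u.1.1.testBit j ≠ u.1.1.testBit (nxt K j))) := by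
    intro u v huv j hj
    by_cases g : u.1.1 ^^^ v.1.1 = 2 ^ K
    · left
      refine ⟨g, ?_⟩
      rw [← hj, ← ctw u.1.1, ← g, xor_xor]
    · right
      refine edge _ u.1.2 _ (Nat.xor_lt_two_pow u.1.2 v.1.2) u.2 (by rw [xor_xor]; exact v.2)
        (fun e => huv (Subtype.ext (Fin.ext (Nat.xor_eq_zero_iff.1 e)))) g j (by rw [xor_xor]; exact hj)
  have tw : ∀ v, deg c K v ≤ 1 := by
    intro v
    refine sum_ind_le_one _ ?_
    rintro a b ⟨a1, a2⟩ ⟨b1, b2⟩
    rcases edge' v a a1.symm K a2 with g | g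
    · rcases edge' v b b1.symm K b2 with g' | g'
      · refine Subtype.ext (Fin.ext ?_)
        rw [← xor_xor v.1.1 a.1.1, g.1, ← g'.1, xor_xor]
      · omega
    · omega
  refine f3_of c ?_ (fun u v => colr_symm _ _ _ _ _) (fun u v huv => ?_)
    (fun j v => v.1.1.testBit j = true) fun u v j huv hj => ?_
  · have a1 := sum_sub W Om fun _ => 1
    have a2 := sum_list id W (fun _ => 1) Om (by simpa using n1) h2
    have a3 : ∑ y ∈ range W, ind (y ∉ Om) * 1 + ∑ y ∈ range W, ind (y ∈ Om) * 1 = W := by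
      rw [← sum_add_distrib, sum_congr rfl (g := fun _ => 1)]
      · simp
      · intro y _
        by_cases g : y ∈ Om <;> simp [g]
    simp only [List.map_id] at a2
    simp only [sum_const, card_univ, smul_eq_mul, mul_one, List.map_const', List.sum_replicate]
      at a1 a2 a3
    omega
  · rcases edge' u v huv _ rfl with g | g <;> omega
  · rcases edge' u v huv j hj with g | ⟨g1, g2, g3⟩
    · left; rw [g.2]; exact ⟨tw u, tw v⟩
    · right
      have l1 := lev j g1 u
      have l2 := lev j g1 v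
      rw [Nat.testBit_xor] at g2 g3
      revert l1 l2 g2 g3
      cases u.1.1.testBit j <;> cases v.1.1.testBit j <;> cases u.1.1.testBit (nxt K j) <;>
        cases v.1.1.testBit (nxt K j) <;> simp <;> omega

end Pool.Agent.Lib.MP_71763b_co
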