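import Pool.Agent.Lib.MP_71763b_co.Pert
import Pool.Agent.Lib.MP_71763b_co.Dj

namespace Pool.Agent.Lib.MP_71763b_co

open Finset

variable {g : ℕ}

def btag (i l : ℕ) : F2 := if i.testBit l then 1 else 0
def tl (b i l : ℕ) : F2 := btag i (l - (b + 3))

theorem btag_inj {c i j : ℕ} (hi : i < 2 ^ c) (hj : j < 2 ^ c) (h : ∀ l < c, btag i l = btag j l) :
    i = j := by
  refine Nat.eq_of_testBit_eq fun l => ?_
  rcases Nat.lt_or_ge l c with q | q
  · have := h l q
    unfold btag at this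
    revert this
    cases i.testBit l <;> cases j.testBit l <;> simp
  · have := Nat.pow_le_pow_right (show 0 < 2 by omega) q
    rw [Nat.testBit_lt_two_pow (by omega), Nat.testBit_lt_two_pow (by omega)]

def Reg (b i : ℕ) (z : Cu g) : Prop :=
  (i < g ∧ (Bx i 1 1 1 1 (Ico 1 (g - 1)) (tl b i) z ∨ Bx i 1 0 1 0 (range b) (btag i) z ∨
    Bx i 1 0 1 1 (Ico (b + 3) (g - 1)) (tl b i) z)) ∨
  (i = g ∧ Bx (g - 1) 0 1 1 1 (Ico (b + 3) (g - 1)) (tl b g) z)

theorem Reg.key {b i : ℕ} {z : Cu g} (h : Reg b i z) : i ≤ g ∧ co (g + 1) z = 1 ∧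
    ((co (g + 2) z = 0 ∧ i < g ∧ ∀ l ∈ range b, yy l z = btag i l) ∨
      (co (g + 2) z = 1 ∧ ∀ l ∈ Ico (b + 3) (g - 1), yy l z = tl b i l)) := by
  rcases h with ⟨a, q | q | q⟩ | ⟨rfl, q⟩
  · exact ⟨a.le, q.2.2.1, Or.inr ⟨q.2.2.2.1, fun l hl =>
      q.2.2.2.2 l (by rw [mem_Ico] at hl ⊢; omega)⟩⟩
  · exact ⟨a.le, q.2.2.1, Or.inl ⟨q.2.2.2.1, a, q.2.2.2.2⟩⟩
  · exact ⟨a.le, q.2.2.1, Or.inr q.2.2.2⟩
  · exact ⟨le_rfl, q.2.2.1, Or.inr q.2.2.2⟩

theorem Reg.uniq {b i j : ℕ} {z : Cu g} (h1 : g ≤ 2 ^ b) (h2 : g < 2 ^ (g - 1 - (b + 3)))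
    (hi : Reg b i z) (hj : Reg b j z) : i = j := by
  obtain ⟨a1, -, a2 | a2⟩ := hi.key <;> obtain ⟨b1, -, b2 | b2⟩ := hj.key
  · exact btag_inj (c := b) (by omega) (by omega) fun l hl =>
      (a2.2.2 l (mem_range.2 hl)).symm.trans (b2.2.2 l (mem_range.2 hl))
  · simpa [a2.1] using b2.1
  · simpa [a2.1] using b2.1
  · refine btag_inj (c := g - 1 - (b + 3)) (by omega) (by omega) fun l hl => ?_
    have m : l + (b + 3) ∈ Ico (b + 3) (g - 1) := by rw [mem_Ico]; omega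
    simpa [tl] using (a2.2 _ m).symm.trans (b2.2 _ m)

theorem card_B {b : ℕ} (hb : b + 4 ≤ g) {i : ℕ} (hi : i < g) (α β γ s : F2) (π : ℕ → F2) :
    (fs (Bx (g := g) i α β γ s (Ico (b + 3) (g - 1)) π)).card = 8 * 2 ^ b := by
  rw [card_bx hi _ _ _ _ _ (fun l hl => by have := mem_Ico.1 hl; omega) _ (b + 3)
    (by simp; omega)]
  ring

theorem card_Reg {b : ℕ} (hb : b + 4 ≤ g) : (fs fun z : Cu g => ∃ i, Reg b i z).card ≤
    g * (2 ^ (g - 1 - b) + 8 * 2 ^ b + 2) + 8 * 2 ^ b := by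
  classical
  have or_le : ∀ P Q : Cu g → Prop, (fs fun x => P x ∨ Q x).card ≤ (fs P).card + (fs Q).card :=
    fun P Q => le_trans (card_le_card fun x => by simp) (card_union_le _ _)
  refine le_trans (card_le_card (t := (range (g + 1)).biUnion fun i => fs (Reg b i))
    fun z hz => ?_) (card_biUnion_le.trans ?_)
  · obtain ⟨i, hi⟩ := mem_fs.1 hz
    exact mem_biUnion.2 ⟨i, mem_range.2 (Nat.lt_succ_of_le hi.key.1), mem_fs.2 hi⟩
  · rw [sum_range_succ]
    refine add_le_add ((sum_le_card_nsmul _ _ (2 ^ (g - 1 - b) + 8 * 2 ^ b + 2)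
      fun i hi => ?_).trans (by simp)) ?_
    · have hi := mem_range.1 hi
      refine le_trans (fs_le fun z hz => (hz.resolve_right fun q => by omega).2)
        ((or_le _ _).trans ((add_le_add le_rfl (or_le _ _)).trans ?_))
      rw [card_B hb hi, card_bx hi _ _ _ _ _ (fun l hl => by have := mem_Ico.1 hl; omega) _ 1
        (by simp; omega), card_bx hi _ _ _ _ _ (fun l hl => by have := mem_range.1 hl; omega) _
        (g - 1 - b) (by simp; omega)]
      omega
    · exact le_trans (fs_le fun z hz => (hz.resolve_left fun q => by omega).2)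
        (card_B hb (by omega) _ _ _ _ _).le

theorem descent' (γ : F2) (I : Finset ℕ) (hI : I ⊆ range g) (P : Cu g → Prop)
    (hP : ∀ z, P z → co (g + 1) z = γ) :
    ((fs fun z => P z ∧ ∀ i ∈ I, ¬ Des i z).card : ℝ) ≤ (3 / 4) ^ I.card * (4 * 2 ^ g) := by
  have := (Nat.mul_le_mul_right _ (fs_le fun z (q : P z ∧ ∀ i ∈ I, ¬ Des i z) =>
    And.intro (hP z q.1) q.2)).trans (descent γ I hI)
  rw [div_pow, div_mul_eq_mul_div, le_div_iff₀ (by positivity)]
  exact_mod_cast this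

theorem slice0 (Y : Cu g → Prop) (n : ℕ → ℕ) {lo hi y : ℝ} (hY : ∀ z, Y z → co (g + 1) z = 0)
    (hY' : ∀ z, Y z → ∃ i < g, Des i z) (hy : y ≤ (fs Y).card)
    (hs : ∑ i ∈ range g, n i = (fs Y).card) (hn : ∀ i < g, lo ≤ n i ∧ n i ≤ hi)
    (h : ∀ m : ℕ, 1 ≤ m → m < g → (3 / 4) ^ m * (4 * 2 ^ g) ≤ (g - m) * lo ∨
      (3 / 4) ^ m * (4 * 2 ^ g) + m * hi ≤ y) :
    ∃ f : Cu g → ℕ, (∀ z, Y z → f z < g ∧ Des (f z) z) ∧
      ∀ i < g, (fs fun z => Y z ∧ f z = i).card = n i := by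
  have := exact_fs Y (range g) (fun z i => Des i z) n hs fun I hI => by
    have hc : I.card ≤ g := by simpa using card_le_card hI
    rcases Nat.eq_zero_or_pos I.card with q | q
    · rw [card_eq_zero.1 q, sdiff_empty, hs]
      exact fs_le fun _ => And.left
    rcases hc.lt_or_eq with q' | q'
    · have a := descent' 0 I hI Y hY
      have b := sum_sdiff (f := n) hI
      have b' := congrArg (Nat.cast : ℕ → ℝ) (b.trans hs)
      push_cast at b'
      refine (Nat.cast_le (α := ℝ)).1 ?_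
      push_cast
      rcases h _ q q' with r | r
      · have := card_nsmul_le_sum (range g \ I) (fun i => (n i : ℝ)) lo fun i hi =>
          (hn i (mem_range.1 (mem_sdiff.1 hi).1)).1
        rw [card_sdiff_of_subset hI, card_range, nsmul_eq_mul, Nat.cast_sub hc] at this
        linarith
      · have := sum_le_card_nsmul I (fun i => (n i : ℝ)) hi fun i h =>
          (hn i (mem_range.1 (hI h))).2
        rw [nsmul_eq_mul] at this
        linarith
    · have : I = range g := eq_of_subset_of_card_le hI (by simp [q'])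
      subst this
      rw [fs_empty fun z hz => ?_]
      · omega
      · obtain ⟨i, a, b⟩ := hY' z hz.1
        exact hz.2 i (mem_range.2 a) b
  simpa only [mem_range] using this

theorem slice1 (hg : 0 < g) (Y : Cu g → Prop) (n : ℕ → ℕ) {hi S y : ℝ}
    (hY : ∀ z, Y z → co (g + 1) z = 1) (hy : y ≤ (fs Y).card)
    (hs : ∑ i ∈ range g, (n i : ℝ) ≤ S) (hn : ∀ i < g, n i ≤ hi)
    (h : ∀ m : ℕ, 1 ≤ m → m ≤ g → (3 / 4) ^ m * (4 * 2 ^ g) + m * hi ≤ y ∨
      (3 / 4) ^ m * (4 * 2 ^ g) + S ≤ y) :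
    ∃ f : Cu g → ℕ, (∀ z, Y z → f z < g → Des (f z) z) ∧
      ∀ i < g, (fs fun z => Y z ∧ f z = i).card = n i := by
  have key : ∀ I ⊆ range g, 1 ≤ I.card →
      (3 / 4) ^ I.card * (4 * 2 ^ g) + ∑ i ∈ I, (n i : ℝ) ≤ (fs Y).card := fun I hI q => by
    rcases h _ q (by simpa using card_le_card hI) with r | r
    · have := sum_le_card_nsmul I (fun i => (n i : ℝ)) hi fun i h => hn i (mem_range.1 (hI h))
      rw [nsmul_eq_mul] at this
      linarith
    · have : ∑ i ∈ I, (n i : ℝ) ≤ ∑ i ∈ range g, (n i : ℝ) :=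
        sum_le_sum_of_subset_of_nonneg hI fun _ _ _ => Nat.cast_nonneg _
      linarith
  have tot : ∑ i ∈ range g, n i ≤ (fs Y).card := by
    have := key _ subset_rfl (by rw [card_range]; exact hg)
    have : (0 : ℝ) ≤ (3 / 4) ^ (range g).card * (4 * 2 ^ g) := by positivity
    refine (Nat.cast_le (α := ℝ)).1 ?_
    push_cast
    linarith
  let κ : ℕ → ℕ := fun i => if i < g then n i else (fs Y).card - ∑ i ∈ range g, n i
  have e : ∀ I ⊆ range g, ∑ i ∈ I, κ i = ∑ i ∈ I, n i := fun I hI =>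
    sum_congr rfl fun i hi => if_pos (mem_range.1 (hI hi))
  have hs' : ∑ i ∈ range (g + 1), κ i = (fs Y).card := by
    rw [sum_range_succ, e _ subset_rfl]
    simp only [κ, lt_irrefl, if_false]
    omega
  obtain ⟨f, f1, f2⟩ := exact_fs Y (range (g + 1)) (fun z i => i = g ∨ Des i z) κ hs' fun I hI => by
    by_cases q : g ∈ I
    · rw [fs_empty fun z hz => hz.2 g q (Or.inl rfl)]
      omega
    have hI' : I ⊆ range g := fun i hi => mem_range.2 (lt_of_le_of_ne
      (Nat.lt_succ_iff.1 (mem_range.1 (hI hi))) fun r => q (r ▸ hi))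
    have b := (sum_sdiff (f := κ) hI).trans hs'
    rw [e I hI'] at b
    rcases Nat.eq_zero_or_pos I.card with q | q
    · rw [card_eq_zero.1 q, sdiff_empty, hs']
      exact fs_le fun _ => And.left
    refine le_trans (fs_le (Q := fun z => Y z ∧ ∀ i ∈ I, ¬ Des i z) fun z hz =>
      ⟨hz.1, fun i hi r => hz.2 i hi (Or.inr r)⟩) ((Nat.cast_le (α := ℝ)).1 ?_)
    have a := descent' 1 I hI' Y hY
    have b' := congrArg (Nat.cast : ℕ → ℝ) b
    have := key I hI' q
    push_cast at b' ⊢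
    linarith
  refine ⟨f, fun z hz r => (f1 z hz).2.resolve_left r.ne, fun i hi => ?_⟩
  rw [f2 i (mem_range.2 (by omega))]
  exact if_pos hi

theorem exists_S (hg : 2 ≤ g) (Om : Finset (Cu g)) (h : 4 * Om.card ≤ 2 ^ g) :
    ∃ S : ℕ → Finset (Cu g), ∀ i < g, (S i).card = Om.card ∧
      ∀ x ∈ S i, x ∈ PC Om i 1 0 1 ∧ (i = g - 1 → co 0 x = 0) := by
  have : ∀ i, ∃ S : Finset (Cu g), i < g → S.card = Om.card ∧
      ∀ x ∈ S, x ∈ PC Om i 1 0 1 ∧ (i = g - 1 → co 0 x = 0) := fun i => by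
    by_cases hi : i < g
    · have a1 := fs_pres Om fun x => Cl i 1 0 1 x ∧ (i = g - 1 → co 0 x = 0)
      have a2 := fs_om Om fun x => Cl i 1 0 1 x ∧ (i = g - 1 → co 0 x = 0)
      have a3 : 2 ^ g ≤ (fs fun x : Cu g => Cl i 1 0 1 x ∧ (i = g - 1 → co 0 x = 0)).card * 2 := by
        rw [← card_cl hi 1 0 1]
        by_cases e : i = g - 1
        · simp only [eq_true e, true_implies]
          refine (half _ (by omega) (fun x hx => ?_) 0).ge
          simp only [Cl, co_add] at hx ⊢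
          rwa [co_ee_ne (by omega), co_ee_ne (by omega), co_ee_ne (by omega), add_zero, add_zero,
            add_zero]
        · simp only [e, false_implies, and_true]
          exact Nat.le_mul_of_pos_right _ (by omega)
      obtain ⟨S, s1, s2⟩ := exists_subset_card_eq (n := Om.card)
        (s := fs fun x => x ∉ Om ∧ Cl i 1 0 1 x ∧ (i = g - 1 → co 0 x = 0)) (by omega)
      refine ⟨S, fun _ => ⟨s2, fun x hx => ?_⟩⟩
      have := s1 hx
      rw [mem_fs] at this
      exact ⟨mem_fs.2 ⟨this.1, this.2.1⟩, this.2.2⟩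
    · exact ⟨∅, fun q => absurd q hi⟩
  choose S hS using this
  exact ⟨S, hS⟩

end Pool.Agent.Lib.MP_71763b_co
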