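import Pool.Agent.Lib.MP_71763b_co.NumA
import Pool.Agent.Lib.MP_71763b_co.NumB
import Pool.Agent.Lib.MP_71763b_co.CertA
import Pool.Agent.Lib.MP_71763b_co.CertB
import Pool.Agent.Lib.MP_71763b_co.CertC
import Pool.Agent.Lib.MP_71763b_co.CertD
import Pool.Agent.Lib.MP_71763b_co.CertE
import Pool.Agent.Lib.MP_71763b_co.Small3
import Pool.Agent.Lib.MP_71763b_co.Low
import Pool.Agent.Lib.MP_71763b_co.Final

namespace Pool.Agent.Lib.MP_71763b_co

theorem f3_gen {b e t : ℕ} (hb : 4 ≤ b) (he : e < 2) (t1 : b + 6 ≤ t) (t2 : t ≤ 2 * b + 10 + 2 * e) :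
    F3 (2 * b + 6 + e + 3) (2 ^ (2 * b + 6 + e + 3) - t) := by
  have r1 := Nat.pow_log_le_self 2 (show b + 6 ≠ 0 by omega)
  have r2 : Nat.log 2 (b + 6) ≤ b + 2 := by
    by_contra q
    have a := Nat.pow_le_pow_right (show 0 < 2 by omega) (show b + 3 ≤ Nat.log 2 (b + 6) by omega)
    have c : b < 2 ^ b := Nat.lt_two_pow_self
    rw [pow_add] at a
    omega
  obtain ⟨Om, σ, O⟩ := exists_om (g := 2 * b + 6 + e) (b := b) (r := Nat.log 2 (b + 6))
    (n1 := min (t - 2) (2 * b + 5 + e)) (n2 := t - 2 - min (t - 2) (2 * b + 5 + e))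
    (mm := if t ≤ 2 * b + 6 + e + 1 then 1 else 2) (by omega) (by omega) (by omega) r2 (by omega)
    (by split_ifs <;> omega)
  rw [show min (t - 2) (2 * b + 5 + e) + (t - 2 - min (t - 2) (2 * b + 5 + e)) + 2 = t by omega] at O
  rcases Nat.lt_or_ge b 16 with q | q
  · exact build (fin_ok b q e he t (by omega) ⟨hb, t1, t2⟩).num O
  · obtain ⟨_, _, _, _, _, _, _, _, _, _, _, _, _, _, _, _, H⟩ := num_big q he t1 (by omega)
      (mm := if t ≤ 2 * b + 6 + e + 1 then 1 else 2) (by split_ifs <;> omega)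
    exact build H O

theorem f3_near (k t : ℕ) (hk : 7 ≤ k) (t1 : (k + 1) / 2 + 1 ≤ t) (t2 : t ≤ 2 * (k / 2 + 1)) :
    F3 k (2 ^ k - t) := by
  rcases Nat.lt_or_ge 16 k with q | q
  · have := f3_gen (b := (k - 9) / 2) (e := (k - 9) % 2) (t := t) (by omega) (by omega) (by omega)
      (by omega)
    rwa [show 2 * ((k - 9) / 2) + 6 + (k - 9) % 2 + 3 = k by omega] at this
  interval_cases k
  · interval_cases t
    exacts [fc7_5, fc7_6, fc7_7, fc7_8]
  · interval_cases t
    exacts [fc8_5, fc8_6, fc8_7, fc8_8, fc8_9, fc8_10]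
  · interval_cases t
    exacts [fc9_6, fc9_7, fc9_8, fc9_9, fc9_10]
  · interval_cases t
    exacts [fc10_6, fc10_7, fc10_8, fc10_9, fc10_10, fc10_11, fc10_12]
  · interval_cases t
    exacts [fc11_7, fc11_8, fc11_9, fc11_10, fc11_11, fc11_12]
  · interval_cases t
    exacts [fc12_7, fc12_8, fc12_9, fc12_10, fc12_11, fc12_12, fc12_13, fc12_14]
  · interval_cases t
    exacts [fc13_8, fc13_9, fc13_10, fc13_11, fc13_12, fc13_13, fc13_14]
  · interval_cases t
    exacts [fc14_8, fc14_9, fc14_10, fc14_11, fc14_12, fc14_13, fc14_14, fc14_15, fc14_16]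
  · interval_cases t
    exacts [fc15_9, fc15_10, fc15_11, fc15_12, fc15_13, fc15_14, fc15_15, fc15_16]
  · interval_cases t
    exacts [fc16_9, fc16_10, fc16_11, fc16_12, fc16_13, fc16_14, fc16_15, fc16_16, fc16_17, fc16_18]

theorem f3_1 : ∀ n ≤ 2, F3 1 n := fun n hn =>
  f3_of (V := Fin n) (fun _ _ => 0) (by simp) (fun _ _ => rfl) (fun _ _ _ => one_pos)
    (fun _ _ => True) fun u v j _ _ => Or.inl (by
      have a := deg_lt (fun _ _ : Fin n => 0) j u
      have b := deg_lt (fun _ _ : Fin n => 0) j v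
      rw [Fintype.card_fin] at a b
      omega)

theorem f3_2 : ∀ n ≤ 3, F3 2 n := fun n _ => F3.range f3_1 n (by omega)

theorem f3_3 : ∀ n ≤ 7, F3 3 n := fun n hn => by
  rcases Nat.lt_or_ge n 6 with q | q
  · exact F3.range f3_2 n (by omega)
  · interval_cases n
    exacts [f3_3_6, f3_3_7]

theorem f3_4 : ∀ n ≤ 14, F3 4 n := fun n hn => by
  rcases Nat.lt_or_ge n 14 with q | q
  · exact F3.range f3_3 n (by omega)
  · interval_cases n
    exact f3_4_14

theorem f3_5 : ∀ n ≤ 28, F3 5 n := fun n hn => by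
  rcases Nat.lt_or_ge n 28 with q | q
  · exact F3.range f3_4 n (by omega)
  · interval_cases n
    exact f3_5_28

theorem f3_all (k : ℕ) (hk : 6 ≤ k) : ∀ n ≤ 2 ^ k - ((k + 1) / 2 + 1), F3 k n := by
  induction k, hk using Nat.le_induction with
  | base =>
    intro n hn
    rcases Nat.lt_or_ge n 56 with q | q
    · exact F3.range f3_5 n (by omega)
    · interval_cases n
      exacts [f3_6_56, f3_6_57, f3_6_58, f3_6_59, f3_6_60]
  | succ k hk ih =>
    intro n hn
    have a : k < 2 ^ k := Nat.lt_two_pow_self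
    have c := pow_succ 2 k
    by_cases q : n + 1 ≤ 2 * (2 ^ k - ((k + 1) / 2 + 1))
    · exact F3.range ih n q
    · have := f3_near (k + 1) (2 ^ (k + 1) - n) (by omega) (by omega) (by omega)
      rwa [show 2 ^ (k + 1) - (2 ^ (k + 1) - n) = n by omega] at this

theorem mem_low {k n : ℕ} (hk : 4 ≤ k) (ht : 2 * 2 ^ k + 1 ≤ 2 * (n + 1) + k)
    (h4 : k = 4 → 16 ≤ n + 1) : n + 1 ∈ ramseySet k 3 :=
  mem_of_infeas (r := 2) (by omega) fun _ h1 h2 h3 => G3.low ⟨h1, h2, h3⟩ hk ht h4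

theorem no_gaps3 {k n : ℕ} (hk : 2 ≤ k) (hn : n ∈ ramseySet k 3) : n + 1 ∈ ramseySet k 3 := by
  have key : ∀ N, (∀ n ≤ N, F3 k n) → N < n := fun N h => by
    by_contra q
    exact not_mem_of_fe (r := 2) (by omega) (h n (by omega)) hn
  rcases Nat.lt_or_ge k 6 with q | q
  · interval_cases k
    · exact mem_of_lt (r := 2) (by have := key _ f3_2; omega)
    · exact mem_of_lt (r := 2) (by have := key _ f3_3; omega)
    · have := key _ f3_4
      exact mem_low le_rfl (by omega) (by omega)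
    · have := key _ f3_5
      exact mem_low (by omega) (by omega) (by omega)
  · have := key _ (f3_all k q)
    exact mem_low (by omega) (by omega) (by omega)

end Pool.Agent.Lib.MP_71763b_co
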