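import Pool.Agent.Lib.MP_71763b_co.Check

namespace Pool.Agent.Lib.MP_71763b_co

structure Model (n r : ℕ) (A Y : ℕ → ℕ) (e : ℕ → ℕ → Bool) (f : ℕ → ℕ) : Prop where
  small : n ≤ 32
  symm : ∀ i j, e i j = e j i
  degf : ∀ i < n, f i = ∑ j ∈ Finset.range n, if j ≠ i ∧ e i j = true then 1 else 0
  labR : ∀ i < n, ∀ j < n, i ≠ j → e i j = true → (A i < A j ∧ f i ≤ f j) ∨ (A j < A i ∧ f j ≤ f i)
  labB : ∀ i < n, ∀ j < n, i ≠ j → e i j = false → (Y i < Y j ∧ f j ≤ f i) ∨ (Y j < Y i ∧ f i ≤ f j)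
  nopR : ∀ l : List ℕ, (∀ x ∈ l, x < n) → l.Nodup →
    l.IsChain (fun u v => e u v = true ∧ f u ≤ f v) → l.length ≤ r
  nopB : ∀ l : List ℕ, (∀ x ∈ l, x < n) → l.Nodup →
    l.IsChain (fun u v => e u v = false ∧ f v ≤ f u) → l.length ≤ r

inductive Tr where
  | X : Tr
  | F : List (ℕ × ℕ × ℕ × ℕ) → Tr
  | P : Bool → List ℕ → Tr
  | T : ℕ → ℕ → ℕ → Tr → Tr
  | E : ℕ → ℕ → Tr → Tr → Tr
  | S : ℕ → ℕ → Tr → Tr → Tr

def bt (m i j : ℕ) : Bool := m.testBit (i * 32 + j)
def st (m i j : ℕ) : ℕ := m ||| 2 ^ (i * 32 + j)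

theorem bt_st {m i j a b : ℕ} (hj : j < 32) (hb : b < 32) (h : bt (st m i j) a b = true) :
    bt m a b = true ∨ (a = i ∧ b = j) := by
  unfold bt st at *
  rw [Nat.testBit_or, Bool.or_eq_true, Nat.testBit_two_pow] at h
  rcases h with h | h
  · exact Or.inl h
  · right
    simp only [decide_eq_true_eq] at h
    omega

def Val (m n : ℕ) (Q : ℕ → ℕ → Prop) : Prop := ∀ i < n, ∀ j < n, bt m i j = true → Q i j

theorem Val.st {m n i j : ℕ} {Q : ℕ → ℕ → Prop} (h : Val m n Q) (hn : n ≤ 32) (hj : j < n)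
    (hq : Q i j) : Val (st m i j) n Q := by
  intro a ha b hb hab
  rcases bt_st (by omega) (by omega) hab with h1 | ⟨rfl, rfl⟩
  · exact h a ha b hb h1
  · exact hq

def inW (L : List (ℕ × ℕ × ℕ × ℕ)) (v : ℕ) : ℕ :=
  (L.map fun q => bif q.2.1.beq v then q.2.2.2 else 0).sum
def outW (L : List (ℕ × ℕ × ℕ × ℕ)) (v : ℕ) : ℕ :=
  (L.map fun q => bif q.1.beq v then q.2.2.2 else 0).sum
def rhs (L : List (ℕ × ℕ × ℕ × ℕ)) : ℕ := (L.map fun q => q.2.2.2 * q.2.2.1).sum

def sumLt (n : ℕ) (g : ℕ → ℕ) : ℕ := Nat.rec 0 (fun i acc => acc + g i) n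

theorem sumLt_eq (n : ℕ) (g : ℕ → ℕ) : sumLt n g = ∑ i ∈ Finset.range n, g i := by
  induction n with
  | zero => rfl
  | succ m ih => rw [Finset.sum_range_succ, ← ih]; rfl

def chkF (n kr kb l0 l1 : ℕ) (L : List (ℕ × ℕ × ℕ × ℕ)) : Bool :=
  (L.all fun q => q.1.blt n && q.2.1.blt n &&
    ((q.2.2.1.beq 0 && bt l0 q.1 q.2.1) || (q.2.2.1.beq 1 && bt l1 q.1 q.2.1))) &&
  (sumLt n fun v => sumLt v fun u =>
      bif bt kr v u then inW L v + inW L u
      else bif bt kb v u then 0 else (inW L v + inW L u) - (outW L v + outW L u)).blt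
    (rhs L + sumLt n fun v => sumLt v fun u => bif bt kr v u then outW L v + outW L u else 0)

def chain2 (g : ℕ → ℕ → Bool) : List ℕ → Bool
  | [] => true
  | [_] => true
  | a :: b :: t => g a b && chain2 g (b :: t)

theorem chain2_spec {g : ℕ → ℕ → Bool} : ∀ l : List ℕ, chain2 g l = true →
    l.IsChain (fun a b => g a b = true)
  | [], _ => by simp
  | [_], _ => by simp
  | a :: b :: t, h => by
    unfold chain2 at h
    rw [Bool.and_eq_true] at h
    rw [List.isChain_cons_cons]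
    exact ⟨h.1, chain2_spec _ h.2⟩

def chk (n r : ℕ) (A Y : ℕ → ℕ) : Tr → ℕ → ℕ → ℕ → ℕ → Bool
  | .X, _, _, _, _ => false
  | .F L, kr, kb, l0, l1 => chkF n kr kb l0 l1 L
  | .P c l, kr, kb, l0, _ => (l.all fun x => x.blt n) && decide l.Nodup && r.blt l.length &&
      chain2 (fun a b => bif c then bt kr a b && bt l0 a b else bt kb a b && bt l0 b a) l
  | .T i j k t, kr, kb, l0, l1 => i.blt n && j.blt n && k.blt n && bt l0 i j && bt l0 j k &&
      chk n r A Y t kr kb (st l0 i k) (bif bt l1 i j || bt l1 j k then st l1 i k else l1)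
  | .E i j t1 t2, kr, kb, l0, l1 => i.blt n && j.blt n && !(i.beq j) &&
      ((A i).beq (A j) || chk n r A Y t1 (st (st kr i j) j i) kb
        (bif (A i).blt (A j) then st l0 i j else st l0 j i) l1) &&
      ((Y i).beq (Y j) || chk n r A Y t2 kr (st (st kb i j) j i)
        (bif (Y i).blt (Y j) then st l0 j i else st l0 i j) l1)
  | .S i j t1 t2, kr, kb, l0, l1 => i.blt n && j.blt n &&
      chk n r A Y t1 kr kb (st l0 i j) (st l1 i j) && chk n r A Y t2 kr kb (st l0 j i) l1

theorem sum_sym (n : ℕ) (w : ℕ → ℕ) (x : ℕ → ℕ → ℕ) (hx : ∀ i j, x i j = x j i) :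
    ∑ v ∈ Finset.range n, w v * ∑ u ∈ Finset.range n, (if u ≠ v then x v u else 0) =
      ∑ v ∈ Finset.range n, ∑ u ∈ Finset.range v, (w v + w u) * x v u := by
  induction n with
  | zero => simp
  | succ m ih =>
    rw [Finset.sum_range_succ, Finset.sum_range_succ (fun v => ∑ u ∈ Finset.range v, _), ← ih]
    have a1 : ∀ v ∈ Finset.range m, w v * ∑ u ∈ Finset.range (m + 1), (if u ≠ v then x v u else 0) =
        w v * ∑ u ∈ Finset.range m, (if u ≠ v then x v u else 0) + w v * x m v := by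
      intro v hv
      have : m ≠ v := by simp at hv; omega
      rw [Finset.sum_range_succ, if_pos this, mul_add, hx]
    have a2 : ∑ u ∈ Finset.range (m + 1), (if u ≠ m then x m u else 0) =
        ∑ u ∈ Finset.range m, x m u := by
      rw [Finset.sum_range_succ, if_neg (by simp), add_zero]
      refine Finset.sum_congr rfl fun u hu => if_pos ?_
      simp at hu; omega
    rw [Finset.sum_congr rfl a1, Finset.sum_add_distrib, a2, Finset.mul_sum, add_assoc,
      ← Finset.sum_add_distrib]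
    congr 1
    refine Finset.sum_congr rfl fun u _ => by ring

theorem farkas_key (n : ℕ) (f : ℕ → ℕ) : ∀ L : List (ℕ × ℕ × ℕ × ℕ),
    (∀ q ∈ L, q.1 < n ∧ q.2.1 < n ∧ f q.1 + q.2.2.1 ≤ f q.2.1) →
    rhs L + ∑ v ∈ Finset.range n, outW L v * f v ≤ ∑ v ∈ Finset.range n, inW L v * f v := by
  intro L
  induction L with
  | nil => intro _; simp [rhs, outW, inW]
  | cons q L ih =>
    intro h
    have h1 := ih fun p hp => h p (by simp [hp])
    obtain ⟨a1, a2, a3⟩ := h q (by simp)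
    have b : ∀ a < n, ∑ v ∈ Finset.range n, (bif a.beq v then q.2.2.2 else 0) * f v =
        q.2.2.2 * f a := by
      intro a ha
      rw [Finset.sum_eq_single a]
      · simp
      · intro v _ hv
        have : a.beq v = false := by
          rw [← Bool.not_eq_true, Nat.beq_eq]; exact fun h => hv h.symm
        simp [this]
      · intro h; simp at h; omega
    simp only [rhs, outW, inW, List.map_cons, List.sum_cons, add_mul, Finset.sum_add_distrib] at *
    rw [b _ a1, b _ a2]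
    have := Nat.mul_le_mul_left q.2.2.2 a3
    rw [mul_add] at this
    omega

theorem chkF_sound {n r : ℕ} {A Y : ℕ → ℕ} {e : ℕ → ℕ → Bool} {f : ℕ → ℕ} (M : Model n r A Y e f)
    {kr kb l0 l1 : ℕ} (h1 : Val kr n fun i j => e i j = true)
    (h2 : Val kb n fun i j => e i j = false) (h3 : Val l0 n fun i j => f i ≤ f j)
    (h4 : Val l1 n fun i j => f i + 1 ≤ f j) (L : List (ℕ × ℕ × ℕ × ℕ))
    (h : chkF n kr kb l0 l1 L = true) : False := by
  unfold chkF at h
  rw [Bool.and_eq_true, List.all_eq_true, Nat.blt_eq] at h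
  obtain ⟨ha, hb⟩ := h
  have key := farkas_key n f L (by
    intro q hq
    have := ha q hq
    simp only [Bool.and_eq_true, Bool.or_eq_true, Nat.blt_eq, Nat.beq_eq] at this
    obtain ⟨⟨a1, a2⟩, a3⟩ := this
    refine ⟨a1, a2, ?_⟩
    rcases a3 with ⟨b1, b2⟩ | ⟨b1, b2⟩
    · rw [b1]; exact h3 _ a1 _ a2 b2
    · rw [b1]; exact h4 _ a1 _ a2 b2)
  let x : ℕ → ℕ → ℕ := fun i j => if e i j = true then 1 else 0
  have hf : ∀ w : ℕ → ℕ, ∑ v ∈ Finset.range n, w v * f v =
      ∑ v ∈ Finset.range n, ∑ u ∈ Finset.range v, (w v + w u) * x v u := by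
    intro w
    rw [← sum_sym n w x (fun i j => by simp only [x, M.symm i j])]
    refine Finset.sum_congr rfl fun v hv => ?_
    rw [M.degf v (by simpa using hv)]
    congr 1
    refine Finset.sum_congr rfl fun u _ => ?_
    by_cases g1 : u = v <;> by_cases g2 : e v u = true <;> simp [x, g1, g2]
  rw [hf, hf] at key
  simp only [sumLt_eq] at hb
  have : ∑ v ∈ Finset.range n, ∑ u ∈ Finset.range v, (inW L v + inW L u) * x v u +
      ∑ v ∈ Finset.range n, ∑ u ∈ Finset.range v,
        (bif bt kr v u then outW L v + outW L u else 0) ≤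
      ∑ v ∈ Finset.range n, ∑ u ∈ Finset.range v, (outW L v + outW L u) * x v u +
      ∑ v ∈ Finset.range n, ∑ u ∈ Finset.range v,
        (bif bt kr v u then inW L v + inW L u
          else bif bt kb v u then 0 else (inW L v + inW L u) - (outW L v + outW L u)) := by
    rw [← Finset.sum_add_distrib, ← Finset.sum_add_distrib]
    refine Finset.sum_le_sum fun v hv => ?_
    rw [← Finset.sum_add_distrib, ← Finset.sum_add_distrib]
    refine Finset.sum_le_sum fun u hu => ?_
    simp only [Finset.mem_range] at hv hu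
    cases g1 : bt kr v u
    · cases g2 : bt kb v u
      · by_cases g3 : e v u = true <;> simp [x, g3]
        omega
      · have := h2 v hv u (by omega) g2
        simp [x, this]
    · have := h1 v hv u (by omega) g1
      simp [x, this]
      omega
  omega

theorem chk_sound {n r : ℕ} {A Y : ℕ → ℕ} {e : ℕ → ℕ → Bool} {f : ℕ → ℕ} (M : Model n r A Y e f) :
    ∀ (t : Tr) (kr kb l0 l1 : ℕ), (Val kr n fun i j => e i j = true) →
      (Val kb n fun i j => e i j = false) → (Val l0 n fun i j => f i ≤ f j) →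
      (Val l1 n fun i j => f i + 1 ≤ f j) → chk n r A Y t kr kb l0 l1 = true → False := by
  have hn := M.small
  intro t
  induction t with
  | X => intro kr kb l0 l1 _ _ _ _ h; simp [chk] at h
  | F L => intro kr kb l0 l1 h1 h2 h3 h4 h; exact chkF_sound M h1 h2 h3 h4 L h
  | P c l =>
    intro kr kb l0 l1 h1 h2 h3 h4 h
    simp only [chk, Bool.and_eq_true, List.all_eq_true, Nat.blt_eq, decide_eq_true_eq] at h
    obtain ⟨⟨⟨a1, a2⟩, a3⟩, a4⟩ := h
    have a5 := chain2_spec l a4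
    cases c
    · have := M.nopB l a1 a2 (a5.imp_of_mem_imp ?_)
      · omega
      · intro a b ha hb hab
        simp only [cond_false, Bool.and_eq_true] at hab
        exact ⟨h2 a (a1 a ha) b (a1 b hb) hab.1, h3 b (a1 b hb) a (a1 a ha) hab.2⟩
    · have := M.nopR l a1 a2 (a5.imp_of_mem_imp ?_)
      · omega
      · intro a b ha hb hab
        simp only [cond_true, Bool.and_eq_true] at hab
        exact ⟨h1 a (a1 a ha) b (a1 b hb) hab.1, h3 a (a1 a ha) b (a1 b hb) hab.2⟩
  | T i j k t ih =>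
    intro kr kb l0 l1 h1 h2 h3 h4 h
    simp only [chk, Bool.and_eq_true, Nat.blt_eq] at h
    obtain ⟨⟨⟨⟨⟨a1, a2⟩, a3⟩, a4⟩, a5⟩, a6⟩ := h
    have b1 := h3 i a1 j a2 a4
    have b2 := h3 j a2 k a3 a5
    refine ih _ _ _ _ h1 h2 (h3.st hn a3 (by omega)) ?_ a6
    cases g1 : bt l1 i j
    · cases g2 : bt l1 j k
      · simpa using h4
      · have := h4 j a2 k a3 g2
        simpa using h4.st hn a3 (by omega)
    · have := h4 i a1 j a2 g1
      simpa using h4.st hn a3 (by omega)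
  | E i j t1 t2 ih1 ih2 =>
    intro kr kb l0 l1 h1 h2 h3 h4 h
    simp only [chk, Bool.and_eq_true, Bool.or_eq_true, Nat.blt_eq, Nat.beq_eq, Bool.not_eq_true',
      ← Bool.not_eq_true] at h
    obtain ⟨⟨⟨⟨a1, a2⟩, a3⟩, a4⟩, a5⟩ := h
    cases g : e i j
    · have b := M.labB i a1 j a2 a3 g
      rcases a5 with a5 | a5
      · omega
      refine ih2 _ _ _ _ h1 ((h2.st hn a2 g).st hn a1 (by rw [M.symm]; exact g)) ?_ h4 a5
      cases g2 : (Y i).blt (Y j)
      · have : ¬ Y i < Y j := by rw [← Nat.blt_eq, g2]; simp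
        exact h3.st hn a2 (by omega)
      · have : Y i < Y j := by rw [← Nat.blt_eq, g2]
        exact h3.st hn a1 (by omega)
    · have b := M.labR i a1 j a2 a3 g
      rcases a4 with a4 | a4
      · omega
      refine ih1 _ _ _ _ ((h1.st hn a2 g).st hn a1 (by rw [M.symm]; exact g)) h2 ?_ h4 a4
      cases g2 : (A i).blt (A j)
      · have : ¬ A i < A j := by rw [← Nat.blt_eq, g2]; simp
        exact h3.st hn a1 (by omega)
      · have : A i < A j := by rw [← Nat.blt_eq, g2]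
        exact h3.st hn a2 (by omega)
  | S i j t1 t2 ih1 ih2 =>
    intro kr kb l0 l1 h1 h2 h3 h4 h
    simp only [chk, Bool.and_eq_true, Nat.blt_eq] at h
    obtain ⟨⟨⟨a1, a2⟩, a3⟩, a4⟩ := h
    rcases le_or_gt (f j) (f i) with g | g
    · exact ih2 _ _ _ _ h1 h2 (h3.st hn a1 g) h4 a4
    · exact ih1 _ _ _ _ h1 h2 (h3.st hn a2 g.le) (h4.st hn a2 g) a3

theorem val_zero (n : ℕ) (Q : ℕ → ℕ → Prop) : Val 0 n Q := by
  intro i _ j _ h
  simp [bt] at h

end Pool.Agent.Lib.MP_71763b_co
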